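/-
Blocks of handles: conjugation of the twist groups of blocks by permutations of the handles, and
commutation of the twist groups of disjoint blocks.
-/
import Mathlib
import Pool.Agent.H.MP_59b15d_al.h60g.Bl

set_option autoImplicit false

namespace Pool.Agent.H.MP_59b15d_al.Lin

open Pool.MP_59b15d_al.H24T Pool.MP_59b15d_al.H76R Pool.MP_59b15d_al.H73E Pool.MP_59b15d_al.H60G

section

variable {m : ℕ} {G : Type*} [Group G] {a b : Fin m → G}

/-! ### Supports and commutation -/

/-- The subgroup generated by the handles `lo, …, hi - 1`. -/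
def HS (a b : Fin m → G) (lo hi : ℕ) : Subgroup G :=
  Subgroup.closure {x | ∃ k, lo ≤ k ∧ k < hi ∧ (x = ex a k ∨ x = ex b k)}

theorem ex_a_mem {lo hi k : ℕ} (h1 : lo ≤ k) (h2 : k < hi) : ex a k ∈ HS a b lo hi :=
  Subgroup.subset_closure ⟨k, h1, h2, Or.inl rfl⟩

theorem ex_b_mem {lo hi k : ℕ} (h1 : lo ≤ k) (h2 : k < hi) : ex b k ∈ HS a b lo hi :=
  Subgroup.subset_closure ⟨k, h1, h2, Or.inr rfl⟩

/-- The elements of a group which preserve a subgroup. -/
def presS (S : Subgroup G) : Subgroup (MulAut G) where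
  carrier := {f | (∀ x ∈ S, f x ∈ S) ∧ ∀ x ∈ S, f⁻¹ x ∈ S}
  one_mem' := ⟨fun _ hx => hx, fun _ hx => by rw [inv_one]; exact hx⟩
  mul_mem' := by
    rintro f f' ⟨h1, h2⟩ ⟨h3, h4⟩
    refine ⟨fun x hx => h1 _ (h3 _ hx), fun x hx => ?_⟩
    rw [mul_inv_rev, MulAut.mul_apply]
    exact h4 _ (h2 _ hx)
  inv_mem' := by
    rintro f ⟨h1, h2⟩
    exact ⟨h2, fun x hx => by rw [inv_inv]; exact h1 _ hx⟩

/-- An automorphism in the twist group of a block preserves the subgroup of the block. -/
theorem MR_pres (h : IsSurf a b) (lo hi : ℕ) : MR h lo hi ≤ presS (HS a b lo hi) := by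
  have key : ∀ f : MulAut G, (∀ k, lo ≤ k → k < hi → f (ex a k) ∈ HS a b lo hi ∧
      f (ex b k) ∈ HS a b lo hi) → ∀ x ∈ HS a b lo hi, f x ∈ HS a b lo hi := by
    intro f hf x hx
    have hle : HS a b lo hi ≤ (HS a b lo hi).comap f.toMonoidHom := by
      rw [HS, Subgroup.closure_le]
      rintro x ⟨k, h1, h2, rfl | rfl⟩
      · exact (hf k h1 h2).1
      · exact (hf k h1 h2).2
    exact hle hx
  apply MR_le h
  · intro i h1 h2
    have e : ∀ k, k ≠ (i : ℕ) → TA h i (ex a k) = ex a k ∧ TA h i (ex b k) = ex b k := by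
      intro k hk
      exact MR_fix h (TA_mem h i le_rfl (Nat.lt_succ_self _)) k (by omega)
    have ha := ex_a_mem (a := a) (b := b) h1 h2
    have hb := ex_b_mem (a := a) (b := b) h1 h2
    refine ⟨key _ ?_, key _ ?_⟩
    · intro k hk1 hk2
      by_cases hk : k = i
      · subst hk
        rw [ex_val] at *
        rw [ex_val] at *
        rw [TA_a, TA_b]
        exact ⟨ha, mul_mem hb ha⟩
      · rw [(e k hk).1, (e k hk).2]
        exact ⟨ex_a_mem hk1 hk2, ex_b_mem hk1 hk2⟩
    · intro k hk1 hk2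
      by_cases hk : k = i
      · subst hk
        rw [ex_val] at *
        rw [ex_val] at *
        rw [TAi_a, TAi_b]
        exact ⟨ha, mul_mem hb (inv_mem ha)⟩
      · have e1 : (TA h i)⁻¹ (ex a k) = ex a k := by
          conv_lhs => rw [← (e k hk).1]
          exact MulAut.inv_apply_self G _ _
        have e2 : (TA h i)⁻¹ (ex b k) = ex b k := by
          conv_lhs => rw [← (e k hk).2]
          exact MulAut.inv_apply_self G _ _
        rw [e1, e2]
        exact ⟨ex_a_mem hk1 hk2, ex_b_mem hk1 hk2⟩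
  · intro i h1 h2
    have e : ∀ k, k ≠ (i : ℕ) → TB h i (ex a k) = ex a k ∧ TB h i (ex b k) = ex b k := by
      intro k hk
      exact MR_fix h (TB_mem h i le_rfl (Nat.lt_succ_self _)) k (by omega)
    have ha := ex_a_mem (a := a) (b := b) h1 h2
    have hb := ex_b_mem (a := a) (b := b) h1 h2
    refine ⟨key _ ?_, key _ ?_⟩
    · intro k hk1 hk2
      by_cases hk : k = i
      · subst hk
        rw [ex_val] at *
        rw [ex_val] at *
        rw [TB_a, TB_b]
        exact ⟨mul_mem ha hb, hb⟩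
      · rw [(e k hk).1, (e k hk).2]
        exact ⟨ex_a_mem hk1 hk2, ex_b_mem hk1 hk2⟩
    · intro k hk1 hk2
      by_cases hk : k = i
      · subst hk
        rw [ex_val] at *
        rw [ex_val] at *
        rw [TBi_a, TBi_b]
        exact ⟨mul_mem ha (inv_mem hb), hb⟩
      · have e1 : (TB h i)⁻¹ (ex a k) = ex a k := by
          conv_lhs => rw [← (e k hk).1]
          exact MulAut.inv_apply_self G _ _
        have e2 : (TB h i)⁻¹ (ex b k) = ex b k := by
          conv_lhs => rw [← (e k hk).2]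
          exact MulAut.inv_apply_self G _ _
        rw [e1, e2]
        exact ⟨ex_a_mem hk1 hk2, ex_b_mem hk1 hk2⟩
  · intro i j hij h1 h2
    have e : ∀ k, k ≠ (i : ℕ) → k ≠ (j : ℕ) → TC h i j hij (ex a k) = ex a k ∧
        TC h i j hij (ex b k) = ex b k := by
      intro k hk hk'
      exact MR_fix h (TC_mem h i j hij le_rfl (Nat.lt_succ_self _)) k (by omega)
    have hai : a i ∈ HS a b lo hi := by
      rw [← ex_val a i]; exact ex_a_mem h1 (by omega)
    have hbi : b i ∈ HS a b lo hi := by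
      rw [← ex_val b i]; exact ex_b_mem h1 (by omega)
    have haj : a j ∈ HS a b lo hi := by
      rw [← ex_val a j]; exact ex_a_mem (by omega) h2
    have hbj : b j ∈ HS a b lo hi := by
      rw [← ex_val b j]; exact ex_b_mem (by omega) h2
    have hu : (a j)⁻¹ * b i ∈ HS a b lo hi := mul_mem (inv_mem haj) hbi
    -- values of the inverse
    have hTu : TC h i j hij ((a j)⁻¹ * b i) = (a j)⁻¹ * b i := by
      rw [map_mul, map_inv, TC_aj, TC_bi]; group
    have iv : ∀ x y, TC h i j hij x = y → (TC h i j hij)⁻¹ y = x := by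
      rintro x _ rfl
      exact MulAut.inv_apply_self G _ _
    have ai : (TC h i j hij)⁻¹ (a i) = a i * ((a j)⁻¹ * b i)⁻¹ := by
      apply iv
      rw [map_mul, map_inv, hTu, TC_ai]; group
    have aj : (TC h i j hij)⁻¹ (a j) = ((a j)⁻¹ * b i) * a j * ((a j)⁻¹ * b i)⁻¹ := by
      apply iv
      rw [map_mul, map_mul, map_inv, hTu, TC_aj]; group
    have bi : (TC h i j hij)⁻¹ (b i) = ((a j)⁻¹ * b i) * b i * ((a j)⁻¹ * b i)⁻¹ := by
      apply iv
      rw [map_mul, map_mul, map_inv, hTu, TC_bi]; group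
    have bj : (TC h i j hij)⁻¹ (b j) = b j * ((a j)⁻¹ * b i)⁻¹ := by
      apply iv
      rw [map_mul, map_inv, hTu, TC_bj]; group
    refine ⟨key _ ?_, key _ ?_⟩
    · intro k hk1 hk2
      by_cases hk : k = i
      · subst hk
        rw [ex_val, ex_val, TC_ai, TC_bi]
        exact ⟨mul_mem hai hu, mul_mem (mul_mem (mul_mem (inv_mem hu) haj) hu) hu⟩
      · by_cases hk' : k = j
        · subst hk'
          rw [ex_val, ex_val, TC_aj, TC_bj]
          exact ⟨mul_mem (mul_mem (inv_mem hu) haj) hu, mul_mem hbj hu⟩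
        · rw [(e k hk hk').1, (e k hk hk').2]
          exact ⟨ex_a_mem hk1 hk2, ex_b_mem hk1 hk2⟩
    · intro k hk1 hk2
      by_cases hk : k = i
      · subst hk
        rw [ex_val, ex_val, ai, bi]
        exact ⟨mul_mem hai (inv_mem hu), mul_mem (mul_mem hu hbi) (inv_mem hu)⟩
      · by_cases hk' : k = j
        · subst hk'
          rw [ex_val, ex_val, aj, bj]
          exact ⟨mul_mem (mul_mem hu haj) (inv_mem hu), mul_mem hbj (inv_mem hu)⟩
        · rw [iv _ _ (e k hk hk').1, iv _ _ (e k hk hk').2]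
          exact ⟨ex_a_mem hk1 hk2, ex_b_mem hk1 hk2⟩

/-- Twists of a block fix the subgroup of a disjoint block. -/
theorem MR_fix_HS (h : IsSurf a b) {lo hi lo' hi' : ℕ} (hd : hi ≤ lo' ∨ hi' ≤ lo) {f : MulAut G}
    (hf : f ∈ MR h lo hi) {x : G} (hx : x ∈ HS a b lo' hi') : f x = x := by
  have hle : HS a b lo' hi' ≤ f.toMonoidHom.eqLocus (MonoidHom.id G) := by
    rw [HS, Subgroup.closure_le]
    rintro x ⟨k, h1, h2, rfl | rfl⟩
    · exact (MR_fix h hf k (by omega)).1
    · exact (MR_fix h hf k (by omega)).2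
  exact hle hx

/-- The twist groups of disjoint blocks commute. -/
theorem MR_comm (h : IsSurf a b) {lo hi lo' hi' : ℕ} (hd : hi ≤ lo') {x y : MulAut G}
    (hx : x ∈ MR h lo hi) (hy : y ∈ MR h lo' hi') : x * y = y * x := by
  apply ext_ex h
  intro k hk
  have px := MR_pres h lo hi hx
  have py := MR_pres h lo' hi' hy
  have c1 : ∀ z ∈ HS a b lo hi, (x * y) z = (y * x) z := by
    intro z hz
    rw [MulAut.mul_apply, MulAut.mul_apply, MR_fix_HS h (Or.inr hd) hy hz,
      MR_fix_HS h (Or.inr hd) hy (px.1 z hz)]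
  have c2 : ∀ z ∈ HS a b lo' hi', (x * y) z = (y * x) z := by
    intro z hz
    rw [MulAut.mul_apply, MulAut.mul_apply, MR_fix_HS h (Or.inl hd) hx hz,
      MR_fix_HS h (Or.inl hd) hx (py.1 z hz)]
  by_cases h1 : lo ≤ k ∧ k < hi
  · exact ⟨c1 _ (ex_a_mem h1.1 h1.2), c1 _ (ex_b_mem h1.1 h1.2)⟩
  · by_cases h2 : lo' ≤ k ∧ k < hi'
    · exact ⟨c2 _ (ex_a_mem h2.1 h2.2), c2 _ (ex_b_mem h2.1 h2.2)⟩
    · have e1 := MR_fix h hx k (by omega)
      have e2 := MR_fix h hy k (by omega)
      simp only [MulAut.mul_apply, e1.1, e1.2, e2.1, e2.2, and_self]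

/-! ### Permutations of the handles -/

/-- `c` maps the handle `k` to a conjugate, by `g k`, of the handle `π k`. -/
structure Shuf (a b : Fin m → G) (c : MulAut G) (π : ℕ → ℕ) (g : ℕ → G) : Prop where
  inj : ∀ k l, k < m → l < m → π k = π l → k = l
  act : ∀ k, k < m → c (ex a k) = g k * ex a (π k) * (g k)⁻¹ ∧
    c (ex b k) = g k * ex b (π k) * (g k)⁻¹

theorem Shuf.conj_of (h : IsSurf a b) {c : MulAut G} {π : ℕ → ℕ} {g : ℕ → G}
    (hs : Shuf a b c π g) {T T' : MulAut G} (hg : ∀ k, k < m → T' (g k) = g k)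
    (hT : ∀ k, k < m → (T (ex a k) = ex a k ∧ T (ex b k) = ex b k ∧
        T' (ex a (π k)) = ex a (π k) ∧ T' (ex b (π k)) = ex b (π k)) ∨
      (c (T (ex a k)) = T' (c (ex a k)) ∧ c (T (ex b k)) = T' (c (ex b k)))) :
    c * T * c⁻¹ = T' := by
  rw [mul_inv_eq_iff_eq_mul]
  apply ext_ex h
  intro k hk
  rw [MulAut.mul_apply, MulAut.mul_apply, MulAut.mul_apply, MulAut.mul_apply]
  rcases hT k hk with ⟨e1, e2, e3, e4⟩ | h1
  · have h2 := hs.act k hk
    rw [e1, e2, h2.1, h2.2]
    simp only [map_mul, map_inv, hg k hk, e3, e4, and_self]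
  · exact h1

theorem Shuf.conj_TA (h : IsSurf a b) {c : MulAut G} {π : ℕ → ℕ} {g : ℕ → G}
    (hs : Shuf a b c π g) (i i' : Fin m) (hi : (i' : ℕ) = π i)
    (hg : ∀ k, k < m → TA h i' (g k) = g k) : c * TA h i * c⁻¹ = TA h i' := by
  apply hs.conj_of h hg
  intro k hk
  by_cases hki : k = i
  · right
    subst hki
    have h1 := hs.act i i.2
    rw [← hi, ex_val, ex_val, ex_val, ex_val] at h1
    rw [ex_val, ex_val, TA_a, TA_b, map_mul, h1.1, h1.2]
    simp only [map_mul, map_inv, hg i i.2, TA_a, TA_b]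
    constructor <;> group
  · left
    have h1 := MR_fix h (TA_mem h i le_rfl (Nat.lt_succ_self _)) k (by omega)
    have h3 : π k ≠ i' := fun h4 => hki (hs.inj k i hk i.2 (h4.trans hi))
    have h2 := MR_fix h (TA_mem h i' le_rfl (Nat.lt_succ_self _)) (π k) (by omega)
    exact ⟨h1.1, h1.2, h2.1, h2.2⟩

theorem Shuf.conj_TB (h : IsSurf a b) {c : MulAut G} {π : ℕ → ℕ} {g : ℕ → G}
    (hs : Shuf a b c π g) (i i' : Fin m) (hi : (i' : ℕ) = π i)
    (hg : ∀ k, k < m → TB h i' (g k) = g k) : c * TB h i * c⁻¹ = TB h i' := by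
  apply hs.conj_of h hg
  intro k hk
  by_cases hki : k = i
  · right
    subst hki
    have h1 := hs.act i i.2
    rw [← hi, ex_val, ex_val, ex_val, ex_val] at h1
    rw [ex_val, ex_val, TB_a, TB_b, map_mul, h1.1, h1.2]
    simp only [map_mul, map_inv, hg i i.2, TB_a, TB_b]
    constructor <;> group
  · left
    have h1 := MR_fix h (TB_mem h i le_rfl (Nat.lt_succ_self _)) k (by omega)
    have h3 : π k ≠ i' := fun h4 => hki (hs.inj k i hk i.2 (h4.trans hi))
    have h2 := MR_fix h (TB_mem h i' le_rfl (Nat.lt_succ_self _)) (π k) (by omega)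
    exact ⟨h1.1, h1.2, h2.1, h2.2⟩

theorem Shuf.conj_TC (h : IsSurf a b) {c : MulAut G} {π : ℕ → ℕ} {g : ℕ → G}
    (hs : Shuf a b c π g) (i j i' j' : Fin m) (hij : (j : ℕ) = i + 1) (hij' : (j' : ℕ) = i' + 1)
    (hi : (i' : ℕ) = π i) (hj : (j' : ℕ) = π j) (hgg : g i = g j)
    (hg : ∀ k, k < m → TC h i' j' hij' (g k) = g k) :
    c * TC h i j hij * c⁻¹ = TC h i' j' hij' := by
  have h1 := hs.act i i.2
  have h2 := hs.act j j.2
  rw [← hi, ex_val, ex_val, ex_val, ex_val] at h1
  rw [← hj, ex_val, ex_val, ex_val, ex_val, ← hgg] at h2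
  have hgi := hg i i.2
  apply hs.conj_of h hg
  intro k hk
  by_cases hki : k = i
  · right
    subst hki
    rw [ex_val, ex_val, TC_ai, TC_bi]
    simp only [map_mul, map_inv, h1.1, h1.2, h2.1, h2.2, hgi, TC_ai, TC_bi]
    constructor <;> group
  · by_cases hkj : k = j
    · right
      subst hkj
      rw [ex_val, ex_val, TC_aj, TC_bj]
      simp only [map_mul, map_inv, h1.1, h1.2, h2.1, h2.2, hgi, TC_aj, TC_bj]
      constructor <;> group
    · left
      have h3 := MR_fix h (TC_mem h i j hij le_rfl (Nat.lt_succ_self _)) k (by omega)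
      have h4 : π k ≠ i' := fun h5 => hki (hs.inj k i hk i.2 (h5.trans hi))
      have h5 : π k ≠ j' := fun h6 => hkj (hs.inj k j hk j.2 (h6.trans hj))
      have h6 := MR_fix h (TC_mem h i' j' hij' le_rfl (Nat.lt_succ_self _)) (π k) (by omega)
      exact ⟨h3.1, h3.2, h6.1, h6.2⟩

/-- Conjugation by a shuffle maps the twist group of a block to that of the image block. -/
theorem Shuf.map_MR (h : IsSurf a b) {c : MulAut G} {π : ℕ → ℕ} {g : ℕ → G}
    (hs : Shuf a b c π g) {lo hi lo' hi' : ℕ} (him : hi ≤ m) (him' : hi' ≤ m)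
    (hhi : hi' + lo = lo' + hi) (hlh : lo ≤ hi)
    (hπ : ∀ k, lo ≤ k → k < hi → π k + lo = lo' + k)
    (hgg : ∀ k l, lo ≤ k → k < hi → lo ≤ l → l < hi → g k = g l)
    (hg : ∀ T ∈ MR h lo' hi', ∀ k, k < m → T (g k) = g k) :
    (MR h lo hi).map (MulAut.conj c).toMonoidHom = MR h lo' hi' := by
  apply le_antisymm
  · rw [Subgroup.map_le_iff_le_comap]
    apply MR_le h
    · intro i h1 h2
      have e := hπ i h1 h2
      have hlt : π i < m := by omega
      rw [Subgroup.mem_comap]
      change c * TA h i * c⁻¹ ∈ _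
      have hm : TA h (⟨π i, hlt⟩ : Fin m) ∈ MR h lo' hi' :=
        TA_mem h _ (by simp only; omega) (by simp only; omega)
      rw [hs.conj_TA h i ⟨π i, hlt⟩ rfl (hg _ hm)]
      exact hm
    · intro i h1 h2
      have e := hπ i h1 h2
      have hlt : π i < m := by omega
      rw [Subgroup.mem_comap]
      change c * TB h i * c⁻¹ ∈ _
      have hm : TB h (⟨π i, hlt⟩ : Fin m) ∈ MR h lo' hi' :=
        TB_mem h _ (by simp only; omega) (by simp only; omega)
      rw [hs.conj_TB h i ⟨π i, hlt⟩ rfl (hg _ hm)]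
      exact hm
    · intro i j hij h1 h2
      have e1 := hπ i h1 (by omega)
      have e2 := hπ j (by omega) h2
      have hlt : π i < m := by omega
      have hlt' : π j < m := by omega
      rw [Subgroup.mem_comap]
      change c * TC h i j hij * c⁻¹ ∈ _
      have hm : TC h (⟨π i, hlt⟩ : Fin m) ⟨π j, hlt'⟩ (by simp only; omega) ∈ MR h lo' hi' :=
        TC_mem h _ _ _ (by simp only; omega) (by simp only; omega)
      rw [hs.conj_TC h i j ⟨π i, hlt⟩ ⟨π j, hlt'⟩ hij (by simp only; omega) rfl rfl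
        (hgg i j h1 (by omega) (by omega) h2) (hg _ hm)]
      exact hm
  · apply MR_le h
    · intro i h1 h2
      have hlt : (i : ℕ) + lo - lo' < m := by omega
      have e := hπ (i + lo - lo') (by omega) (by omega)
      refine ⟨TA h (⟨(i : ℕ) + lo - lo', hlt⟩ : Fin m),
        TA_mem h _ (by simp only; omega) (by simp only; omega), ?_⟩
      exact hs.conj_TA h _ i (by simp only; omega) (hg _ (TA_mem h _ h1 h2))
    · intro i h1 h2
      have hlt : (i : ℕ) + lo - lo' < m := by omega
      have e := hπ (i + lo - lo') (by omega) (by omega)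
      refine ⟨TB h (⟨(i : ℕ) + lo - lo', hlt⟩ : Fin m),
        TB_mem h _ (by simp only; omega) (by simp only; omega), ?_⟩
      exact hs.conj_TB h _ i (by simp only; omega) (hg _ (TB_mem h _ h1 h2))
    · intro i j hij h1 h2
      have hlt : (i : ℕ) + lo - lo' < m := by omega
      have hlt' : (j : ℕ) + lo - lo' < m := by omega
      have e := hπ (i + lo - lo') (by omega) (by omega)
      have e' := hπ (j + lo - lo') (by omega) (by omega)
      refine ⟨TC h (⟨(i : ℕ) + lo - lo', hlt⟩ : Fin m) ⟨(j : ℕ) + lo - lo', hlt'⟩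
        (by simp only; omega), TC_mem h _ _ _ (by simp only; omega) (by simp only; omega), ?_⟩
      exact hs.conj_TC h _ _ i j _ hij (by simp only; omega) (by simp only; omega)
        (hgg _ _ (by simp only; omega) (by simp only; omega) (by simp only; omega)
          (by simp only; omega)) (hg _ (TC_mem h _ _ hij h1 h2))

/-! ### Exchange of blocks -/

theorem exists_rot (h : IsSurf a b) (p q : ℕ) (hpq : p + q ≤ m) :
    ∃ β ∈ MR h 0 (p + q),
      (∀ lo hi, lo ≤ hi → hi ≤ p →
        (MR h lo hi).map (MulAut.conj β).toMonoidHom = MR h (lo + q) (hi + q)) ∧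
      (∀ lo hi, lo ≤ hi → p ≤ lo → hi ≤ p + q →
        (MR h lo hi).map (MulAut.conj β).toMonoidHom = MR h (lo - p) (hi - p)) ∧
      ∀ lo hi, lo ≤ hi → p + q ≤ lo → hi ≤ m →
        (MR h lo hi).map (MulAut.conj β).toMonoidHom = MR h lo hi := by
  obtain ⟨β, b1, b2, b3⟩ := exists_beta h p q hpq
  obtain ⟨π, hπ1, hπ2, hπ3⟩ : ∃ π : ℕ → ℕ, (∀ k, k < p → π k = q + k) ∧
      (∀ k, p ≤ k → k < p + q → π k = k - p) ∧ ∀ k, p + q ≤ k → π k = k := by
    refine ⟨fun k => if k < p then q + k else if k < p + q then k - p else k, ?_, ?_, ?_⟩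
    · intro k h1
      exact if_pos h1
    · intro k h1 h2
      change (if k < p then q + k else if k < p + q then k - p else k) = k - p
      rw [if_neg (by omega), if_pos h2]
    · intro k h1
      change (if k < p then q + k else if k < p + q then k - p else k) = k
      rw [if_neg (by omega), if_neg (by omega)]
  obtain ⟨g, hg1, hg2⟩ : ∃ g : ℕ → G, (∀ k, k < p → g k = DD a b q) ∧
      ∀ k, p ≤ k → g k = 1 := by
    refine ⟨fun k => if k < p then DD a b q else 1, ?_, ?_⟩
    · intro k h1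
      exact if_pos h1
    · intro k h1
      exact if_neg (by omega)
  have hs : Shuf a b β π g := by
    constructor
    · intro k l _ _ hkl
      rcases lt_or_ge k p with hk | hk
      · rw [hπ1 k hk] at hkl
        rcases lt_or_ge l p with hl | hl
        · rw [hπ1 l hl] at hkl; omega
        · rcases lt_or_ge l (p + q) with hl' | hl'
          · rw [hπ2 l hl hl'] at hkl; omega
          · rw [hπ3 l hl'] at hkl; omega
      · rcases lt_or_ge k (p + q) with hk' | hk'
        · rw [hπ2 k hk hk'] at hkl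
          rcases lt_or_ge l p with hl | hl
          · rw [hπ1 l hl] at hkl; omega
          · rcases lt_or_ge l (p + q) with hl' | hl'
            · rw [hπ2 l hl hl'] at hkl; omega
            · rw [hπ3 l hl'] at hkl; omega
        · rw [hπ3 k hk'] at hkl
          rcases lt_or_ge l p with hl | hl
          · rw [hπ1 l hl] at hkl; omega
          · rcases lt_or_ge l (p + q) with hl' | hl'
            · rw [hπ2 l hl hl'] at hkl; omega
            · rw [hπ3 l hl'] at hkl; omega
    · intro k _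
      rcases lt_or_ge k p with hk | hk
      · rw [hπ1 k hk, hg1 k hk]
        exact b2 k hk
      · rw [hg2 k hk]
        simp only [one_mul, inv_one, mul_one]
        rcases lt_or_ge k (p + q) with hk' | hk'
        · rw [hπ2 k hk hk']
          have h3 := b3 (k - p) (by omega)
          rwa [show p + (k - p) = k by omega] at h3
        · rw [hπ3 k hk']
          exact MR_fix h b1 k (Or.inr (by omega))
  have hg : ∀ lo' hi' : ℕ, (hi' ≤ q ∨ q ≤ lo') → ∀ T ∈ MR h lo' hi', ∀ k, k < m →
      T (g k) = g k := by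
    intro lo' hi' hq T hT k _
    rcases lt_or_ge k p with hk | hk
    · rw [hg1 k hk]
      exact MR_DD h hT hq
    · rw [hg2 k hk]
      exact map_one T
  refine ⟨β, b1, ?_, ?_, ?_⟩
  · intro lo hi h1 h2
    exact hs.map_MR (lo := lo) (hi := hi) (lo' := lo + q) (hi' := hi + q) h (by omega) (by omega)
      (by omega) h1
      (fun k _ h4 => by rw [hπ1 k (by omega)]; omega)
      (fun k l _ h4 _ h6 => by rw [hg1 k (by omega), hg1 l (by omega)])
      (hg _ _ (Or.inr (by omega)))
  · intro lo hi h1 h2 h3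
    exact hs.map_MR (lo := lo) (hi := hi) (lo' := lo - p) (hi' := hi - p) h (by omega) (by omega)
      (by omega) h1
      (fun k _ h4 => by rw [hπ2 k (by omega) (by omega)]; omega)
      (fun k l _ h4 _ h6 => by rw [hg2 k (by omega), hg2 l (by omega)])
      (hg _ _ (Or.inl (by omega)))
  · intro lo hi h1 h2 h3
    exact hs.map_MR (lo := lo) (hi := hi) (lo' := lo) (hi' := hi) h (by omega) (by omega)
      (by omega) h1
      (fun k _ h4 => by rw [hπ3 k (by omega)]; omega)
      (fun k l _ h4 _ h6 => by rw [hg2 k (by omega), hg2 l (by omega)])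
      (hg _ _ (Or.inr (by omega)))

theorem map_conj_mul {Γ : Type*} [Group Γ] (c d : Γ) (S : Subgroup Γ) :
    S.map (MulAut.conj (c * d)).toMonoidHom =
      (S.map (MulAut.conj d).toMonoidHom).map (MulAut.conj c).toMonoidHom := by
  rw [Subgroup.map_map]
  congr 1
  ext x
  simp [MulAut.conj_apply, mul_assoc]

theorem map_conj_inv {Γ : Type*} [Group Γ] {d : Γ} {S T : Subgroup Γ}
    (h : S.map (MulAut.conj d).toMonoidHom = T) : T.map (MulAut.conj d⁻¹).toMonoidHom = S := by
  rw [← h, ← map_conj_mul, inv_mul_cancel]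
  ext x
  simp

/-- Any two different blocks of `n` handles can be moved to the first two places. -/
theorem exists_blk' (h : IsSurf a b) (n r : ℕ) (hr : n * r ≤ m) (i j : ℕ) (hi : i < r)
    (hj : j < r) (hij : i ≠ j) :
    ∃ c ∈ MR h 0 m,
      (MR h 0 n).map (MulAut.conj c).toMonoidHom = MR h (n * i) (n * i + n) ∧
      (MR h n (n + n)).map (MulAut.conj c).toMonoidHom = MR h (n * j) (n * j + n) := by
  have hni : n * i + n ≤ m := by
    calc n * i + n = n * (i + 1) := by ring
      _ ≤ n * r := Nat.mul_le_mul_left n hi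
      _ ≤ m := hr
  have hnj : n * j + n ≤ m := by
    calc n * j + n = n * (j + 1) := by ring
      _ ≤ n * r := Nat.mul_le_mul_left n hj
      _ ≤ m := hr
  obtain ⟨β, b1, b2, b3, b4⟩ := exists_rot h (n * j) n hnj
  -- the block `j` goes to the place `0`
  have ej : (MR h (n * j) (n * j + n)).map (MulAut.conj β).toMonoidHom = MR h 0 n := by
    rw [b3 _ _ (by omega) le_rfl le_rfl]
    congr 1 <;> omega
  rcases lt_or_gt_of_ne hij with hlt | hgt
  · -- `i < j`
    have hnij : n * i + n ≤ n * j := by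
      calc n * i + n = n * (i + 1) := by ring
        _ ≤ n * j := Nat.mul_le_mul_left n hlt
    have ei : (MR h (n * i) (n * i + n)).map (MulAut.conj β).toMonoidHom =
        MR h (n * i + n) (n * i + n + n) := b2 _ _ (by omega) hnij
    obtain ⟨γ, c1, c2, c3, -⟩ := exists_rot h (n * i + n) n (by omega)
    refine ⟨(γ * β)⁻¹, inv_mem (mul_mem (MR_mono h le_rfl (by omega) c1)
      (MR_mono h le_rfl (by omega) b1)), map_conj_inv ?_, map_conj_inv ?_⟩
    · rw [map_conj_mul, ei, c3 _ _ (by omega) le_rfl le_rfl]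
      congr 1 <;> omega
    · rw [map_conj_mul, ej, c2 _ _ (by omega) (by omega)]
      congr 1 <;> omega
  · -- `j < i`
    have hnij : n * j + n ≤ n * i := by
      calc n * j + n = n * (j + 1) := by ring
        _ ≤ n * i := Nat.mul_le_mul_left n hgt
    have ei : (MR h (n * i) (n * i + n)).map (MulAut.conj β).toMonoidHom =
        MR h (n * i) (n * i + n) := b4 _ _ (by omega) hnij hni
    obtain ⟨γ, c1, c2, c3, -⟩ := exists_rot h (n * i) n hni
    refine ⟨(γ * β)⁻¹, inv_mem (mul_mem (MR_mono h le_rfl (by omega) c1)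
      (MR_mono h le_rfl (by omega) b1)), map_conj_inv ?_, map_conj_inv ?_⟩
    · rw [map_conj_mul, ei, c3 _ _ (by omega) le_rfl le_rfl]
      congr 1 <;> omega
    · rw [map_conj_mul, ej, c2 _ _ (by omega) (by omega)]
      congr 1 <;> omega

/-- Any two different blocks of three handles are the images of the first two. -/
theorem exists_blk (h : IsSurf a b) (r : ℕ) (hr : 3 * r ≤ m) (i j : ℕ) (hi : i < r)
    (hj : j < r) (hij : i ≠ j) :
    ∃ c ∈ MR h 0 m,
      (MR h 0 3).map (MulAut.conj c).toMonoidHom = MR h (3 * i) (3 * i + 3) ∧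
      (MR h 3 6).map (MulAut.conj c).toMonoidHom = MR h (3 * j) (3 * j + 3) :=
  exists_blk' h 3 r hr i j hi hj hij

theorem mem_iff_of_map {Γ : Type*} [Group Γ] {c : Γ} {S T : Subgroup Γ}
    (h : S.map (MulAut.conj c).toMonoidHom = T) (x : Γ) : x ∈ S ↔ c * x * c⁻¹ ∈ T := by
  rw [← h]
  constructor
  · intro hx
    exact ⟨x, hx, rfl⟩
  · rintro ⟨y, hy, hxy⟩
    have h1 : c * y * c⁻¹ = c * x * c⁻¹ := hxy
    have h2 : y = x := mul_left_cancel (mul_right_cancel h1)
    exact h2 ▸ hy

/-- The same with elements. -/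
theorem exists_blk_iff (h : IsSurf a b) (r : ℕ) (hr : 3 * r ≤ m) (i j : ℕ) (hi : i < r)
    (hj : j < r) (hij : i ≠ j) :
    ∃ c ∈ MR h 0 m,
      (∀ x, x ∈ MR h 0 3 ↔ c * x * c⁻¹ ∈ MR h (3 * i) (3 * i + 3)) ∧
      (∀ x, x ∈ MR h 3 6 ↔ c * x * c⁻¹ ∈ MR h (3 * j) (3 * j + 3)) := by
  obtain ⟨c, hc, h1, h2⟩ := exists_blk h r hr i j hi hj hij
  exact ⟨c, hc, fun x => mem_iff_of_map h1 x, fun x => mem_iff_of_map h2 x⟩

end

end Pool.Agent.H.MP_59b15d_al.Lin
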