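/-
Linear representations of groups attached to a tree in which the elements `t s - 1` multiply to zero
for non adjacent vertices: such a representation without invariants and coinvariants is
`H (x) U`, `H` the symplectic module of the tree.
-/
import Mathlib

set_option autoImplicit false

namespace Pool.Agent.H.MP_59b15d_al.Lin

/-- A rooted tree on the index type `ι`. -/
structure RTree (ι : Type*) where
  /-- the parent -/
  par : ι → ι
  /-- the distance from the root -/
  rk : ι → ℕ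
  lt : ∀ s, rk s ≠ 0 → rk (par s) < rk s
  root : ∀ s u, rk s = 0 → rk u = 0 → s = u

namespace RTree

variable {ι : Type*} (T : RTree ι)

/-- Adjacency in the tree. -/
def Adj (s u : ι) : Prop := (T.rk s ≠ 0 ∧ T.par s = u) ∨ (T.rk u ≠ 0 ∧ T.par u = s)

lemma adj_symm {s u : ι} (h : T.Adj s u) : T.Adj u s := h.elim Or.inr Or.inl

lemma not_adj_self (s : ι) : ¬ T.Adj s s := by
  rintro (⟨h, h'⟩ | ⟨h, h'⟩) <;>
  · have := T.lt s h
    rw [h'] at this
    exact lt_irrefl _ this

lemma adj_of_le {s u : ι} (h : T.Adj s u) (hle : T.rk u ≤ T.rk s) : T.rk s ≠ 0 ∧ T.par s = u := by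
  rcases h with h | ⟨h, h'⟩
  · exact h
  · have := T.lt u h
    rw [h'] at this
    omega

lemma adj_ne_rk {s u : ι} (h : T.Adj s u) : T.rk s ≠ T.rk u := by
  rcases h with ⟨h, h'⟩ | ⟨h, h'⟩
  · have := T.lt s h
    rw [h'] at this
    omega
  · have := T.lt u h
    rw [h'] at this
    omega

lemma no_triangle {r s u : ι} (h1 : T.Adj r s) (h2 : T.Adj r u) (h3 : T.Adj s u) : False := by
  have key : ∀ x y z : ι, T.Adj x y → T.Adj x z → T.Adj y z → T.rk y ≤ T.rk x →
      T.rk z ≤ T.rk x → False := by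
    intro x y z hxy hxz hyz h1 h2
    have e1 := (T.adj_of_le hxy h1).2
    have e2 := (T.adj_of_le hxz h2).2
    rw [← e1, e2] at hyz
    exact T.not_adj_self _ hyz
  rcases le_total (T.rk r) (T.rk s) with hrs | hrs
  · rcases le_total (T.rk s) (T.rk u) with hsu | hsu
    · exact key u r s (T.adj_symm h2) (T.adj_symm h3) h1 (hrs.trans hsu) hsu
    · exact key s r u (T.adj_symm h1) h3 h2 hrs hsu
  · rcases le_total (T.rk r) (T.rk u) with hru | hru
    · exact key u r s (T.adj_symm h2) (T.adj_symm h3) h1 hru (hrs.trans hru)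
    · exact key r s u h1 h2 h3 hrs hru

end RTree

variable {F V H ι Γ : Type*} [Field F] [AddCommGroup V] [Module F V] [AddCommGroup H] [Module F H]
  [Group Γ]

/-- The hypotheses: `t s` generate `Γ`, `ρ` is a representation on `V` with
`(t s - 1)(t u - 1) = 0` for non adjacent `s, u` and braid relations for adjacent ones; `ρH` is the
representation on `H` by transvections `x ↦ x + ω (h s) x • h s`. -/
structure TreeRep (T : RTree ι) (t : ι → Γ) (ρ : Γ →* Module.End F V) (ρH : Γ →* Module.End F H)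
    (h : ι → H) (ω : H →ₗ[F] H →ₗ[F] F) : Prop where
  gen : Subgroup.closure (Set.range t) = ⊤
  alt : ∀ x y, ω x y = - ω y x
  act : ∀ s x, ρH (t s) x = x + ω (h s) x • h s
  adj : ∀ s u, T.Adj s u → ω (h s) (h u) = 1 ∨ ω (h s) (h u) = -1
  nadj : ∀ s u, ¬ T.Adj s u → ω (h s) (h u) = 0
  prod : ∀ s u, ¬ T.Adj s u → (ρ (t s) - 1) * (ρ (t u) - 1) = 0
  braid : ∀ s u, T.Adj s u → ρ (t s) * ρ (t u) * ρ (t s) = ρ (t u) * ρ (t s) * ρ (t u)
  inv : ∀ v : V, (∀ s, ρ (t s) v = v) → v = 0
  coinv : ⨆ s, LinearMap.range (ρ (t s) - 1) = ⊤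

namespace TreeRep

variable {T : RTree ι} {t : ι → Γ} {ρ : Γ →* Module.End F V} {ρH : Γ →* Module.End F H}
  {h : ι → H} {ω : H →ₗ[F] H →ₗ[F] F}

lemma mul_self (R : TreeRep T t ρ ρH h ω) (s : ι) : (ρ (t s) - 1) * (ρ (t s) - 1) = 0 :=
  R.prod s s (T.not_adj_self s)

lemma inv' (R : TreeRep T t ρ ρH h ω) (A : Module.End F V)
    (hA : ∀ s, (ρ (t s) - 1) * A = 0) : A = 0 := by
  ext v
  refine R.inv (A v) fun s => ?_
  have h1 := LinearMap.congr_fun (hA s) v
  simp only [Module.End.mul_apply, LinearMap.sub_apply, Module.End.one_apply,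
    LinearMap.zero_apply] at h1
  exact sub_eq_zero.1 h1

/-- `n_s n_u n_s = - n_s` for adjacent vertices. -/
lemma nnn (R : TreeRep T t ρ ρH h ω) {s u : ι} (hsu : T.Adj s u) :
    (ρ (t s) - 1) * (ρ (t u) - 1) * (ρ (t s) - 1) = -(ρ (t s) - 1) := by
  set a := ρ (t s) - 1 with ha
  set b := ρ (t u) - 1 with hb
  have hs : ρ (t s) = 1 + a := by rw [ha]; abel
  have hu : ρ (t u) = 1 + b := by rw [hb]; abel
  have ha2 : a * a = 0 := R.mul_self s
  have hb2 : b * b = 0 := R.mul_self u
  have hbr := R.braid s u hsu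
  rw [hs, hu] at hbr
  have h1 : a + a * b * a = b + b * a * b := by
    have e1 : (1 + a) * (1 + b) * (1 + a) =
        1 + a + b + a * b + b * a + (a + a * b * a) + a * a := by noncomm_ring
    have e2 : (1 + b) * (1 + a) * (1 + b) =
        1 + a + b + a * b + b * a + (b + b * a * b) + b * b := by noncomm_ring
    rw [e1, e2, ha2, hb2, add_zero, add_zero] at hbr
    exact add_left_cancel hbr
  have h2 : a + a * b * a = 0 := by
    refine R.inv' _ fun r => ?_
    by_cases hrs : r = s
    · subst hrs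
      rw [← ha, mul_add, ← mul_assoc, ← mul_assoc, ha2, zero_mul, zero_mul, add_zero]
    · by_cases hru : r = u
      · subst hru
        rw [h1, ← hb, mul_add, ← mul_assoc, ← mul_assoc, hb2, zero_mul, zero_mul, add_zero]
      · by_cases h3 : T.Adj r s
        · have h4 : ¬ T.Adj r u := fun h4 => T.no_triangle h3 h4 hsu
          have h5 := R.prod r u h4
          rw [← hb] at h5
          rw [h1, mul_add, ← mul_assoc, ← mul_assoc, h5, zero_mul, zero_mul, add_zero]
        · have h5 := R.prod r s h3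
          rw [← ha] at h5
          rw [mul_add, ← mul_assoc, ← mul_assoc, h5, zero_mul, zero_mul, add_zero]
  rw [eq_neg_iff_add_eq_zero, add_comm]
  exact h2

/-- The maps `φ s`, defined along the tree. -/
noncomputable def phi (T : RTree ι) (t : ι → Γ) (ρ : Γ →* Module.End F V) (h : ι → H)
    (ω : H →ₗ[F] H →ₗ[F] F) (s : ι) : Module.End F V :=
  if hs : T.rk s = 0 then ρ (t s) - 1
  else ω (h s) (h (T.par s)) • ((ρ (t s) - 1) * phi T t ρ h ω (T.par s))
termination_by T.rk s
decreasing_by exact T.lt s hs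

lemma phi_root {s : ι} (hs : T.rk s = 0) : phi T t ρ h ω s = ρ (t s) - 1 := by
  rw [phi, dif_pos hs]

lemma phi_par {s : ι} (hs : T.rk s ≠ 0) :
    phi T t ρ h ω s = ω (h s) (h (T.par s)) • ((ρ (t s) - 1) * phi T t ρ h ω (T.par s)) := by
  rw [phi, dif_neg hs]

lemma phi_fac (s : ι) : ∃ B : Module.End F V, phi T t ρ h ω s = (ρ (t s) - 1) * B := by
  by_cases hs : T.rk s = 0
  · exact ⟨1, by rw [phi_root hs, mul_one]⟩
  · exact ⟨ω (h s) (h (T.par s)) • phi T t ρ h ω (T.par s), by rw [phi_par hs, mul_smul_comm]⟩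

lemma sq_one (R : TreeRep T t ρ ρH h ω) {s u : ι} (hsu : T.Adj s u) :
    ω (h s) (h u) * ω (h s) (h u) = 1 := by
  rcases R.adj s u hsu with h1 | h1 <;> rw [h1] <;> ring

/-- `n_s φ_u = ω(h_s, h_u) φ_s`. -/
lemma n_phi (R : TreeRep T t ρ ρH h ω) (s u : ι) :
    (ρ (t s) - 1) * phi T t ρ h ω u = ω (h s) (h u) • phi T t ρ h ω s := by
  by_cases hsu : T.Adj s u
  · rcases hsu with ⟨hs, hu⟩ | ⟨hu, hs⟩
    · subst hu
      have hadj : T.Adj s (T.par s) := Or.inl ⟨hs, rfl⟩
      rw [phi_par hs, smul_smul, R.sq_one hadj, one_smul]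
    · subst hs
      have hadj : T.Adj u (T.par u) := Or.inl ⟨hu, rfl⟩
      obtain ⟨B, hB⟩ := phi_fac (T := T) (t := t) (ρ := ρ) (h := h) (ω := ω) (T.par u)
      rw [phi_par hu, mul_smul_comm, ← mul_assoc, hB, ← mul_assoc, R.nnn (T.adj_symm hadj),
        R.alt (h u), neg_mul, smul_neg, neg_smul, neg_neg]
  · obtain ⟨B, hB⟩ := phi_fac (T := T) (t := t) (ρ := ρ) (h := h) (ω := ω) u
    rw [hB, ← mul_assoc, R.prod s u hsu, zero_mul, R.nadj s u hsu, zero_smul]

/-- The range of `φ s` is the range of `n_s`. -/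
lemma range_phi (R : TreeRep T t ρ ρH h ω) (s : ι) :
    LinearMap.range (phi T t ρ h ω s) = LinearMap.range (ρ (t s) - 1) := by
  have key : ∀ n : ℕ, ∀ s : ι, T.rk s = n →
      LinearMap.range (phi T t ρ h ω s) = LinearMap.range (ρ (t s) - 1) := by
    intro n
    induction n using Nat.strong_induction_on with
    | _ n ih =>
      intro s hsn
      by_cases hs : T.rk s = 0
      · rw [phi_root hs]
      · have hadj : T.Adj s (T.par s) := Or.inl ⟨hs, rfl⟩
        have ihp := ih (T.rk (T.par s)) (hsn ▸ T.lt s hs) (T.par s) rfl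
        apply le_antisymm
        · obtain ⟨B, hB⟩ := phi_fac (T := T) (t := t) (ρ := ρ) (h := h) (ω := ω) s
          rw [hB]
          rintro _ ⟨v, rfl⟩
          exact ⟨B v, rfl⟩
        · rintro _ ⟨v, rfl⟩
          have h1 := LinearMap.congr_fun (R.nnn hadj) v
          simp only [Module.End.mul_apply, LinearMap.neg_apply] at h1
          have h2 : (ρ (t (T.par s)) - 1) ((ρ (t s) - 1) v) ∈
              LinearMap.range (phi T t ρ h ω (T.par s)) := by
            rw [ihp]
            exact ⟨_, rfl⟩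
          obtain ⟨w, hw⟩ := h2
          refine ⟨-(ω (h s) (h (T.par s)) • w), ?_⟩
          rw [phi_par hs, map_neg, map_smul, LinearMap.smul_apply, smul_smul, R.sq_one hadj,
            one_smul, Module.End.mul_apply, hw, h1, neg_neg]
  exact key _ s rfl

lemma t_phi (R : TreeRep T t ρ ρH h ω) (s u : ι) :
    ρ (t s) * phi T t ρ h ω u = phi T t ρ h ω u + ω (h s) (h u) • phi T t ρ h ω s := by
  have h1 := R.n_phi s u
  rw [sub_mul, one_mul] at h1
  rw [← h1]
  abel

/-- Formal combinations of the vertices. -/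
noncomputable def toH (h : ι → H) : (ι →₀ F) →ₗ[F] H := Finsupp.linearCombination F h

/-- Formal combinations of the vertices, image in the endomorphisms. -/
noncomputable def toE (T : RTree ι) (t : ι → Γ) (ρ : Γ →* Module.End F V) (h : ι → H)
    (ω : H →ₗ[F] H →ₗ[F] F) : (ι →₀ F) →ₗ[F] Module.End F V :=
  Finsupp.linearCombination F (phi T t ρ h ω)

lemma n_toE (R : TreeRep T t ρ ρH h ω) (s : ι) (c : ι →₀ F) :
    (ρ (t s) - 1) * toE T t ρ h ω c = ω (h s) (toH h c) • phi T t ρ h ω s := by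
  induction c using Finsupp.induction_linear with
  | zero => simp
  | add c d hc hd => rw [map_add, mul_add, hc, hd, map_add, map_add, add_smul]
  | single u x =>
    rw [toE, toH, Finsupp.linearCombination_single, Finsupp.linearCombination_single, mul_smul_comm,
      R.n_phi, map_smul, smul_smul, smul_eq_mul]

lemma ker_le (R : TreeRep T t ρ ρH h ω) {c : ι →₀ F} (hc : toH h c = 0) :
    toE T t ρ h ω c = 0 := by
  refine R.inv' _ fun s => ?_
  rw [R.n_toE, hc, map_zero, zero_smul]

lemma rhoH_inv (R : TreeRep T t ρ ρH h ω) (s : ι) (x : H) :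
    ρH (t s)⁻¹ x = x - ω (h s) x • h s := by
  have h0 : ω (h s) (h s) = 0 := R.nadj s s (T.not_adj_self s)
  have h1 : ρH (t s) (x - ω (h s) x • h s) = x := by
    rw [R.act, map_sub, map_smul, h0, smul_zero, sub_zero, sub_add_cancel]
  have h2 : ρH (t s)⁻¹ (ρH (t s) (x - ω (h s) x • h s)) = x - ω (h s) x • h s := by
    rw [← Module.End.mul_apply, ← map_mul, inv_mul_cancel, map_one, Module.End.one_apply]
  rw [h1] at h2
  exact h2

lemma rho_inv (R : TreeRep T t ρ ρH h ω) (s : ι) :
    ρ (t s)⁻¹ = 1 - (ρ (t s) - 1) := by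
  have h1 : ρ (t s) * (1 - (ρ (t s) - 1)) = 1 := by
    have e := R.mul_self s
    have e2 : ρ (t s) * (1 - (ρ (t s) - 1)) = 1 - (ρ (t s) - 1) * (ρ (t s) - 1) := by
      noncomm_ring
    rw [e2, e, sub_zero]
  have h2 : ρ (t s)⁻¹ * ρ (t s) = 1 := by rw [← map_mul, inv_mul_cancel, map_one]
  calc ρ (t s)⁻¹ = ρ (t s)⁻¹ * (ρ (t s) * (1 - (ρ (t s) - 1))) := by rw [h1, mul_one]
    _ = 1 - (ρ (t s) - 1) := by rw [← mul_assoc, h2, one_mul]

lemma lift_aux (R : TreeRep T t ρ ρH h ω) (γ : Γ) :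
    (∀ c : ι →₀ F,
      ∃ d : ι →₀ F, toH h d = ρH γ (toH h c) ∧ toE T t ρ h ω d = ρ γ * toE T t ρ h ω c) ∧
    (∀ c : ι →₀ F,
      ∃ d : ι →₀ F, toH h d = ρH γ⁻¹ (toH h c) ∧ toE T t ρ h ω d = ρ γ⁻¹ * toE T t ρ h ω c) := by
  have hγ : γ ∈ Subgroup.closure (Set.range t) := R.gen ▸ Subgroup.mem_top γ
  induction hγ using Subgroup.closure_induction with
  | mem x hx =>
    obtain ⟨s, rfl⟩ := hx
    constructor
    · intro c
      refine ⟨c + Finsupp.single s (ω (h s) (toH h c)), ?_, ?_⟩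
      · rw [map_add, R.act]
        congr 1
        rw [toH, Finsupp.linearCombination_single]
      · have h1 := R.n_toE s c
        rw [sub_mul, one_mul, sub_eq_iff_eq_add] at h1
        rw [map_add, h1, add_comm]
        congr 1
        rw [toE, Finsupp.linearCombination_single]
    · intro c
      refine ⟨c - Finsupp.single s (ω (h s) (toH h c)), ?_, ?_⟩
      · rw [map_sub, R.rhoH_inv]
        congr 1
        rw [toH, Finsupp.linearCombination_single]
      · have h1 := R.n_toE s c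
        rw [map_sub, R.rho_inv, sub_mul, one_mul, h1]
        congr 1
        rw [toE, Finsupp.linearCombination_single]
  | one => exact ⟨fun c => ⟨c, by simp, by simp⟩, fun c => ⟨c, by simp, by simp⟩⟩
  | mul x y _ _ hx hy =>
    constructor
    · intro c
      obtain ⟨d, hd1, hd2⟩ := hy.1 c
      obtain ⟨e, he1, he2⟩ := hx.1 d
      refine ⟨e, ?_, ?_⟩
      · rw [he1, hd1, map_mul, Module.End.mul_apply]
      · rw [he2, hd2, map_mul, mul_assoc]
    · intro c
      obtain ⟨d, hd1, hd2⟩ := hx.2 c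
      obtain ⟨e, he1, he2⟩ := hy.2 d
      refine ⟨e, ?_, ?_⟩
      · rw [he1, hd1, mul_inv_rev, map_mul, Module.End.mul_apply]
      · rw [he2, hd2, mul_inv_rev, map_mul, mul_assoc]
  | inv x _ hx => exact ⟨hx.2, by simpa only [inv_inv] using hx.1⟩

/-- **Core theorem.** The representation `ρ` factors through the representation on `H`. -/
theorem factor (R : TreeRep T t ρ ρH h ω) {γ : Γ} (hγ : ∀ s, ρH γ (h s) = h s) : ρ γ = 1 := by
  have key : ∀ s, ρ γ * phi T t ρ h ω s = phi T t ρ h ω s := by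
    intro s
    obtain ⟨d, hd1, hd2⟩ := (R.lift_aux γ).1 (Finsupp.single s 1)
    have e1 : toH h (Finsupp.single s (1 : F)) = h s := by
      rw [toH, Finsupp.linearCombination_single, one_smul]
    have e2 : toE T t ρ h ω (Finsupp.single s (1 : F)) = phi T t ρ h ω s := by
      rw [toE, Finsupp.linearCombination_single, one_smul]
    rw [e1, hγ s] at hd1
    rw [e2] at hd2
    have h3 : toE T t ρ h ω (d - Finsupp.single s 1) = 0 := by
      apply R.ker_le
      rw [map_sub, hd1, e1, sub_self]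
    rw [map_sub, e2, sub_eq_zero] at h3
    rw [← hd2, h3]
  have h2 : LinearMap.ker (ρ γ - 1) = ⊤ := by
    rw [eq_top_iff, ← R.coinv]
    refine iSup_le fun s => ?_
    rw [← R.range_phi]
    rintro _ ⟨v, rfl⟩
    have h3 := LinearMap.congr_fun (key s) v
    rw [Module.End.mul_apply] at h3
    rw [LinearMap.mem_ker, LinearMap.sub_apply, h3, Module.End.one_apply, sub_self]
  exact sub_eq_zero.1 (LinearMap.ker_eq_top.1 h2)

/-- The bilinear form of the core theorem: if the `h s` span `H`, then there is a linear map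
`Φ : H → End V` with `ρ γ ∘ Φ x = Φ (γ x)` whose ranges span `V`. -/
theorem exists_bilin (R : TreeRep T t ρ ρH h ω) (hspan : Submodule.span F (Set.range h) = ⊤) :
    ∃ Φ : H →ₗ[F] Module.End F V, (∀ γ x, ρ γ * Φ x = Φ (ρH γ x)) ∧
      (⨆ x, LinearMap.range (Φ x)) = ⊤ ∧ (∀ s x, (ρ (t s) - 1) * Φ x = ω (h s) x • Φ (h s)) := by
  have hsurj : Function.Surjective (toH (F := F) h) := by
    rw [← LinearMap.range_eq_top, toH, Finsupp.range_linearCombination, hspan]
  obtain ⟨σ, hσ⟩ := LinearMap.exists_rightInverse_of_surjective _ (LinearMap.range_eq_top.2 hsurj)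
  have hσ' : ∀ x, toH h (σ x) = x := fun x => LinearMap.congr_fun hσ x
  have hwd : ∀ c : ι →₀ F, toE T t ρ h ω (σ (toH h c)) = toE T t ρ h ω c := by
    intro c
    rw [← sub_eq_zero, ← map_sub]
    apply R.ker_le
    rw [map_sub, hσ', sub_self]
  refine ⟨toE T t ρ h ω ∘ₗ σ, ?_, ?_, ?_⟩
  · intro γ x
    obtain ⟨d, hd1, hd2⟩ := (R.lift_aux γ).1 (σ x)
    rw [LinearMap.comp_apply, LinearMap.comp_apply, ← hd2, ← hwd d, hd1, hσ']
  · rw [eq_top_iff, ← R.coinv]
    refine iSup_le fun s => ?_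
    rw [← R.range_phi]
    have h1 : (toE T t ρ h ω ∘ₗ σ) (h s) = phi T t ρ h ω s := by
      have e1 : toH h (Finsupp.single s (1 : F)) = h s := by
        rw [toH, Finsupp.linearCombination_single, one_smul]
      rw [LinearMap.comp_apply, ← e1, hwd, toE, Finsupp.linearCombination_single, one_smul]
    rw [← h1]
    exact le_iSup (fun x => LinearMap.range ((toE T t ρ h ω ∘ₗ σ) x)) (h s)
  · intro s x
    have e1 : toH h (Finsupp.single s (1 : F)) = h s := by
      rw [toH, Finsupp.linearCombination_single, one_smul]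
    have h1 : (toE T t ρ h ω ∘ₗ σ) (h s) = phi T t ρ h ω s := by
      rw [LinearMap.comp_apply, ← e1, hwd, toE, Finsupp.linearCombination_single, one_smul]
    rw [h1, LinearMap.comp_apply, R.n_toE, hσ']

end TreeRep

end Pool.Agent.H.MP_59b15d_al.Lin
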