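/-
Elements whose operators `ρ x - 1` multiply to zero; propagation along the tree.
-/
import Pool.Agent.H.MP_59b15d_al.lin.Core

set_option autoImplicit false

namespace Pool.Agent.H.MP_59b15d_al.Lin

variable {F V Γ : Type*} [Field F] [AddCommGroup V] [Module F V] [Group Γ]

/-- The operators `ρ x - 1` and `ρ y - 1` multiply to zero in both orders. -/
def Perp (ρ : Γ →* Module.End F V) (x y : Γ) : Prop :=
  (ρ x - 1) * (ρ y - 1) = 0 ∧ (ρ y - 1) * (ρ x - 1) = 0

lemma Perp.symm {ρ : Γ →* Module.End F V} {x y : Γ} (h : Perp ρ x y) : Perp ρ y x := ⟨h.2, h.1⟩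

/-- The elements perpendicular to `x` form a subgroup. -/
def perpSub (ρ : Γ →* Module.End F V) (x : Γ) : Subgroup Γ where
  carrier := {y | Perp ρ x y}
  one_mem' := by simp [Perp]
  mul_mem' := by
    rintro y z ⟨hy1, hy2⟩ ⟨hz1, hz2⟩
    have e1 : ρ (y * z) - 1 = (ρ y - 1) * ρ z + (ρ z - 1) := by
      rw [map_mul]; noncomm_ring
    have e2 : ρ (y * z) - 1 = ρ y * (ρ z - 1) + (ρ y - 1) := by
      rw [map_mul]; noncomm_ring
    constructor
    · rw [e1, mul_add, ← mul_assoc, hy1, zero_mul, hz1, add_zero]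
    · rw [e2, add_mul, mul_assoc, hz2, mul_zero, hy2, add_zero]
  inv_mem' := by
    rintro y ⟨hy1, hy2⟩
    have e0 : ρ y * ρ y⁻¹ = 1 := by rw [← map_mul, mul_inv_cancel, map_one]
    have e0' : ρ y⁻¹ * ρ y = 1 := by rw [← map_mul, inv_mul_cancel, map_one]
    have e1 : ρ y⁻¹ - 1 = -((ρ y - 1) * ρ y⁻¹) := by
      rw [sub_mul, e0, one_mul]; abel
    have e2 : ρ y⁻¹ - 1 = -(ρ y⁻¹ * (ρ y - 1)) := by
      rw [mul_sub, e0', mul_one]; abel
    constructor
    · rw [e1, mul_neg, ← mul_assoc, hy1, zero_mul, neg_zero]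
    · rw [e2, neg_mul, mul_assoc, hy2, mul_zero, neg_zero]

lemma mem_perpSub {ρ : Γ →* Module.End F V} {x y : Γ} : y ∈ perpSub ρ x ↔ Perp ρ x y := Iff.rfl

lemma rho_conj_sub (ρ : Γ →* Module.End F V) (g x : Γ) :
    ρ (g * x * g⁻¹) - 1 = ρ g * (ρ x - 1) * ρ g⁻¹ := by
  have e0 : ρ g * ρ g⁻¹ = 1 := by rw [← map_mul, mul_inv_cancel, map_one]
  rw [map_mul, map_mul, mul_sub, sub_mul, mul_one, e0]

lemma Perp.conj {ρ : Γ →* Module.End F V} {x y : Γ} (h : Perp ρ x y) (g : Γ) :
    Perp ρ (g * x * g⁻¹) (g * y * g⁻¹) := by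
  have e0 : ρ g⁻¹ * ρ g = 1 := by rw [← map_mul, inv_mul_cancel, map_one]
  constructor
  · rw [rho_conj_sub, rho_conj_sub]
    calc ρ g * (ρ x - 1) * ρ g⁻¹ * (ρ g * (ρ y - 1) * ρ g⁻¹) =
        ρ g * ((ρ x - 1) * (ρ g⁻¹ * ρ g) * (ρ y - 1)) * ρ g⁻¹ := by noncomm_ring
      _ = 0 := by rw [e0, mul_one, h.1, mul_zero, zero_mul]
  · rw [rho_conj_sub, rho_conj_sub]
    calc ρ g * (ρ y - 1) * ρ g⁻¹ * (ρ g * (ρ x - 1) * ρ g⁻¹) =
        ρ g * ((ρ y - 1) * (ρ g⁻¹ * ρ g) * (ρ x - 1)) * ρ g⁻¹ := by noncomm_ring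
      _ = 0 := by rw [e0, mul_one, h.2, mul_zero, zero_mul]

lemma Perp.conj_right {ρ : Γ →* Module.End F V} {x y : Γ} (h : Perp ρ x y) {g : Γ}
    (hg : Commute g x) : Perp ρ x (g * y * g⁻¹) := by
  have h1 := h.conj g
  rwa [hg.eq, mul_inv_cancel_right] at h1

/-- Propagation to a braided element. -/
lemma Perp.step {ρ : Γ →* Module.End F V} {x u v : Γ} (h : Perp ρ x u) (hb : u * v * u = v * u * v)
    (hu : Commute x u) (hv : Commute x v) : Perp ρ x v := by
  have h1 := h.conj_right ((hu.mul_right hv).symm)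
  have h2 : u * v * u * (u * v)⁻¹ = v := by rw [hb]; group
  rwa [h2] at h1

/-- Propagation of the relation `(ρ x - 1)^2 = 0`. -/
lemma Perp.self_step {ρ : Γ →* Module.End F V} {u v : Γ} (h : Perp ρ u u)
    (hb : u * v * u = v * u * v) : Perp ρ v v := by
  have h1 := h.conj (u * v)
  have h2 : u * v * u * (u * v)⁻¹ = v := by rw [hb]; group
  rwa [h2] at h1

/-- The relations of the tree. -/
structure TreeGrp (g : ℕ) (tA tB tC : ℕ → Γ) : Prop where
  AB : ∀ i, i < g → tA i * tB i * tA i = tB i * tA i * tB i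
  BC : ∀ i, i + 1 < g → tB i * tC i * tB i = tC i * tB i * tC i
  CB : ∀ i, i + 1 < g → tC i * tB (i + 1) * tC i = tB (i + 1) * tC i * tB (i + 1)
  cAA : ∀ i j, i < g → j < g → Commute (tA i) (tA j)
  cAB : ∀ i j, i < g → j < g → i ≠ j → Commute (tA i) (tB j)
  cBB : ∀ i j, i < g → j < g → Commute (tB i) (tB j)
  cAC : ∀ i j, i < g → j + 1 < g → Commute (tA i) (tC j)
  cBC : ∀ i j, i < g → j + 1 < g → i ≠ j → i ≠ j + 1 → Commute (tB i) (tC j)
  cCC : ∀ i j, i + 1 < g → j + 1 < g → Commute (tC i) (tC j)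

namespace TreeGrp

variable {g : ℕ} {tA tB tC : ℕ → Γ} {ρ : Γ →* Module.End F V}

/-- Propagation on the left. -/
lemma left (T : TreeGrp g tA tB tC) {s : Γ} {i : ℕ} (hi : i ≤ g) (h0 : Perp ρ s (tA 0))
    (hA : ∀ j, j < i → Commute s (tA j)) (hB : ∀ j, j < i → Commute s (tB j))
    (hC : ∀ j, j + 1 < i → Commute s (tC j)) :
    (∀ j, j < i → Perp ρ s (tB j)) ∧ (∀ j, j < i → Perp ρ s (tA j)) ∧
      ∀ j, j + 1 < i → Perp ρ s (tC j) := by
  have h1 : ∀ j, j < i → Perp ρ s (tB j) := by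
    intro j
    induction j with
    | zero =>
      intro hj
      exact h0.step (T.AB 0 (by omega)) (hA 0 hj) (hB 0 hj)
    | succ j ih =>
      intro hj
      have h2 := (ih (by omega)).step (T.BC j (by omega)) (hB j (by omega)) (hC j (by omega))
      exact h2.step (T.CB j (by omega)) (hC j (by omega)) (hB (j + 1) hj)
  refine ⟨h1, fun j hj => ?_, fun j hj => ?_⟩
  · exact (h1 j hj).step (T.AB j (by omega)).symm (hB j hj) (hA j hj)
  · exact (h1 j (by omega)).step (T.BC j (by omega)) (hB j (by omega)) (hC j (by omega))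

/-- Propagation on the right. -/
lemma right (T : TreeGrp g tA tB tC) {s : Γ} {i : ℕ} (hi : i < g) (h0 : Perp ρ s (tA (g - 1)))
    (hA : ∀ j, i ≤ j → j < g → Commute s (tA j)) (hB : ∀ j, i ≤ j → j < g → Commute s (tB j))
    (hC : ∀ j, i ≤ j → j + 1 < g → Commute s (tC j)) :
    (∀ j, i ≤ j → j < g → Perp ρ s (tB j)) ∧ (∀ j, i ≤ j → j < g → Perp ρ s (tA j)) ∧
      ∀ j, i ≤ j → j + 1 < g → Perp ρ s (tC j) := by
  have h1 : ∀ k j, j + k + 1 = g → i ≤ j → Perp ρ s (tB j) := by
    intro k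
    induction k with
    | zero =>
      intro j hj hij
      have hj' : j = g - 1 := by omega
      subst hj'
      exact h0.step (T.AB _ (by omega)) (hA _ hij (by omega)) (hB _ hij (by omega))
    | succ k ih =>
      intro j hj hij
      have h2 := (ih (j + 1) (by omega) (by omega)).step (T.CB j (by omega)).symm
        (hB (j + 1) (by omega) (by omega)) (hC j hij (by omega))
      exact h2.step (T.BC j (by omega)).symm (hC j hij (by omega)) (hB j hij (by omega))
  have h2 : ∀ j, i ≤ j → j < g → Perp ρ s (tB j) := fun j hij hj =>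
    h1 (g - 1 - j) j (by omega) hij
  refine ⟨h2, fun j hij hj => ?_, fun j hij hj => ?_⟩
  · exact (h2 j hij hj).step (T.AB j hj).symm (hB j hij hj) (hA j hij hj)
  · exact (h2 j hij (by omega)).step (T.BC j hj) (hB j hij (by omega)) (hC j hij hj)

/-- The first leaf is perpendicular to everything but its neighbour. -/
lemma first (T : TreeGrp g tA tB tC) {q : ℕ} (hq0 : 0 < q) (hq : q < g)
    (h0 : Perp ρ (tA 0) (tA q)) :
    (∀ j, 0 < j → j < g → Perp ρ (tA 0) (tB j)) ∧ (∀ j, 0 < j → j < g → Perp ρ (tA 0) (tA j)) ∧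
      ∀ j, j + 1 < g → Perp ρ (tA 0) (tC j) := by
  have cB : ∀ j, 0 < j → j < g → Commute (tA 0) (tB j) := fun j h1 h2 =>
    T.cAB 0 j (by omega) h2 (by omega)
  have cA : ∀ j, j < g → Commute (tA 0) (tA j) := fun j h2 => T.cAA 0 j (by omega) h2
  have cC : ∀ j, j + 1 < g → Commute (tA 0) (tC j) := fun j h2 => T.cAC 0 j (by omega) h2
  have hqB : Perp ρ (tA 0) (tB q) := h0.step (T.AB q hq) (cA q hq) (cB q hq0 hq)
  have up : ∀ j, q ≤ j → j < g → Perp ρ (tA 0) (tB j) := by
    intro j hj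
    induction j, hj using Nat.le_induction with
    | base => intro _; exact hqB
    | succ j hj ih =>
      intro hjg
      have h2 := (ih (by omega)).step (T.BC j (by omega)) (cB j (by omega) (by omega))
        (cC j (by omega))
      exact h2.step (T.CB j (by omega)) (cC j (by omega)) (cB (j + 1) (by omega) hjg)
  have down : ∀ k j, j + k = q → 0 < j → Perp ρ (tA 0) (tB j) := by
    intro k
    induction k with
    | zero =>
      intro j hj _
      have : j = q := by omega
      rw [this]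
      exact hqB
    | succ k ih =>
      intro j hj hj0
      have h2 := (ih (j + 1) (by omega) (by omega)).step (T.CB j (by omega)).symm
        (cB (j + 1) (by omega) (by omega)) (cC j (by omega))
      exact h2.step (T.BC j (by omega)).symm (cC j (by omega)) (cB j hj0 (by omega))
  have h1 : ∀ j, 0 < j → j < g → Perp ρ (tA 0) (tB j) := by
    intro j hj0 hj
    rcases le_total q j with h | h
    · exact up j h hj
    · exact down (q - j) j (by omega) hj0
  refine ⟨h1, fun j hj0 hj => ?_, fun j hj => ?_⟩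
  · exact (h1 j hj0 hj).step (T.AB j hj).symm (cB j hj0 hj) (cA j hj)
  · exact (h1 (j + 1) (by omega) hj).step (T.CB j hj).symm (cB (j + 1) (by omega) hj) (cC j hj)

/-- All non adjacent distinct vertices are perpendicular. -/
theorem all (T : TreeGrp g tA tB tC) {q : ℕ} (hq0 : 0 < q) (hq : q < g)
    (h0 : Perp ρ (tA 0) (tA q)) :
    (∀ i j, i < g → j < g → i ≠ j → Perp ρ (tA i) (tA j)) ∧
    (∀ i j, i < g → j < g → i ≠ j → Perp ρ (tA i) (tB j)) ∧
    (∀ i j, i < g → j + 1 < g → Perp ρ (tA i) (tC j)) ∧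
    (∀ i j, i < g → j < g → i ≠ j → Perp ρ (tB i) (tB j)) ∧
    (∀ i j, i < g → j + 1 < g → i ≠ j → i ≠ j + 1 → Perp ρ (tB i) (tC j)) ∧
    ∀ i j, i + 1 < g → j + 1 < g → i ≠ j → Perp ρ (tC i) (tC j) := by
  obtain ⟨f1, f2, f3⟩ := T.first hq0 hq h0
  have hl0 : g - 1 < g := by omega
  -- the last leaf
  obtain ⟨l1, l2, l3⟩ := T.left (ρ := ρ) (s := tA (g - 1)) (i := g - 1) (by omega)
    (f2 (g - 1) (by omega) hl0).symm (fun j hj => T.cAA _ j hl0 (by omega))
    (fun j hj => T.cAB _ j hl0 (by omega) (by omega))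
    (fun j hj => T.cAC _ j hl0 (by omega))
  have l3' : ∀ j, j + 1 < g → Perp ρ (tA (g - 1)) (tC j) := by
    intro j hj
    exact (l1 j (by omega)).step (T.BC j hj) (T.cAB _ j hl0 (by omega) (by omega))
      (T.cAC _ j hl0 hj)
  -- the vertices A
  have hAA : ∀ i j, i < g → j < g → i ≠ j → Perp ρ (tA i) (tA j) ∧ Perp ρ (tA i) (tB j) := by
    intro i j hi hj hij
    rcases Nat.lt_or_gt_of_ne hij with h | h
    · -- j on the right
      have h1 : Perp ρ (tA i) (tA (g - 1)) := by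
        exact (l2 i (by omega)).symm
      obtain ⟨r1, r2, r3⟩ := T.right (ρ := ρ) (s := tA i) (i := i + 1) (by omega) h1
        (fun k _ hk => T.cAA _ k hi hk) (fun k hk hk' => T.cAB _ k hi hk' (by omega))
        (fun k _ hk => T.cAC _ k hi hk)
      exact ⟨r2 j (by omega) hj, r1 j (by omega) hj⟩
    · obtain ⟨r1, r2, r3⟩ := T.left (ρ := ρ) (s := tA i) (i := i) (by omega)
        (f2 i (by omega) hi).symm (fun k hk => T.cAA _ k hi (by omega))
        (fun k hk => T.cAB _ k hi (by omega) (by omega)) (fun k hk => T.cAC _ k hi (by omega))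
      exact ⟨r2 j (by omega), r1 j (by omega)⟩
  have hAC : ∀ i j, i < g → j + 1 < g → Perp ρ (tA i) (tC j) := by
    intro i j hi hj
    by_cases h : i = j
    · subst h
      exact (hAA i (i + 1) hi hj (by omega)).2.step (T.CB i hj).symm
        (T.cAB _ _ hi hj (by omega)) (T.cAC _ _ hi hj)
    · exact (hAA i j hi (by omega) h).2.step (T.BC j hj) (T.cAB _ _ hi (by omega) h)
        (T.cAC _ _ hi hj)
  have hBB : ∀ i j, i < g → j < g → i ≠ j → Perp ρ (tB i) (tB j) := by
    intro i j hi hj hij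
    exact (hAA j i hj hi (Ne.symm hij)).2.symm.step (T.AB j hj) (T.cAB _ _ hj hi (Ne.symm hij)).symm
      (T.cBB _ _ hi hj)
  have hBC : ∀ i j, i < g → j + 1 < g → i ≠ j → i ≠ j + 1 → Perp ρ (tB i) (tC j) := by
    intro i j hi hj h1 h2
    exact (hBB i j hi (by omega) h1).step (T.BC j hj) (T.cBB _ _ hi (by omega))
      (T.cBC _ _ hi hj h1 h2)
  have hCC : ∀ i j, i + 1 < g → j + 1 < g → i ≠ j → Perp ρ (tC i) (tC j) := by
    intro i j hi hj hij
    by_cases h : i = j + 1
    · -- use B_j, adjacent to C_j and not to C_(j+1)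
      subst h
      exact (hBC j (j + 1) (by omega) hi (by omega) (by omega)).symm.step (T.BC j hj)
        (T.cBC _ _ (by omega) hi (by omega) (by omega)).symm (T.cCC _ _ hi hj)
    · -- use B_(j+1), adjacent to C_j and not to C_i
      exact (hBC (j + 1) i hj hi (by omega) (by omega)).symm.step (T.CB j hj).symm
        (T.cBC _ _ hj hi (by omega) (by omega)).symm (T.cCC _ _ hi hj)
  exact ⟨fun i j hi hj h => (hAA i j hi hj h).1, fun i j hi hj h => (hAA i j hi hj h).2, hAC, hBB,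
    hBC, hCC⟩

/-- The squares, from a lantern relation. -/
theorem squares (T : TreeGrp g tA tB tC) {q q' : ℕ} (hq0 : 0 < q) (hq : q < g)
    (h0 : Perp ρ (tA 0) (tA q)) (hq0' : 0 < q') (hq' : q' < g)
    (hlan : tA 0 ∈ Subgroup.closure {x | ∃ k, Commute k (tA 0) ∧ x = k * tA q' * k⁻¹}) :
    (∀ i, i < g → Perp ρ (tA i) (tA i)) ∧ (∀ i, i < g → Perp ρ (tB i) (tB i)) ∧
      ∀ i, i + 1 < g → Perp ρ (tC i) (tC i) := by
  have h1 := (T.first hq0 hq h0).2.1 q' hq0' hq'
  have h2 : Perp ρ (tA 0) (tA 0) := by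
    have h3 : Subgroup.closure {x | ∃ k, Commute k (tA 0) ∧ x = k * tA q' * k⁻¹} ≤
        perpSub ρ (tA 0) := by
      rw [Subgroup.closure_le]
      rintro _ ⟨k, hk, rfl⟩
      exact h1.conj_right hk
    exact h3 hlan
  have hB : ∀ i, i < g → Perp ρ (tB i) (tB i) := by
    intro i
    induction i with
    | zero => intro h; exact h2.self_step (T.AB 0 h)
    | succ i ih =>
      intro h
      exact ((ih (by omega)).self_step (T.BC i h)).self_step (T.CB i h)
  exact ⟨fun i hi => (hB i hi).self_step (T.AB i hi).symm, hB,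
    fun i hi => (hB i (by omega)).self_step (T.BC i hi)⟩

end TreeGrp

/-- The index type of the tree. -/
abbrev Ix (g : ℕ) : Type := Fin g ⊕ (Fin g ⊕ Fin (g - 1))

/-- The parent. -/
def ixPar {g : ℕ} : Ix g → Ix g
  | Sum.inl i => Sum.inr (Sum.inl i)
  | Sum.inr (Sum.inl i) =>
    if h : (i : ℕ) = 0 then Sum.inr (Sum.inl i) else Sum.inr (Sum.inr ⟨i - 1, by omega⟩)
  | Sum.inr (Sum.inr i) => Sum.inr (Sum.inl ⟨i, by omega⟩)

/-- The distance from the root. -/
def ixRk {g : ℕ} : Ix g → ℕ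
  | Sum.inl i => 2 * i + 1
  | Sum.inr (Sum.inl i) => 2 * i
  | Sum.inr (Sum.inr i) => 2 * i + 1

/-- The tree. -/
def tr (g : ℕ) : RTree (Ix g) where
  par := ixPar
  rk := ixRk
  lt := by
    rintro (i | i | i) h
    · simp [ixPar, ixRk]
    · have h' : (i : ℕ) ≠ 0 := by
        intro h0
        apply h
        simp [ixRk, h0]
      simp only [ixPar, dif_neg h', ixRk]
      omega
    · simp [ixPar, ixRk]
  root := by
    rintro (i | i | i) (j | j | j) h1 h2 <;> simp only [ixRk] at h1 h2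
    all_goals try omega
    congr 2
    apply Fin.ext
    omega

/-- The elements attached to the vertices. -/
def tt {g : ℕ} (tA tB tC : ℕ → Γ) : Ix g → Γ
  | Sum.inl i => tA i
  | Sum.inr (Sum.inl i) => tB i
  | Sum.inr (Sum.inr i) => tC i

section adj

variable {g : ℕ}

lemma adj_AB (i j : Fin g) : (tr g).Adj (Sum.inl i) (Sum.inr (Sum.inl j)) ↔ i = j := by
  constructor
  · rintro (⟨_, h⟩ | ⟨h1, h⟩)
    · simpa [tr, ixPar] using h
    · exfalso
      simp only [tr, ixPar, ixRk] at h h1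
      rw [dif_neg (by omega)] at h
      simp at h
  · rintro rfl
    exact Or.inl ⟨by simp [tr, ixRk], rfl⟩

lemma adj_AA (i j : Fin g) : ¬ (tr g).Adj (Sum.inl i) (Sum.inl j) := by
  rintro (⟨_, h⟩ | ⟨_, h⟩) <;> simp [tr, ixPar] at h

lemma adj_AC (i : Fin g) (j : Fin (g - 1)) : ¬ (tr g).Adj (Sum.inl i) (Sum.inr (Sum.inr j)) := by
  rintro (⟨_, h⟩ | ⟨_, h⟩) <;> simp [tr, ixPar] at h

lemma adj_BB (i j : Fin g) : ¬ (tr g).Adj (Sum.inr (Sum.inl i)) (Sum.inr (Sum.inl j)) := by
  rintro (⟨h1, h⟩ | ⟨h1, h⟩)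
  · simp only [tr, ixPar, ixRk] at h h1
    rw [dif_neg (by omega)] at h
    simp at h
  · simp only [tr, ixPar, ixRk] at h h1
    rw [dif_neg (by omega)] at h
    simp at h

lemma adj_BC (i : Fin g) (j : Fin (g - 1)) :
    (tr g).Adj (Sum.inr (Sum.inl i)) (Sum.inr (Sum.inr j)) ↔
      (i : ℕ) = j ∨ (i : ℕ) = j + 1 := by
  constructor
  · rintro (⟨h1, h⟩ | ⟨_, h⟩)
    · simp only [tr, ixPar, ixRk] at h h1
      rw [dif_neg (by omega)] at h
      have h2 := congrArg Fin.val (Sum.inr_injective (Sum.inr_injective h))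
      simp only at h2
      right
      omega
    · simp only [tr, ixPar] at h
      have h2 := congrArg Fin.val (Sum.inl_injective (Sum.inr_injective h))
      simp only at h2
      left
      omega
  · rintro (h | h)
    · right
      refine ⟨by simp [tr, ixRk], ?_⟩
      simp only [tr, ixPar]
      congr 2
      exact Fin.ext h.symm
    · left
      refine ⟨by simp only [tr, ixRk]; omega, ?_⟩
      simp only [tr, ixPar]
      rw [dif_neg (by omega)]
      congr 2
      apply Fin.ext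
      simp only
      omega

lemma adj_CC (i j : Fin (g - 1)) :
    ¬ (tr g).Adj (Sum.inr (Sum.inr i)) (Sum.inr (Sum.inr j)) := by
  rintro (⟨_, h⟩ | ⟨_, h⟩) <;> simp [tr, ixPar] at h

end adj

namespace TreeGrp

variable {g : ℕ} {tA tB tC : ℕ → Γ} {ρ : Γ →* Module.End F V}

/-- All non adjacent vertices, equal ones included, are perpendicular. -/
theorem perp_of_not_adj (T : TreeGrp g tA tB tC) {q q' : ℕ} (hq0 : 0 < q) (hq : q < g)
    (h0 : Perp ρ (tA 0) (tA q)) (hq0' : 0 < q') (hq' : q' < g)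
    (hlan : tA 0 ∈ Subgroup.closure {x | ∃ k, Commute k (tA 0) ∧ x = k * tA q' * k⁻¹})
    (s u : Ix g) (hsu : ¬ (tr g).Adj s u) :
    Perp ρ (tt tA tB tC s) (tt tA tB tC u) := by
  obtain ⟨a1, a2, a3, a4, a5, a6⟩ := T.all hq0 hq h0
  obtain ⟨s1, s2, s3⟩ := T.squares hq0 hq h0 hq0' hq' hlan
  rcases s with i | i | i <;> rcases u with j | j | j
  · by_cases h : (i : ℕ) = j
    · show Perp ρ (tA i) (tA j)
      rw [h]
      exact s1 j j.2
    · exact a1 i j i.2 j.2 h
  · rw [adj_AB] at hsu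
    exact a2 i j i.2 j.2 fun h => hsu (Fin.ext h)
  · exact a3 i j i.2 (by omega)
  · have hsu' : ¬ (tr g).Adj (Sum.inl j) (Sum.inr (Sum.inl i)) := fun h => hsu (RTree.adj_symm _ h)
    rw [adj_AB] at hsu'
    exact (a2 j i j.2 i.2 fun h => hsu' (Fin.ext h)).symm
  · by_cases h : (i : ℕ) = j
    · show Perp ρ (tB i) (tB j)
      rw [h]
      exact s2 j j.2
    · exact a4 i j i.2 j.2 h
  · rw [adj_BC, not_or] at hsu
    exact a5 i j i.2 (by omega) hsu.1 hsu.2
  · exact (a3 j i j.2 (by omega)).symm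
  · have hsu' : ¬ (tr g).Adj (Sum.inr (Sum.inl j)) (Sum.inr (Sum.inr i)) :=
      fun h => hsu (RTree.adj_symm _ h)
    rw [adj_BC, not_or] at hsu'
    exact (a5 j i j.2 (by omega) hsu'.1 hsu'.2).symm
  · by_cases h : (i : ℕ) = j
    · show Perp ρ (tC i) (tC j)
      rw [h]
      exact s3 j (by omega)
    · exact a6 i j (by omega) (by omega) h

/-- Adjacent vertices satisfy the braid relation. -/
theorem braid_of_adj (T : TreeGrp g tA tB tC) (s u : Ix g) (hsu : (tr g).Adj s u) :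
    tt tA tB tC s * tt tA tB tC u * tt tA tB tC s =
      tt tA tB tC u * tt tA tB tC s * tt tA tB tC u := by
  rcases s with i | i | i <;> rcases u with j | j | j
  · exact absurd hsu (adj_AA i j)
  · rw [adj_AB] at hsu
    subst hsu
    exact T.AB i i.2
  · exact absurd hsu (adj_AC i j)
  · have h := RTree.adj_symm _ hsu
    rw [adj_AB] at h
    subst h
    exact (T.AB j j.2).symm
  · exact absurd hsu (adj_BB i j)
  · rw [adj_BC] at hsu
    rcases hsu with h | h
    · show tB i * tC j * tB i = tC j * tB i * tC j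
      rw [h]
      exact T.BC j (by omega)
    · show tB i * tC j * tB i = tC j * tB i * tC j
      rw [h]
      exact (T.CB j (by omega)).symm
  · exact absurd (RTree.adj_symm _ hsu) (adj_AC j i)
  · have h := RTree.adj_symm _ hsu
    rw [adj_BC] at h
    rcases h with h | h
    · show tC i * tB j * tC i = tB j * tC i * tB j
      rw [h]
      exact (T.BC i (by omega)).symm
    · show tC i * tB j * tC i = tB j * tC i * tB j
      rw [h]
      exact T.CB i (by omega)
  · exact absurd hsu (adj_CC i j)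

/-- The abstract form of the theorem: a representation without invariants and coinvariants of a
group generated by the vertices of the tree, in which one pair of leaves is perpendicular and the
lantern relation holds, factors through the symplectic module of the tree. -/
theorem treeRep {H : Type*} [AddCommGroup H] [Module F H] (T : TreeGrp g tA tB tC)
    (hgen : Subgroup.closure (Set.range (tt (g := g) tA tB tC)) = ⊤) {q q' : ℕ} (hq0 : 0 < q)
    (hq : q < g) (h0 : Perp ρ (tA 0) (tA q)) (hq0' : 0 < q') (hq' : q' < g)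
    (hlan : tA 0 ∈ Subgroup.closure {x | ∃ k, Commute k (tA 0) ∧ x = k * tA q' * k⁻¹})
    (ρH : Γ →* Module.End F H) (h : Ix g → H) (ω : H →ₗ[F] H →ₗ[F] F)
    (alt : ∀ x y, ω x y = - ω y x)
    (act : ∀ s x, ρH (tt tA tB tC s) x = x + ω (h s) x • h s)
    (hadj : ∀ s u, (tr g).Adj s u → ω (h s) (h u) = 1 ∨ ω (h s) (h u) = -1)
    (hnadj : ∀ s u, ¬ (tr g).Adj s u → ω (h s) (h u) = 0)
    (inv : ∀ v : V, (∀ s : Ix g, ρ (tt tA tB tC s) v = v) → v = 0)
    (coinv : ⨆ s : Ix g, LinearMap.range (ρ (tt tA tB tC s) - 1) = ⊤) :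
    TreeRep (tr g) (tt tA tB tC) ρ ρH h ω where
  gen := hgen
  alt := alt
  act := act
  adj := hadj
  nadj := hnadj
  prod := fun s u hsu => (T.perp_of_not_adj hq0 hq h0 hq0' hq' hlan s u hsu).1
  braid := fun s u hsu => by
    rw [← map_mul, ← map_mul, ← map_mul, ← map_mul, T.braid_of_adj s u hsu]
  inv := inv
  coinv := coinv

end TreeGrp

end Pool.Agent.H.MP_59b15d_al.Lin
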