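/-
Commuting copies of a perfect group whose nontrivial representations have dimension at least `d`:
if `[V, G_i, G_j]` is not zero for all pairs then `dim V` is at least `d^2` times the number of pairs.
-/
import Mathlib

set_option autoImplicit false

namespace Pool.Agent.H.MP_59b15d_al.Lin

universe u v w

open Module

/-- Every representation of `G` over `F` of dimension less than `d` is trivial. -/
def MinDim (F : Type u) [Field F] (G : Type w) [Group G] (d : ℕ) : Prop :=
  ∀ (W : Type v) [AddCommGroup W] [Module F W] [FiniteDimensional F W]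
    (σ : G →* Module.End F W), finrank F W < d → σ = 1

section

variable {F : Type u} [Field F] {G : Type w} [Group G] {ι : Type*}
variable {V : Type v} [AddCommGroup V] [Module F V]

/-- The restriction of a representation to an invariant subspace. -/
def resRep (σ : G →* Module.End F V) (U : Submodule F V) (hU : ∀ x, ∀ u ∈ U, σ x u ∈ U) :
    G →* Module.End F U where
  toFun x := (σ x).restrict (hU x)
  map_one' := by
    ext u
    simp
  map_mul' x y := by
    ext u
    simp

@[simp] lemma resRep_apply (σ : G →* Module.End F V) (U : Submodule F V)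
    (hU : ∀ x, ∀ u ∈ U, σ x u ∈ U) (x : G) (u : U) :
    ((resRep σ U hU x u : U) : V) = σ x u := rfl

/-- The representation on the quotient by an invariant subspace. -/
def quotRep (σ : G →* Module.End F V) (U : Submodule F V) (hU : ∀ x, ∀ u ∈ U, σ x u ∈ U) :
    G →* Module.End F (V ⧸ U) where
  toFun x := U.mapQ U (σ x) (hU x)
  map_one' := by
    ext u
    simp
  map_mul' x y := by
    ext u
    simp

@[simp] lemma quotRep_mk (σ : G →* Module.End F V) (U : Submodule F V)
    (hU : ∀ x, ∀ u ∈ U, σ x u ∈ U) (x : G) (u : V) :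
    quotRep σ U hU x (Submodule.Quotient.mk u) = Submodule.Quotient.mk (σ x u) := rfl

/-- A subspace is invariant under the members of the family with index in `S`. -/
def InvF (ρ : ι → G →* Module.End F V) (S : Finset ι) (U : Submodule F V) : Prop :=
  ∀ i ∈ S, ∀ x, ∀ u ∈ U, ρ i x u ∈ U

end

section schur

variable {F : Type u} [Field F] {G : Type w} [Group G] {ι : Type*}
variable {V : Type v} [AddCommGroup V] [Module F V]

/-- A minimal invariant subspace exists. -/
lemma exists_min [FiniteDimensional F V] [Nontrivial V] (ρ : ι → G →* Module.End F V)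
    (S : Finset ι) : ∃ U : Submodule F V, U ≠ ⊥ ∧ InvF ρ S U ∧
      ∀ U' : Submodule F V, InvF ρ S U' → U' ≤ U → U' = ⊥ ∨ U' = U := by
  classical
  let P : ℕ → Prop := fun n => ∃ U : Submodule F V, U ≠ ⊥ ∧ InvF ρ S U ∧ finrank F U = n
  have hP : ∃ n, P n := ⟨finrank F (⊤ : Submodule F V), ⊤, by
    intro h
    exact (bot_ne_top (α := Submodule F V)) h.symm, fun i _ x u _ => Submodule.mem_top, rfl⟩
  obtain ⟨U, hU1, hU2, hU3⟩ := Nat.find_spec hP
  refine ⟨U, hU1, hU2, fun U' h1 h2 => ?_⟩
  by_cases h3 : U' = ⊥
  · exact Or.inl h3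
  · right
    have h4 : Nat.find hP ≤ finrank F U' := Nat.find_min' hP ⟨U', h3, h1, rfl⟩
    exact Submodule.eq_of_le_of_finrank_le h2 (hU3 ▸ h4)

/-- The space of maps from an invariant subspace to `V` which commute with the family. -/
def homF (ρ : ι → G →* Module.End F V) (S : Finset ι) (U : Submodule F V) :
    Submodule F (U →ₗ[F] V) where
  carrier := {f | ∀ i ∈ S, ∀ x, ∀ (u : U) (hu : ρ i x u ∈ U), f ⟨ρ i x u, hu⟩ = ρ i x (f u)}
  add_mem' := by
    intro f g hf hg i hi x u hu
    rw [LinearMap.add_apply, LinearMap.add_apply, hf i hi x u hu, hg i hi x u hu, map_add]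
  zero_mem' := by
    intro i hi x u hu
    simp
  smul_mem' := by
    intro c f hf i hi x u hu
    rw [LinearMap.smul_apply, LinearMap.smul_apply, hf i hi x u hu, map_smul]

lemma mem_homF {ρ : ι → G →* Module.End F V} {S : Finset ι} {U : Submodule F V}
    {f : U →ₗ[F] V} : f ∈ homF ρ S U ↔
      ∀ i ∈ S, ∀ x, ∀ (u : U) (hu : ρ i x u ∈ U), f ⟨ρ i x u, hu⟩ = ρ i x (f u) := Iff.rfl

/-- Schur's lemma: for a minimal invariant subspace over an algebraically closed field, the
equivariant endomorphisms are scalars. -/
lemma schur [IsAlgClosed F] [FiniteDimensional F V] {ρ : ι → G →* Module.End F V} {S : Finset ι}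
    {U : Submodule F V} (hU : U ≠ ⊥) (hinv : InvF ρ S U)
    (hmin : ∀ U' : Submodule F V, InvF ρ S U' → U' ≤ U → U' = ⊥ ∨ U' = U)
    (α : U →ₗ[F] U) (hα : ∀ i (hi : i ∈ S), ∀ x, ∀ u : U,
      (α ⟨ρ i x u, hinv i hi x u u.2⟩ : V) = ρ i x (α u)) : ∃ c : F, α = c • LinearMap.id := by
  have : Nontrivial U := (Submodule.nontrivial_iff_ne_bot).2 hU
  obtain ⟨c, hc⟩ := Module.End.exists_eigenvalue (K := F) (V := U) α
  refine ⟨c, ?_⟩
  let E : Submodule F V := (Module.End.eigenspace α c).map U.subtype
  have hE1 : InvF ρ S E := by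
    intro i hi x u hu
    obtain ⟨w, hw, rfl⟩ := hu
    refine ⟨⟨ρ i x w, hinv i hi x w w.2⟩, ?_, rfl⟩
    have hw' : α w = c • w := Module.End.mem_eigenspace_iff.1 hw
    refine Module.End.mem_eigenspace_iff.2 ?_
    apply Subtype.ext
    rw [hα i hi x w, hw']
    simp
  have hE2 : E ≤ U := by
    rintro _ ⟨w, _, rfl⟩
    exact w.2
  have hE3 : E ≠ ⊥ := by
    intro h0
    obtain ⟨w, hw⟩ := hc.exists_hasEigenvector
    have h1 : (w : V) ∈ E := ⟨w, hw.1, rfl⟩
    rw [h0, Submodule.mem_bot] at h1
    exact hw.2 (Subtype.ext h1)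
  have hE4 : E = U := (hmin E hE1 hE2).resolve_left hE3
  have h6 : ∀ u : U, α u = c • u := by
    intro u
    have h1 : (u : V) ∈ E := by rw [hE4]; exact u.2
    obtain ⟨w, hw, hwu⟩ := h1
    have hwu' : w = u := Subtype.ext hwu
    rw [← hwu']
    exact Module.End.mem_eigenspace_iff.1 hw
  exact LinearMap.ext fun u => by rw [h6 u]; rfl

/-- Independent equivariant maps from a minimal invariant subspace have independent images. -/
lemma sum_inj [IsAlgClosed F] [FiniteDimensional F V] {ρ : ι → G →* Module.End F V} {S : Finset ι}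
    {U : Submodule F V} (hU : U ≠ ⊥) (hinv : InvF ρ S U)
    (hmin : ∀ U' : Submodule F V, InvF ρ S U' → U' ≤ U → U' = ⊥ ∨ U' = U) :
    ∀ (m : ℕ) (f : Fin m → (U →ₗ[F] V)), (∀ k, f k ∈ homF ρ S U) → LinearIndependent F f →
      ∀ u : Fin m → U, ∑ k, f k (u k) = 0 → u = 0 := by
  intro m
  induction m with
  | zero =>
    intro f _ _ u _
    exact funext fun k => k.elim0
  | succ m ih =>
    intro f hf hli u hu
    have hli' : LinearIndependent F (fun k : Fin m => f k.succ) :=
      hli.comp _ (Fin.succ_injective m)
    have ih' := ih (fun k => f k.succ) (fun k => hf k.succ) hli'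
    rw [Fin.sum_univ_succ] at hu
    by_cases hu0 : u 0 = 0
    · rw [hu0, map_zero, zero_add] at hu
      have h1 := ih' (fun k => u k.succ) hu
      funext k
      refine Fin.cases hu0 (fun k => ?_) k
      exact congrFun h1 k
    · exfalso
      -- the sum map of the tail
      let sm : (Fin m → U) →ₗ[F] V := ∑ k, (f (Fin.succ k)) ∘ₗ LinearMap.proj k
      have hsm : ∀ w, sm w = ∑ k : Fin m, f k.succ (w k) := by
        intro w
        simp [sm, LinearMap.sum_apply]
      have hinj : Function.Injective sm := by
        rw [← LinearMap.ker_eq_bot, eq_bot_iff]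
        intro w hw
        rw [LinearMap.mem_ker, hsm] at hw
        exact ih' w hw
      let act : ∀ i ∈ S, G → (Fin m → U) → (Fin m → U) := fun i hi x w k =>
        ⟨ρ i x (w k), hinv i hi x (w k) (w k).2⟩
      have hact : ∀ i (hi : i ∈ S) x w, sm (act i hi x w) = ρ i x (sm w) := by
        intro i hi x w
        rw [hsm, hsm, map_sum]
        refine Finset.sum_congr rfl fun k _ => ?_
        exact hf k.succ i hi x (w k) (hinv i hi x (w k) (w k).2)
      let U' : Submodule F V := (Submodule.comap (f 0) (LinearMap.range sm)).map U.subtype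
      have hU'1 : InvF ρ S U' := by
        rintro i hi x _ ⟨w, hw, rfl⟩
        obtain ⟨z, hz⟩ := hw
        refine ⟨⟨ρ i x w, hinv i hi x w w.2⟩, ?_, rfl⟩
        refine ⟨act i hi x z, ?_⟩
        rw [hact i hi x z, hz]
        exact (hf 0 i hi x w (hinv i hi x w w.2)).symm
      have hU'2 : U' ≤ U := by
        rintro _ ⟨w, _, rfl⟩
        exact w.2
      have hU'3 : U' ≠ ⊥ := by
        intro h0
        apply hu0
        have h1 : ((u 0 : U) : V) ∈ U' := by
          refine ⟨u 0, ⟨-(fun k => u k.succ), ?_⟩, rfl⟩
          rw [map_neg, hsm]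
          exact neg_eq_of_add_eq_zero_left hu
        rw [h0, Submodule.mem_bot] at h1
        exact Subtype.ext h1
      have hU'4 : U' = U := (hmin U' hU'1 hU'2).resolve_left hU'3
      have hall : ∀ w : U, f 0 w ∈ LinearMap.range sm := by
        intro w
        have h1 : (w : V) ∈ U' := by rw [hU'4]; exact w.2
        obtain ⟨w', hw', hww⟩ := h1
        have h2 : w' = w := Subtype.ext hww
        exact h2 ▸ hw'
      let e : (Fin m → U) ≃ₗ[F] LinearMap.range sm := LinearEquiv.ofInjective sm hinj
      let β : U →ₗ[F] (Fin m → U) := e.symm.toLinearMap ∘ₗ (f 0).codRestrict _ hall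
      have hβ : ∀ w, sm (β w) = f 0 w := by
        intro w
        have h1 : e (β w) = (f 0).codRestrict _ hall w := by
          show e (e.symm _) = _
          rw [LinearEquiv.apply_symm_apply]
        have h2 := congrArg Subtype.val h1
        exact h2
      have hc : ∀ k : Fin m, ∃ c : F, (LinearMap.proj k ∘ₗ β) = c • (LinearMap.id : U →ₗ[F] U) := by
        intro k
        refine schur hU hinv hmin _ ?_
        intro i hi x w
        have h1 : β ⟨ρ i x w, hinv i hi x w w.2⟩ = act i hi x (β w) := by
          apply hinj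
          rw [hβ, hact i hi x (β w), hβ]
          exact hf 0 i hi x w (hinv i hi x w w.2)
        show ((β ⟨ρ i x w, hinv i hi x w w.2⟩ k : U) : V) = ρ i x (β w k)
        rw [h1]
      choose c hc using hc
      have h2 : f 0 = ∑ k : Fin m, c k • f k.succ := by
        ext w
        rw [← hβ w, hsm, LinearMap.sum_apply]
        refine Finset.sum_congr rfl fun k _ => ?_
        have h3 := LinearMap.congr_fun (hc k) w
        have h4 : β w k = c k • w := h3
        rw [h4, map_smul, LinearMap.smul_apply]
      have h3 := Fintype.linearIndependent_iff.1 hli (Fin.cons (-1) c) (by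
        rw [Fin.sum_univ_succ]
        simp only [Fin.cons_zero, Fin.cons_succ]
        rw [← h2]
        simp) 0
      simp at h3

/-- The dimension of `V` is at least the dimension of the minimal subspace times the dimension of
the space of equivariant maps. -/
lemma mul_le [IsAlgClosed F] [FiniteDimensional F V] {ρ : ι → G →* Module.End F V} {S : Finset ι}
    {U : Submodule F V} (hU : U ≠ ⊥) (hinv : InvF ρ S U)
    (hmin : ∀ U' : Submodule F V, InvF ρ S U' → U' ≤ U → U' = ⊥ ∨ U' = U) :
    finrank F (homF ρ S U) * finrank F U ≤ finrank F V := by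
  let b := Module.finBasis F (homF ρ S U)
  let f : Fin (finrank F (homF ρ S U)) → (U →ₗ[F] V) := fun k => (b k : U →ₗ[F] V)
  have hli : LinearIndependent F f :=
    b.linearIndependent.map' (homF ρ S U).subtype (Submodule.ker_subtype _)
  let sm : (Fin (finrank F (homF ρ S U)) → U) →ₗ[F] V := ∑ k, (f k) ∘ₗ LinearMap.proj k
  have hsm : ∀ w, sm w = ∑ k, f k (w k) := by
    intro w
    simp [sm, LinearMap.sum_apply]
  have hinj : Function.Injective sm := by
    rw [← LinearMap.ker_eq_bot, eq_bot_iff]
    intro w hw
    rw [LinearMap.mem_ker, hsm] at hw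
    exact sum_inj hU hinv hmin _ f (fun k => (b k).2) hli w hw
  have h1 := LinearMap.finrank_le_finrank_of_injective hinj
  rwa [Module.finrank_pi_fintype, Finset.sum_const, Finset.card_univ, Fintype.card_fin,
    smul_eq_mul] at h1

end schur

section bound

variable {F : Type u} [Field F] {G : Type w} [Group G] {ι : Type*}

/-- The representation of `G` on the equivariant maps. -/
def homRep {V : Type v} [AddCommGroup V] [Module F V] (ρ : ι → G →* Module.End F V) (S : Finset ι)
    (U : Submodule F V) (i : ι) (hc : ∀ j ∈ S, ∀ x y, ρ i x * ρ j y = ρ j y * ρ i x) :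
    G →* Module.End F (homF ρ S U) where
  toFun x :=
    { toFun := fun f => ⟨ρ i x ∘ₗ (f : U →ₗ[F] V), by
        intro j hj y u hu
        rw [LinearMap.comp_apply, LinearMap.comp_apply, f.2 j hj y u hu]
        exact LinearMap.congr_fun (hc j hj x y) ((f : U →ₗ[F] V) u)⟩
      map_add' := by
        intro f g
        apply Subtype.ext
        exact LinearMap.comp_add _ _ _
      map_smul' := by
        intro c f
        apply Subtype.ext
        exact LinearMap.comp_smul _ _ _ }
  map_one' := by
    apply LinearMap.ext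
    intro f
    apply Subtype.ext
    apply LinearMap.ext
    intro u
    simp
  map_mul' x y := by
    apply LinearMap.ext
    intro f
    apply Subtype.ext
    apply LinearMap.ext
    intro u
    simp

open Classical in
/-- **Support bound.** If `V` is irreducible under pairwise commuting representations of `G` with
index in `S`, all nontrivial, then its dimension is at least `d ^ |S|`. -/
theorem irr_bound [IsAlgClosed F] {d : ℕ} (hd : MinDim.{u, v, w} F G d) (S : Finset ι) :
    ∀ (V : Type v) [AddCommGroup V] [Module F V] [FiniteDimensional F V] [Nontrivial V]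
      (ρ : ι → G →* Module.End F V),
      (∀ i j, i ≠ j → ∀ x y, ρ i x * ρ j y = ρ j y * ρ i x) →
      (∀ U : Submodule F V, InvF ρ S U → U = ⊥ ∨ U = ⊤) →
      (∀ i ∈ S, ρ i ≠ 1) → d ^ S.card ≤ finrank F V := by
  induction S using Finset.induction_on with
  | empty =>
    intro V _ _ _ _ ρ _ _ _
    rw [Finset.card_empty, pow_zero]
    exact Module.finrank_pos
  | insert i S hi ih =>
    intro V _ _ _ _ ρ hcomm hirr hnt
    obtain ⟨U, hU1, hU2, hU3⟩ := exists_min ρ S
    have hUtop : U ≠ ⊤ → ¬ (∀ x, ∀ u ∈ U, ρ i x u ∈ U) := by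
      intro h1 h2
      have h3 : InvF ρ (insert i S) U := by
        intro j hj x u hu
        rcases Finset.mem_insert.1 hj with rfl | hj
        · exact h2 x u hu
        · exact hU2 j hj x u hu
      rcases hirr U h3 with h4 | h4
      · exact hU1 h4
      · exact h1 h4
    -- the representations on `U`
    let ρ' : ι → G →* Module.End F U := fun j =>
      if hj : j ∈ S then resRep (ρ j) U (hU2 j hj) else 1
    have hρ' : ∀ j (hj : j ∈ S) x (u : U), ((ρ' j x u : U) : V) = ρ j x u := by
      intro j hj x u
      simp only [ρ', dif_pos hj]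
      rfl
    have hρ1 : ∀ j, j ∉ S → ρ' j = 1 := by
      intro j hj
      simp only [ρ', dif_neg hj]
    have : Nontrivial U := (Submodule.nontrivial_iff_ne_bot).2 hU1
    have h1 : d ^ S.card ≤ finrank F U := by
      refine ih U ρ' ?_ ?_ ?_
      · intro j k hjk x y
        by_cases hj : j ∈ S
        · by_cases hk : k ∈ S
          · apply LinearMap.ext
            intro u
            apply Subtype.ext
            rw [Module.End.mul_apply, Module.End.mul_apply, hρ' j hj, hρ' k hk, hρ' k hk,
              hρ' j hj]
            exact LinearMap.congr_fun (hcomm j k hjk x y) (u : V)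
          · rw [hρ1 k hk, MonoidHom.one_apply, mul_one, one_mul]
        · rw [hρ1 j hj, MonoidHom.one_apply, mul_one, one_mul]
      · intro W hW
        have h2 : InvF ρ S (W.map U.subtype) := by
          rintro j hj x _ ⟨u, hu, rfl⟩
          exact ⟨ρ' j x u, hW j hj x u hu, hρ' j hj x u⟩
        have h3 : W.map U.subtype ≤ U := by
          rintro _ ⟨u, _, rfl⟩
          exact u.2
        rcases hU3 _ h2 h3 with h4 | h4
        · left
          rw [eq_bot_iff]
          intro u hu
          have h5 : (u : V) ∈ W.map U.subtype := ⟨u, hu, rfl⟩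
          rw [h4, Submodule.mem_bot] at h5
          rw [Submodule.mem_bot]
          exact Subtype.ext h5
        · right
          rw [eq_top_iff]
          intro u _
          have h5 : (u : V) ∈ W.map U.subtype := by rw [h4]; exact u.2
          obtain ⟨u', hu', h6⟩ := h5
          have h7 : u' = u := Subtype.ext h6
          exact h7 ▸ hu'
      · intro j hj h2
        -- the fixed space of `ρ j` is everything
        have hjS : j ∈ insert i S := Finset.mem_insert_of_mem hj
        let E : Submodule F V := ⨅ x : G, LinearMap.ker (ρ j x - 1)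
        have hE : ∀ v, v ∈ E ↔ ∀ x, ρ j x v = v := by
          intro v
          simp only [E, Submodule.mem_iInf, LinearMap.mem_ker, LinearMap.sub_apply,
            Module.End.one_apply, sub_eq_zero]
        have hE1 : InvF ρ (insert i S) E := by
          intro k _ x v hv
          rw [hE] at hv ⊢
          intro y
          by_cases hkj : k = j
          · subst hkj
            rw [hv x, hv y]
          · have h3 := LinearMap.congr_fun (hcomm k j hkj x y) v
            rw [Module.End.mul_apply, Module.End.mul_apply, hv y] at h3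
            exact h3.symm
        rcases hirr E hE1 with h3 | h3
        · apply hU1
          rw [eq_bot_iff, ← h3]
          intro u hu
          rw [hE]
          intro x
          have h4 := hρ' j hj x ⟨u, hu⟩
          rw [h2] at h4
          exact h4.symm
        · apply hnt j hjS
          apply MonoidHom.ext
          intro x
          apply LinearMap.ext
          intro v
          have h4 : v ∈ E := by rw [h3]; exact Submodule.mem_top
          rw [hE] at h4
          rw [h4 x]
          rfl
    have h2 := mul_le hU1 hU2 hU3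
    have hci : ∀ j ∈ S, ∀ x y, ρ i x * ρ j y = ρ j y * ρ i x := by
      intro j hj x y
      refine hcomm i j ?_ x y
      rintro rfl
      exact hi hj
    have h3 : d ≤ finrank F (homF ρ S U) := by
      by_contra h4
      rw [not_le] at h4
      have h5 := hd (homF ρ S U) (homRep ρ S U i hci) h4
      have hincl : U.subtype ∈ homF ρ S U := by
        intro j hj x u hu
        rfl
      have h6 : ∀ x, ∀ u ∈ U, ρ i x u = u := by
        intro x u hu
        have h7 : homRep ρ S U i hci x ⟨U.subtype, hincl⟩ = ⟨U.subtype, hincl⟩ := by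
          rw [h5]
          rfl
        have h8 := congrArg (fun f : homF ρ S U => (f : U →ₗ[F] V) ⟨u, hu⟩) h7
        exact h8
      by_cases hUt : U = ⊤
      · apply hnt i (Finset.mem_insert_self i S)
        apply MonoidHom.ext
        intro x
        apply LinearMap.ext
        intro v
        rw [h6 x v (hUt ▸ Submodule.mem_top)]
        rfl
      · apply hUtop hUt
        intro x u hu
        rw [h6 x u hu]
        exact hu
    rw [Finset.card_insert_of_notMem hi, pow_succ, mul_comm]
    exact (Nat.mul_le_mul h3 h1).trans h2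

/-- The elementary inequality `k (k - 1) d^2 ≤ 2 d^k` for `d ≥ 3`. -/
lemma pow_ineq {d : ℕ} (hd : 3 ≤ d) (k : ℕ) : d ^ 2 * (k * (k - 1)) ≤ 2 * d ^ k := by
  rcases k with _ | _ | k
  · simp
  · simp
  · have h1 : ∀ k : ℕ, (k + 2) * (k + 1) ≤ 2 * 3 ^ k := by
      intro k
      induction k with
      | zero => norm_num
      | succ k ih =>
        have e1 : 2 * 3 ^ (k + 1) = 3 * (2 * 3 ^ k) := by ring
        rw [e1]
        nlinarith
    have h2 : (k + 2) * (k + 1) ≤ 2 * d ^ k :=
      (h1 k).trans (Nat.mul_le_mul_left 2 (Nat.pow_le_pow_left hd k))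
    have h3 : k + 1 + 1 - 1 = k + 1 := rfl
    rw [h3]
    calc d ^ 2 * ((k + 1 + 1) * (k + 1)) ≤ d ^ 2 * (2 * d ^ k) := Nat.mul_le_mul_left _ h2
      _ = 2 * d ^ (k + 1 + 1) := by ring

end bound

section pairs

open scoped commutatorElement

variable {F : Type u} [Field F] {G : Type w} [Group G] {ι : Type*}

/-- The span of the operators `σ x - 1`. -/
def aug {V : Type v} [AddCommGroup V] [Module F V] (σ : G →* Module.End F V) :
    Submodule F (Module.End F V) := Submodule.span F (Set.range fun x => σ x - 1)

/-- For a perfect group the span of the `σ x - 1` is idempotent. -/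
lemma aug_le {V : Type v} [AddCommGroup V] [Module F V] (σ : G →* Module.End F V)
    (hG : ∀ x : G, x ∈ commutator G) : aug σ ≤ aug σ * aug σ := by
  have hmem : ∀ x : G, σ x - 1 ∈ aug σ := fun x => Submodule.subset_span ⟨x, rfl⟩
  have hmul : ∀ (x : G) (A : Module.End F V), A ∈ aug σ * aug σ → A * σ x ∈ aug σ * aug σ := by
    intro x A hA
    induction hA using Submodule.mul_induction_on' with
    | mem_mul_mem m hm n hn =>
      have hn' : n * (σ x - 1) ∈ aug σ := by
        induction hn using Submodule.span_induction with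
        | mem y hy =>
          obtain ⟨z, rfl⟩ := hy
          have e2 : (σ z - 1) * (σ x - 1) = (σ (z * x) - 1) - (σ z - 1) - (σ x - 1) := by
            rw [map_mul]
            noncomm_ring
          show (σ z - 1) * (σ x - 1) ∈ aug σ
          rw [e2]
          exact Submodule.sub_mem _ (Submodule.sub_mem _ (hmem _) (hmem _)) (hmem _)
        | zero => rw [zero_mul]; exact Submodule.zero_mem _
        | add y z _ _ hy hz => rw [add_mul]; exact Submodule.add_mem _ hy hz
        | smul c y _ hy => rw [smul_mul_assoc]; exact Submodule.smul_mem _ _ hy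
      have e1 : m * n * σ x = m * (n * (σ x - 1)) + m * n := by
        noncomm_ring
      rw [e1]
      exact Submodule.add_mem _ (Submodule.mul_mem_mul hm hn') (Submodule.mul_mem_mul hm hn)
    | add y hy z hz h1 h2 => rw [add_mul]; exact Submodule.add_mem _ h1 h2
  rw [aug, Submodule.span_le]
  rintro _ ⟨x, rfl⟩
  have hx := hG x
  rw [commutator_eq_closure] at hx
  show σ x - 1 ∈ aug σ * aug σ
  have hx' : σ x - 1 ∈ aug σ * aug σ ∧ σ x⁻¹ - 1 ∈ aug σ * aug σ := by
    induction hx using Subgroup.closure_induction with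
    | mem y hy =>
      obtain ⟨a, b, rfl⟩ := hy
      have key : ∀ a b : G, σ ⁅a, b⁆ - 1 ∈ aug σ * aug σ := by
        intro a b
        have e1 : σ ⁅a, b⁆ - 1 =
            ((σ a - 1) * (σ b - 1) - (σ b - 1) * (σ a - 1)) * σ (a⁻¹ * b⁻¹) := by
          have e2 : (σ a - 1) * (σ b - 1) - (σ b - 1) * (σ a - 1) = σ (a * b) - σ (b * a) := by
            rw [map_mul, map_mul]
            noncomm_ring
          rw [e2, sub_mul, ← map_mul, ← map_mul, commutatorElement_def]
          have e3 : b * a * (a⁻¹ * b⁻¹) = 1 := by group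
          have e4 : a * b * (a⁻¹ * b⁻¹) = a * b * a⁻¹ * b⁻¹ := by group
          rw [e3, e4, map_one]
        rw [e1]
        exact hmul _ _ (Submodule.sub_mem _ (Submodule.mul_mem_mul (hmem _) (hmem _))
          (Submodule.mul_mem_mul (hmem _) (hmem _)))
      exact ⟨key a b, by rw [commutatorElement_inv]; exact key b a⟩
    | one => simp
    | mul y z _ _ hy hz =>
      constructor
      · have e1 : σ (y * z) - 1 = (σ y - 1) * σ z + (σ z - 1) := by
          rw [map_mul]
          noncomm_ring
        rw [e1]
        exact Submodule.add_mem _ (hmul _ _ hy.1) hz.1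
      · have e1 : σ (y * z)⁻¹ - 1 = (σ z⁻¹ - 1) * σ y⁻¹ + (σ y⁻¹ - 1) := by
          rw [mul_inv_rev, map_mul]
          noncomm_ring
        rw [e1]
        exact Submodule.add_mem _ (hmul _ _ hz.2) hy.2
    | inv y _ hy => exact ⟨hy.2, by rw [inv_inv]; exact hy.1⟩
  exact hx'.1

/-- The pair `(i, j)` is bad if `[V, G_i, G_j]` is not zero. -/
def Bad {V : Type v} [AddCommGroup V] [Module F V] (ρ : ι → G →* Module.End F V) (i j : ι) : Prop :=
  i ≠ j ∧ ∃ x y, (ρ i x - 1) * (ρ j y - 1) ≠ 0

/-- If a pair is good on an invariant subspace and on the quotient then it is good. -/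
lemma bad_ext {V : Type v} [AddCommGroup V] [Module F V] (ρ : ι → G →* Module.End F V)
    (hcomm : ∀ i j, i ≠ j → ∀ x y, ρ i x * ρ j y = ρ j y * ρ i x)
    (hG : ∀ x : G, x ∈ commutator G) (U : Submodule F V) (i j : ι)
    (h1 : ∀ x y, ∀ v, (ρ i x - 1) ((ρ j y - 1) v) ∈ U)
    (h2 : ∀ x y, ∀ v ∈ U, (ρ i x - 1) ((ρ j y - 1) v) = 0) : ¬ Bad ρ i j := by
  rintro ⟨hij, x, y, hxy⟩
  apply hxy
  have hA : ∀ A ∈ aug (ρ i) * aug (ρ j), (∀ v, A v ∈ U) ∧ ∀ v ∈ U, A v = 0 := by
    intro A hA
    induction hA using Submodule.mul_induction_on' with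
    | mem_mul_mem m hm n hn =>
      induction hm using Submodule.span_induction with
      | mem m hm =>
        obtain ⟨x, rfl⟩ := hm
        induction hn using Submodule.span_induction with
        | mem n hn =>
          obtain ⟨y, rfl⟩ := hn
          exact ⟨fun v => h1 x y v, fun v hv => h2 x y v hv⟩
        | zero => simp
        | add n n' _ _ h3 h4 =>
          rw [mul_add]
          exact ⟨fun v => U.add_mem (h3.1 v) (h4.1 v), fun v hv => by
            rw [LinearMap.add_apply, h3.2 v hv, h4.2 v hv, add_zero]⟩
        | smul c n _ h3 =>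
          rw [mul_smul_comm]
          exact ⟨fun v => U.smul_mem _ (h3.1 v), fun v hv => by
            rw [LinearMap.smul_apply, h3.2 v hv, smul_zero]⟩
      | zero => simp
      | add m m' _ _ h3 h4 =>
        rw [add_mul]
        exact ⟨fun v => U.add_mem (h3.1 v) (h4.1 v), fun v hv => by
          rw [LinearMap.add_apply, h3.2 v hv, h4.2 v hv, add_zero]⟩
      | smul c m _ h3 =>
        rw [smul_mul_assoc]
        exact ⟨fun v => U.smul_mem _ (h3.1 v), fun v hv => by
          rw [LinearMap.smul_apply, h3.2 v hv, smul_zero]⟩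
    | add y hy z hz h3 h4 =>
      exact ⟨fun v => U.add_mem (h3.1 v) (h4.1 v), fun v hv => by
        rw [LinearMap.add_apply, h3.2 v hv, h4.2 v hv, add_zero]⟩
  have hz : (aug (ρ i) * aug (ρ j)) * (aug (ρ i) * aug (ρ j)) = ⊥ := by
    rw [eq_bot_iff, Submodule.mul_le]
    intro A hA1 B hB
    rw [Submodule.mem_bot]
    ext v
    exact (hA A hA1).2 _ ((hA B hB).1 v)
  have hc : aug (ρ i) * aug (ρ j) = aug (ρ j) * aug (ρ i) := by
    apply le_antisymm
    · rw [aug, aug, Submodule.span_mul_span, Submodule.span_mul_span, Submodule.span_le]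
      rintro _ ⟨_, ⟨x, rfl⟩, _, ⟨y, rfl⟩, rfl⟩
      refine Submodule.subset_span ⟨_, ⟨y, rfl⟩, _, ⟨x, rfl⟩, ?_⟩
      have := hcomm i j hij x y
      simp only [sub_mul, mul_sub, this, one_mul, mul_one]
      abel
    · rw [aug, aug, Submodule.span_mul_span, Submodule.span_mul_span, Submodule.span_le]
      rintro _ ⟨_, ⟨x, rfl⟩, _, ⟨y, rfl⟩, rfl⟩
      refine Submodule.subset_span ⟨_, ⟨y, rfl⟩, _, ⟨x, rfl⟩, ?_⟩
      have := hcomm i j hij y x
      simp only [sub_mul, mul_sub, this, one_mul, mul_one]
      abel
  have h3 : (ρ i x - 1) * (ρ j y - 1) ∈ aug (ρ i) * aug (ρ j) :=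
    Submodule.mul_mem_mul (Submodule.subset_span ⟨x, rfl⟩) (Submodule.subset_span ⟨y, rfl⟩)
  have h4 : aug (ρ i) * aug (ρ j) ≤ (aug (ρ i) * aug (ρ j)) * (aug (ρ i) * aug (ρ j)) := by
    calc aug (ρ i) * aug (ρ j) ≤ (aug (ρ i) * aug (ρ i)) * (aug (ρ j) * aug (ρ j)) :=
          mul_le_mul' (aug_le _ hG) (aug_le _ hG)
      _ = aug (ρ i) * (aug (ρ i) * aug (ρ j)) * aug (ρ j) := by
          simp only [mul_assoc]
      _ = aug (ρ i) * (aug (ρ j) * aug (ρ i)) * aug (ρ j) := by rw [hc]
      _ = (aug (ρ i) * aug (ρ j)) * (aug (ρ i) * aug (ρ j)) := by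
          simp only [mul_assoc]
  have h5 := h4 h3
  rw [hz, Submodule.mem_bot] at h5
  exact h5

open Classical in
/-- **Pair bound.** -/
theorem pair_bound [IsAlgClosed F] [Fintype ι] {d : ℕ} (hd3 : 3 ≤ d)
    (hd : MinDim.{u, v, w} F G d) (hG : ∀ x : G, x ∈ commutator G) :
    ∀ (n : ℕ) (V : Type v) [AddCommGroup V] [Module F V] [FiniteDimensional F V]
      (ρ : ι → G →* Module.End F V),
      (∀ i j, i ≠ j → ∀ x y, ρ i x * ρ j y = ρ j y * ρ i x) → finrank F V = n →
      d ^ 2 * (Finset.univ.filter fun p : ι × ι => Bad ρ p.1 p.2).card ≤ 2 * n := by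
  intro n
  induction n using Nat.strong_induction_on with
  | _ n ih =>
    intro V _ _ _ ρ hcomm hn
    by_cases hirr : ∀ U : Submodule F V, InvF ρ Finset.univ U → U = ⊥ ∨ U = ⊤
    · rcases subsingleton_or_nontrivial V with hV | hV
      · have h0 : (Finset.univ.filter fun p : ι × ι => Bad ρ p.1 p.2) = ∅ := by
          rw [Finset.filter_eq_empty_iff]
          rintro p _ ⟨_, x, y, hxy⟩
          apply hxy
          ext v
          exact Subsingleton.elim _ _
        rw [h0]
        simp
      · let K : Finset ι := Finset.univ.filter fun i => ρ i ≠ 1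
        have hK : ∀ i, i ∈ K ↔ ρ i ≠ 1 := by
          intro i
          simp [K]
        have h1 : d ^ K.card ≤ finrank F V := by
          refine irr_bound hd K V ρ hcomm ?_ (fun i hi => (hK i).1 hi)
          intro U hU
          apply hirr U
          intro i _ x u hu
          by_cases hi : i ∈ K
          · exact hU i hi x u hu
          · rw [hK, not_not] at hi
            rw [hi]
            exact hu
        have h2 : (Finset.univ.filter fun p : ι × ι => Bad ρ p.1 p.2) ⊆ K.offDiag := by
          intro p hp
          rw [Finset.mem_filter] at hp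
          obtain ⟨_, hne, x, y, hxy⟩ := hp
          rw [Finset.mem_offDiag]
          refine ⟨?_, ?_, hne⟩
          · rw [hK]
            intro h3
            apply hxy
            rw [h3, MonoidHom.one_apply, sub_self, zero_mul]
          · rw [hK]
            intro h3
            apply hxy
            rw [h3, MonoidHom.one_apply, sub_self, mul_zero]
        have h3 := Finset.card_le_card h2
        rw [Finset.offDiag_card] at h3
        have h4 : K.card * K.card - K.card = K.card * (K.card - 1) := by
          rw [Nat.mul_sub_one]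
        rw [h4] at h3
        calc d ^ 2 * _ ≤ d ^ 2 * (K.card * (K.card - 1)) := Nat.mul_le_mul_left _ h3
          _ ≤ 2 * d ^ K.card := pow_ineq hd3 _
          _ ≤ 2 * n := by rw [← hn]; exact Nat.mul_le_mul_left _ h1
    · push Not at hirr
      obtain ⟨U, hU, hU1, hU2⟩ := hirr
      have hU' : ∀ i x, ∀ u ∈ U, ρ i x u ∈ U := fun i x u hu => hU i (Finset.mem_univ i) x u hu
      let ρ1 : ι → G →* Module.End F U := fun i => resRep (ρ i) U (hU' i)
      let ρ2 : ι → G →* Module.End F (V ⧸ U) := fun i => quotRep (ρ i) U (hU' i)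
      have hsum := Submodule.finrank_quotient_add_finrank U
      have hpos1 : 0 < finrank F U := by
        have : Nontrivial U := (Submodule.nontrivial_iff_ne_bot).2 hU1
        exact Module.finrank_pos
      have hlt1 : finrank F U < finrank F V := Submodule.finrank_lt hU2
      have i1 := ih (finrank F U) (by omega) U ρ1 (by
        intro i j hij x y
        apply LinearMap.ext
        intro u
        apply Subtype.ext
        exact LinearMap.congr_fun (hcomm i j hij x y) (u : V)) rfl
      have i2 := ih (finrank F (V ⧸ U)) (by omega) (V ⧸ U) ρ2 (by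
        intro i j hij x y
        apply LinearMap.ext
        intro u
        induction u using Submodule.Quotient.induction_on with
        | _ u =>
          have h1 := LinearMap.congr_fun (hcomm i j hij x y) u
          exact congrArg (Submodule.Quotient.mk (p := U)) h1) rfl
      have hsub : (Finset.univ.filter fun p : ι × ι => Bad ρ p.1 p.2) ⊆
          (Finset.univ.filter fun p : ι × ι => Bad ρ1 p.1 p.2) ∪
          (Finset.univ.filter fun p : ι × ι => Bad ρ2 p.1 p.2) := by
        intro p hp
        rw [Finset.mem_filter] at hp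
        by_contra hnot
        rw [Finset.mem_union, not_or, Finset.mem_filter, Finset.mem_filter] at hnot
        obtain ⟨hb1, hb2⟩ := hnot
        have hb1' : ¬ Bad ρ1 p.1 p.2 := fun h => hb1 ⟨Finset.mem_univ _, h⟩
        have hb2' : ¬ Bad ρ2 p.1 p.2 := fun h => hb2 ⟨Finset.mem_univ _, h⟩
        have hne := hp.2.1
        refine bad_ext ρ hcomm hG U p.1 p.2 ?_ ?_ hp.2
        · intro x y v
          by_contra h3
          apply hb2'
          refine ⟨hne, x, y, fun h4 => h3 ?_⟩
          have h5 := LinearMap.congr_fun h4 (Submodule.Quotient.mk v)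
          have h6 : ((ρ2 p.1 x - 1) * (ρ2 p.2 y - 1)) (Submodule.Quotient.mk v) =
              Submodule.Quotient.mk ((ρ p.1 x - 1) ((ρ p.2 y - 1) v)) := by
            simp only [Module.End.mul_apply, LinearMap.sub_apply, Module.End.one_apply, map_sub,
              ρ2, quotRep_mk, Submodule.Quotient.mk_sub]
          rw [h6] at h5
          exact (Submodule.Quotient.mk_eq_zero U).1 h5
        · intro x y v hv
          by_contra h3
          apply hb1'
          refine ⟨hne, x, y, fun h4 => h3 ?_⟩
          have h5 := congrArg Subtype.val (LinearMap.congr_fun h4 ⟨v, hv⟩)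
          exact h5
      have hcard := (Finset.card_le_card hsub).trans (Finset.card_union_le _ _)
      calc d ^ 2 * _ ≤ d ^ 2 * (_ + _) := Nat.mul_le_mul_left _ hcard
        _ ≤ 2 * n := by
          rw [mul_add]
          omega

/-- If all pairs are conjugate and the dimension is small then all `[V, G_i, G_j]` vanish. -/
theorem no_bad [IsAlgClosed F] [Fintype ι] {d : ℕ} (hd3 : 3 ≤ d)
    (hd : MinDim.{u, v, w} F G d) (hG : ∀ x : G, x ∈ commutator G)
    (V : Type v) [AddCommGroup V] [Module F V] [FiniteDimensional F V]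
    (ρ : ι → G →* Module.End F V)
    (hcomm : ∀ i j, i ≠ j → ∀ x y, ρ i x * ρ j y = ρ j y * ρ i x)
    (hconj : ∀ i j k l, i ≠ j → k ≠ l → Bad ρ i j → Bad ρ k l)
    (hdim : 2 * finrank F V < d ^ 2 * (Fintype.card ι * (Fintype.card ι - 1))) (i j : ι)
    (hij : i ≠ j) (x y : G) : (ρ i x - 1) * (ρ j y - 1) = 0 := by
  classical
  by_contra h
  have hb : Bad ρ i j := ⟨hij, x, y, h⟩
  have h1 := pair_bound hd3 hd hG (finrank F V) V ρ hcomm rfl
  have h2 : (Finset.univ : Finset ι).offDiag ⊆ Finset.univ.filter fun p : ι × ι => Bad ρ p.1 p.2 := by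
    intro p hp
    rw [Finset.mem_offDiag] at hp
    rw [Finset.mem_filter]
    exact ⟨Finset.mem_univ _, hconj i j p.1 p.2 hij hp.2.2 hb⟩
  have h3 := Finset.card_le_card h2
  rw [Finset.offDiag_card, Finset.card_univ] at h3
  have h4 : Fintype.card ι * Fintype.card ι - Fintype.card ι =
      Fintype.card ι * (Fintype.card ι - 1) := by
    rw [Nat.mul_sub_one]
  rw [h4] at h3
  have h5 := Nat.mul_le_mul_left (d ^ 2) h3
  omega

end pairs

end Pool.Agent.H.MP_59b15d_al.Lin
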