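/-
Reduction of a completely reducible representation to a representation over a larger field without
invariants and without coinvariants.
-/
import Mathlib
import Pool.Agent.H.MP_59b15d_al.lin.Count

set_option autoImplicit false

namespace Pool.Agent.H.MP_59b15d_al.Lin

universe u v w

open Module TensorProduct

section red

variable {F : Type u} [Field F] {Γ : Type*} [Group Γ] {ι : Type*}
variable {V : Type v} [AddCommGroup V] [Module F V]

/-- Every invariant subspace has an invariant complement. -/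
def CompRed (ρ : Γ →* Module.End F V) : Prop :=
  ∀ U : Submodule F V, (∀ g, ∀ u ∈ U, ρ g u ∈ U) →
    ∃ W : Submodule F V, (∀ g, ∀ u ∈ W, ρ g u ∈ W) ∧ IsCompl U W

/-- The subspace of the invariants. -/
def invSub (ρ : Γ →* Module.End F V) : Submodule F V where
  carrier := {v | ∀ g, ρ g v = v}
  add_mem' := by
    intro a b ha hb g
    rw [map_add, ha g, hb g]
  zero_mem' := fun g => map_zero _
  smul_mem' := by
    intro c a ha g
    rw [map_smul, ha g]

lemma mem_invSub (ρ : Γ →* Module.End F V) (v : V) : v ∈ invSub ρ ↔ ∀ g, ρ g v = v := Iff.rfl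

/-- The span of the elements `ρ g v - v`. -/
def coSub (ρ : Γ →* Module.End F V) (R : Submodule F V) : Submodule F V :=
  Submodule.span F {x | ∃ g, ∃ v ∈ R, x = ρ g v - v}

lemma coSub_inv (ρ : Γ →* Module.End F V) (R : Submodule F V) (hR : ∀ g, ∀ v ∈ R, ρ g v ∈ R)
    (g : Γ) (u : V) (hu : u ∈ coSub ρ R) : ρ g u ∈ coSub ρ R := by
  induction hu using Submodule.span_induction with
  | mem x hx =>
    obtain ⟨k, v, hv, rfl⟩ := hx
    have h1 : ρ g (ρ k v - v) = (ρ g (ρ k v) - ρ k v) - (ρ g v - v) + (ρ k v - v) := by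
      rw [map_sub]; abel
    rw [h1]
    refine Submodule.add_mem _ (Submodule.sub_mem _ ?_ ?_) ?_
    · exact Submodule.subset_span ⟨g, ρ k v, hR k v hv, rfl⟩
    · exact Submodule.subset_span ⟨g, v, hv, rfl⟩
    · exact Submodule.subset_span ⟨k, v, hv, rfl⟩
  | zero => rw [map_zero]; exact Submodule.zero_mem _
  | add x y _ _ hx hy => rw [map_add]; exact Submodule.add_mem _ hx hy
  | smul c x _ hx => rw [map_smul]; exact Submodule.smul_mem _ _ hx

lemma coSub_le (ρ : Γ →* Module.End F V) (R : Submodule F V) (hR : ∀ g, ∀ v ∈ R, ρ g v ∈ R) :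
    coSub ρ R ≤ R := by
  refine Submodule.span_le.2 ?_
  rintro _ ⟨g, v, hv, rfl⟩
  exact Submodule.sub_mem _ (hR g v hv) hv

/-- A completely reducible representation is the sum of the invariants and of an invariant subspace
without invariants and without coinvariants. -/
theorem exists_red (ρ : Γ →* Module.End F V) (hρ : CompRed ρ) :
    ∃ R : Submodule F V, (∀ g, ∀ v ∈ R, ρ g v ∈ R) ∧ invSub ρ ⊔ R = ⊤ ∧
      (∀ v ∈ R, (∀ g, ρ g v = v) → v = 0) ∧ R ≤ coSub ρ R := by
  obtain ⟨R, hR, hc⟩ := hρ (invSub ρ) (fun g u hu => by rw [hu g]; exact hu)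
  have h3 : ∀ v ∈ R, (∀ g, ρ g v = v) → v = 0 := by
    intro v hv h
    have h1 : v ∈ invSub ρ ⊓ R := ⟨h, hv⟩
    rw [hc.inf_eq_bot] at h1
    exact (Submodule.mem_bot F).1 h1
  refine ⟨R, hR, hc.sup_eq_top, h3, ?_⟩
  obtain ⟨W, hW, hc2⟩ := hρ (coSub ρ R) (coSub_inv ρ R hR)
  intro v hv
  have h4 : v ∈ coSub ρ R ⊔ W := by rw [hc2.sup_eq_top]; exact Submodule.mem_top
  obtain ⟨x, hx, y, hy, rfl⟩ := Submodule.mem_sup.1 h4
  have hyR : y ∈ R := by
    have := Submodule.sub_mem _ hv (coSub_le ρ R hR hx)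
    rwa [add_sub_cancel_left] at this
  have hy0 : y = 0 := by
    refine h3 y hyR fun g => ?_
    have h5 : ρ g y - y ∈ coSub ρ R ⊓ W :=
      ⟨Submodule.subset_span ⟨g, y, hyR, rfl⟩, Submodule.sub_mem _ (hW g y hy) hy⟩
    rw [hc2.inf_eq_bot] at h5
    exact sub_eq_zero.1 ((Submodule.mem_bot F).1 h5)
  rw [hy0, add_zero]
  exact hx

/-- An element fixed by generators is invariant. -/
lemma inv_of_gen {t : ι → Γ} (gen : Subgroup.closure (Set.range t) = ⊤) (ρ : Γ →* Module.End F V)
    {v : V} (h : ∀ s, ρ (t s) v = v) (g : Γ) : ρ g v = v := by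
  have hg : g ∈ Subgroup.closure (Set.range t) := gen ▸ Subgroup.mem_top g
  induction hg using Subgroup.closure_induction with
  | mem x hx =>
    obtain ⟨s, rfl⟩ := hx
    exact h s
  | one => rw [map_one, Module.End.one_apply]
  | mul x y _ _ hx hy => rw [map_mul, Module.End.mul_apply, hy, hx]
  | inv x _ hx =>
    have h1 : ρ x⁻¹ (ρ x v) = v := by
      rw [← Module.End.mul_apply, ← map_mul, inv_mul_cancel, map_one, Module.End.one_apply]
    rwa [hx] at h1

/-- The ranges of `ρ g - 1` lie in the sum of the ranges for generators. -/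
lemma co_of_gen {t : ι → Γ} (gen : Subgroup.closure (Set.range t) = ⊤) (ρ : Γ →* Module.End F V)
    (g : Γ) (v : V) : ρ g v - v ∈ ⨆ s, LinearMap.range (ρ (t s) - 1) := by
  have hg : g ∈ Subgroup.closure (Set.range t) := gen ▸ Subgroup.mem_top g
  induction hg using Subgroup.closure_induction generalizing v with
  | mem x hx =>
    obtain ⟨s, rfl⟩ := hx
    exact Submodule.mem_iSup_of_mem s ⟨v, by simp⟩
  | one => rw [map_one, Module.End.one_apply, sub_self]; exact Submodule.zero_mem _
  | mul x y _ _ hx hy =>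
    have h1 : ρ (x * y) v - v = (ρ x (ρ y v) - ρ y v) + (ρ y v - v) := by
      rw [map_mul, Module.End.mul_apply]; abel
    rw [h1]
    exact Submodule.add_mem _ (hx _) (hy _)
  | inv x _ hx =>
    have h1 : ρ x (ρ x⁻¹ v) = v := by
      rw [← Module.End.mul_apply, ← map_mul, mul_inv_cancel, map_one, Module.End.one_apply]
    have h2 := hx (ρ x⁻¹ v)
    rw [h1] at h2
    have h3 := Submodule.neg_mem _ h2
    rwa [neg_sub] at h3

/-- The representation on the reduced part, in the form with generators. -/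
theorem exists_red_gen {t : ι → Γ} (gen : Subgroup.closure (Set.range t) = ⊤)
    (ρ : Γ →* Module.End F V) (hρ : CompRed ρ) :
    ∃ (R : Submodule F V) (hR : ∀ g, ∀ v ∈ R, ρ g v ∈ R),
      (∀ v : R, (∀ s, resRep ρ R hR (t s) v = v) → v = 0) ∧
      (⨆ s, LinearMap.range (resRep ρ R hR (t s) - 1)) = ⊤ ∧
      (∀ g, resRep ρ R hR g = 1 → ρ g = 1) := by
  obtain ⟨R, hR, h1, h2, h3⟩ := exists_red ρ hρ
  refine ⟨R, hR, ?_, ?_, ?_⟩
  · intro v hv
    have h4 := inv_of_gen gen (resRep ρ R hR) hv
    apply Subtype.ext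
    refine h2 v v.2 fun g => ?_
    have := congrArg Subtype.val (h4 g)
    rwa [resRep_apply] at this
  · rw [eq_top_iff]
    have key : ∀ x ∈ coSub ρ R, ∃ hx : x ∈ R,
        (⟨x, hx⟩ : R) ∈ ⨆ s, LinearMap.range (resRep ρ R hR (t s) - 1) := by
      intro x hx
      induction hx using Submodule.span_induction with
      | mem x hx =>
        obtain ⟨g, v, hv, rfl⟩ := hx
        exact ⟨Submodule.sub_mem _ (hR g v hv) hv, co_of_gen gen (resRep ρ R hR) g ⟨v, hv⟩⟩
      | zero => exact ⟨Submodule.zero_mem _, Submodule.zero_mem _⟩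
      | add x y _ _ hx hy =>
        obtain ⟨hx1, hx2⟩ := hx
        obtain ⟨hy1, hy2⟩ := hy
        exact ⟨Submodule.add_mem _ hx1 hy1, Submodule.add_mem _ hx2 hy2⟩
      | smul c x _ hx =>
        obtain ⟨hx1, hx2⟩ := hx
        exact ⟨Submodule.smul_mem _ _ hx1, Submodule.smul_mem _ _ hx2⟩
    rintro ⟨x, hx⟩ -
    obtain ⟨_, h⟩ := key x (h3 hx)
    exact h
  · intro g hg
    ext v
    have h4 : v ∈ invSub ρ ⊔ R := by rw [h1]; exact Submodule.mem_top
    obtain ⟨x, hx, y, hy, rfl⟩ := Submodule.mem_sup.1 h4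
    have h5 : ρ g y = y := by
      have := congrArg Subtype.val (LinearMap.congr_fun hg ⟨y, hy⟩)
      rwa [resRep_apply, Module.End.one_apply] at this
    rw [map_add, hx g, h5, Module.End.one_apply]

end red

section base

variable {F : Type u} [Field F] {Γ : Type*} [Group Γ] {ι : Type*}
variable {V : Type v} [AddCommGroup V] [Module F V] (K : Type w) [Field K] [Algebra F K]

/-- Base change of a representation. -/
noncomputable def bc (ρ : Γ →* Module.End F V) : Γ →* Module.End K (K ⊗[F] V) where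
  toFun g := (ρ g).baseChange K
  map_one' := by
    ext v
    simp
  map_mul' x y := by
    ext v
    simp

@[simp] lemma bc_tmul (ρ : Γ →* Module.End F V) (g : Γ) (c : K) (v : V) :
    bc K ρ g (c ⊗ₜ[F] v) = c ⊗ₜ[F] ρ g v := rfl

lemma bc_inv {t : ι → Γ} (ρ : Γ →* Module.End F V)
    (h : ∀ v : V, (∀ s, ρ (t s) v = v) → v = 0) (x : K ⊗[F] V)
    (hx : ∀ s, bc K ρ (t s) x = x) : x = 0 := by
  classical
  let B := Module.Basis.ofVectorSpace F K
  let e := TensorProduct.equivFinsuppOfBasisLeft (N := V) B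
  have key : ∀ (g : Γ) (y : K ⊗[F] V) (i), e (bc K ρ g y) i = ρ g (e y i) := by
    intro g y i
    induction y using TensorProduct.induction_on with
    | zero => simp
    | add a b ha hb => rw [map_add, map_add, Finsupp.add_apply, ha, hb, map_add, Finsupp.add_apply,
        map_add]
    | tmul c v =>
      rw [bc_tmul, TensorProduct.equivFinsuppOfBasisLeft_apply_tmul_apply,
        TensorProduct.equivFinsuppOfBasisLeft_apply_tmul_apply, map_smul]
  have h1 : e x = 0 := by
    ext i
    refine h _ fun s => ?_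
    rw [← key, hx s]
  exact (LinearEquiv.map_eq_zero_iff e).1 h1

lemma bc_coinv {t : ι → Γ} (ρ : Γ →* Module.End F V)
    (h : (⨆ s, LinearMap.range (ρ (t s) - 1)) = ⊤) :
    (⨆ s, LinearMap.range (bc K ρ (t s) - 1)) = ⊤ := by
  rw [eq_top_iff]
  rintro x -
  induction x using TensorProduct.induction_on with
  | zero => exact Submodule.zero_mem _
  | add a b ha hb => exact Submodule.add_mem _ ha hb
  | tmul c v =>
    have hv : v ∈ ⨆ s, LinearMap.range (ρ (t s) - 1) := by rw [h]; exact Submodule.mem_top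
    induction hv using Submodule.iSup_induction' with
    | mem s y hy =>
      obtain ⟨w, rfl⟩ := hy
      refine Submodule.mem_iSup_of_mem s ⟨c ⊗ₜ[F] w, ?_⟩
      rw [LinearMap.sub_apply, LinearMap.sub_apply, bc_tmul, Module.End.one_apply,
        Module.End.one_apply, TensorProduct.tmul_sub]
    | zero => rw [TensorProduct.tmul_zero]; exact Submodule.zero_mem _
    | add y z _ _ hy hz => rw [TensorProduct.tmul_add]; exact Submodule.add_mem _ hy hz

lemma bc_one (ρ : Γ →* Module.End F V) (g : Γ) (h : bc K ρ g = 1) : ρ g = 1 := by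
  ext v
  have h1 := LinearMap.congr_fun h ((1 : K) ⊗ₜ[F] v)
  rw [bc_tmul, Module.End.one_apply] at h1
  exact Module.FaithfullyFlat.tensorProduct_mk_injective (A := F) (B := K) V h1

end base

/-- **Reduction.** A completely reducible representation `ρ` kills `f` as soon as every
representation over `K` without invariants and coinvariants of dimension at most `dim V` does. -/
theorem reduction {F : Type u} [Field F] {Γ : Type*} [Group Γ] {ι : Type*}
    {V : Type v} [AddCommGroup V] [Module F V] [FiniteDimensional F V]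
    (K : Type w) [Field K] [Algebra F K]
    {t : ι → Γ} (gen : Subgroup.closure (Set.range t) = ⊤)
    (ρ : Γ →* Module.End F V) (hρ : CompRed ρ) (f : Γ)
    (H : ∀ (W : Type (max v w)) [AddCommGroup W] [Module K W] [FiniteDimensional K W]
      (σ : Γ →* Module.End K W), finrank K W ≤ finrank F V →
      (∀ x : W, (∀ s, σ (t s) x = x) → x = 0) →
      (⨆ s, LinearMap.range (σ (t s) - 1)) = ⊤ → σ f = 1) : ρ f = 1 := by
  obtain ⟨R, hR, h1, h2, h3⟩ := exists_red_gen gen ρ hρ
  refine h3 f (bc_one K _ f ?_)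
  refine H (K ⊗[F] R) (bc K (resRep ρ R hR)) ?_ (bc_inv K _ h1) (bc_coinv K _ h2)
  rw [Module.finrank_baseChange]
  exact Submodule.finrank_le R

end Pool.Agent.H.MP_59b15d_al.Lin
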