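/-
Assembly of the count and of the propagation, in abstract form.
-/
import Pool.Agent.H.MP_59b15d_al.lin.Perp
import Pool.Agent.H.MP_59b15d_al.lin.Red

set_option autoImplicit false

namespace Pool.Agent.H.MP_59b15d_al.Lin

universe u v w

open Module

/-- If a group contains `r` commuting perfect blocks, all pairs of which are conjugate, and the
dimension is small, then the elements of different blocks are perpendicular. -/
theorem perp_of_blocks {F : Type u} [Field F] [IsAlgClosed F] {Γ : Type w} [Group Γ]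
    {V : Type v} [AddCommGroup V] [Module F V] [FiniteDimensional F V] (ρ : Γ →* Module.End F V)
    {r d : ℕ} (hr : 2 ≤ r) (hd3 : 3 ≤ d) (D : ℕ → Subgroup Γ)
    (hd : MinDim.{u, v, w} F (D 0) d) (hperf : ∀ x : D 0, x ∈ commutator (D 0))
    (hcomm : ∀ k l, k < r → l < r → k ≠ l → ∀ x ∈ D k, ∀ y ∈ D l, x * y = y * x)
    (hpair : ∀ k l, k < r → l < r → k ≠ l → ∃ c : Γ, (∀ x, x ∈ D 0 ↔ c * x * c⁻¹ ∈ D k) ∧
      ∀ y, y ∈ D 1 ↔ c * y * c⁻¹ ∈ D l)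
    (hdim : 2 * finrank F V < d ^ 2 * (r * (r - 1))) {x y : Γ} (hx : x ∈ D 0) (hy : y ∈ D 1) :
    Perp ρ x y := by
  classical
  have hone : ∀ k : Fin r, ∃ c : Γ, ∀ x, x ∈ D 0 ↔ c * x * c⁻¹ ∈ D k := by
    intro k
    obtain ⟨l, hl, hkl⟩ : ∃ l, l < r ∧ (k : ℕ) ≠ l := by
      by_cases h : (k : ℕ) = 0
      · exact ⟨1, by omega, by omega⟩
      · exact ⟨0, by omega, h⟩
    obtain ⟨c, hc, _⟩ := hpair k l k.2 hl hkl
    exact ⟨c, hc⟩
  choose c hc using hone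
  let σ : Fin r → (D 0) →* Module.End F V := fun k =>
    ρ.comp ((MulAut.conj (c k)).toMonoidHom.comp (D 0).subtype)
  have hσ : ∀ (k : Fin r) (x : D 0), σ k x = ρ (c k * x * (c k)⁻¹) := fun k x => rfl
  have hmem : ∀ (k : Fin r) (x : D 0), c k * (x : Γ) * (c k)⁻¹ ∈ D k := fun k x => (hc k x).1 x.2
  have hsurj : ∀ (k : Fin r) (X : Γ), X ∈ D k → ∃ x : D 0, c k * (x : Γ) * (c k)⁻¹ = X := by
    intro k X hX
    refine ⟨⟨(c k)⁻¹ * X * c k, ?_⟩, ?_⟩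
    · rw [hc k]
      convert hX using 1
      group
    · simp only
      group
  have hcomm' : ∀ i j, i ≠ j → ∀ x y, σ i x * σ j y = σ j y * σ i x := by
    intro i j hij x y
    rw [hσ, hσ, ← map_mul, ← map_mul, hcomm i j i.2 j.2 (fun h => hij (Fin.ext h)) _ (hmem i x) _
      (hmem j y)]
  have hbad : ∀ i j : Fin r, Bad σ i j ↔ i ≠ j ∧ ∃ X ∈ D i, ∃ Y ∈ D j,
      (ρ X - 1) * (ρ Y - 1) ≠ 0 := by
    intro i j
    constructor
    · rintro ⟨hij, x, y, h⟩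
      exact ⟨hij, _, hmem i x, _, hmem j y, h⟩
    · rintro ⟨hij, X, hX, Y, hY, h⟩
      obtain ⟨x, rfl⟩ := hsurj i X hX
      obtain ⟨y, rfl⟩ := hsurj j Y hY
      exact ⟨hij, x, y, h⟩
  have hconj : ∀ i j k l, i ≠ j → k ≠ l → Bad σ i j → Bad σ k l := by
    intro i j k l hij hkl h
    rw [hbad] at h ⊢
    obtain ⟨_, X, hX, Y, hY, hne⟩ := h
    obtain ⟨c1, h1, h1'⟩ := hpair i j i.2 j.2 (fun h => hij (Fin.ext h))
    obtain ⟨c2, h2, h2'⟩ := hpair k l k.2 l.2 (fun h => hkl (Fin.ext h))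
    have e1 : (c2 * c1⁻¹) * X * (c2 * c1⁻¹)⁻¹ ∈ D k := by
      have h3 : c1⁻¹ * X * c1 ∈ D 0 := by
        rw [h1]
        convert hX using 1
        group
      have h4 := (h2 _).1 h3
      convert h4 using 1
      group
    have e2 : (c2 * c1⁻¹) * Y * (c2 * c1⁻¹)⁻¹ ∈ D l := by
      have h3 : c1⁻¹ * Y * c1 ∈ D 1 := by
        rw [h1']
        convert hY using 1
        group
      have h4 := (h2' _).1 h3
      convert h4 using 1
      group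
    refine ⟨hkl, _, e1, _, e2, ?_⟩
    set e := c2 * c1⁻¹ with he
    intro h0
    apply hne
    have e0 : ρ e⁻¹ * ρ e = 1 := by rw [← map_mul, inv_mul_cancel, map_one]
    have e3 : (ρ X - 1) * (ρ Y - 1) =
        ρ e⁻¹ * ((ρ (e * X * e⁻¹) - 1) * (ρ (e * Y * e⁻¹) - 1)) * ρ e := by
      rw [rho_conj_sub, rho_conj_sub]
      calc (ρ X - 1) * (ρ Y - 1) =
          (ρ e⁻¹ * ρ e) * (ρ X - 1) * (ρ e⁻¹ * ρ e) * (ρ Y - 1) * (ρ e⁻¹ * ρ e) := by
            rw [e0]; noncomm_ring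
        _ = _ := by noncomm_ring
    rw [e3, h0, mul_zero, zero_mul]
  have hdim' : 2 * finrank F V < d ^ 2 * (Fintype.card (Fin r) * (Fintype.card (Fin r) - 1)) := by
    rwa [Fintype.card_fin]
  have key := no_bad hd3 hd hperf V σ hcomm' hconj hdim' ⟨0, by omega⟩ ⟨1, by omega⟩
    (fun h => absurd (congrArg Fin.val h) (by simp))
  obtain ⟨x', hx'⟩ := hsurj ⟨0, by omega⟩ x hx
  obtain ⟨y', hy'⟩ := hsurj ⟨1, by omega⟩ y hy
  have h1 : (ρ x - 1) * (ρ y - 1) = 0 := by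
    have := key x' y'
    rwa [hσ, hσ, hx', hy'] at this
  refine ⟨h1, ?_⟩
  have h2 : ρ y * ρ x = ρ x * ρ y := by
    rw [← map_mul, ← map_mul, hcomm 0 1 (by omega) (by omega) (by omega) x hx y hy]
  have h3 : (ρ y - 1) * (ρ x - 1) = (ρ x - 1) * (ρ y - 1) := by
    have e1 : (ρ y - 1) * (ρ x - 1) = ρ y * ρ x - ρ y - ρ x + 1 := by noncomm_ring
    have e2 : (ρ x - 1) * (ρ y - 1) = ρ x * ρ y - ρ y - ρ x + 1 := by noncomm_ring
    rw [e1, e2, h2]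
  rw [h3, h1]

/-- The theorem in abstract form over an algebraically closed field. -/
theorem lin_closed {F : Type u} [Field F] [IsAlgClosed F] {Γ : Type w} [Group Γ] {g r d : ℕ}
    {tA tB tC : ℕ → Γ} (T : TreeGrp g tA tB tC)
    (hgen : Subgroup.closure (Set.range (tt (g := g) tA tB tC)) = ⊤)
    (hr : 2 ≤ r) (hd3 : 3 ≤ d) (D : ℕ → Subgroup Γ)
    (hd : MinDim.{u, v, w} F (D 0) d) (hperf : ∀ x : D 0, x ∈ commutator (D 0))
    (hcomm : ∀ k l, k < r → l < r → k ≠ l → ∀ x ∈ D k, ∀ y ∈ D l, x * y = y * x)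
    (hpair : ∀ k l, k < r → l < r → k ≠ l → ∃ c : Γ, (∀ x, x ∈ D 0 ↔ c * x * c⁻¹ ∈ D k) ∧
      ∀ y, y ∈ D 1 ↔ c * y * c⁻¹ ∈ D l)
    {q : ℕ} (hq0 : 0 < q) (hq : q < g) (h0 : tA 0 ∈ D 0) (h1 : tA q ∈ D 1)
    {q' : ℕ} (hq0' : 0 < q') (hq' : q' < g)
    (hlan : tA 0 ∈ Subgroup.closure {x | ∃ k, Commute k (tA 0) ∧ x = k * tA q' * k⁻¹})
    {H : Type*} [AddCommGroup H] [Module F H]
    (ρH : Γ →* Module.End F H) (h : Ix g → H) (ω : H →ₗ[F] H →ₗ[F] F)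
    (alt : ∀ x y, ω x y = - ω y x)
    (act : ∀ s x, ρH (tt tA tB tC s) x = x + ω (h s) x • h s)
    (hadj : ∀ s u, (tr g).Adj s u → ω (h s) (h u) = 1 ∨ ω (h s) (h u) = -1)
    (hnadj : ∀ s u, ¬ (tr g).Adj s u → ω (h s) (h u) = 0)
    {V : Type v} [AddCommGroup V] [Module F V] [FiniteDimensional F V] (ρ : Γ →* Module.End F V)
    (hdim : 2 * finrank F V < d ^ 2 * (r * (r - 1)))
    (inv : ∀ v : V, (∀ s : Ix g, ρ (tt tA tB tC s) v = v) → v = 0)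
    (coinv : ⨆ s : Ix g, LinearMap.range (ρ (tt tA tB tC s) - 1) = ⊤)
    {γ : Γ} (hγ : ∀ s, ρH γ (h s) = h s) : ρ γ = 1 :=
  (T.treeRep hgen hq0 hq
    (perp_of_blocks ρ hr hd3 D hd hperf hcomm hpair hdim h0 h1) hq0' hq' hlan ρH h ω alt act hadj
    hnadj inv coinv).factor hγ

/-- The theorem in abstract form: completely reducible representations over any field. -/
theorem lin_abs {F : Type u} [Field F] (K : Type u) [Field K] [Algebra F K] [IsAlgClosed K]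
    {Γ : Type w} [Group Γ] {g r d : ℕ}
    {tA tB tC : ℕ → Γ} (T : TreeGrp g tA tB tC)
    (hgen : Subgroup.closure (Set.range (tt (g := g) tA tB tC)) = ⊤)
    (hr : 2 ≤ r) (hd3 : 3 ≤ d) (D : ℕ → Subgroup Γ)
    (hd : MinDim.{u, max v u, w} K (D 0) d) (hperf : ∀ x : D 0, x ∈ commutator (D 0))
    (hcomm : ∀ k l, k < r → l < r → k ≠ l → ∀ x ∈ D k, ∀ y ∈ D l, x * y = y * x)
    (hpair : ∀ k l, k < r → l < r → k ≠ l → ∃ c : Γ, (∀ x, x ∈ D 0 ↔ c * x * c⁻¹ ∈ D k) ∧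
      ∀ y, y ∈ D 1 ↔ c * y * c⁻¹ ∈ D l)
    {q : ℕ} (hq0 : 0 < q) (hq : q < g) (h0 : tA 0 ∈ D 0) (h1 : tA q ∈ D 1)
    {q' : ℕ} (hq0' : 0 < q') (hq' : q' < g)
    (hlan : tA 0 ∈ Subgroup.closure {x | ∃ k, Commute k (tA 0) ∧ x = k * tA q' * k⁻¹})
    {H : Type*} [AddCommGroup H] [Module K H]
    (ρH : Γ →* Module.End K H) (h : Ix g → H) (ω : H →ₗ[K] H →ₗ[K] K)
    (alt : ∀ x y, ω x y = - ω y x)
    (act : ∀ s x, ρH (tt tA tB tC s) x = x + ω (h s) x • h s)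
    (hadj : ∀ s u, (tr g).Adj s u → ω (h s) (h u) = 1 ∨ ω (h s) (h u) = -1)
    (hnadj : ∀ s u, ¬ (tr g).Adj s u → ω (h s) (h u) = 0)
    {V : Type v} [AddCommGroup V] [Module F V] [FiniteDimensional F V] (ρ : Γ →* Module.End F V)
    (hρ : CompRed ρ) (hdim : 2 * finrank F V < d ^ 2 * (r * (r - 1)))
    {γ : Γ} (hγ : ∀ s, ρH γ (h s) = h s) : ρ γ = 1 := by
  refine reduction K hgen ρ hρ γ ?_
  intro W _ _ _ σ hW hinv hco
  exact lin_closed T hgen hr hd3 D hd hperf hcomm hpair hq0 hq h0 h1 hq0' hq' hlan ρH h ω alt act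
    hadj hnadj σ (lt_of_le_of_lt (Nat.mul_le_mul_left 2 hW) hdim) hinv hco hγ

end Pool.Agent.H.MP_59b15d_al.Lin
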