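import Mathlib
import Pool.Agent.H.MP_59b15d_al.h60g.Ba
import Pool.Agent.H.MP_59b15d_al.h76r.Rj

/-!
The twists `CC h i j` joining the handles `i` and `j = i + 1` along the curve `q i * a j`,
`q i = b i * (a i)⁻¹ * (b i)⁻¹`, and the relations of the Humphries tree.
-/

set_option autoImplicit false
set_option linter.unusedSimpArgs false

namespace Pool.MP_59b15d_al.H40L

open Pool.MP_59b15d_al.H24T Pool.MP_59b15d_al.H76R Pool.MP_59b15d_al.H73E
open Pool.MP_59b15d_al.H60G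

section

variable {m : ℕ} {G : Type*} [Group G] {a b : Fin m → G}

/-- The rotation of a handle. -/
noncomputable def RR (h : IsSurf a b) (i : Fin m) : MulAut G :=
  (TA h i)⁻¹ * TB h i * (TA h i)⁻¹

theorem RR_a (h : IsSurf a b) (i : Fin m) : RR h i (a i) = a i * b i * (a i)⁻¹ := by
  rw [RR, MulAut.mul_apply, MulAut.mul_apply]
  simp only [TAi_a, TB_a, TAi_b, map_mul, map_inv]
  group

theorem RR_b (h : IsSurf a b) (i : Fin m) : RR h i (b i) = (a i)⁻¹ := by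
  rw [RR, MulAut.mul_apply, MulAut.mul_apply]
  simp only [TAi_a, TB_a, TB_b, TAi_b, map_mul, map_inv]
  group

theorem RR_a_ne (h : IsSurf a b) {i k : Fin m} (hk : k ≠ i) : RR h i (a k) = a k := by
  rw [RR, MulAut.mul_apply, MulAut.mul_apply, TAi_a, TB_a_ne h hk, TAi_a]

theorem RR_b_ne (h : IsSurf a b) {i k : Fin m} (hk : k ≠ i) : RR h i (b k) = b k := by
  rw [RR, MulAut.mul_apply, MulAut.mul_apply, TAi_b_ne h hk, TB_b, TAi_b_ne h hk]

theorem RRi_a (h : IsSurf a b) (i : Fin m) : (RR h i)⁻¹ (a i) = (b i)⁻¹ := by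
  have h1 : RR h i (b i)⁻¹ = a i := by rw [map_inv, RR_b, inv_inv]
  conv_lhs => rw [← h1]
  rw [MulAut.inv_apply_self]

theorem RRi_b (h : IsSurf a b) (i : Fin m) : (RR h i)⁻¹ (b i) = b i * a i * (b i)⁻¹ := by
  have h1 : RR h i (b i * a i * (b i)⁻¹) = b i := by
    simp only [map_mul, map_inv, RR_a, RR_b]
    group
  conv_lhs => rw [← h1]
  rw [MulAut.inv_apply_self]

theorem RRi_a_ne (h : IsSurf a b) {i k : Fin m} (hk : k ≠ i) : (RR h i)⁻¹ (a k) = a k := by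
  conv_lhs => rw [← RR_a_ne h hk]
  rw [MulAut.inv_apply_self]

theorem RRi_b_ne (h : IsSurf a b) {i k : Fin m} (hk : k ≠ i) : (RR h i)⁻¹ (b k) = b k := by
  conv_lhs => rw [← RR_b_ne h hk]
  rw [MulAut.inv_apply_self]

/-- The curve of `CC`. -/
def cv (a b : Fin m → G) (i j : Fin m) : G := b i * (a i)⁻¹ * (b i)⁻¹ * a j

/-- The twist joining two handles along the curve `cv`. -/
noncomputable def CC (h : IsSurf a b) (i j : Fin m) (hij : (j : ℕ) = i + 1) : MulAut G :=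
  (RR h i)⁻¹ * TC h i j hij * RR h i

theorem ne_of_succ {i j : Fin m} (hij : (j : ℕ) = i + 1) : j ≠ i := by
  rintro rfl
  omega

variable (h : IsSurf a b) {i j : Fin m} (hij : (j : ℕ) = i + 1)

theorem CC_ai : CC h i j hij (a i) = a i := by
  have n1 := ne_of_succ hij
  rw [CC, MulAut.mul_apply, MulAut.mul_apply, RR_a]
  simp only [map_mul, map_inv, TC_ai, TC_bi, TC_aj, TC_bj, RRi_a, RRi_b, RRi_a_ne h n1,
    RRi_b_ne h n1]
  group

theorem CC_bi : CC h i j hij (b i) = cv a b i j * b i := by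
  have n1 := ne_of_succ hij
  rw [CC, MulAut.mul_apply, MulAut.mul_apply, RR_b, cv]
  simp only [map_mul, map_inv, TC_ai, TC_bi, TC_aj, TC_bj, RRi_a, RRi_b, RRi_a_ne h n1,
    RRi_b_ne h n1]
  group

theorem CC_aj : CC h i j hij (a j) = cv a b i j * a j * (cv a b i j)⁻¹ := by
  have n1 := ne_of_succ hij
  rw [CC, MulAut.mul_apply, MulAut.mul_apply, RR_a_ne h n1, cv]
  simp only [map_mul, map_inv, TC_ai, TC_bi, TC_aj, TC_bj, RRi_a, RRi_b, RRi_a_ne h n1,
    RRi_b_ne h n1]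
  group

theorem CC_bj : CC h i j hij (b j) = b j * (cv a b i j)⁻¹ := by
  have n1 := ne_of_succ hij
  rw [CC, MulAut.mul_apply, MulAut.mul_apply, RR_b_ne h n1, cv]
  simp only [map_mul, map_inv, TC_ai, TC_bi, TC_aj, TC_bj, RRi_a, RRi_b, RRi_a_ne h n1,
    RRi_b_ne h n1]
  group

theorem CC_a_ne {k : Fin m} (h1 : k ≠ i) (h2 : k ≠ j) : CC h i j hij (a k) = a k := by
  rw [CC, MulAut.mul_apply, MulAut.mul_apply, RR_a_ne h h1, TC_a_ne h hij h1 h2, RRi_a_ne h h1]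

theorem CC_b_ne {k : Fin m} (h1 : k ≠ i) (h2 : k ≠ j) : CC h i j hij (b k) = b k := by
  rw [CC, MulAut.mul_apply, MulAut.mul_apply, RR_b_ne h h1, TC_b_ne h hij h1 h2, RRi_b_ne h h1]

theorem CC_cv : CC h i j hij (cv a b i j) = cv a b i j := by
  have e : cv a b i j = b i * (a i)⁻¹ * (b i)⁻¹ * a j := rfl
  conv_lhs => rw [e]
  simp only [map_mul, map_inv, CC_bi, CC_ai, CC_aj]
  rw [e]
  group

theorem CCi_cv : (CC h i j hij)⁻¹ (cv a b i j) = cv a b i j := by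
  conv_lhs => rw [← CC_cv h hij]
  rw [MulAut.inv_apply_self]

theorem CCi_ai : (CC h i j hij)⁻¹ (a i) = a i := by
  conv_lhs => rw [← CC_ai h hij]
  rw [MulAut.inv_apply_self]

theorem CCi_bi : (CC h i j hij)⁻¹ (b i) = (cv a b i j)⁻¹ * b i := by
  have h1 : CC h i j hij ((cv a b i j)⁻¹ * b i) = b i := by
    rw [map_mul, map_inv, CC_cv, CC_bi]
    group
  conv_lhs => rw [← h1]
  rw [MulAut.inv_apply_self]

theorem CCi_aj : (CC h i j hij)⁻¹ (a j) = (cv a b i j)⁻¹ * a j * cv a b i j := by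
  have h1 : CC h i j hij ((cv a b i j)⁻¹ * a j * cv a b i j) = a j := by
    rw [map_mul, map_mul, map_inv, CC_cv, CC_aj]
    group
  conv_lhs => rw [← h1]
  rw [MulAut.inv_apply_self]

theorem CCi_bj : (CC h i j hij)⁻¹ (b j) = b j * cv a b i j := by
  have h1 : CC h i j hij (b j * cv a b i j) = b j := by
    rw [map_mul, CC_cv, CC_bj]
    group
  conv_lhs => rw [← h1]
  rw [MulAut.inv_apply_self]

theorem CCi_a_ne {k : Fin m} (h1 : k ≠ i) (h2 : k ≠ j) : (CC h i j hij)⁻¹ (a k) = a k := by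
  conv_lhs => rw [← CC_a_ne h hij h1 h2]
  rw [MulAut.inv_apply_self]

theorem CCi_b_ne {k : Fin m} (h1 : k ≠ i) (h2 : k ≠ j) : (CC h i j hij)⁻¹ (b k) = b k := by
  conv_lhs => rw [← CC_b_ne h hij h1 h2]
  rw [MulAut.inv_apply_self]

/-- `TC` in terms of `CC`. -/
theorem TC_eq : TC h i j hij = RR h i * CC h i j hij * (RR h i)⁻¹ := by
  rw [CC]
  group

end

end Pool.MP_59b15d_al.H40L
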