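import Mathlib
import Pool.Agent.H.MP_59b15d_al.h60g.Sw
import Pool.Agent.H.MP_59b15d_al.lin.Cc

/-!
The lantern relation for the curves `q i`, `a j`, `a k` of three consecutive handles,
`q i = b i * (a i)⁻¹ * (b i)⁻¹`.
-/

set_option autoImplicit false
set_option linter.unusedSimpArgs false

namespace Pool.MP_59b15d_al.H40L

open Pool.MP_59b15d_al.H24T Pool.MP_59b15d_al.H76R Pool.MP_59b15d_al.H73E
open Pool.MP_59b15d_al.H60G

section

variable {m : ℕ} {G : Type*} [Group G] {a b : Fin m → G}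

/-- The swap of two consecutive handles. -/
noncomputable def SW (h : IsSurf a b) (i j : Fin m) (hij : (j : ℕ) = i + 1) : MulAut G :=
  (exists_swap h i j hij).choose

section sw

variable (h : IsSurf a b) {i j : Fin m} (hij : (j : ℕ) = i + 1)

theorem SW_mem : SW h i j hij ∈ MR h i (i + 2) := (exists_swap h i j hij).choose_spec.1
theorem SW_aj : SW h i j hij (a j) = a i := (exists_swap h i j hij).choose_spec.2.1
theorem SW_bj : SW h i j hij (b j) = b i := (exists_swap h i j hij).choose_spec.2.2.1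
theorem SW_ai : SW h i j hij (a i) =
    (a i * b i * (a i)⁻¹ * (b i)⁻¹) * a j * (a i * b i * (a i)⁻¹ * (b i)⁻¹)⁻¹ :=
  (exists_swap h i j hij).choose_spec.2.2.2.1
theorem SW_bi : SW h i j hij (b i) =
    (a i * b i * (a i)⁻¹ * (b i)⁻¹) * b j * (a i * b i * (a i)⁻¹ * (b i)⁻¹)⁻¹ :=
  (exists_swap h i j hij).choose_spec.2.2.2.2.1
theorem SW_a_ne {k : Fin m} (h1 : k ≠ i) (h2 : k ≠ j) : SW h i j hij (a k) = a k :=
  ((exists_swap h i j hij).choose_spec.2.2.2.2.2 k h1 h2).1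
theorem SW_b_ne {k : Fin m} (h1 : k ≠ i) (h2 : k ≠ j) : SW h i j hij (b k) = b k :=
  ((exists_swap h i j hij).choose_spec.2.2.2.2.2 k h1 h2).2

theorem SWi_ai : (SW h i j hij)⁻¹ (a i) = a j := by
  conv_lhs => rw [← SW_aj h hij]
  rw [MulAut.inv_apply_self]
theorem SWi_bi : (SW h i j hij)⁻¹ (b i) = b j := by
  conv_lhs => rw [← SW_bj h hij]
  rw [MulAut.inv_apply_self]
theorem SWi_aj : (SW h i j hij)⁻¹ (a j) =
    (a j * b j * (a j)⁻¹ * (b j)⁻¹)⁻¹ * a i * (a j * b j * (a j)⁻¹ * (b j)⁻¹) := by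
  have h1 : SW h i j hij ((a j * b j * (a j)⁻¹ * (b j)⁻¹)⁻¹ * a i *
      (a j * b j * (a j)⁻¹ * (b j)⁻¹)) = a j := by
    simp only [map_mul, map_inv, SW_aj, SW_bj, SW_ai]
    group
  conv_lhs => rw [← h1]
  rw [MulAut.inv_apply_self]
theorem SWi_bj : (SW h i j hij)⁻¹ (b j) =
    (a j * b j * (a j)⁻¹ * (b j)⁻¹)⁻¹ * b i * (a j * b j * (a j)⁻¹ * (b j)⁻¹) := by
  have h1 : SW h i j hij ((a j * b j * (a j)⁻¹ * (b j)⁻¹)⁻¹ * b i *
      (a j * b j * (a j)⁻¹ * (b j)⁻¹)) = b j := by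
    simp only [map_mul, map_inv, SW_aj, SW_bj, SW_bi]
    group
  conv_lhs => rw [← h1]
  rw [MulAut.inv_apply_self]
theorem SWi_a_ne {k : Fin m} (h1 : k ≠ i) (h2 : k ≠ j) : (SW h i j hij)⁻¹ (a k) = a k := by
  conv_lhs => rw [← SW_a_ne h hij h1 h2]
  rw [MulAut.inv_apply_self]
theorem SWi_b_ne {k : Fin m} (h1 : k ≠ i) (h2 : k ≠ j) : (SW h i j hij)⁻¹ (b k) = b k := by
  conv_lhs => rw [← SW_b_ne h hij h1 h2]
  rw [MulAut.inv_apply_self]

end sw

/-- The twist along the curve `a i * a j`. -/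
noncomputable def CX (h : IsSurf a b) (i j : Fin m) (hij : (j : ℕ) = i + 1) : MulAut G :=
  RR h i * TC h i j hij * (RR h i)⁻¹

section cx

variable (h : IsSurf a b) {i j : Fin m} (hij : (j : ℕ) = i + 1)

theorem CX_eq : CX h i j hij = (RR h i * RR h i) * CC h i j hij * (RR h i * RR h i)⁻¹ := by
  rw [CX, CC]
  group

theorem CX_ai : CX h i j hij (a i) = a i * a j * a i * (a j)⁻¹ * (a i)⁻¹ := by
  have n1 := ne_of_succ hij
  rw [CX, MulAut.mul_apply, MulAut.mul_apply, RRi_a]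
  simp only [map_mul, map_inv, TC_ai, TC_bi, TC_aj, TC_bj, RR_a, RR_b, RR_a_ne h n1,
    RR_b_ne h n1]
  group

theorem CX_bi : CX h i j hij (b i) =
    a i * a j * (a i)⁻¹ * (a j)⁻¹ * b i * (a j)⁻¹ * (a i)⁻¹ := by
  have n1 := ne_of_succ hij
  rw [CX, MulAut.mul_apply, MulAut.mul_apply, RRi_b]
  simp only [map_mul, map_inv, TC_ai, TC_bi, TC_aj, TC_bj, RR_a, RR_b, RR_a_ne h n1,
    RR_b_ne h n1]
  group

theorem CX_aj : CX h i j hij (a j) = a i * a j * (a i)⁻¹ := by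
  have n1 := ne_of_succ hij
  rw [CX, MulAut.mul_apply, MulAut.mul_apply, RRi_a_ne h n1]
  simp only [map_mul, map_inv, TC_ai, TC_bi, TC_aj, TC_bj, RR_a, RR_b, RR_a_ne h n1,
    RR_b_ne h n1]
  group

theorem CX_bj : CX h i j hij (b j) = b j * (a j)⁻¹ * (a i)⁻¹ := by
  have n1 := ne_of_succ hij
  rw [CX, MulAut.mul_apply, MulAut.mul_apply, RRi_b_ne h n1]
  simp only [map_mul, map_inv, TC_ai, TC_bi, TC_aj, TC_bj, RR_a, RR_b, RR_a_ne h n1,
    RR_b_ne h n1]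
  group

theorem CX_a_ne {k : Fin m} (h1 : k ≠ i) (h2 : k ≠ j) : CX h i j hij (a k) = a k := by
  rw [CX, MulAut.mul_apply, MulAut.mul_apply, RRi_a_ne h h1, TC_a_ne h hij h1 h2, RR_a_ne h h1]

theorem CX_b_ne {k : Fin m} (h1 : k ≠ i) (h2 : k ≠ j) : CX h i j hij (b k) = b k := by
  rw [CX, MulAut.mul_apply, MulAut.mul_apply, RRi_b_ne h h1, TC_b_ne h hij h1 h2, RR_b_ne h h1]

end cx

/-- The mapping class which moves the curve `a j` to the curve `q i * a j`. -/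
noncomputable def FF (h : IsSurf a b) (i j : Fin m) (hij : (j : ℕ) = i + 1) : MulAut G :=
  TB h j * CC h i j hij * TA h j * (TB h j)⁻¹

section ff

variable (h : IsSurf a b) {i j : Fin m} (hij : (j : ℕ) = i + 1)

theorem FF_ai : FF h i j hij (a i) = a i := by
  have n1 := ne_of_succ hij
  have n2 : TB h j (a i) = a i := TB_a_ne h n1.symm
  have n3 : (TB h j)⁻¹ (a i) = a i := TBi_a_ne h n1.symm
  simp only [FF, MulAut.mul_apply, n3, TA_a, CC_ai, n2]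

theorem FF_bi : FF h i j hij (b i) = b i * (a i)⁻¹ * (b i)⁻¹ * a j * b j * b i := by
  have n1 := ne_of_succ hij
  have n2 : TB h j (a i) = a i := TB_a_ne h n1.symm
  have n3 : (TB h j)⁻¹ (a i) = a i := TBi_a_ne h n1.symm
  have n4 : TA h j (b i) = b i := TA_b_ne h n1.symm
  simp only [FF, MulAut.mul_apply, TBi_b, n4, CC_bi, cv, map_mul, map_inv, TB_b, TB_a, n2]
  group

theorem FF_aj : FF h i j hij (a j) = b i * (a i)⁻¹ * (b i)⁻¹ * a j := by
  have n1 := ne_of_succ hij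
  have n2 : TB h j (a i) = a i := TB_a_ne h n1.symm
  have n4 : TA h j (b i) = b i := TA_b_ne h n1.symm
  simp only [FF, MulAut.mul_apply, TBi_a, TA_a, TA_b, CC_aj, CC_bj, cv, map_mul, map_inv, TB_b,
    TB_a, n2, n4]
  group

theorem FF_bj : FF h i j hij (b j) = b j * b i * a i * (b i)⁻¹ := by
  have n1 := ne_of_succ hij
  have n2 : TB h j (a i) = a i := TB_a_ne h n1.symm
  have n4 : TA h j (b i) = b i := TA_b_ne h n1.symm
  simp only [FF, MulAut.mul_apply, TBi_b, TA_a, TA_b, CC_aj, CC_bj, cv, map_mul, map_inv, TB_b,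
    TB_a, n2, n4]
  group

theorem FF_a_ne {k : Fin m} (h1 : k ≠ i) (h2 : k ≠ j) : FF h i j hij (a k) = a k := by
  simp only [FF, MulAut.mul_apply, TBi_a_ne h h2, TA_a, CC_a_ne h hij h1 h2, TB_a_ne h h2]

theorem FF_b_ne {k : Fin m} (h1 : k ≠ i) (h2 : k ≠ j) : FF h i j hij (b k) = b k := by
  simp only [FF, MulAut.mul_apply, TBi_b, TA_b_ne h h2, CC_b_ne h hij h1 h2, TB_b]

theorem FFi_ai : (FF h i j hij)⁻¹ (a i) = a i := by
  conv_lhs => rw [← FF_ai h hij]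
  rw [MulAut.inv_apply_self]

theorem FFi_bj : (FF h i j hij)⁻¹ (b j) =
    (a j)⁻¹ * b i * (a i)⁻¹ * (b i)⁻¹ * a j * b j := by
  have h1 : FF h i j hij ((a j)⁻¹ * b i * (a i)⁻¹ * (b i)⁻¹ * a j * b j) = b j := by
    simp only [map_mul, map_inv, FF_ai, FF_bi, FF_aj, FF_bj]
    group
  conv_lhs => rw [← h1]
  rw [MulAut.inv_apply_self]

theorem FFi_bi : (FF h i j hij)⁻¹ (b i) = (b j)⁻¹ * (a j)⁻¹ * b i * a i := by
  have h1 : FF h i j hij ((b j)⁻¹ * (a j)⁻¹ * b i * a i) = b i := by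
    simp only [map_mul, map_inv, FF_ai, FF_bi, FF_aj, FF_bj]
    group
  conv_lhs => rw [← h1]
  rw [MulAut.inv_apply_self]

theorem FFi_aj : (FF h i j hij)⁻¹ (a j) =
    (b j)⁻¹ * (a j)⁻¹ * b i * a i * (b i)⁻¹ * a j * b j * a j := by
  have h1 : FF h i j hij ((b j)⁻¹ * (a j)⁻¹ * b i * a i * (b i)⁻¹ * a j * b j * a j) = a j := by
    simp only [map_mul, map_inv, FF_ai, FF_bi, FF_aj, FF_bj]
    group
  conv_lhs => rw [← h1]
  rw [MulAut.inv_apply_self]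

theorem FFi_a_ne {k : Fin m} (h1 : k ≠ i) (h2 : k ≠ j) : (FF h i j hij)⁻¹ (a k) = a k := by
  conv_lhs => rw [← FF_a_ne h hij h1 h2]
  rw [MulAut.inv_apply_self]

theorem FFi_b_ne {k : Fin m} (h1 : k ≠ i) (h2 : k ≠ j) : (FF h i j hij)⁻¹ (b k) = b k := by
  conv_lhs => rw [← FF_b_ne h hij h1 h2]
  rw [MulAut.inv_apply_self]

end ff

section lantern

variable (h : IsSurf a b) {i j k : Fin m} (hij : (j : ℕ) = i + 1) (hjk : (k : ℕ) = j + 1)

/-- The twist along the curve `q i * a k`. -/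
noncomputable def CY (h : IsSurf a b) (i j k : Fin m) (hij : (j : ℕ) = i + 1)
    (hjk : (k : ℕ) = j + 1) : MulAut G :=
  (SW h j k hjk)⁻¹ * CC h i j hij * SW h j k hjk

/-- The twist along the curve `q i * a j * a k`. -/
noncomputable def CE (h : IsSurf a b) (i j k : Fin m) (hij : (j : ℕ) = i + 1)
    (hjk : (k : ℕ) = j + 1) : MulAut G :=
  FF h i j hij * CX h j k hjk * (FF h i j hij)⁻¹

include hij hjk in
theorem ne_ik : k ≠ i := by
  rintro rfl
  omega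

theorem CY_ai : CY h i j k hij hjk (a i) = a i := by
  have n1 := ne_of_succ hij
  have n3 := ne_ik hij hjk
  simp only [CY, MulAut.mul_apply, SW_a_ne h hjk n1.symm n3.symm, CC_ai,
    SWi_a_ne h hjk n1.symm n3.symm]

theorem CY_bi : CY h i j k hij hjk (b i) = b i * (a i)⁻¹ * (b i)⁻¹ * a k * b i := by
  have n1 := ne_of_succ hij
  have n3 := ne_ik hij hjk
  simp only [CY, MulAut.mul_apply, SW_b_ne h hjk n1.symm n3.symm, CC_bi, cv, map_mul, map_inv,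
    SWi_a_ne h hjk n1.symm n3.symm, SWi_b_ne h hjk n1.symm n3.symm, SWi_ai]

theorem CY_ak : CY h i j k hij hjk (a k) =
    b i * (a i)⁻¹ * (b i)⁻¹ * a k * b i * a i * (b i)⁻¹ := by
  have n1 := ne_of_succ hij
  have n3 := ne_ik hij hjk
  simp only [CY, MulAut.mul_apply, SW_aj, CC_aj, cv, map_mul, map_inv,
    SWi_a_ne h hjk n1.symm n3.symm, SWi_b_ne h hjk n1.symm n3.symm, SWi_ai]
  group

theorem CY_bk : CY h i j k hij hjk (b k) = b k * (a k)⁻¹ * b i * a i * (b i)⁻¹ := by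
  have n1 := ne_of_succ hij
  have n3 := ne_ik hij hjk
  simp only [CY, MulAut.mul_apply, SW_bj, CC_bj, cv, map_mul, map_inv,
    SWi_a_ne h hjk n1.symm n3.symm, SWi_b_ne h hjk n1.symm n3.symm, SWi_ai, SWi_bi]
  group

theorem CY_aj : CY h i j k hij hjk (a j) =
    (b i * (a i)⁻¹ * (b i)⁻¹ * a k * b i * a i * (b i)⁻¹ * (a k)⁻¹) * a j *
      (b i * (a i)⁻¹ * (b i)⁻¹ * a k * b i * a i * (b i)⁻¹ * (a k)⁻¹)⁻¹ := by
  have n1 := ne_of_succ hij
  have n2 := ne_of_succ hjk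
  have n3 := ne_ik hij hjk
  simp only [CY, MulAut.mul_apply, SW_ai, CC_aj, CC_bj, CC_a_ne h hij n3 n2, cv, map_mul, map_inv,
    SWi_a_ne h hjk n1.symm n3.symm, SWi_b_ne h hjk n1.symm n3.symm, SWi_ai, SWi_bi, SWi_aj]
  group

theorem CY_bj : CY h i j k hij hjk (b j) =
    (b i * (a i)⁻¹ * (b i)⁻¹ * a k * b i * a i * (b i)⁻¹ * (a k)⁻¹) * b j *
      (b i * (a i)⁻¹ * (b i)⁻¹ * a k * b i * a i * (b i)⁻¹ * (a k)⁻¹)⁻¹ := by
  have n1 := ne_of_succ hij
  have n2 := ne_of_succ hjk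
  have n3 := ne_ik hij hjk
  simp only [CY, MulAut.mul_apply, SW_bi, CC_aj, CC_bj, CC_b_ne h hij n3 n2, cv, map_mul, map_inv,
    SWi_a_ne h hjk n1.symm n3.symm, SWi_b_ne h hjk n1.symm n3.symm, SWi_ai, SWi_bi, SWi_bj]
  group

theorem CY_a_ne {l : Fin m} (h1 : l ≠ i) (h2 : l ≠ j) (h3 : l ≠ k) :
    CY h i j k hij hjk (a l) = a l := by
  simp only [CY, MulAut.mul_apply, SW_a_ne h hjk h2 h3, CC_a_ne h hij h1 h2,
    SWi_a_ne h hjk h2 h3]

theorem CY_b_ne {l : Fin m} (h1 : l ≠ i) (h2 : l ≠ j) (h3 : l ≠ k) :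
    CY h i j k hij hjk (b l) = b l := by
  simp only [CY, MulAut.mul_apply, SW_b_ne h hjk h2 h3, CC_b_ne h hij h1 h2,
    SWi_b_ne h hjk h2 h3]

theorem CE_ai : CE h i j k hij hjk (a i) = a i := by
  have n1 := ne_of_succ hij
  have n3 := ne_ik hij hjk
  simp only [CE, MulAut.mul_apply, FFi_ai, CX_a_ne h hjk n1.symm n3.symm, FF_ai]

theorem CE_bi : CE h i j k hij hjk (b i) = b i * (a i)⁻¹ * (b i)⁻¹ * a j * a k * b i := by
  have n1 := ne_of_succ hij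
  have n2 := ne_of_succ hjk
  have n3 := ne_ik hij hjk
  simp only [CE, MulAut.mul_apply, FFi_bi, map_mul, map_inv, CX_a_ne h hjk n1.symm n3.symm,
    CX_b_ne h hjk n1.symm n3.symm, CX_ai, CX_bi, FF_ai, FF_bi, FF_aj, FF_bj, FF_a_ne h hij n3 n2,
    FF_b_ne h hij n3 n2]
  group

theorem CE_aj : CE h i j k hij hjk (a j) =
    b i * (a i)⁻¹ * (b i)⁻¹ * a j * a k * a j * (a k)⁻¹ * (a j)⁻¹ * b i * a i * (b i)⁻¹ := by
  have n1 := ne_of_succ hij
  have n2 := ne_of_succ hjk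
  have n3 := ne_ik hij hjk
  simp only [CE, MulAut.mul_apply, FFi_aj, map_mul, map_inv, CX_a_ne h hjk n1.symm n3.symm,
    CX_b_ne h hjk n1.symm n3.symm, CX_ai, CX_bi, FF_ai, FF_bi, FF_aj, FF_bj, FF_a_ne h hij n3 n2,
    FF_b_ne h hij n3 n2]
  group

theorem CE_bj : CE h i j k hij hjk (b j) =
    b i * (a i)⁻¹ * (b i)⁻¹ * a j * a k * (a j)⁻¹ * b i * a i * (b i)⁻¹ * (a k)⁻¹ * b j *
      (a k)⁻¹ * (a j)⁻¹ * b i * a i * (b i)⁻¹ := by
  have n1 := ne_of_succ hij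
  have n2 := ne_of_succ hjk
  have n3 := ne_ik hij hjk
  simp only [CE, MulAut.mul_apply, FFi_bj, map_mul, map_inv, CX_a_ne h hjk n1.symm n3.symm,
    CX_b_ne h hjk n1.symm n3.symm, CX_ai, CX_bi, FF_ai, FF_bi, FF_aj, FF_bj, FF_a_ne h hij n3 n2,
    FF_b_ne h hij n3 n2]
  group

theorem CE_ak : CE h i j k hij hjk (a k) =
    b i * (a i)⁻¹ * (b i)⁻¹ * a j * a k * (a j)⁻¹ * b i * a i * (b i)⁻¹ := by
  have n1 := ne_of_succ hij
  have n2 := ne_of_succ hjk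
  have n3 := ne_ik hij hjk
  simp only [CE, MulAut.mul_apply, FFi_a_ne h hij n3 n2, map_mul, map_inv, CX_aj, FF_ai, FF_bi,
    FF_aj, FF_bj, FF_a_ne h hij n3 n2, FF_b_ne h hij n3 n2]
  group

theorem CE_bk : CE h i j k hij hjk (b k) =
    b k * (a k)⁻¹ * (a j)⁻¹ * b i * a i * (b i)⁻¹ := by
  have n1 := ne_of_succ hij
  have n2 := ne_of_succ hjk
  have n3 := ne_ik hij hjk
  simp only [CE, MulAut.mul_apply, FFi_b_ne h hij n3 n2, map_mul, map_inv, CX_bj, FF_ai, FF_bi,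
    FF_aj, FF_bj, FF_a_ne h hij n3 n2, FF_b_ne h hij n3 n2]
  group

theorem CE_a_ne {l : Fin m} (h1 : l ≠ i) (h2 : l ≠ j) (h3 : l ≠ k) :
    CE h i j k hij hjk (a l) = a l := by
  simp only [CE, MulAut.mul_apply, FFi_a_ne h hij h1 h2, CX_a_ne h hjk h2 h3,
    FF_a_ne h hij h1 h2]

theorem CE_b_ne {l : Fin m} (h1 : l ≠ i) (h2 : l ≠ j) (h3 : l ≠ k) :
    CE h i j k hij hjk (b l) = b l := by
  simp only [CE, MulAut.mul_apply, FFi_b_ne h hij h1 h2, CX_b_ne h hjk h2 h3,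
    FF_b_ne h hij h1 h2]

/-- The lantern relation. -/
theorem lantern : CC h i j hij * CX h j k hjk * CY h i j k hij hjk =
    (TA h i)⁻¹ * (TA h j)⁻¹ * (TA h k)⁻¹ * CE h i j k hij hjk := by
  have n1 := ne_of_succ hij
  have n2 := ne_of_succ hjk
  have n3 := ne_ik hij hjk
  have x1 : CX h j k hjk (a i) = a i := CX_a_ne h hjk n1.symm n3.symm
  have x2 : CX h j k hjk (b i) = b i := CX_b_ne h hjk n1.symm n3.symm
  have c1 : CC h i j hij (a k) = a k := CC_a_ne h hij n3 n2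
  have c2 : CC h i j hij (b k) = b k := CC_b_ne h hij n3 n2
  have t1 : (TA h i)⁻¹ (b j) = b j := TAi_b_ne h n1
  have t2 : (TA h i)⁻¹ (b k) = b k := TAi_b_ne h n3
  have t3 : (TA h j)⁻¹ (b i) = b i := TAi_b_ne h n1.symm
  have t4 : (TA h j)⁻¹ (b k) = b k := TAi_b_ne h n2
  have t5 : (TA h k)⁻¹ (b i) = b i := TAi_b_ne h n3.symm
  have t6 : (TA h k)⁻¹ (b j) = b j := TAi_b_ne h n2.symm
  apply aut_ext h
  · intro l
    simp only [MulAut.mul_apply]
    by_cases h1 : l = i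
    · subst h1
      simp only [CY_ai, x1, CC_ai, CE_ai, TAi_a]
    · by_cases h2 : l = j
      · subst h2
        simp only [CY_aj, CE_aj, map_mul, map_inv, x1, x2, c1, c2, t1, t2, t3, t4, t5, t6, TAi_a,
          TAi_b, CX_ai, CX_bi, CX_aj, CX_bj, CC_ai, CC_bi, CC_aj, CC_bj, cv]
        group
      · by_cases h3 : l = k
        · subst h3
          simp only [CY_ak, CE_ak, map_mul, map_inv, x1, x2, c1, c2, t1, t2, t3, t4, t5, t6,
            TAi_a, TAi_b, CX_ai, CX_bi, CX_aj, CX_bj, CC_ai, CC_bi, CC_aj, CC_bj, cv]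
          group
        · simp only [CY_a_ne h hij hjk h1 h2 h3, CX_a_ne h hjk h2 h3, CC_a_ne h hij h1 h2,
            CE_a_ne h hij hjk h1 h2 h3, TAi_a]
  · intro l
    simp only [MulAut.mul_apply]
    by_cases h1 : l = i
    · subst h1
      simp only [CY_bi, CE_bi, map_mul, map_inv, x1, x2, c1, c2, t1, t2, t3, t4, t5, t6, TAi_a,
        TAi_b, CX_ai, CX_bi, CX_aj, CX_bj, CC_ai, CC_bi, CC_aj, CC_bj, cv]
      group
    · by_cases h2 : l = j
      · subst h2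
        simp only [CY_bj, CE_bj, map_mul, map_inv, x1, x2, c1, c2, t1, t2, t3, t4, t5, t6, TAi_a,
          TAi_b, CX_ai, CX_bi, CX_aj, CX_bj, CC_ai, CC_bi, CC_aj, CC_bj, cv]
        group
      · by_cases h3 : l = k
        · subst h3
          simp only [CY_bk, CE_bk, map_mul, map_inv, x1, x2, c1, c2, t1, t2, t3, t4, t5, t6,
            TAi_a, TAi_b, CX_ai, CX_bi, CX_aj, CX_bj, CC_ai, CC_bi, CC_aj, CC_bj, cv]
          group
        · simp only [CY_b_ne h hij hjk h1 h2 h3, CX_b_ne h hjk h2 h3, CC_b_ne h hij h1 h2,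
            CE_b_ne h hij hjk h1 h2 h3, TAi_b_ne h h1, TAi_b_ne h h2, TAi_b_ne h h3]

end lantern

end

end Pool.MP_59b15d_al.H40L
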