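import Mathlib
import Pool.Agent.H.MP_59b15d_al.lin.Cc
import Pool.Agent.H.MP_59b15d_al.lin.Perp

/-!
The relations of the tree of the twists `(TA h i)⁻¹`, `TB h i` and `CC h i (i + 1)`.
-/

set_option autoImplicit false
set_option linter.unusedSimpArgs false

namespace Pool.MP_59b15d_al.H40L

open Pool.MP_59b15d_al.H24T Pool.MP_59b15d_al.H76R Pool.MP_59b15d_al.H73E
open Pool.MP_59b15d_al.H60G

section

variable {m : ℕ} {G : Type*} [Group G] {a b : Fin m → G}

theorem TA_TA (h : IsSurf a b) (i k : Fin m) : Commute (TA h i) (TA h k) := by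
  apply aut_ext h
  · intro l
    simp only [MulAut.mul_apply, TA_a]
  · intro l
    rw [MulAut.mul_apply, MulAut.mul_apply]
    by_cases h1 : l = i
    · subst h1
      by_cases h2 : l = k
      · subst h2
        rfl
      · rw [TA_b_ne h h2, TA_b, map_mul, TA_b_ne h h2, TA_a]
    · by_cases h2 : l = k
      · subst h2
        rw [TA_b_ne h h1, TA_b, map_mul, TA_b_ne h h1, TA_a]
      · rw [TA_b_ne h h1, TA_b_ne h h2, TA_b_ne h h1]

theorem TB_TB (h : IsSurf a b) (i k : Fin m) : Commute (TB h i) (TB h k) := by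
  apply aut_ext h
  · intro l
    rw [MulAut.mul_apply, MulAut.mul_apply]
    by_cases h1 : l = i
    · subst h1
      by_cases h2 : l = k
      · subst h2
        rfl
      · rw [TB_a_ne h h2, TB_a, map_mul, TB_a_ne h h2, TB_b]
    · by_cases h2 : l = k
      · subst h2
        rw [TB_a_ne h h1, TB_a, map_mul, TB_a_ne h h1, TB_b]
      · rw [TB_a_ne h h1, TB_a_ne h h2, TB_a_ne h h1]
  · intro l
    simp only [MulAut.mul_apply, TB_b]

theorem TA_TB (h : IsSurf a b) {i k : Fin m} (hik : i ≠ k) : Commute (TA h i) (TB h k) := by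
  apply aut_ext h
  · intro l
    rw [MulAut.mul_apply, MulAut.mul_apply, TA_a]
    by_cases h2 : l = k
    · subst h2
      rw [TB_a, map_mul, TA_a, TA_b_ne h hik.symm]
    · rw [TB_a_ne h h2, TA_a]
  · intro l
    rw [MulAut.mul_apply, MulAut.mul_apply, TB_b]
    by_cases h2 : l = i
    · subst h2
      rw [TA_b, map_mul, TB_b, TB_a_ne h hik]
    · rw [TA_b_ne h h2, TB_b]

/-- The braid relation of a handle. -/
theorem TAi_TB_braid (h : IsSurf a b) (i : Fin m) :
    (TA h i)⁻¹ * TB h i * (TA h i)⁻¹ = TB h i * (TA h i)⁻¹ * TB h i := by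
  apply aut_ext h
  · intro l
    simp only [MulAut.mul_apply]
    by_cases hl : l = i
    · subst hl
      simp only [map_mul, map_inv, TB_a, TAi_a, TAi_b, TB_b]
      group
    · simp only [TAi_a, TB_a_ne h hl]
  · intro l
    simp only [MulAut.mul_apply]
    by_cases hl : l = i
    · subst hl
      simp only [map_mul, map_inv, TB_a, TAi_a, TAi_b, TB_b]
      group
    · simp only [TAi_b_ne h hl, TB_b]

variable (h : IsSurf a b) {i j : Fin m} (hij : (j : ℕ) = i + 1)

theorem TA_CC (k : Fin m) : Commute (TA h k) (CC h i j hij) := by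
  have n1 := ne_of_succ hij
  have hcv : TA h k (cv a b i j) = cv a b i j := by
    have e : cv a b i j = b i * (a i)⁻¹ * (b i)⁻¹ * a j := rfl
    rw [e]
    simp only [map_mul, map_inv, TA_a]
    by_cases hk : i = k
    · subst hk
      rw [TA_b]
      group
    · rw [TA_b_ne h hk]
  have hcc : ∀ l, CC h i j hij (a l) = TA h k (CC h i j hij (a l)) := by
    intro l
    by_cases h1 : l = i
    · subst h1
      rw [CC_ai, TA_a]
    · by_cases h2 : l = j
      · subst h2
        rw [CC_aj]
        simp only [map_mul, map_inv, hcv, TA_a]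
      · rw [CC_a_ne h hij h1 h2, TA_a]
  apply aut_ext h
  · intro l
    rw [MulAut.mul_apply, MulAut.mul_apply, TA_a, ← hcc]
  · intro l
    rw [MulAut.mul_apply, MulAut.mul_apply]
    by_cases h3 : l = k
    · subst h3
      rw [TA_b, map_mul]
      by_cases h1 : l = i
      · subst h1
        rw [CC_bi, CC_ai, map_mul, hcv, TA_b]
        group
      · by_cases h2 : l = j
        · subst h2
          rw [CC_bj, CC_aj, map_mul, map_inv, hcv, TA_b]
          group
        · rw [CC_b_ne h hij h1 h2, CC_a_ne h hij h1 h2, TA_b]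
    · rw [TA_b_ne h h3]
      by_cases h1 : l = i
      · subst h1
        rw [CC_bi, map_mul, hcv, TA_b_ne h h3]
      · by_cases h2 : l = j
        · subst h2
          rw [CC_bj, map_mul, map_inv, hcv, TA_b_ne h h3]
        · rw [CC_b_ne h hij h1 h2, TA_b_ne h h3]

theorem TB_CC {k : Fin m} (hki : k ≠ i) (hkj : k ≠ j) : Commute (TB h k) (CC h i j hij) := by
  have hcv : TB h k (cv a b i j) = cv a b i j := by
    have e : cv a b i j = b i * (a i)⁻¹ * (b i)⁻¹ * a j := rfl
    rw [e]
    simp only [map_mul, map_inv, TB_b, TB_a_ne h hki.symm, TB_a_ne h hkj.symm]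
  apply aut_ext h
  · intro l
    rw [MulAut.mul_apply, MulAut.mul_apply]
    by_cases h3 : l = k
    · subst h3
      rw [CC_a_ne h hij hki hkj, TB_a, map_mul, CC_a_ne h hij hki hkj, CC_b_ne h hij hki hkj]
    · rw [TB_a_ne h h3]
      by_cases h1 : l = i
      · subst h1
        rw [CC_ai, TB_a_ne h h3]
      · by_cases h2 : l = j
        · subst h2
          rw [CC_aj]
          simp only [map_mul, map_inv, hcv, TB_a_ne h h3]
        · rw [CC_a_ne h hij h1 h2, TB_a_ne h h3]
  · intro l
    rw [MulAut.mul_apply, MulAut.mul_apply, TB_b]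
    by_cases h1 : l = i
    · subst h1
      rw [CC_bi, map_mul, hcv, TB_b]
    · by_cases h2 : l = j
      · subst h2
        rw [CC_bj, map_mul, map_inv, hcv, TB_b]
      · rw [CC_b_ne h hij h1 h2, TB_b]

/-- The braid relation at the first end. -/
theorem TBi_CC_braid : TB h i * CC h i j hij * TB h i = CC h i j hij * TB h i * CC h i j hij := by
  have n1 := ne_of_succ hij
  have n2 : TB h i (a j) = a j := TB_a_ne h n1
  have e : cv a b i j = b i * (a i)⁻¹ * (b i)⁻¹ * a j := rfl
  apply aut_ext h
  · intro l
    simp only [MulAut.mul_apply]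
    by_cases h1 : l = i
    · subst h1
      simp only [map_mul, map_inv, CC_ai, CC_bi, CC_aj, CC_bj, CC_cv, TB_a, TB_b, n2, e]
      group
    · by_cases h2 : l = j
      · subst h2
        simp only [map_mul, map_inv, CC_ai, CC_bi, CC_aj, CC_bj, CC_cv, TB_a, TB_b, n2, e]
        group
      · simp only [TB_a_ne h h1, CC_a_ne h hij h1 h2]
  · intro l
    simp only [MulAut.mul_apply]
    by_cases h1 : l = i
    · subst h1
      simp only [map_mul, map_inv, CC_ai, CC_bi, CC_aj, CC_bj, CC_cv, TB_a, TB_b, n2, e]
      group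
    · by_cases h2 : l = j
      · subst h2
        simp only [map_mul, map_inv, CC_ai, CC_bi, CC_aj, CC_bj, CC_cv, TB_a, TB_b, n2, e]
        group
      · simp only [TB_b, CC_b_ne h hij h1 h2]

/-- The braid relation at the second end. -/
theorem CC_TBj_braid : CC h i j hij * TB h j * CC h i j hij = TB h j * CC h i j hij * TB h j := by
  have n1 := ne_of_succ hij
  have n2 : TB h j (a i) = a i := TB_a_ne h n1.symm
  have e : cv a b i j = b i * (a i)⁻¹ * (b i)⁻¹ * a j := rfl
  apply aut_ext h
  · intro l
    simp only [MulAut.mul_apply]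
    by_cases h1 : l = i
    · subst h1
      simp only [map_mul, map_inv, CC_ai, CC_bi, CC_aj, CC_bj, CC_cv, TB_a, TB_b, n2, e]
    · by_cases h2 : l = j
      · subst h2
        simp only [map_mul, map_inv, CC_ai, CC_bi, CC_aj, CC_bj, CC_cv, TB_a, TB_b, n2, e]
        group
      · simp only [TB_a_ne h h2, CC_a_ne h hij h1 h2]
  · intro l
    simp only [MulAut.mul_apply]
    by_cases h1 : l = i
    · subst h1
      simp only [map_mul, map_inv, CC_ai, CC_bi, CC_aj, CC_bj, CC_cv, TB_a, TB_b, n2, e]
      group
    · by_cases h2 : l = j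
      · subst h2
        simp only [map_mul, map_inv, CC_ai, CC_bi, CC_aj, CC_bj, CC_cv, TB_a, TB_b, n2, e]
        group
      · simp only [TB_b, CC_b_ne h hij h1 h2]

theorem CC_CC {i' j' : Fin m} (hij' : (j' : ℕ) = i' + 1) :
    Commute (CC h i j hij) (CC h i' j' hij') := by
  have key : ∀ (i j i' j' : Fin m) (hij : (j : ℕ) = i + 1) (hij' : (j' : ℕ) = i' + 1),
      (i : ℕ) < i' → Commute (CC h i j hij) (CC h i' j' hij') := by
    intro i j i' j' hij hij' hlt
    have n1 := ne_of_succ hij
    have n2 := ne_of_succ hij'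
    have n3 : i' ≠ i := by rintro rfl; omega
    have n4 : j' ≠ i := by rintro rfl; omega
    have n5 : j' ≠ j := by rintro rfl; omega
    have e : cv a b i j = b i * (a i)⁻¹ * (b i)⁻¹ * a j := rfl
    have e' : cv a b i' j' = b i' * (a i')⁻¹ * (b i')⁻¹ * a j' := rfl
    by_cases hji : j = i'
    · subst hji
      have c1 : CC h j j' hij' (cv a b i j) = cv a b i j := by
        rw [e]
        simp only [map_mul, map_inv, CC_b_ne h hij' n1.symm n4.symm,
          CC_a_ne h hij' n1.symm n4.symm, CC_ai]
      have c2 : CC h i j hij (cv a b j j') = cv a b j j' := by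
        rw [e']
        simp only [map_mul, map_inv, CC_bj, CC_aj, CC_a_ne h hij n4 n5]
        group
      apply aut_ext h
      · intro l
        rw [MulAut.mul_apply, MulAut.mul_apply]
        by_cases h1 : l = i
        · subst h1
          rw [CC_a_ne h hij' n1.symm n4.symm, CC_ai, CC_a_ne h hij' n1.symm n4.symm]
        · by_cases h2 : l = j
          · subst h2
            rw [CC_ai h hij', CC_aj h hij]
            simp only [map_mul, map_inv, c1, CC_ai]
          · by_cases h3 : l = j'
            · subst h3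
              rw [CC_a_ne h hij h1 h2, CC_aj]
              simp only [map_mul, map_inv, c2, CC_a_ne h hij h1 h2]
            · rw [CC_a_ne h hij h1 h2, CC_a_ne h hij' h2 h3, CC_a_ne h hij h1 h2]
      · intro l
        rw [MulAut.mul_apply, MulAut.mul_apply]
        by_cases h1 : l = i
        · subst h1
          rw [CC_b_ne h hij' n1.symm n4.symm, CC_bi, map_mul, c1, CC_b_ne h hij' n1.symm n4.symm]
        · by_cases h2 : l = j
          · subst h2
            rw [CC_bi h hij', CC_bj h hij]
            simp only [map_mul, map_inv, c1, c2, CC_bi, CC_bj]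
            group
          · by_cases h3 : l = j'
            · subst h3
              rw [CC_b_ne h hij h1 h2, CC_bj]
              simp only [map_mul, map_inv, c2, CC_b_ne h hij h1 h2]
            · rw [CC_b_ne h hij h1 h2, CC_b_ne h hij' h2 h3, CC_b_ne h hij h1 h2]
    · have n6 : i' ≠ j := fun h1 => hji h1.symm
      have c1 : CC h i' j' hij' (cv a b i j) = cv a b i j := by
        rw [e]
        simp only [map_mul, map_inv, CC_b_ne h hij' n3.symm n4.symm,
          CC_a_ne h hij' n3.symm n4.symm, CC_a_ne h hij' n6.symm n5.symm]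
      have c2 : CC h i j hij (cv a b i' j') = cv a b i' j' := by
        rw [e']
        simp only [map_mul, map_inv, CC_b_ne h hij n3 n6, CC_a_ne h hij n3 n6,
          CC_a_ne h hij n4 n5]
      apply aut_ext h
      · intro l
        rw [MulAut.mul_apply, MulAut.mul_apply]
        by_cases h1 : l = i
        · subst h1
          rw [CC_a_ne h hij' n3.symm n4.symm, CC_ai, CC_a_ne h hij' n3.symm n4.symm]
        · by_cases h2 : l = j
          · subst h2
            rw [CC_a_ne h hij' n6.symm n5.symm, CC_aj]
            simp only [map_mul, map_inv, c1, CC_a_ne h hij' n6.symm n5.symm]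
          · by_cases h3 : l = i'
            · subst h3
              rw [CC_ai, CC_a_ne h hij h1 h2, CC_ai]
            · by_cases h4 : l = j'
              · subst h4
                rw [CC_a_ne h hij h1 h2, CC_aj]
                simp only [map_mul, map_inv, c2, CC_a_ne h hij h1 h2]
              · rw [CC_a_ne h hij h1 h2, CC_a_ne h hij' h3 h4, CC_a_ne h hij h1 h2]
      · intro l
        rw [MulAut.mul_apply, MulAut.mul_apply]
        by_cases h1 : l = i
        · subst h1
          rw [CC_b_ne h hij' n3.symm n4.symm, CC_bi, map_mul, c1, CC_b_ne h hij' n3.symm n4.symm]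
        · by_cases h2 : l = j
          · subst h2
            rw [CC_b_ne h hij' n6.symm n5.symm, CC_bj]
            simp only [map_mul, map_inv, c1, CC_b_ne h hij' n6.symm n5.symm]
          · by_cases h3 : l = i'
            · subst h3
              rw [CC_bi, CC_b_ne h hij h1 h2, map_mul, c2, CC_bi, CC_b_ne h hij h1 h2]
            · by_cases h4 : l = j'
              · subst h4
                rw [CC_b_ne h hij h1 h2, CC_bj]
                simp only [map_mul, map_inv, c2, CC_b_ne h hij h1 h2]
              · rw [CC_b_ne h hij h1 h2, CC_b_ne h hij' h3 h4, CC_b_ne h hij h1 h2]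
  rcases lt_trichotomy (i : ℕ) i' with hlt | heq | hgt
  · exact key _ _ _ _ hij hij' hlt
  · have e1 : i = i' := Fin.ext heq
    subst e1
    have e2 : j = j' := Fin.ext (by omega)
    subst e2
    exact Commute.refl _
  · exact (key _ _ _ _ hij' hij hgt).symm

end

section nat

variable {m : ℕ} {G : Type*} [Group G] {a b : Fin m → G}

/-- The generator `(TA h k)⁻¹` of the tree. -/
noncomputable def TrA (h : IsSurf a b) (k : ℕ) : MulAut G :=
  if hk : k < m then (TA h ⟨k, hk⟩)⁻¹ else 1

/-- The generator `TB h k` of the tree. -/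
noncomputable def TrB (h : IsSurf a b) (k : ℕ) : MulAut G :=
  if hk : k < m then TB h ⟨k, hk⟩ else 1

/-- The generator `CC h k (k + 1)` of the tree. -/
noncomputable def TrC (h : IsSurf a b) (k : ℕ) : MulAut G :=
  if hk : k + 1 < m then CC h ⟨k, by omega⟩ ⟨k + 1, hk⟩ rfl else 1

variable (h : IsSurf a b)

theorem TrA_lt {k : ℕ} (hk : k < m) : TrA h k = (TA h ⟨k, hk⟩)⁻¹ := dif_pos hk
theorem TrB_lt {k : ℕ} (hk : k < m) : TrB h k = TB h ⟨k, hk⟩ := dif_pos hk
theorem TrC_lt {k : ℕ} (hk : k + 1 < m) :
    TrC h k = CC h ⟨k, by omega⟩ ⟨k + 1, hk⟩ rfl := dif_pos hk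

/-- The relations of the tree. -/
theorem treeGrp : Pool.Agent.H.MP_59b15d_al.Lin.TreeGrp m (TrA h) (TrB h) (TrC h) where
  AB := by
    intro i hi
    rw [TrA_lt h hi, TrB_lt h hi]
    exact TAi_TB_braid h _
  BC := by
    intro i hi
    rw [TrB_lt h (by omega : i < m), TrC_lt h hi]
    exact TBi_CC_braid h rfl
  CB := by
    intro i hi
    rw [TrB_lt h hi, TrC_lt h hi]
    exact CC_TBj_braid h rfl
  cAA := by
    intro i j hi hj
    rw [TrA_lt h hi, TrA_lt h hj]
    exact (TA_TA h _ _).inv_inv
  cAB := by
    intro i j hi hj hij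
    rw [TrA_lt h hi, TrB_lt h hj]
    exact (TA_TB h (fun h1 => hij (by simpa using h1))).inv_left
  cBB := by
    intro i j hi hj
    rw [TrB_lt h hi, TrB_lt h hj]
    exact TB_TB h _ _
  cAC := by
    intro i j hi hj
    rw [TrA_lt h hi, TrC_lt h hj]
    exact (TA_CC h rfl _).inv_left
  cBC := by
    intro i j hi hj hij hij'
    rw [TrB_lt h hi, TrC_lt h hj]
    exact TB_CC h rfl (fun h1 => hij (by simpa using h1)) (fun h1 => hij' (by simpa using h1))
  cCC := by
    intro i j hi hj
    rw [TrC_lt h hi, TrC_lt h hj]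
    exact CC_CC h rfl rfl

end nat

end Pool.MP_59b15d_al.H40L
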