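import Mathlib
import Pool.Agent.H.MP_59b15d_al.lin.Lantern
import Pool.Agent.H.MP_59b15d_al.lin.Tr

/-!
Consequences of the lantern relation.
-/

set_option autoImplicit false
set_option linter.unusedSimpArgs false

namespace Pool.MP_59b15d_al.H40L

open Pool.MP_59b15d_al.H24T Pool.MP_59b15d_al.H76R Pool.MP_59b15d_al.H73E
open Pool.MP_59b15d_al.H60G

section abstract

variable {Γ : Type*} [Group Γ]

/-- Braided elements are conjugate. -/
theorem braid_conj {s u : Γ} (hb : s * u * s = u * s * u) : u = (s * u) * s * (s * u)⁻¹ := by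
  have e : s * u * s * (s * u)⁻¹ = u * s * u * (s * u)⁻¹ := by rw [hb]
  rw [e]
  group

/-- The subgroup generated by the conjugates of `t` by the elements of `S`. -/
def cjs (S : Subgroup Γ) (t : Γ) : Subgroup Γ := Subgroup.closure {x | ∃ u ∈ S, x = u * t * u⁻¹}

theorem self_cjs (S : Subgroup Γ) (t : Γ) : t ∈ cjs S t :=
  Subgroup.subset_closure ⟨1, S.one_mem, by group⟩

theorem conj_cjs {S : Subgroup Γ} {t x v : Γ} (hv : v ∈ S) (hx : x ∈ cjs S t) :
    v * x * v⁻¹ ∈ cjs S t := by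
  have hle : cjs S t ≤ (cjs S t).comap (MulAut.conj v).toMonoidHom := by
    rw [cjs, Subgroup.closure_le]
    rintro _ ⟨u, hu, rfl⟩
    refine Subgroup.subset_closure ⟨v * u, S.mul_mem hv hu, ?_⟩
    change v * (u * t * u⁻¹) * v⁻¹ = _
    group
  exact hle hx

theorem conj_cjs' {S : Subgroup Γ} {t x v : Γ} (hv : v ∈ S) (hx : x ∈ cjs S t) :
    v⁻¹ * x * v ∈ cjs S t := by
  have h1 := conj_cjs (S.inv_mem hv) hx
  rwa [inv_inv] at h1

theorem braid_cjs {S : Subgroup Γ} {t s u : Γ} (hs : s ∈ S) (hu : u ∈ S)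
    (hb : s * u * s = u * s * u) (h : s ∈ cjs S t) : u ∈ cjs S t := by
  rw [braid_conj hb]
  exact conj_cjs (S.mul_mem hs hu) h

end abstract

section

variable {m : ℕ} {G : Type*} [Group G] {a b : Fin m → G}

/-- The swap lies in every subgroup containing the twists of the two handles. -/
theorem SW_mem_of (h : IsSurf a b) {i j : Fin m} (hij : (j : ℕ) = i + 1)
    (S : Subgroup (MulAut G)) (h1 : TA h i ∈ S) (h2 : TA h j ∈ S) (h3 : TB h i ∈ S)
    (h4 : TB h j ∈ S) (h5 : TC h i j hij ∈ S) : SW h i j hij ∈ S := by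
  have hle : MR h i (i + 2) ≤ S := by
    apply MR_le h
    · intro l hl1 hl2
      rcases Nat.lt_or_ge (i : ℕ) l with hc | hc
      · have : l = j := Fin.ext (by omega)
        rw [this]
        exact h2
      · have : l = i := Fin.ext (by omega)
        rw [this]
        exact h1
    · intro l hl1 hl2
      rcases Nat.lt_or_ge (i : ℕ) l with hc | hc
      · have : l = j := Fin.ext (by omega)
        rw [this]
        exact h4
      · have : l = i := Fin.ext (by omega)
        rw [this]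
        exact h3
    · intro l l' hll hl1 hl2
      have e1 : l = i := Fin.ext (by omega)
      subst e1
      have e2 : l' = j := Fin.ext (by omega)
      subst e2
      exact h5
  exact hle (SW_mem h hij)

/-- The leaf of the first handle is a product of conjugates of the leaf of the third one by elements
which do not involve the twist `TB` of the first handle. -/
theorem TA_mem_cjs (h : IsSurf a b) {i j k : Fin m} (hij : (j : ℕ) = i + 1)
    (hjk : (k : ℕ) = j + 1) (S : Subgroup (MulAut G)) (hAi : TA h i ∈ S) (hAj : TA h j ∈ S)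
    (hAk : TA h k ∈ S) (hBj : TB h j ∈ S) (hBk : TB h k ∈ S) (hCi : CC h i j hij ∈ S)
    (hCj : CC h j k hjk ∈ S) : (TA h i)⁻¹ ∈ cjs S (TA h k)⁻¹ := by
  have hRj : RR h j ∈ S := S.mul_mem (S.mul_mem (S.inv_mem hAj) hBj) (S.inv_mem hAj)
  have hTC : TC h j k hjk ∈ S := by
    rw [TC_eq]
    exact S.mul_mem (S.mul_mem hRj hCj) (S.inv_mem hRj)
  have hSW : SW h j k hjk ∈ S := SW_mem_of h hjk S hAj hAk hBj hBk hTC
  have hFF : FF h i j hij ∈ S := S.mul_mem (S.mul_mem (S.mul_mem hBj hCi) hAj) (S.inv_mem hBj)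
  -- conjugates
  have t0 : (TA h k)⁻¹ ∈ cjs S (TA h k)⁻¹ := self_cjs _ _
  have t1 : TB h k ∈ cjs S (TA h k)⁻¹ := braid_cjs (S.inv_mem hAk) hBk (TAi_TB_braid h k) t0
  have t2 : CC h j k hjk ∈ cjs S (TA h k)⁻¹ := braid_cjs hBk hCj (CC_TBj_braid h hjk).symm t1
  have t3 : TB h j ∈ cjs S (TA h k)⁻¹ := braid_cjs hCj hBj (TBi_CC_braid h hjk).symm t2
  have t4 : (TA h j)⁻¹ ∈ cjs S (TA h k)⁻¹ :=
    braid_cjs hBj (S.inv_mem hAj) (TAi_TB_braid h j).symm t3
  have t5 : CC h i j hij ∈ cjs S (TA h k)⁻¹ := braid_cjs hBj hCi (CC_TBj_braid h hij).symm t3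
  have t6 : CX h j k hjk ∈ cjs S (TA h k)⁻¹ := by
    rw [CX_eq]
    exact conj_cjs (S.mul_mem hRj hRj) t2
  have t7 : CY h i j k hij hjk ∈ cjs S (TA h k)⁻¹ := conj_cjs' hSW t5
  have t8 : CE h i j k hij hjk ∈ cjs S (TA h k)⁻¹ := conj_cjs hFF t6
  have e : (TA h i)⁻¹ = CC h i j hij * CX h j k hjk * CY h i j k hij hjk *
      (CE h i j k hij hjk)⁻¹ * ((TA h k)⁻¹)⁻¹ * ((TA h j)⁻¹)⁻¹ := by
    rw [lantern h hij hjk]
    group
  rw [e]
  exact mul_mem (mul_mem (mul_mem (mul_mem (mul_mem t5 t6) t7) (inv_mem t8)) (inv_mem t0))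
    (inv_mem t4)

/-- The version for the tree. -/
theorem TrA_mem_cjs (h : IsSurf a b) {lo : ℕ} (hlo : lo + 2 < m) :
    TrA h lo ∈ cjs (Subgroup.closure ({TrA h lo, TrA h (lo + 1), TrA h (lo + 2), TrB h (lo + 1),
      TrB h (lo + 2), TrC h lo, TrC h (lo + 1)} : Set (MulAut G))) (TrA h (lo + 2)) := by
  set S := Subgroup.closure ({TrA h lo, TrA h (lo + 1), TrA h (lo + 2), TrB h (lo + 1),
      TrB h (lo + 2), TrC h lo, TrC h (lo + 1)} : Set (MulAut G)) with hS
  have hsub : ∀ x ∈ ({TrA h lo, TrA h (lo + 1), TrA h (lo + 2), TrB h (lo + 1),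
      TrB h (lo + 2), TrC h lo, TrC h (lo + 1)} : Set (MulAut G)), x ∈ S := fun x hx =>
    Subgroup.subset_closure hx
  rw [TrA_lt h (by omega : lo < m), TrA_lt h hlo]
  apply TA_mem_cjs h (i := ⟨lo, by omega⟩) (j := ⟨lo + 1, by omega⟩) (k := ⟨lo + 2, hlo⟩) rfl rfl
  · have := hsub (TrA h lo) (by simp)
    rw [TrA_lt h (by omega : lo < m)] at this
    exact (Subgroup.inv_mem_iff S).1 this
  · have := hsub (TrA h (lo + 1)) (by simp)
    rw [TrA_lt h (by omega : lo + 1 < m)] at this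
    exact (Subgroup.inv_mem_iff S).1 this
  · have := hsub (TrA h (lo + 2)) (by simp)
    rw [TrA_lt h hlo] at this
    exact (Subgroup.inv_mem_iff S).1 this
  · have := hsub (TrB h (lo + 1)) (by simp)
    rwa [TrB_lt h (by omega : lo + 1 < m)] at this
  · have := hsub (TrB h (lo + 2)) (by simp)
    rwa [TrB_lt h hlo] at this
  · have := hsub (TrC h lo) (by simp)
    rwa [TrC_lt h (by omega : lo + 1 < m)] at this
  · have := hsub (TrC h (lo + 1)) (by simp)
    rwa [TrC_lt h (by omega : lo + 1 + 1 < m)] at this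

/-- The group generated by the elements of the tree of the handles `lo, …, hi - 1`. -/
def TRR (h : IsSurf a b) (lo hi : ℕ) : Subgroup (MulAut G) :=
  Subgroup.closure {T | (∃ k, lo ≤ k ∧ k < hi ∧ T = TrA h k) ∨ (∃ k, lo ≤ k ∧ k < hi ∧ T = TrB h k) ∨
    ∃ k, lo ≤ k ∧ k + 1 < hi ∧ T = TrC h k}

/-- The elements of the tree generate. -/
theorem TRR_eq (h : IsSurf a b) (lo hi : ℕ) : TRR h lo hi = MR h lo hi := by
  have hA : ∀ i : Fin m, lo ≤ (i : ℕ) → (i : ℕ) < hi → TA h i ∈ MR h lo hi :=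
    fun i h1 h2 => TA_mem h i h1 h2
  have hB : ∀ i : Fin m, lo ≤ (i : ℕ) → (i : ℕ) < hi → TB h i ∈ MR h lo hi :=
    fun i h1 h2 => TB_mem h i h1 h2
  apply le_antisymm
  · rw [TRR, Subgroup.closure_le]
    rintro T (⟨k, h1, h2, rfl⟩ | ⟨k, h1, h2, rfl⟩ | ⟨k, h1, h2, rfl⟩)
    · by_cases hk : k < m
      · rw [TrA_lt h hk]
        exact inv_mem (hA _ h1 h2)
      · rw [TrA, dif_neg hk]
        exact one_mem _
    · by_cases hk : k < m
      · rw [TrB_lt h hk]
        exact hB _ h1 h2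
      · rw [TrB, dif_neg hk]
        exact one_mem _
    · by_cases hk : k + 1 < m
      · rw [TrC_lt h hk, CC, RR]
        have h3 := hA ⟨k, by omega⟩ h1 (by simp only; omega)
        have h4 := hB ⟨k, by omega⟩ h1 (by simp only; omega)
        have h5 : TC h ⟨k, by omega⟩ ⟨k + 1, hk⟩ rfl ∈ MR h lo hi :=
          TC_mem h _ _ rfl h1 h2
        exact mul_mem (mul_mem (inv_mem (mul_mem (mul_mem (inv_mem h3) h4) (inv_mem h3))) h5)
          (mul_mem (mul_mem (inv_mem h3) h4) (inv_mem h3))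
      · rw [TrC, dif_neg hk]
        exact one_mem _
  · have kA : ∀ i : Fin m, lo ≤ (i : ℕ) → (i : ℕ) < hi → TA h i ∈ TRR h lo hi := by
      intro i h1 h2
      have h3 : TrA h i ∈ TRR h lo hi := Subgroup.subset_closure (Or.inl ⟨i, h1, h2, rfl⟩)
      rw [TrA_lt h i.2] at h3
      exact (Subgroup.inv_mem_iff _).1 h3
    have kB : ∀ i : Fin m, lo ≤ (i : ℕ) → (i : ℕ) < hi → TB h i ∈ TRR h lo hi := by
      intro i h1 h2
      have h3 : TrB h i ∈ TRR h lo hi :=
        Subgroup.subset_closure (Or.inr (Or.inl ⟨i, h1, h2, rfl⟩))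
      rwa [TrB_lt h i.2] at h3
    apply MR_le h kA kB
    intro i j hij h1 h2
    have h3 : TrC h i ∈ TRR h lo hi :=
      Subgroup.subset_closure (Or.inr (Or.inr ⟨i, h1, by omega, rfl⟩))
    have hi1 : (i : ℕ) + 1 < m := by
      have := j.2
      omega
    rw [TrC_lt h hi1] at h3
    have e2 : (⟨(i : ℕ) + 1, hi1⟩ : Fin m) = j := Fin.ext hij.symm
    have h4 : CC h i j hij ∈ TRR h lo hi := by
      subst e2
      exact h3
    have hR : RR h i ∈ TRR h lo hi :=
      mul_mem (mul_mem (inv_mem (kA i h1 (by omega))) (kB i h1 (by omega)))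
        (inv_mem (kA i h1 (by omega)))
    rw [TC_eq]
    exact mul_mem (mul_mem hR h4) (inv_mem hR)

end

end Pool.MP_59b15d_al.H40L
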