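import Mathlib
import Pool.Agent.H.MP_59b15d_al.lin.Lan2

/-!
The mapping class group of three consecutive handles is perfect.
-/

set_option autoImplicit false
set_option linter.unusedSimpArgs false

namespace Pool.MP_59b15d_al.H40L

open Pool.MP_59b15d_al.H24T Pool.MP_59b15d_al.H76R Pool.MP_59b15d_al.H73E
open Pool.MP_59b15d_al.H60G

section abstract

variable {Γ A : Type*} [Group Γ] [CommGroup A]

/-- A homomorphism on a subgroup, extended by `1`. -/
noncomputable def extH (M : Subgroup Γ) (φ : M →* A) (x : Γ) : A :=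
  haveI := Classical.dec (x ∈ M)
  if hx : x ∈ M then φ ⟨x, hx⟩ else 1

theorem extH_of {M : Subgroup Γ} (φ : M →* A) {x : Γ} (hx : x ∈ M) : extH M φ x = φ ⟨x, hx⟩ := by
  rw [extH, dif_pos hx]

theorem extH_mul {M : Subgroup Γ} (φ : M →* A) {x y : Γ} (hx : x ∈ M) (hy : y ∈ M) :
    extH M φ (x * y) = extH M φ x * extH M φ y := by
  rw [extH_of φ hx, extH_of φ hy, extH_of φ (M.mul_mem hx hy), ← map_mul]
  rfl

theorem extH_inv {M : Subgroup Γ} (φ : M →* A) {x : Γ} (hx : x ∈ M) :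
    extH M φ x⁻¹ = (extH M φ x)⁻¹ := by
  rw [extH_of φ hx, extH_of φ (M.inv_mem hx), ← map_inv]
  rfl

theorem extH_conj {M : Subgroup Γ} (φ : M →* A) {x y : Γ} (hx : x ∈ M) (hy : y ∈ M) :
    extH M φ (x * y * x⁻¹) = extH M φ y := by
  rw [extH_mul φ (M.mul_mem hx hy) (M.inv_mem hx), extH_mul φ hx hy, extH_inv φ hx,
    mul_comm (extH M φ x), mul_inv_cancel_right]

theorem extH_conj' {M : Subgroup Γ} (φ : M →* A) {x y : Γ} (hx : x ∈ M) (hy : y ∈ M) :
    extH M φ (x⁻¹ * y * x) = extH M φ y := by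
  have h1 := extH_conj φ (M.inv_mem hx) hy
  rwa [inv_inv] at h1

theorem extH_braid {M : Subgroup Γ} (φ : M →* A) {s u : Γ} (hs : s ∈ M) (hu : u ∈ M)
    (hb : s * u * s = u * s * u) : extH M φ s = extH M φ u := by
  have h1 := congrArg (extH M φ) (braid_conj hb)
  rw [extH_conj φ (M.mul_mem hs hu) hs] at h1
  exact h1.symm

end abstract

section

variable {m : ℕ} {G : Type*} [Group G] {a b : Fin m → G}

/-- Every homomorphism from the mapping class group of three consecutive handles to an abelian group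
is trivial. -/
theorem MR3_trivial_aux {A : Type*} [CommGroup A] (h : IsSurf a b) {lo : ℕ} (hlo : lo + 2 < m)
    (M : Subgroup (MulAut G)) (hM : M = MR h lo (lo + 3)) (φ : M →* A) (x : M) : φ x = 1 := by
  have hm : ∀ y, y ∈ MR h lo (lo + 3) → y ∈ M := fun y hy => by rw [hM]; exact hy
  let i : Fin m := ⟨lo, by omega⟩
  let j : Fin m := ⟨lo + 1, by omega⟩
  let k : Fin m := ⟨lo + 2, hlo⟩
  have hij : (j : ℕ) = i + 1 := rfl
  have hjk : (k : ℕ) = j + 1 := rfl
  have hAi : TA h i ∈ M := hm _ (TA_mem h i le_rfl (by simp only [i]; omega))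
  have hAj : TA h j ∈ M := hm _ (TA_mem h j (by simp only [j]; omega) (by simp only [j]; omega))
  have hAk : TA h k ∈ M := hm _ (TA_mem h k (by simp only [k]; omega) (by simp only [k]; omega))
  have hBi : TB h i ∈ M := hm _ (TB_mem h i le_rfl (by simp only [i]; omega))
  have hBj : TB h j ∈ M := hm _ (TB_mem h j (by simp only [j]; omega) (by simp only [j]; omega))
  have hBk : TB h k ∈ M := hm _ (TB_mem h k (by simp only [k]; omega) (by simp only [k]; omega))
  have hTi : TC h i j hij ∈ M := hm _ (TC_mem h i j hij le_rfl (by simp only [j]; omega))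
  have hTj : TC h j k hjk ∈ M :=
    hm _ (TC_mem h j k hjk (by simp only [j]; omega) (by simp only [k]; omega))
  have hRi : RR h i ∈ M := M.mul_mem (M.mul_mem (M.inv_mem hAi) hBi) (M.inv_mem hAi)
  have hRj : RR h j ∈ M := M.mul_mem (M.mul_mem (M.inv_mem hAj) hBj) (M.inv_mem hAj)
  have hCi : CC h i j hij ∈ M := M.mul_mem (M.mul_mem (M.inv_mem hRi) hTi) hRi
  have hCj : CC h j k hjk ∈ M := M.mul_mem (M.mul_mem (M.inv_mem hRj) hTj) hRj
  have hSW : SW h j k hjk ∈ M := SW_mem_of h hjk M hAj hAk hBj hBk hTj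
  have hFF : FF h i j hij ∈ M := M.mul_mem (M.mul_mem (M.mul_mem hBj hCi) hAj) (M.inv_mem hBj)
  set q := extH M φ with hq
  -- all values agree
  have e1 : q (TA h i)⁻¹ = q (TB h i) := extH_braid φ (M.inv_mem hAi) hBi (TAi_TB_braid h i)
  have e2 : q (TB h i) = q (CC h i j hij) := extH_braid φ hBi hCi (TBi_CC_braid h hij)
  have e3 : q (CC h i j hij) = q (TB h j) := extH_braid φ hCi hBj (CC_TBj_braid h hij)
  have e4 : q (TA h j)⁻¹ = q (TB h j) := extH_braid φ (M.inv_mem hAj) hBj (TAi_TB_braid h j)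
  have e5 : q (TB h j) = q (CC h j k hjk) := extH_braid φ hBj hCj (TBi_CC_braid h hjk)
  have e6 : q (CC h j k hjk) = q (TB h k) := extH_braid φ hCj hBk (CC_TBj_braid h hjk)
  have e7 : q (TA h k)⁻¹ = q (TB h k) := extH_braid φ (M.inv_mem hAk) hBk (TAi_TB_braid h k)
  have hCX : CX h j k hjk ∈ M := by
    rw [CX_eq]
    exact M.mul_mem (M.mul_mem (M.mul_mem hRj hRj) hCj) (M.inv_mem (M.mul_mem hRj hRj))
  have e8 : q (CX h j k hjk) = q (CC h j k hjk) := by
    rw [CX_eq]
    exact extH_conj φ (M.mul_mem hRj hRj) hCj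
  have hCY : CY h i j k hij hjk ∈ M := M.mul_mem (M.mul_mem (M.inv_mem hSW) hCi) hSW
  have e9 : q (CY h i j k hij hjk) = q (CC h i j hij) := extH_conj' φ hSW hCi
  have hCE : CE h i j k hij hjk ∈ M := M.mul_mem (M.mul_mem hFF hCX) (M.inv_mem hFF)
  have e10 : q (CE h i j k hij hjk) = q (CX h j k hjk) := extH_conj φ hFF hCX
  have hl := congrArg q (lantern h hij hjk)
  rw [hq, extH_mul φ (M.mul_mem hCi hCX) hCY, extH_mul φ hCi hCX,
    extH_mul φ (M.mul_mem (M.mul_mem (M.inv_mem hAi) (M.inv_mem hAj)) (M.inv_mem hAk)) hCE,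
    extH_mul φ (M.mul_mem (M.inv_mem hAi) (M.inv_mem hAj)) (M.inv_mem hAk),
    extH_mul φ (M.inv_mem hAi) (M.inv_mem hAj), ← hq, e10, e9, e8, e1, e4, e7, e2, e3, ← e6, ← e5]
    at hl
  have h1 : q (TB h j) = 1 := by
    have h2 : q (TB h j) * q (TB h j) * q (TB h j) * q (TB h j) =
        q (TB h j) * q (TB h j) * q (TB h j) := hl.symm
    exact mul_eq_left.1 h2
  have aA : ∀ l : Fin m, lo ≤ (l : ℕ) → (l : ℕ) < lo + 3 → q (TA h l) = 1 := by
    have key : ∀ l : Fin m, TA h l ∈ M → q (TA h l)⁻¹ = 1 → q (TA h l) = 1 := by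
      intro l hl1 hl2
      rw [hq, extH_inv φ hl1, inv_eq_one] at hl2
      exact hl2
    intro l h2 h3
    have h4 : l = i ∨ l = j ∨ l = k := by
      have : (l : ℕ) = lo ∨ (l : ℕ) = lo + 1 ∨ (l : ℕ) = lo + 2 := by omega
      rcases this with h5 | h5 | h5
      · exact Or.inl (Fin.ext h5)
      · exact Or.inr (Or.inl (Fin.ext h5))
      · exact Or.inr (Or.inr (Fin.ext h5))
    rcases h4 with rfl | rfl | rfl
    · exact key _ hAi (by rw [e1, e2, e3, h1])
    · exact key _ hAj (by rw [e4, h1])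
    · exact key _ hAk (by rw [e7, ← e6, ← e5, h1])
  have aB : ∀ l : Fin m, lo ≤ (l : ℕ) → (l : ℕ) < lo + 3 → q (TB h l) = 1 := by
    intro l h2 h3
    have h4 : l = i ∨ l = j ∨ l = k := by
      have : (l : ℕ) = lo ∨ (l : ℕ) = lo + 1 ∨ (l : ℕ) = lo + 2 := by omega
      rcases this with h5 | h5 | h5
      · exact Or.inl (Fin.ext h5)
      · exact Or.inr (Or.inl (Fin.ext h5))
      · exact Or.inr (Or.inr (Fin.ext h5))
    rcases h4 with rfl | rfl | rfl
    · rw [e2, e3, h1]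
    · exact h1
    · rw [← e6, ← e5, h1]
  have aC : ∀ (l l' : Fin m) (hll : (l' : ℕ) = l + 1), lo ≤ (l : ℕ) → (l' : ℕ) < lo + 3 →
      q (TC h l l' hll) = 1 := by
    intro l l' hll h2 h3
    have hTl : TC h l l' hll ∈ M := hm _ (TC_mem h l l' hll h2 h3)
    have hRl : RR h l ∈ M := by
      have k1 : TA h l ∈ M := hm _ (TA_mem h l h2 (by omega))
      have k2 : TB h l ∈ M := hm _ (TB_mem h l h2 (by omega))
      exact M.mul_mem (M.mul_mem (M.inv_mem k1) k2) (M.inv_mem k1)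
    have hCl : CC h l l' hll ∈ M := M.mul_mem (M.mul_mem (M.inv_mem hRl) hTl) hRl
    have k3 : q (TC h l l' hll) = q (CC h l l' hll) := by
      rw [TC_eq]
      exact extH_conj φ hRl hCl
    have k4 : q (TB h l) = q (CC h l l' hll) :=
      extH_braid φ (hm _ (TB_mem h l h2 (by omega))) hCl (TBi_CC_braid h hll)
    rw [k3, ← k4]
    exact aB l h2 (by omega)
  -- conclusion
  have hle : MR h lo (lo + 3) ≤ φ.ker.map M.subtype := by
    have key : ∀ y ∈ M, q y = 1 → y ∈ φ.ker.map M.subtype := by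
      intro y hy hqy
      rw [hq, extH_of φ hy] at hqy
      exact ⟨⟨y, hy⟩, hqy, rfl⟩
    apply MR_le h
    · intro l h2 h3
      exact key _ (hm _ (TA_mem h l h2 h3)) (aA l h2 h3)
    · intro l h2 h3
      exact key _ (hm _ (TB_mem h l h2 h3)) (aB l h2 h3)
    · intro l l' hll h2 h3
      exact key _ (hm _ (TC_mem h l l' hll h2 h3)) (aC l l' hll h2 h3)
  obtain ⟨y, hy, hyx⟩ := hle (by rw [← hM]; exact x.2)
  have : y = x := Subtype.ext hyx
  rw [← this]
  exact hy

theorem MR3_trivial {A : Type*} [CommGroup A] (h : IsSurf a b) {lo : ℕ} (hlo : lo + 2 < m)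
    (φ : MR h lo (lo + 3) →* A) (x : MR h lo (lo + 3)) : φ x = 1 :=
  MR3_trivial_aux h hlo _ rfl φ x

/-- The mapping class group of three consecutive handles is perfect. -/
theorem MR3_perfect (h : IsSurf a b) {lo : ℕ} (hlo : lo + 2 < m) (x : MR h lo (lo + 3)) :
    x ∈ commutator (MR h lo (lo + 3)) := by
  have h1 := MR3_trivial h hlo (Abelianization.of (G := MR h lo (lo + 3))) x
  exact (QuotientGroup.eq_one_iff x).1 h1

end

end Pool.MP_59b15d_al.H40L
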