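/-
The representations of the mapping class group of small dimension factor through the first
homology: assembly with the library of twists.
-/
import Pool.Agent.H.MP_59b15d_al.lin.Asm
import Pool.Agent.H.MP_59b15d_al.lin.Pf
import Pool.Agent.H.MP_59b15d_al.h60g.Fin

set_option autoImplicit false

namespace Pool.Agent.H.MP_59b15d_al.Lin

universe u v w x

open Module Pool.MP_59b15d_al.H24T Pool.MP_59b15d_al.H76R Pool.MP_59b15d_al.H73E
open Pool.MP_59b15d_al.H60G Pool.MP_59b15d_al.H40L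

section transfer

/-- The dimension hypothesis only depends on the isomorphism class of the group. -/
lemma MinDim.congr {F : Type u} [Field F] {G : Type w} [Group G] {G' : Type x} [Group G'] {d : ℕ}
    (e : G ≃* G') (h : MinDim.{u, v, w} F G d) : MinDim.{u, v, x} F G' d := by
  intro W _ _ _ σ hW
  have h1 := h W (σ.comp e.toMonoidHom) hW
  ext y : 1
  have h2 := DFunLike.congr_fun h1 (e.symm y)
  simpa using h2

lemma perfect_congr {G : Type w} [Group G] {G' : Type x} [Group G'] (e : G ≃* G')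
    (h : ∀ y : G, y ∈ commutator G) (y : G') : y ∈ commutator G' := by
  have h1 : (commutator G).map e.toMonoidHom ≤ commutator G' := by
    rw [commutator_def, Subgroup.map_commutator, commutator_def]
    exact Subgroup.commutator_mono le_top le_top
  have h2 := h1 (Subgroup.mem_map_of_mem _ (h (e.symm y)))
  simpa using h2

end transfer

section mcg

variable {m : ℕ} {G : Type w} [Group G] {a b : Fin m → G} (h : IsSurf a b)

include h in
theorem MCG_eq_MR (hm : 0 < m) : MCG a b = MR h 0 m := by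
  rw [MCG_eq h, Xb_MMs hm h, TW, Pool.MP_59b15d_al.H60G.MR]
  congr 1
  ext T
  constructor
  · rintro (⟨i, rfl⟩ | ⟨i, rfl⟩ | ⟨i, j, hij, rfl⟩)
    · exact Or.inl ⟨i, by omega, i.2, rfl⟩
    · exact Or.inr (Or.inl ⟨i, by omega, i.2, rfl⟩)
    · exact Or.inr (Or.inr ⟨i, j, hij, by omega, j.2, rfl⟩)
  · rintro (⟨i, _, _, rfl⟩ | ⟨i, _, _, rfl⟩ | ⟨i, j, hij, _, _, rfl⟩)
    · exact Or.inl ⟨i, rfl⟩
    · exact Or.inr (Or.inl ⟨i, rfl⟩)
    · exact Or.inr (Or.inr ⟨i, j, hij, rfl⟩)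

theorem TrA_mem {lo hi k : ℕ} (h1 : lo ≤ k) (h2 : k < hi) : TrA h k ∈ MR h lo hi := by
  by_cases hk : k < m
  · rw [TrA_lt h hk]
    exact Subgroup.inv_mem _ (TA_mem h _ h1 h2)
  · rw [TrA, dif_neg hk]
    exact Subgroup.one_mem _

theorem TrB_mem {lo hi k : ℕ} (h1 : lo ≤ k) (h2 : k < hi) : TrB h k ∈ MR h lo hi := by
  by_cases hk : k < m
  · rw [TrB_lt h hk]
    exact TB_mem h _ h1 h2
  · rw [TrB, dif_neg hk]
    exact Subgroup.one_mem _

theorem TrC_mem {lo hi k : ℕ} (h1 : lo ≤ k) (h2 : k + 1 < hi) : TrC h k ∈ MR h lo hi := by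
  by_cases hk : k + 1 < m
  · rw [TrC_lt h hk, CC, RR]
    have hA := TA_mem h (lo := lo) (hi := hi) ⟨k, by omega⟩ h1 (by simp only; omega)
    have hB := TB_mem h (lo := lo) (hi := hi) ⟨k, by omega⟩ h1 (by simp only; omega)
    have hC := TC_mem h (lo := lo) (hi := hi) ⟨k, by omega⟩ ⟨k + 1, hk⟩ rfl h1 h2
    have hR := Subgroup.mul_mem _ (Subgroup.mul_mem _ (Subgroup.inv_mem _ hA) hB)
      (Subgroup.inv_mem _ hA)
    exact Subgroup.mul_mem _ (Subgroup.mul_mem _ (Subgroup.inv_mem _ hR) hC) hR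
  · rw [TrC, dif_neg hk]
    exact Subgroup.one_mem _

end mcg

lemma closure_eq_top_of_val {Γ : Type*} [Group Γ] {K : Subgroup Γ} {ι : Type*} (t : ι → K)
    (ht : Subgroup.closure (Set.range fun i => (t i : Γ)) = K) :
    Subgroup.closure (Set.range t) = ⊤ := by
  apply Subgroup.map_injective K.subtype_injective
  rw [MonoidHom.map_closure, ← Set.range_comp]
  have h1 : (Subgroup.map K.subtype ⊤ : Subgroup Γ) = K := by
    rw [← MonoidHom.range_eq_map, Subgroup.range_subtype]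
  rw [h1]
  exact ht

lemma mem_closure_of_val {Γ : Type*} [Group Γ] {K : Subgroup Γ} {S : Set Γ} (hS : S ⊆ K) {x : K}
    (hx : (x : Γ) ∈ Subgroup.closure S) : x ∈ Subgroup.closure {y : K | (y : Γ) ∈ S} := by
  have h1 : (Subgroup.closure {y : K | (y : Γ) ∈ S}).map K.subtype = Subgroup.closure S := by
    rw [MonoidHom.map_closure]
    congr 1
    ext z
    constructor
    · rintro ⟨y, hy, rfl⟩
      exact hy
    · intro hz
      exact ⟨⟨z, hS hz⟩, hz, rfl⟩
  rw [← h1] at hx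
  obtain ⟨y, hy, hyx⟩ := hx
  have h2 : y = x := Subtype.ext hyx
  rwa [← h2]

section facts

variable {m : ℕ} {G : Type w} [Group G] {a b : Fin m → G} (h : IsSurf a b)

/-- The elements of the tree generate. -/
theorem gen_tt : Subgroup.closure (Set.range (tt (g := m) (TrA h) (TrB h) (TrC h))) =
    Pool.MP_59b15d_al.H60G.MR h 0 m := by
  rw [← TRR_eq h 0 m, TRR]
  congr 1
  ext T
  constructor
  · rintro ⟨i | i | i, rfl⟩
    · exact Or.inl ⟨i, by omega, i.2, rfl⟩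
    · exact Or.inr (Or.inl ⟨i, by omega, i.2, rfl⟩)
    · exact Or.inr (Or.inr ⟨i, by omega, by omega, rfl⟩)
  · rintro (⟨k, _, hk, rfl⟩ | ⟨k, _, hk, rfl⟩ | ⟨k, _, hk, rfl⟩)
    · exact ⟨Sum.inl ⟨k, hk⟩, rfl⟩
    · exact ⟨Sum.inr (Sum.inl ⟨k, hk⟩), rfl⟩
    · exact ⟨Sum.inr (Sum.inr ⟨k, by omega⟩), rfl⟩

/-- The lantern relation in the form which is needed. -/
theorem lan_tt (hm : 3 ≤ m) : TrA h 0 ∈ Subgroup.closure
    {x | ∃ k ∈ Pool.MP_59b15d_al.H60G.MR h 0 m,
      Commute k (TrA h 0) ∧ x = k * TrA h 2 * k⁻¹} := by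
  have h1 := TrA_mem_cjs h (lo := 0) (by omega)
  simp only [Nat.zero_add] at h1
  refine Subgroup.closure_mono ?_ h1
  rintro _ ⟨u, hu, rfl⟩
  have h2 : Subgroup.closure ({TrA h 0, TrA h 1, TrA h 2, TrB h 1, TrB h 2, TrC h 0, TrC h 1} :
      Set (MulAut G)) ≤ Pool.MP_59b15d_al.H60G.MR h 0 m ⊓ Subgroup.centralizer {TrA h 0} := by
    rw [Subgroup.closure_le]
    have T := treeGrp h
    intro x hx
    rw [SetLike.mem_coe, Subgroup.mem_inf, Subgroup.mem_centralizer_singleton_iff]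
    simp only [Set.mem_insert_iff, Set.mem_singleton_iff] at hx
    rcases hx with rfl | rfl | rfl | rfl | rfl | rfl | rfl
    · exact ⟨TrA_mem h (by omega) (by omega), rfl⟩
    · exact ⟨TrA_mem h (by omega) (by omega), T.cAA 1 0 (by omega) (by omega)⟩
    · exact ⟨TrA_mem h (by omega) (by omega), T.cAA 2 0 (by omega) (by omega)⟩
    · exact ⟨TrB_mem h (by omega) (by omega),
        (T.cAB 0 1 (by omega) (by omega) (by omega)).symm⟩
    · exact ⟨TrB_mem h (by omega) (by omega),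
        (T.cAB 0 2 (by omega) (by omega) (by omega)).symm⟩
    · exact ⟨TrC_mem h (by omega) (by omega), (T.cAC 0 0 (by omega) (by omega)).symm⟩
    · exact ⟨TrC_mem h (by omega) (by omega), (T.cAC 0 1 (by omega) (by omega)).symm⟩
  have h3 := h2 hu
  rw [Subgroup.mem_inf, Subgroup.mem_centralizer_singleton_iff] at h3
  exact ⟨u, h3.1, h3.2, rfl⟩

end facts

section mcg2

variable {m : ℕ} {G : Type w} [Group G] {a b : Fin m → G} (h : IsSurf a b)

include h in
theorem MR_le_MCG (lo hi : ℕ) : Pool.MP_59b15d_al.H60G.MR h lo hi ≤ MCG a b := by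
  rw [MCG_eq h]
  exact MR_le_MMs h lo hi

/-- The elements of the tree, as elements of the mapping class group. -/
noncomputable def uA (k : ℕ) : MCG a b :=
  ⟨TrA h k, MR_le_MCG h 0 (k + 1) (TrA_mem h (Nat.zero_le k) (by omega))⟩

/-- The elements of the tree, as elements of the mapping class group. -/
noncomputable def uB (k : ℕ) : MCG a b :=
  ⟨TrB h k, MR_le_MCG h 0 (k + 1) (TrB_mem h (Nat.zero_le k) (by omega))⟩

/-- The elements of the tree, as elements of the mapping class group. -/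
noncomputable def uC (k : ℕ) : MCG a b :=
  ⟨TrC h k, MR_le_MCG h 0 (k + 2) (TrC_mem h (Nat.zero_le k) (by omega))⟩

theorem treeGrp_u : TreeGrp m (uA h) (uB h) (uC h) where
  AB i hi := Subtype.ext ((treeGrp h).AB i hi)
  BC i hi := Subtype.ext ((treeGrp h).BC i hi)
  CB i hi := Subtype.ext ((treeGrp h).CB i hi)
  cAA i j hi hj := Subtype.ext ((treeGrp h).cAA i j hi hj)
  cAB i j hi hj hij := Subtype.ext ((treeGrp h).cAB i j hi hj hij)
  cBB i j hi hj := Subtype.ext ((treeGrp h).cBB i j hi hj)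
  cAC i j hi hj := Subtype.ext ((treeGrp h).cAC i j hi hj)
  cBC i j hi hj h1 h2 := Subtype.ext ((treeGrp h).cBC i j hi hj h1 h2)
  cCC i j hi hj := Subtype.ext ((treeGrp h).cCC i j hi hj)

lemma tt_u_val (s : Ix m) : ((tt (uA h) (uB h) (uC h) s : MCG a b) : MulAut G) =
    tt (TrA h) (TrB h) (TrC h) s := by
  rcases s with i | i | i <;> rfl

/-- The blocks. -/
def Dk (k : ℕ) : Subgroup (MCG a b) :=
  (Pool.MP_59b15d_al.H60G.MR h (3 * k) (3 * k + 3)).subgroupOf (MCG a b)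

lemma mem_Dk {k : ℕ} {x : MCG a b} :
    x ∈ Dk h k ↔ (x : MulAut G) ∈ Pool.MP_59b15d_al.H60G.MR h (3 * k) (3 * k + 3) :=
  Subgroup.mem_subgroupOf

/-- Representations of small dimension of the mapping class group factor through homology:
assembly. -/
theorem lin_MCG {F : Type u} [Field F] (K : Type u) [Field K] [Algebra F K] [IsAlgClosed K]
    {r d : ℕ} (hr : 2 ≤ r) (hrm : 3 * r ≤ m) (hd3 : 3 ≤ d)
    (hd : MinDim.{u, max v u, w} K (Pool.MP_59b15d_al.H60G.MR h 0 3) d)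
    (hcomm : ∀ k l, k < r → l < r → k ≠ l →
      ∀ x ∈ Pool.MP_59b15d_al.H60G.MR h (3 * k) (3 * k + 3),
      ∀ y ∈ Pool.MP_59b15d_al.H60G.MR h (3 * l) (3 * l + 3), x * y = y * x)
    (hpair : ∀ k l, k < r → l < r → k ≠ l → ∃ c ∈ Pool.MP_59b15d_al.H60G.MR h 0 m,
      (∀ x, x ∈ Pool.MP_59b15d_al.H60G.MR h 0 3 ↔
        c * x * c⁻¹ ∈ Pool.MP_59b15d_al.H60G.MR h (3 * k) (3 * k + 3)) ∧
      ∀ y, y ∈ Pool.MP_59b15d_al.H60G.MR h 3 6 ↔
        c * y * c⁻¹ ∈ Pool.MP_59b15d_al.H60G.MR h (3 * l) (3 * l + 3))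
    {H : Type*} [AddCommGroup H] [Module K H]
    (ρH : MCG a b →* Module.End K H) (hv : Ix m → H) (ω : H →ₗ[K] H →ₗ[K] K)
    (alt : ∀ x y, ω x y = - ω y x)
    (act : ∀ s x, ρH (tt (uA h) (uB h) (uC h) s) x = x + ω (hv s) x • hv s)
    (hadj : ∀ s u, (tr m).Adj s u → ω (hv s) (hv u) = 1 ∨ ω (hv s) (hv u) = -1)
    (hnadj : ∀ s u, ¬ (tr m).Adj s u → ω (hv s) (hv u) = 0)
    {V : Type v} [AddCommGroup V] [Module F V] [FiniteDimensional F V]
    (ρ : MCG a b →* Module.End F V)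
    (hρ : CompRed ρ) (hdim : 2 * finrank F V < d ^ 2 * (r * (r - 1)))
    {γ : MCG a b} (hγ : ∀ s, ρH γ (hv s) = hv s) : ρ γ = 1 := by
  have hm0 : 0 < m := by omega
  have hgen' : Subgroup.closure (Set.range (tt (g := m) (uA h) (uB h) (uC h))) = ⊤ := by
    apply closure_eq_top_of_val
    refine Eq.trans ?_ ((gen_tt h).trans (MCG_eq_MR h hm0).symm)
    congr 2
    ext s : 1
    exact tt_u_val h s
  have e0 : Pool.MP_59b15d_al.H60G.MR h 0 3 ≃* Dk h 0 :=
    (Subgroup.subgroupOfEquivOfLe (MR_le_MCG h 0 3)).symm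
  have hlan' : uA h 0 ∈ Subgroup.closure
      {x | ∃ k, Commute k (uA h 0) ∧ x = k * uA h 2 * k⁻¹} := by
    have hS : {x | ∃ k ∈ Pool.MP_59b15d_al.H60G.MR h 0 m,
        Commute k (TrA h 0) ∧ x = k * TrA h 2 * k⁻¹} ⊆ (MCG a b : Set (MulAut G)) := by
      rintro _ ⟨k, hk, _, rfl⟩
      have hk' := MR_le_MCG h 0 m hk
      exact Subgroup.mul_mem _ (Subgroup.mul_mem _ hk' (uA h 2).2) (Subgroup.inv_mem _ hk')
    have h1 := mem_closure_of_val hS (x := uA h 0) (lan_tt h (by omega))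
    refine Subgroup.closure_mono ?_ h1
    rintro y ⟨k, hk, hc, hy⟩
    exact ⟨⟨k, MR_le_MCG h 0 m hk⟩, Subtype.ext hc, Subtype.ext hy⟩
  refine lin_abs K (treeGrp_u h) hgen' hr hd3 (Dk h) (MinDim.congr e0 hd)
    (perfect_congr e0 (MR3_perfect h (lo := 0) (by omega))) ?_ ?_ (q := 3) (by omega) (by omega)
    ?_ ?_ (q' := 2) (by omega) (by omega) hlan' ρH hv ω alt
    act hadj hnadj ρ hρ hdim hγ
  · intro k l hk hl hkl x hx y hy
    exact Subtype.ext (hcomm k l hk hl hkl x hx y hy)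
  · intro k l hk hl hkl
    obtain ⟨c, hc, h1, h2⟩ := hpair k l hk hl hkl
    refine ⟨⟨c, MR_le_MCG h 0 m hc⟩, fun x => ?_, fun y => ?_⟩
    · exact h1 x
    · exact h2 y
  · exact TrA_mem h (by omega) (by omega)
  · exact TrA_mem h (by omega) (by omega)

end mcg2

end Pool.Agent.H.MP_59b15d_al.Lin
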