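/-
The first homology with coefficients in a field, the action of the mapping class group on it, and
the symplectic module of the tree of the twists `TrA`, `TrB`, `TrC`.
-/
import Pool.Agent.H.MP_59b15d_al.h11c.Hone
import Pool.Agent.H.MP_59b15d_al.lin.Tr

set_option autoImplicit false

namespace Pool.Agent.H.MP_59b15d_al.Lin

open Pool.MP_59b15d_al.H24T Pool.MP_59b15d_al.H76R Pool.MP_59b15d_al.H40L
open SP (V om e f cls H1 Dv)

variable (F : Type*) [Field F] {g : ℕ}

/-- The first homology with coefficients in `F`. -/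
abbrev VF (g : ℕ) : Type _ := Fin g → F × F

/-- Reduction of the integral homology. -/
def cF (v : V g) : VF F g := fun i => (((v i).1 : F), ((v i).2 : F))

lemma cF_add (v w : V g) : cF F (v + w) = cF F v + cF F w := by
  ext i <;> simp [cF]

lemma cF_smul (k : ℤ) (v : V g) : cF F (k • v) = (k : F) • cF F v := by
  ext i <;> simp [cF]

lemma cF_zero : cF F (0 : V g) = 0 := by
  ext i <;> simp [cF]

lemma cF_sub (v w : V g) : cF F (v - w) = cF F v - cF F w := by
  ext i <;> simp [cF]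

/-- Reduction as an additive homomorphism. -/
def cFh : V g →+ VF F g where
  toFun := cF F
  map_zero' := cF_zero F
  map_add' := cF_add F

/-- The reductions of the basis vectors span. -/
lemma expandF (x : VF F g) :
    x = ∑ i : Fin g, ((x i).1 • cF F (e i) + (x i).2 • cF F (f i)) := by
  ext j
  · rw [Finset.sum_apply, Prod.fst_sum, Finset.sum_eq_single j]
    · simp [cF, SP.e_self, SP.f_self]
    · intro i _ hi
      simp [cF, SP.e_ne hi.symm, SP.f_ne hi.symm]
    · simp
  · rw [Finset.sum_apply, Prod.snd_sum, Finset.sum_eq_single j]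
    · simp [cF, SP.e_self, SP.f_self]
    · intro i _ hi
      simp [cF, SP.e_ne hi.symm, SP.f_ne hi.symm]
    · simp

variable {F}

/-- Two linear maps which agree on the reductions are equal. -/
lemma ext_cF {W : Type*} [AddCommGroup W] [Module F W] {A B : VF F g →ₗ[F] W}
    (h : ∀ v : V g, A (cF F v) = B (cF F v)) : A = B := by
  refine LinearMap.ext fun x => ?_
  rw [expandF F x, map_sum, map_sum]
  refine Finset.sum_congr rfl fun i _ => ?_
  rw [map_add, map_add, map_smul, map_smul, map_smul, map_smul, h, h]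

variable (F)

/-- The base change of a linear map. -/
def bF (L : V g →ₗ[ℤ] V g) : Module.End F (VF F g) where
  toFun x := ∑ i : Fin g, ((x i).1 • cF F (L (e i)) + (x i).2 • cF F (L (f i)))
  map_add' x y := by
    rw [← Finset.sum_add_distrib]
    refine Finset.sum_congr rfl fun i _ => ?_
    rw [Pi.add_apply, Prod.fst_add, Prod.snd_add, add_smul, add_smul]
    abel
  map_smul' c x := by
    rw [Finset.smul_sum]
    refine Finset.sum_congr rfl fun i _ => ?_
    rw [Pi.smul_apply, Prod.smul_fst, Prod.smul_snd, smul_add, smul_smul, smul_smul]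
    rfl

lemma bF_cF (L : V g →ₗ[ℤ] V g) (v : V g) : bF F L (cF F v) = cF F (L v) := by
  have h1 : L v = ∑ i : Fin g, ((v i).1 • L (e i) + (v i).2 • L (f i)) := by
    conv_lhs => rw [SP.expand v]
    rw [map_sum]
    apply Finset.sum_congr rfl
    intro i _
    rw [map_add, map_smul, map_smul]
  have h2 : cF F (L v) = cFh F (L v) := rfl
  rw [h2, h1, map_sum]
  change ∑ i : Fin g, (((cF F v) i).1 • cF F (L (e i)) + ((cF F v) i).2 • cF F (L (f i))) = _
  refine Finset.sum_congr rfl fun i _ => ?_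
  rw [map_add (cFh F)]
  change ((cF F v) i).1 • cF F (L (e i)) + ((cF F v) i).2 • cF F (L (f i)) =
    cF F ((v i).1 • L (e i)) + cF F ((v i).2 • L (f i))
  rw [cF_smul, cF_smul]
  rfl

section

variable {G : Type*} [Group G] {a b : Fin g → G} (h : IsSurf a b)

/-- The action on the first homology with coefficients in `F`. -/
noncomputable def rhoF : MulAut G →* Module.End F (VF F g) where
  toFun φ := bF F (SP.Lm h φ)
  map_one' := by
    refine ext_cF fun v => ?_
    rw [bF_cF, SP.Lm_one]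
    rfl
  map_mul' φ ψ := by
    refine ext_cF fun v => ?_
    rw [Module.End.mul_apply, bF_cF, bF_cF, bF_cF, SP.Lm_mul]

lemma rhoF_cF (φ : MulAut G) (v : V g) : rhoF F h φ (cF F v) = cF F (H1 h φ v) :=
  bF_cF F _ v

lemma rhoF_cls (φ : MulAut G) (x : G) : rhoF F h φ (cF F (cls h x)) = cF F (cls h (φ x)) := by
  rw [rhoF_cF, SP.H1_cls]

lemma rhoF_conj (x : G) : rhoF F h (MulAut.conj x) = 1 := by
  refine ext_cF fun v => ?_
  rw [rhoF_cF, SP.H1_conj]
  rfl

/-- Trivial on the integral homology. -/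
lemma rhoF_eq_one {φ : MulAut G} (hφ : ∀ x, cls h (φ x) = cls h x) : rhoF F h φ = 1 := by
  refine ext_cF fun v => ?_
  obtain ⟨x, rfl⟩ := SP.cls_surj h v
  rw [rhoF_cls, hφ]
  rfl

lemma cF_eq_of_dvd {m : ℤ} (hm : (m : F) = 0) {v w : V g} (hvw : Dv m (v - w)) :
    cF F v = cF F w := by
  obtain ⟨u, hu⟩ := hvw
  rw [← sub_eq_zero, ← cF_sub, hu, cF_smul, hm, zero_smul]

/-- Trivial on the homology modulo `m`, where `m = 0` in `F`. -/
lemma rhoF_eq_one_of_mod {m : ℤ} (hm : (m : F) = 0) {φ : MulAut G}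
    (hφ : ∀ x, Dv m (cls h (φ x) - cls h x)) : rhoF F h φ = 1 := by
  refine ext_cF fun v => ?_
  obtain ⟨x, rfl⟩ := SP.cls_surj h v
  rw [rhoF_cls]
  exact cF_eq_of_dvd F hm (hφ x)

/-- The symplectic form (with the sign for which `rhoF (t s) x = x + omF (h s) x • h s`). -/
def omF : VF F g →ₗ[F] VF F g →ₗ[F] F :=
  LinearMap.mk₂ F (fun x y => ∑ i : Fin g, ((y i).1 * (x i).2 - (y i).2 * (x i).1))
    (fun x x' y => by
      rw [← Finset.sum_add_distrib]
      refine Finset.sum_congr rfl fun i _ => ?_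
      simp only [Pi.add_apply, Prod.fst_add, Prod.snd_add]
      ring)
    (fun c x y => by
      rw [smul_eq_mul, Finset.mul_sum]
      refine Finset.sum_congr rfl fun i _ => ?_
      simp only [Pi.smul_apply, Prod.smul_fst, Prod.smul_snd, smul_eq_mul]
      ring)
    (fun x y y' => by
      rw [← Finset.sum_add_distrib]
      refine Finset.sum_congr rfl fun i _ => ?_
      simp only [Pi.add_apply, Prod.fst_add, Prod.snd_add]
      ring)
    (fun c x y => by
      rw [smul_eq_mul, Finset.mul_sum]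
      refine Finset.sum_congr rfl fun i _ => ?_
      simp only [Pi.smul_apply, Prod.smul_fst, Prod.smul_snd, smul_eq_mul]
      ring)

lemma omF_apply (x y : VF F g) :
    omF F x y = ∑ i : Fin g, ((y i).1 * (x i).2 - (y i).2 * (x i).1) := rfl

lemma omF_cF (v w : V g) : omF F (cF F v) (cF F w) = (om w v : F) := by
  rw [omF_apply, om, Int.cast_sum]
  refine Finset.sum_congr rfl fun i _ => ?_
  simp [cF]

lemma omF_alt (x y : VF F g) : omF F x y = - omF F y x := by
  rw [omF_apply, omF_apply, ← Finset.sum_neg_distrib]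
  refine Finset.sum_congr rfl fun i _ => ?_
  ring

lemma omF_self (x : VF F g) : omF F x x = 0 := by
  rw [omF_apply]
  refine Finset.sum_eq_zero fun i _ => ?_
  ring

/-- An automorphism acting on the integral homology by a transvection. -/
lemma rhoF_T {φ : MulAut G} {v : V g} (hφ : H1 h φ = (SP.T v 1).1) (x : VF F g) :
    rhoF F h φ x = x + omF F (cF F v) x • cF F v := by
  have h1 : rhoF F h φ = 1 + (omF F (cF F v)).smulRight (cF F v) := by
    refine ext_cF fun w => ?_
    rw [rhoF_cF, hφ]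
    change cF F (SP.T v 1 w) = cF F w + omF F (cF F v) (cF F w) • cF F v
    rw [SP.T_apply, cF_add, cF_smul, omF_cF, one_mul]
  rw [h1]
  rfl

/-- The classes of the curves of the tree. -/
def hs : Ix g → VF F g
  | Sum.inl i => cF F (e i)
  | Sum.inr (Sum.inl i) => cF F (f i)
  | Sum.inr (Sum.inr i) => cF F (e ⟨i, by omega⟩ - e ⟨i + 1, by omega⟩)

lemma H1_TA (i : Fin g) : H1 h (TA h i)⁻¹ = (SP.T (e i) 1).1 := by
  rw [map_inv, SP.H1_A h ((isA_iff h i _).2 rfl)]
  have h1 : ((SP.T (e i) (-1))⁻¹ : SP.Sp g) = SP.T (e i) 1 := by rw [SP.T_inv, neg_neg]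
  exact congrArg Subtype.val h1

lemma H1_TB (i : Fin g) : H1 h (TB h i) = (SP.T (f i) 1).1 := SP.H1_B h ((isB_iff h i _).2 rfl)

lemma H1_TC {i j : Fin g} (hij : (j : ℕ) = i + 1) : H1 h (TC h i j hij) = (SP.T (f i - e j) 1).1 :=
  SP.H1_C h (ne_of_succ hij).symm ((isC_iff h i j hij _).2 rfl)

lemma H1_RR (i : Fin g) : H1 h (RR h i) = (SP.Rt i).1 := by
  rw [RR, map_mul, map_mul, H1_TA, H1_TB]
  rfl

lemma H1_CC {i j : Fin g} (hij : (j : ℕ) = i + 1) : H1 h (CC h i j hij) = (SP.T (e i - e j) 1).1 := by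
  have hne : i ≠ j := (ne_of_succ hij).symm
  rw [CC, map_mul, map_mul, map_inv, H1_RR, H1_TC]
  have h1 : (SP.Rt i)⁻¹ * SP.T (f i - e j) 1 * (SP.Rt i : SP.Sp g) = SP.T (e i - e j) 1 := by
    have h2 := SP.T_conj (SP.Rt i)⁻¹ (f i - e j) 1
    rw [inv_inv] at h2
    rw [h2]
    congr 1
    have h3 : SP.Rt i (e i - e j) = f i - e j := by
      rw [SP.sp_sub, SP.Rt_e, SP.Rt_e_ne hne]
    rw [← h3, SP.sp_inv_apply]
  exact congrArg Subtype.val h1

/-- The action of the twists of the tree. -/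
theorem act_tt (s : Ix g) (x : VF F g) :
    rhoF F h (tt (TrA h) (TrB h) (TrC h) s) x = x + omF F (hs F s) x • hs F s := by
  rcases s with i | i | i
  · change rhoF F h (TrA h i) x = _
    rw [TrA_lt h i.2]
    exact rhoF_T F h (H1_TA h i) x
  · change rhoF F h (TrB h i) x = _
    rw [TrB_lt h i.2]
    exact rhoF_T F h (H1_TB h i) x
  · change rhoF F h (TrC h i) x = _
    rw [TrC_lt h (by omega : (i : ℕ) + 1 < g)]
    exact rhoF_T F h (H1_CC h _) x

end

lemma omF_adj (s u : Ix g) (hsu : (tr g).Adj s u) :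
    omF F (hs F s) (hs F u) = 1 ∨ omF F (hs F s) (hs F u) = -1 := by
  have hAB : ∀ i : Fin g, omF F (hs F (Sum.inl i)) (hs F (Sum.inr (Sum.inl i))) = -1 := by
    intro i
    change omF F (cF F (e i)) (cF F (f i)) = -1
    rw [omF_cF, SP.om_f_e]
    simp
  have hBC : ∀ (i : Fin g) (j : Fin (g - 1)), (i : ℕ) = j ∨ (i : ℕ) = j + 1 →
      omF F (hs F (Sum.inr (Sum.inl i))) (hs F (Sum.inr (Sum.inr j))) = 1 ∨
      omF F (hs F (Sum.inr (Sum.inl i))) (hs F (Sum.inr (Sum.inr j))) = -1 := by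
    intro i j hij
    change omF F (cF F (f i)) (cF F (e ⟨j, by omega⟩ - e ⟨j + 1, by omega⟩)) = 1 ∨
      omF F (cF F (f i)) (cF F (e ⟨j, by omega⟩ - e ⟨j + 1, by omega⟩)) = -1
    rw [omF_cF, SP.om_sub_left]
    rcases hij with hij | hij
    · left
      have e1 : (⟨j, by omega⟩ : Fin g) = i := Fin.ext hij.symm
      have e2 : (⟨j + 1, by omega⟩ : Fin g) ≠ i := by
        intro h1
        have := congrArg Fin.val h1
        simp only at this
        omega
      rw [e1, SP.om_e_f, SP.om_e_f_ne e2]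
      simp
    · right
      have e1 : (⟨j + 1, by omega⟩ : Fin g) = i := Fin.ext hij.symm
      have e2 : (⟨j, by omega⟩ : Fin g) ≠ i := by
        intro h1
        have := congrArg Fin.val h1
        simp only at this
        omega
      rw [e1, SP.om_e_f, SP.om_e_f_ne e2]
      simp
  rcases s with i | i | i <;> rcases u with j | j | j
  · exact absurd hsu (adj_AA i j)
  · rw [adj_AB] at hsu
    subst hsu
    exact Or.inr (hAB i)
  · exact absurd hsu (adj_AC i j)
  · have h1 := RTree.adj_symm _ hsu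
    rw [adj_AB] at h1
    subst h1
    left
    rw [omF_alt, hAB, neg_neg]
  · exact absurd hsu (adj_BB i j)
  · rw [adj_BC] at hsu
    exact hBC i j hsu
  · exact absurd (RTree.adj_symm _ hsu) (adj_AC j i)
  · have h1 := RTree.adj_symm _ hsu
    rw [adj_BC] at h1
    rw [omF_alt, neg_inj, neg_eq_iff_eq_neg]
    exact (hBC j i h1).symm
  · exact absurd hsu (adj_CC i j)

lemma omF_not_adj (s u : Ix g) (hsu : ¬ (tr g).Adj s u) : omF F (hs F s) (hs F u) = 0 := by
  have hAB : ∀ i j : Fin g, i ≠ j →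
      omF F (hs F (Sum.inl i)) (hs F (Sum.inr (Sum.inl j))) = 0 := by
    intro i j hij
    change omF F (cF F (e i)) (cF F (f j)) = 0
    rw [omF_cF, SP.om_f_e_ne hij.symm]
    simp
  have hAC : ∀ (i : Fin g) (j : Fin (g - 1)),
      omF F (hs F (Sum.inl i)) (hs F (Sum.inr (Sum.inr j))) = 0 := by
    intro i j
    change omF F (cF F (e i)) (cF F (e ⟨j, by omega⟩ - e ⟨j + 1, by omega⟩)) = 0
    rw [omF_cF, SP.om_sub_left, SP.om_e_e, SP.om_e_e]
    simp
  have hBC : ∀ (i : Fin g) (j : Fin (g - 1)), (i : ℕ) ≠ j → (i : ℕ) ≠ j + 1 →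
      omF F (hs F (Sum.inr (Sum.inl i))) (hs F (Sum.inr (Sum.inr j))) = 0 := by
    intro i j h1 h2
    change omF F (cF F (f i)) (cF F (e ⟨j, by omega⟩ - e ⟨j + 1, by omega⟩)) = 0
    have e1 : (⟨j, by omega⟩ : Fin g) ≠ i := fun h3 => h1 (congrArg Fin.val h3).symm
    have e2 : (⟨j + 1, by omega⟩ : Fin g) ≠ i := fun h3 => h2 (congrArg Fin.val h3).symm
    rw [omF_cF, SP.om_sub_left, SP.om_e_f_ne e1, SP.om_e_f_ne e2]
    simp
  rcases s with i | i | i <;> rcases u with j | j | j
  · change omF F (cF F (e i)) (cF F (e j)) = 0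
    rw [omF_cF, SP.om_e_e, Int.cast_zero]
  · rw [adj_AB] at hsu
    exact hAB i j hsu
  · exact hAC i j
  · have h1 : ¬ (tr g).Adj (Sum.inl j) (Sum.inr (Sum.inl i)) := fun h => hsu (RTree.adj_symm _ h)
    rw [adj_AB] at h1
    rw [omF_alt, hAB j i h1, neg_zero]
  · change omF F (cF F (f i)) (cF F (f j)) = 0
    rw [omF_cF, SP.om_f_f, Int.cast_zero]
  · rw [adj_BC, not_or] at hsu
    exact hBC i j hsu.1 hsu.2
  · rw [omF_alt, hAC j i, neg_zero]
  · have h1 : ¬ (tr g).Adj (Sum.inr (Sum.inl j)) (Sum.inr (Sum.inr i)) :=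
      fun h => hsu (RTree.adj_symm _ h)
    rw [adj_BC, not_or] at h1
    rw [omF_alt, hBC j i h1.1 h1.2, neg_zero]
  · change omF F (cF F (e ⟨i, by omega⟩ - e ⟨i + 1, by omega⟩))
      (cF F (e ⟨j, by omega⟩ - e ⟨j + 1, by omega⟩)) = 0
    rw [omF_cF, SP.om_sub_left, SP.om_sub_right, SP.om_sub_right]
    simp only [SP.om_e_e, sub_self, Int.cast_zero]

lemma span_hs : Submodule.span F (Set.range (hs F : Ix g → VF F g)) = ⊤ := by
  rw [eq_top_iff]
  intro x _
  rw [expandF F x]
  refine Submodule.sum_mem _ fun i _ => Submodule.add_mem _ ?_ ?_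
  · exact Submodule.smul_mem _ _ (Submodule.subset_span ⟨Sum.inl i, rfl⟩)
  · exact Submodule.smul_mem _ _ (Submodule.subset_span ⟨Sum.inr (Sum.inl i), rfl⟩)

end Pool.Agent.H.MP_59b15d_al.Lin
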