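import Pool.Agent.H.MP_59b15d_al.lin.Dim6
import Pool.Agent.H.MP_59b15d_al.lin.Perp

/-!
# The tree group of genus three: dimension six
-/

set_option autoImplicit false

namespace Pool.Agent.H.MP_59b15d_al.Lin

universe u v w

/-- The eight elements in the order of the graph `e7`. -/
def t8 {G : Type w} (tA tB tC : ℕ → G) : Fin 8 → G :=
  ![tA 0, tB 0, tC 0, tB 1, tC 1, tB 2, tA 2, tA 1]

theorem gr_t8 {G : Type w} [Group G] {tA tB tC : ℕ → G} (T : TreeGrp 3 tA tB tC) :
    Gr e7 (t8 tA tB tC) := by
  have A0 := T.AB 0 (by omega)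
  have A1 := T.AB 1 (by omega)
  have A2 := T.AB 2 (by omega)
  have B0 := T.BC 0 (by omega)
  have B1 := T.BC 1 (by omega)
  have C0 := T.CB 0 (by omega)
  have C1 := T.CB 1 (by omega)
  have AA := fun i j (hi : i < 3) (hj : j < 3) => (T.cAA i j hi hj).eq
  have BB := fun i j (hi : i < 3) (hj : j < 3) => (T.cBB i j hi hj).eq
  have AB := fun i j (hi : i < 3) (hj : j < 3) (h : i ≠ j) => (T.cAB i j hi hj h).eq
  have AC := fun i j (hi : i < 3) (hj : j + 1 < 3) => (T.cAC i j hi hj).eq
  have BC := fun i j (hi : i < 3) (hj : j + 1 < 3) (h : i ≠ j) (h' : i ≠ j + 1) =>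
    (T.cBC i j hi hj h h').eq
  have CC := fun i j (hi : i + 1 < 3) (hj : j + 1 < 3) => (T.cCC i j hi hj).eq
  constructor
  · intro i j hij
    fin_cases i <;> fin_cases j <;>
      first
      | exact absurd hij (by decide)
      | exact A0
      | exact A0.symm
      | exact A1
      | exact A1.symm
      | exact A2
      | exact A2.symm
      | exact B0
      | exact B0.symm
      | exact B1
      | exact B1.symm
      | exact C0
      | exact C0.symm
      | exact C1
      | exact C1.symm
  · intro i j hij hn
    fin_cases i <;> fin_cases j <;>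
      first
      | exact absurd rfl hij
      | exact absurd (by decide) hn
      | exact AA _ _ (by omega) (by omega)
      | exact BB _ _ (by omega) (by omega)
      | exact AB _ _ (by omega) (by omega) (by omega)
      | exact (AB _ _ (by omega) (by omega) (by omega)).symm
      | exact AC _ _ (by omega) (by omega)
      | exact (AC _ _ (by omega) (by omega)).symm
      | exact BC _ _ (by omega) (by omega) (by omega) (by omega)
      | exact (BC _ _ (by omega) (by omega) (by omega) (by omega)).symm
      | exact CC _ _ (by omega) (by omega)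

/-- A perfect group generated by the eight tree elements of genus three has no nontrivial
representation of dimension less than six. -/
theorem minDim_tree (F : Type u) [Field F] [IsAlgClosed F] {G : Type w} [Group G]
    {tA tB tC : ℕ → G} (T : TreeGrp 3 tA tB tC)
    (hgen : Subgroup.closure (Set.range (tt tA tB tC : Ix 3 → G)) = ⊤)
    (hperf : ∀ x : G, x ∈ commutator G) : MinDim.{u, v, w} F G 6 := by
  refine minDim_six F (gr_t8 T) ?_ hperf
  rw [eq_top_iff, ← hgen, Subgroup.closure_le]
  rintro _ ⟨i | i | i, rfl⟩
  · apply Subgroup.subset_closure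
    fin_cases i
    · exact ⟨0, rfl⟩
    · exact ⟨7, rfl⟩
    · exact ⟨6, rfl⟩
  · apply Subgroup.subset_closure
    fin_cases i
    · exact ⟨1, rfl⟩
    · exact ⟨3, rfl⟩
    · exact ⟨5, rfl⟩
  · apply Subgroup.subset_closure
    fin_cases i
    · exact ⟨2, rfl⟩
    · exact ⟨4, rfl⟩

end Pool.Agent.H.MP_59b15d_al.Lin
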