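/-
Completely reducible representations of small dimension of the mapping class group factor through
the homology of the surface.
-/
import Pool.Agent.H.MP_59b15d_al.lin.Fin
import Pool.Agent.H.MP_59b15d_al.lin.HF
import Pool.Agent.H.MP_59b15d_al.lin.Six
import Pool.Agent.H.MP_59b15d_al.lin.Blk

set_option autoImplicit false

namespace Pool.Agent.H.MP_59b15d_al.Lin

universe u v w

open Module Pool.MP_59b15d_al.H24T Pool.MP_59b15d_al.H76R Pool.MP_59b15d_al.H73E
open Pool.MP_59b15d_al.H60G Pool.MP_59b15d_al.H40L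
open Pool.Agent.H.MP_59b15d_al.SP (cls Dv)

variable {m : ℕ} {G : Type w} [Group G] {a b : Fin m → G} (h : IsSurf a b)


/-- The tree elements of the first three handles. -/
noncomputable def vA (k : ℕ) : Pool.MP_59b15d_al.H60G.MR h 0 3 :=
  if hk : k < 3 then ⟨TrA h k, TrA_mem h (Nat.zero_le k) hk⟩ else 1

/-- The tree elements of the first three handles. -/
noncomputable def vB (k : ℕ) : Pool.MP_59b15d_al.H60G.MR h 0 3 :=
  if hk : k < 3 then ⟨TrB h k, TrB_mem h (Nat.zero_le k) hk⟩ else 1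

/-- The tree elements of the first three handles. -/
noncomputable def vC (k : ℕ) : Pool.MP_59b15d_al.H60G.MR h 0 3 :=
  if hk : k + 1 < 3 then ⟨TrC h k, TrC_mem h (Nat.zero_le k) hk⟩ else 1

lemma vA_lt {k : ℕ} (hk : k < 3) : vA h k = ⟨TrA h k, TrA_mem h (Nat.zero_le k) hk⟩ := dif_pos hk
lemma vB_lt {k : ℕ} (hk : k < 3) : vB h k = ⟨TrB h k, TrB_mem h (Nat.zero_le k) hk⟩ := dif_pos hk
lemma vC_lt {k : ℕ} (hk : k + 1 < 3) :
    vC h k = ⟨TrC h k, TrC_mem h (Nat.zero_le k) hk⟩ := dif_pos hk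

theorem treeGrp_v (hm : 3 ≤ m) : TreeGrp 3 (vA h) (vB h) (vC h) := by
  have T := treeGrp h
  constructor
  · intro i hi
    rw [vA_lt h hi, vB_lt h hi]
    exact Subtype.ext (T.AB i (by omega))
  · intro i hi
    rw [vB_lt h (by omega : i < 3), vC_lt h hi]
    exact Subtype.ext (T.BC i (by omega))
  · intro i hi
    rw [vC_lt h hi, vB_lt h hi]
    exact Subtype.ext (T.CB i (by omega))
  · intro i j hi hj
    rw [vA_lt h hi, vA_lt h hj]
    exact Subtype.ext (T.cAA i j (by omega) (by omega))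
  · intro i j hi hj hij
    rw [vA_lt h hi, vB_lt h hj]
    exact Subtype.ext (T.cAB i j (by omega) (by omega) hij)
  · intro i j hi hj
    rw [vB_lt h hi, vB_lt h hj]
    exact Subtype.ext (T.cBB i j (by omega) (by omega))
  · intro i j hi hj
    rw [vA_lt h hi, vC_lt h hj]
    exact Subtype.ext (T.cAC i j (by omega) (by omega))
  · intro i j hi hj h1 h2
    rw [vB_lt h hi, vC_lt h hj]
    exact Subtype.ext (T.cBC i j (by omega) (by omega) h1 h2)
  · intro i j hi hj
    rw [vC_lt h hi, vC_lt h hj]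
    exact Subtype.ext (T.cCC i j (by omega) (by omega))

theorem gen_v : Subgroup.closure (Set.range (tt (vA h) (vB h) (vC h) : Ix 3 → _)) = ⊤ := by
  apply closure_eq_top_of_val
  refine Eq.trans ?_ (TRR_eq h 0 3)
  rw [TRR]
  congr 1
  ext T
  constructor
  · rintro ⟨i | i | i, rfl⟩
    · refine Or.inl ⟨i, by omega, i.2, ?_⟩
      change ((vA h i : Pool.MP_59b15d_al.H60G.MR h 0 3) : MulAut G) = _
      rw [vA_lt h i.2]
    · refine Or.inr (Or.inl ⟨i, by omega, i.2, ?_⟩)
      change ((vB h i : Pool.MP_59b15d_al.H60G.MR h 0 3) : MulAut G) = _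
      rw [vB_lt h i.2]
    · refine Or.inr (Or.inr ⟨i, by omega, by omega, ?_⟩)
      change ((vC h i : Pool.MP_59b15d_al.H60G.MR h 0 3) : MulAut G) = _
      rw [vC_lt h (by omega)]
  · rintro (⟨k, _, hk, rfl⟩ | ⟨k, _, hk, rfl⟩ | ⟨k, _, hk, rfl⟩)
    · refine ⟨Sum.inl ⟨k, hk⟩, ?_⟩
      change ((vA h k : Pool.MP_59b15d_al.H60G.MR h 0 3) : MulAut G) = _
      rw [vA_lt h hk]
    · refine ⟨Sum.inr (Sum.inl ⟨k, hk⟩), ?_⟩
      change ((vB h k : Pool.MP_59b15d_al.H60G.MR h 0 3) : MulAut G) = _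
      rw [vB_lt h hk]
    · refine ⟨Sum.inr (Sum.inr ⟨k, by omega⟩), ?_⟩
      change ((vC h k : Pool.MP_59b15d_al.H60G.MR h 0 3) : MulAut G) = _
      rw [vC_lt h hk]

/-- The mapping class group of three handles has no nontrivial representation of dimension less
than six. -/
theorem minDim_MR (hm : 3 ≤ m) (K : Type u) [Field K] [IsAlgClosed K] :
    MinDim.{u, v, w} K (Pool.MP_59b15d_al.H60G.MR h 0 3) 6 :=
  minDim_tree K (treeGrp_v h hm) (gen_v h) (MR3_perfect h (lo := 0) (by omega))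

theorem block_comm {r : ℕ} (k l : ℕ) (_hk : k < r) (_hl : l < r) (hkl : k ≠ l) :
    ∀ x ∈ Pool.MP_59b15d_al.H60G.MR h (3 * k) (3 * k + 3),
      ∀ y ∈ Pool.MP_59b15d_al.H60G.MR h (3 * l) (3 * l + 3), x * y = y * x := by
  intro x hx y hy
  rcases Nat.lt_or_gt_of_ne hkl with h1 | h1
  · exact MR_comm h (by omega) hx hy
  · exact (MR_comm h (by omega) hy hx).symm

/-- **Theorem.** A completely reducible representation of small dimension factors through the
action on the homology with coefficients in an algebraically closed field containing the given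
one. -/
theorem lin_factor {F : Type u} [Field F] (K : Type u) [Field K] [Algebra F K] [IsAlgClosed K]
    {r : ℕ} (hr : 2 ≤ r) (hrm : 3 * r ≤ m)
    {V : Type v} [AddCommGroup V] [Module F V] [FiniteDimensional F V]
    (ρ : MCG a b →* Module.End F V) (hρ : CompRed ρ)
    (hdim : 2 * finrank F V < 36 * (r * (r - 1)))
    {γ : MCG a b} (hγ : rhoF K h (γ : MulAut G) = 1) : ρ γ = 1 := by
  refine lin_MCG h K hr hrm (d := 6) (by omega) (minDim_MR h (by omega) K) (block_comm h)
    (fun k l hk hl hkl => exists_blk_iff h r hrm k l hk hl hkl)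
    ((rhoF K h).comp (MCG a b).subtype) (hs K) (omF K) (omF_alt K) ?_
    (fun s u hsu => omF_adj K s u hsu) (fun s u hsu => omF_not_adj K s u hsu) ρ hρ (by simpa using hdim) ?_
  · intro s x
    rw [MonoidHom.comp_apply, Subgroup.coe_subtype, tt_u_val]
    exact act_tt K h s x
  · intro s
    rw [MonoidHom.comp_apply, Subgroup.coe_subtype, hγ]
    rfl

/-- Such a representation kills the Torelli group. -/
theorem lin_torelli {F : Type u} [Field F]
    {r : ℕ} (hr : 2 ≤ r) (hrm : 3 * r ≤ m)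
    {V : Type v} [AddCommGroup V] [Module F V] [FiniteDimensional F V]
    (ρ : MCG a b →* Module.End F V) (hρ : CompRed ρ)
    (hdim : 2 * finrank F V < 36 * (r * (r - 1)))
    {γ : MCG a b} (hγ : ∀ x, cls h ((γ : MulAut G) x) = cls h x) : ρ γ = 1 :=
  lin_factor h (AlgebraicClosure F) hr hrm ρ hρ hdim (rhoF_eq_one _ h hγ)

/-- If `n = 0` in `F` such a representation kills the automorphisms which act trivially
on the homology modulo `n`. -/
theorem lin_mod {F : Type u} [Field F]
    {r : ℕ} (hr : 2 ≤ r) (hrm : 3 * r ≤ m)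
    {V : Type v} [AddCommGroup V] [Module F V] [FiniteDimensional F V]
    (ρ : MCG a b →* Module.End F V) (hρ : CompRed ρ)
    (hdim : 2 * finrank F V < 36 * (r * (r - 1))) {n : ℤ} (hn : (n : F) = 0)
    {γ : MCG a b} (hγ : ∀ x, Dv n (cls h ((γ : MulAut G) x) - cls h x)) : ρ γ = 1 := by
  refine lin_factor h (AlgebraicClosure F) hr hrm ρ hρ hdim
    (rhoF_eq_one_of_mod _ h (m := n) ?_ hγ)
  have h1 := congrArg (algebraMap F (AlgebraicClosure F)) hn
  rwa [map_intCast, map_zero] at h1

end Pool.Agent.H.MP_59b15d_al.Lin
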