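/-
Subgroups containing the kernel of a completely reducible representation of small dimension are
congruence subgroups.
-/
import Pool.Agent.H.MP_59b15d_al.lin.Main
import Pool.Agent.H.MP_59b15d_al.sp.End

set_option autoImplicit false

namespace Pool.Agent.H.MP_59b15d_al.Lin

universe u v w

open Module Pool.MP_59b15d_al.H24T Pool.MP_59b15d_al.H76R Pool.MP_59b15d_al.H73E
open Pool.MP_59b15d_al.H60G Pool.MP_59b15d_al.H40L
open Pool.Agent.H.MP_59b15d_al.SP (cls Dv V cls_mul cls_one cls_inv H1 csp_H1)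
open Pool.MP_59b15d_al.H76 (InnMod exists_char_le surf_fg)

variable {m : ℕ} {G : Type w} [Group G] {a b : Fin m → G} (h : IsSurf a b)

/-- The homology modulo `n`. -/
noncomputable def lev (n : ℕ) : G →* Multiplicative (Fin m → ZMod n × ZMod n) where
  toFun x := Multiplicative.ofAdd fun i => (((cls h x i).1 : ZMod n), ((cls h x i).2 : ZMod n))
  map_one' := by
    rw [cls_one]
    apply Multiplicative.toAdd.injective
    funext i
    simp
  map_mul' x y := by
    rw [cls_mul]
    apply Multiplicative.toAdd.injective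
    funext i
    simp

theorem mem_lev {n : ℕ} {x : G} : x ∈ (lev h n).ker ↔ Dv n (cls h x) := by
  rw [MonoidHom.mem_ker]
  constructor
  · intro hx
    have h1 : ∀ i, ((cls h x i).1 : ZMod n) = 0 ∧ ((cls h x i).2 : ZMod n) = 0 := by
      intro i
      have h2 := congrFun (congrArg Multiplicative.toAdd hx) i
      exact Prod.ext_iff.1 h2
    have h3 : ∀ i, ((n : ℤ) ∣ (cls h x i).1) ∧ ((n : ℤ) ∣ (cls h x i).2) := fun i =>
      ⟨(ZMod.intCast_zmod_eq_zero_iff_dvd _ n).1 (h1 i).1,
        (ZMod.intCast_zmod_eq_zero_iff_dvd _ n).1 (h1 i).2⟩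
    refine ⟨fun i => ((cls h x i).1 / n, (cls h x i).2 / n), ?_⟩
    funext i
    ext
    · simp only [Pi.smul_apply, Prod.smul_fst, smul_eq_mul]
      exact (Int.mul_ediv_cancel' (h3 i).1).symm
    · simp only [Pi.smul_apply, Prod.smul_snd, smul_eq_mul]
      exact (Int.mul_ediv_cancel' (h3 i).2).symm
  · rintro ⟨v, hv⟩
    apply Multiplicative.toAdd.injective
    funext i
    change (((cls h x i).1 : ZMod n), ((cls h x i).2 : ZMod n)) = 0
    rw [hv]
    simp

/-- An automorphism which is inner modulo the elements trivial in the homology modulo `n` acts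
trivially on that homology. -/
theorem dv_of_innMod {n : ℕ} {Γ : Subgroup G} (hΓ : Γ ≤ (lev h n).ker) {φ : MulAut G}
    (hφ : InnMod Γ φ) (x : G) : Dv n (cls h (φ x) - cls h x) := by
  obtain ⟨c, hc⟩ := hφ
  have h1 := (mem_lev h).1 (hΓ (hc x))
  have h2 : cls h (φ x * (c * x * c⁻¹)⁻¹) = cls h (φ x) - cls h x := by
    rw [cls_mul, cls_inv, cls_mul, cls_mul, cls_inv]
    abel
  rwa [h2] at h1

/-- The congruence subgroups of the homology. -/
theorem exists_char_lev {n : ℕ} (hn : 0 < n) :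
    ∃ Γ : Subgroup G, Γ.Characteristic ∧ Γ.FiniteIndex ∧ Γ ≤ (lev h n).ker := by
  have : NeZero n := ⟨by omega⟩
  have : Group.FG G := surf_fg h
  have : Finite (Multiplicative (Fin m → ZMod n × ZMod n)) :=
    inferInstanceAs (Finite (Fin m → ZMod n × ZMod n))
  exact exists_char_le (lev h n).ker (Subgroup.finiteIndex_ker _)

include h

/-- **Theorem.** A subgroup of finite index of the mapping class group which contains the kernel of
a completely reducible representation of dimension less than `18 r (r - 1)`, `3 r ≤ g`, is a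
congruence subgroup. -/
theorem lin_cong {F : Type u} [Field F] {r : ℕ} (hr : 2 ≤ r) (hrm : 3 * r ≤ m)
    {V : Type v} [AddCommGroup V] [Module F V] [FiniteDimensional F V]
    (ρ : MCG a b →* Module.End F V) (hρ : CompRed ρ)
    (hdim : 2 * finrank F V < 36 * (r * (r - 1)))
    (H : Subgroup (MulAut G)) (hH : H.relIndex (MCG a b) ≠ 0)
    (hker : ∀ f : MCG a b, ρ f = 1 → (f : MulAut G) ∈ H) :
    ∃ Γ : Subgroup G, Γ.Characteristic ∧ Γ.FiniteIndex ∧ ∀ φ ∈ MCG a b, InnMod Γ φ → φ ∈ H := by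
  have h1 : ∀ f ∈ MCG a b, H1 h f = 1 → f ∈ H := by
    intro f hf hf1
    refine hker ⟨f, hf⟩ (lin_torelli h hr hrm ρ hρ hdim ?_)
    intro x
    have h2 := congrArg (fun A => A (cls h x)) hf1
    simpa [SP.H1_cls] using h2
  obtain ⟨n, hn, h2⟩ := csp_H1 h (by omega) H hH h1
  obtain ⟨k, rfl⟩ : ∃ k : ℕ, n = k := ⟨n.toNat, (Int.toNat_of_nonneg hn.le).symm⟩
  obtain ⟨Γ, hc, hf, hle⟩ := exists_char_lev h (n := k) (by omega)
  exact ⟨Γ, hc, hf, fun φ hφ hi => h2 φ hφ (dv_of_innMod h hle hi)⟩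

/-- In positive characteristic the finiteness of the index need not be assumed, and one subgroup
works for all representations. -/
theorem lin_cong_char {p : ℕ} (hp : 0 < p) : ∃ Γ : Subgroup G, Γ.Characteristic ∧ Γ.FiniteIndex ∧
    ∀ {F : Type u} [Field F] [CharP F p] {r : ℕ} (_hr : 2 ≤ r) (_hrm : 3 * r ≤ m)
      {V : Type v} [AddCommGroup V] [Module F V] [FiniteDimensional F V]
      (ρ : MCG a b →* Module.End F V) (_hρ : CompRed ρ)
      (_hdim : 2 * finrank F V < 36 * (r * (r - 1))) (f : MCG a b),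
      InnMod Γ (f : MulAut G) → ρ f = 1 := by
  obtain ⟨Γ, hc, hf, hle⟩ := exists_char_lev h hp
  refine ⟨Γ, hc, hf, ?_⟩
  intro F _ _ r hr hrm V _ _ _ ρ hρ hdim f hi
  refine lin_mod h hr hrm ρ hρ hdim (n := (p : ℤ)) ?_ (dv_of_innMod h hle hi)
  rw [Int.cast_natCast]
  exact CharP.cast_eq_zero F p

end Pool.Agent.H.MP_59b15d_al.Lin
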