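/-
The core theorem without hypotheses on invariants and coinvariants: the operators `ρ x - 1` of two
conjugates of the root with orthogonal classes multiply to zero.
-/
import Pool.Agent.H.MP_59b15d_al.lin.Perp

set_option autoImplicit false

namespace Pool.Agent.H.MP_59b15d_al.Lin

variable {F V H ι Γ : Type*} [Field F] [AddCommGroup V] [Module F V] [AddCommGroup H] [Module F H]
  [Group Γ]

/-- The hypotheses of `TreeRep` without those on invariants and coinvariants. -/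
structure PreRep (T : RTree ι) (t : ι → Γ) (ρ : Γ →* Module.End F V) (ρH : Γ →* Module.End F H)
    (h : ι → H) (ω : H →ₗ[F] H →ₗ[F] F) : Prop where
  gen : Subgroup.closure (Set.range t) = ⊤
  alt : ∀ x y, ω x y = - ω y x
  act : ∀ s x, ρH (t s) x = x + ω (h s) x • h s
  adj : ∀ s u, T.Adj s u → ω (h s) (h u) = 1 ∨ ω (h s) (h u) = -1
  nadj : ∀ s u, ¬ T.Adj s u → ω (h s) (h u) = 0
  prod : ∀ s u, ¬ T.Adj s u → (ρ (t s) - 1) * (ρ (t u) - 1) = 0
  braid : ∀ s u, T.Adj s u → ρ (t s) * ρ (t u) * ρ (t s) = ρ (t u) * ρ (t s) * ρ (t u)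

/-- The operator `n_s + n_s n_u n_s`. -/
def kap (ρ : Γ →* Module.End F V) (t : ι → Γ) (s u : ι) : Module.End F V :=
  (ρ (t s) - 1) + (ρ (t s) - 1) * (ρ (t u) - 1) * (ρ (t s) - 1)

namespace PreRep

variable {T : RTree ι} {t : ι → Γ} {ρ : Γ →* Module.End F V} {ρH : Γ →* Module.End F H}
  {h : ι → H} {ω : H →ₗ[F] H →ₗ[F] F}

lemma mul_self (R : PreRep T t ρ ρH h ω) (s : ι) : (ρ (t s) - 1) * (ρ (t s) - 1) = 0 :=
  R.prod s s (T.not_adj_self s)

lemma kap_symm (R : PreRep T t ρ ρH h ω) {s u : ι} (hsu : T.Adj s u) :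
    kap ρ t s u = kap ρ t u s := by
  rw [kap, kap]
  set a := ρ (t s) - 1 with ha
  set b := ρ (t u) - 1 with hb
  have hs : ρ (t s) = 1 + a := by rw [ha]; abel
  have hu : ρ (t u) = 1 + b := by rw [hb]; abel
  have ha2 : a * a = 0 := R.mul_self s
  have hb2 : b * b = 0 := R.mul_self u
  have hbr := R.braid s u hsu
  rw [hs, hu] at hbr
  have e1 : (1 + a) * (1 + b) * (1 + a) =
      1 + a + b + a * b + b * a + (a + a * b * a) + a * a := by noncomm_ring
  have e2 : (1 + b) * (1 + a) * (1 + b) =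
      1 + a + b + a * b + b * a + (b + b * a * b) + b * b := by noncomm_ring
  rw [e1, e2, ha2, hb2, add_zero, add_zero] at hbr
  exact add_left_cancel hbr

lemma n_kap_self (R : PreRep T t ρ ρH h ω) (s u : ι) : (ρ (t s) - 1) * kap ρ t s u = 0 := by
  rw [kap, mul_add, ← mul_assoc, ← mul_assoc, R.mul_self, zero_mul, zero_mul, add_zero]

lemma n_kap (R : PreRep T t ρ ρH h ω) {s u : ι} (hsu : T.Adj s u) (r : ι) :
    (ρ (t r) - 1) * kap ρ t s u = 0 := by
  by_cases h1 : T.Adj r s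
  · have h2 : ¬ T.Adj r u := fun h2 => T.no_triangle h1 h2 hsu
    have h3 := R.prod r u h2
    rw [R.kap_symm hsu, kap, mul_add, ← mul_assoc, ← mul_assoc, h3, zero_mul, zero_mul, add_zero]
  · have h3 := R.prod r s h1
    rw [kap, mul_add, ← mul_assoc, ← mul_assoc, h3, zero_mul, zero_mul, add_zero]

lemma kap_n (R : PreRep T t ρ ρH h ω) {s u : ι} (hsu : T.Adj s u) (r : ι) :
    kap ρ t s u * (ρ (t r) - 1) = 0 := by
  by_cases h1 : T.Adj s r
  · have h2 : ¬ T.Adj u r := fun h2 => T.no_triangle hsu h1 h2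
    have h3 := R.prod u r h2
    rw [R.kap_symm hsu, kap, add_mul, mul_assoc _ _ (ρ (t r) - 1), h3, mul_zero, add_zero]
  · have h3 := R.prod s r h1
    rw [kap, add_mul, mul_assoc _ _ (ρ (t r) - 1), h3, mul_zero, add_zero]

lemma rho_of (A : Module.End F V) {S : Set Γ} (hA : ∀ x ∈ S, ρ x * A = A) {γ : Γ}
    (hγ : γ ∈ Subgroup.closure S) : ρ γ * A = A := by
  induction hγ using Subgroup.closure_induction with
  | mem x hx => exact hA x hx
  | one => rw [map_one, one_mul]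
  | mul x y _ _ hx hy => rw [map_mul, mul_assoc, hy, hx]
  | inv x _ hx =>
    conv_lhs => rw [← hx]
    rw [← mul_assoc, ← map_mul, inv_mul_cancel, map_one, one_mul]

lemma of_rho (A : Module.End F V) {S : Set Γ} (hA : ∀ x ∈ S, A * ρ x = A) {γ : Γ}
    (hγ : γ ∈ Subgroup.closure S) : A * ρ γ = A := by
  induction hγ using Subgroup.closure_induction with
  | mem x hx => exact hA x hx
  | one => rw [map_one, mul_one]
  | mul x y _ _ hx hy => rw [map_mul, ← mul_assoc, hx, hy]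
  | inv x _ hx =>
    conv_lhs => rw [← hx]
    rw [mul_assoc, ← map_mul, mul_inv_cancel, map_one, mul_one]

lemma rho_kap (R : PreRep T t ρ ρH h ω) {s u : ι} (hsu : T.Adj s u) (γ : Γ) :
    ρ γ * kap ρ t s u = kap ρ t s u := by
  refine rho_of (kap ρ t s u) (S := Set.range t) ?_ (R.gen ▸ Subgroup.mem_top γ)
  rintro _ ⟨r, rfl⟩
  have h1 := R.n_kap hsu r
  rwa [sub_mul, one_mul, sub_eq_zero] at h1

lemma kap_rho (R : PreRep T t ρ ρH h ω) {s u : ι} (hsu : T.Adj s u) (γ : Γ) :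
    kap ρ t s u * ρ γ = kap ρ t s u := by
  refine of_rho (kap ρ t s u) (S := Set.range t) ?_ (R.gen ▸ Subgroup.mem_top γ)
  rintro _ ⟨r, rfl⟩
  have h1 := R.kap_n hsu r
  rwa [mul_sub, mul_one, sub_eq_zero] at h1

/-- The operator `kap s u` does not depend on `u`. -/
lemma kap_eq (R : PreRep T t ρ ρH h ω) {s u r : ι} (hsu : T.Adj s u) (hsr : T.Adj s r) :
    kap ρ t s u = kap ρ t s r := by
  have hur : ¬ T.Adj u r := fun h1 => T.no_triangle hsu hsr h1
  have hru : ¬ T.Adj r u := fun h1 => hur (T.adj_symm h1)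
  have hc : ρ (t u) * ρ (t r) = ρ (t r) * ρ (t u) := by
    have e1 := R.prod u r hur
    have e2 := R.prod r u hru
    have e3 : ρ (t u) * ρ (t r) = (ρ (t u) - 1) * (ρ (t r) - 1) + ρ (t u) + ρ (t r) - 1 := by
      noncomm_ring
    have e4 : ρ (t r) * ρ (t u) = (ρ (t r) - 1) * (ρ (t u) - 1) + ρ (t u) + ρ (t r) - 1 := by
      noncomm_ring
    rw [e3, e4, e1, e2]
  have b1 := R.braid s u hsu
  have b2 := R.braid s r hsr
  have hγ : ρ (t u * t s * t r) = ρ (t u) * ρ (t s) * ρ (t r) := by rw [map_mul, map_mul]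
  have k1 := R.rho_kap (T.adj_symm hsu) (t u * t s * t r)
  have k2 := R.kap_rho hsr (t u * t s * t r)
  rw [hγ] at k1 k2
  set x := ρ (t u) with hx
  set y := ρ (t s) with hy
  set z := ρ (t r) with hz
  have g1 : (x * y * z) * x = y * (x * y * z) := by
    calc (x * y * z) * x = x * y * (z * x) := by noncomm_ring
      _ = x * y * (x * z) := by rw [hc]
      _ = (x * y * x) * z := by noncomm_ring
      _ = (y * x * y) * z := by rw [b1]
      _ = _ := by noncomm_ring
  have g2 : (x * y * z) * y = z * (x * y * z) := by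
    calc (x * y * z) * y = x * (y * z * y) := by noncomm_ring
      _ = x * (z * y * z) := by rw [b2]
      _ = (x * z) * y * z := by noncomm_ring
      _ = (z * x) * y * z := by rw [hc]
      _ = _ := by noncomm_ring
  have g3 : (x * y * z) * (x - 1) = (y - 1) * (x * y * z) := by
    rw [mul_sub, g1, mul_one, sub_mul, one_mul]
  have g4 : (x * y * z) * (y - 1) = (z - 1) * (x * y * z) := by
    rw [mul_sub, g2, mul_one, sub_mul, one_mul]
  have e : (x * y * z) * kap ρ t u s = kap ρ t s r * (x * y * z) := by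
    rw [kap, kap, ← hx, ← hy, ← hz]
    calc (x * y * z) * ((x - 1) + (x - 1) * (y - 1) * (x - 1)) =
        (x * y * z) * (x - 1) + ((x * y * z) * (x - 1)) * (y - 1) * (x - 1) := by noncomm_ring
      _ = (y - 1) * (x * y * z) + (y - 1) * ((x * y * z) * (y - 1)) * (x - 1) := by
        rw [g3]; noncomm_ring
      _ = (y - 1) * (x * y * z) + (y - 1) * (z - 1) * ((x * y * z) * (x - 1)) := by
        rw [g4]; noncomm_ring
      _ = _ := by rw [g3]; noncomm_ring
  rw [k1, k2] at e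
  rw [R.kap_symm hsu, e]

lemma sq_one (R : PreRep T t ρ ρH h ω) {s u : ι} (hsu : T.Adj s u) :
    ω (h s) (h u) * ω (h s) (h u) = 1 := by
  rcases R.adj s u hsu with h1 | h1 <;> rw [h1] <;> ring

end PreRep

/-- The corrected maps. -/
noncomputable def Phi (T : RTree ι) (t : ι → Γ) (ρ : Γ →* Module.End F V) (h : ι → H)
    (ω : H →ₗ[F] H →ₗ[F] F) (K : Module.End F V) (s : ι) : Module.End F V :=
  if T.rk s = 0 then (ρ (t s) - 1) - K else TreeRep.phi T t ρ h ω s

namespace PreRep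

variable {T : RTree ι} {t : ι → Γ} {ρ : Γ →* Module.End F V} {ρH : Γ →* Module.End F H}
  {h : ι → H} {ω : H →ₗ[F] H →ₗ[F] F}

/-- `n_s Φ_u = ω(h_s, h_u) Φ_s`. -/
lemma n_Phi (R : PreRep T t ρ ρH h ω) {s0 c0 : ι} (hs0 : T.rk s0 = 0) (hc : T.Adj s0 c0)
    (s u : ι) : (ρ (t s) - 1) * Phi T t ρ h ω (kap ρ t s0 c0) u =
      ω (h s) (h u) • Phi T t ρ h ω (kap ρ t s0 c0) s := by
  have hk := fun r => R.n_kap hc r
  by_cases hsu : T.Adj s u
  · rcases hsu with ⟨hs, hu⟩ | ⟨hu, hs⟩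
    · -- `u` is the parent of `s`
      subst hu
      have hadj : T.Adj s (T.par s) := Or.inl ⟨hs, rfl⟩
      have h1 : Phi T t ρ h ω (kap ρ t s0 c0) s = TreeRep.phi T t ρ h ω s := if_neg hs
      have h2 : (ρ (t s) - 1) * Phi T t ρ h ω (kap ρ t s0 c0) (T.par s) =
          (ρ (t s) - 1) * TreeRep.phi T t ρ h ω (T.par s) := by
        by_cases hp : T.rk (T.par s) = 0
        · rw [Phi, if_pos hp, mul_sub, hk, sub_zero, TreeRep.phi_root hp]
        · rw [Phi, if_neg hp]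
      rw [h1, h2, TreeRep.phi_par hs, smul_smul, R.sq_one hadj, one_smul]
    · -- `s` is the parent of `u`
      subst hs
      have hadj : T.Adj u (T.par u) := Or.inl ⟨hu, rfl⟩
      have hadj' := T.adj_symm hadj
      have h1 : Phi T t ρ h ω (kap ρ t s0 c0) u = TreeRep.phi T t ρ h ω u := if_neg hu
      rw [h1, TreeRep.phi_par hu, mul_smul_comm, R.alt (h (T.par u)) (h u), neg_smul,
        ← smul_neg]
      congr 1
      by_cases hp : T.rk (T.par u) = 0
      · have e0 : T.par u = s0 := T.root _ _ hp hs0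
        have e1 : kap ρ t s0 c0 = kap ρ t (T.par u) u := by
          rw [e0] at hadj' ⊢
          exact R.kap_eq hc hadj'
        rw [Phi, if_pos hp, TreeRep.phi_root hp, e1, kap]
        noncomm_ring
      · have h3 : Phi T t ρ h ω (kap ρ t s0 c0) (T.par u) =
            TreeRep.phi T t ρ h ω (T.par u) := if_neg hp
        have hadj2 : T.Adj (T.par u) (T.par (T.par u)) := Or.inl ⟨hp, rfl⟩
        obtain ⟨B, hB⟩ := TreeRep.phi_fac (T := T) (t := t) (ρ := ρ) (h := h) (ω := ω)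
          (T.par (T.par u))
        have h4 : kap ρ t (T.par u) u * TreeRep.phi T t ρ h ω (T.par (T.par u)) = 0 := by
          rw [hB, ← mul_assoc, R.kap_n hadj', zero_mul]
        rw [h3, TreeRep.phi_par hp]
        rw [kap] at h4
        have h5 : (ρ (t (T.par u)) - 1) * ((ρ (t u) - 1) * ((ρ (t (T.par u)) - 1) *
            TreeRep.phi T t ρ h ω (T.par (T.par u)))) =
            -((ρ (t (T.par u)) - 1) * TreeRep.phi T t ρ h ω (T.par (T.par u))) := by
          rw [eq_neg_iff_add_eq_zero, ← h4]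
          noncomm_ring
        rw [mul_smul_comm, mul_smul_comm, h5, smul_neg]
  · rw [R.nadj s u hsu, zero_smul]
    obtain ⟨B, hB⟩ := TreeRep.phi_fac (T := T) (t := t) (ρ := ρ) (h := h) (ω := ω) u
    by_cases hp : T.rk u = 0
    · rw [Phi, if_pos hp, mul_sub, hk, sub_zero, R.prod s u hsu]
    · rw [Phi, if_neg hp, hB, ← mul_assoc, R.prod s u hsu, zero_mul]

/-- Formal combinations of the vertices, image in the endomorphisms. -/
noncomputable def toP (T : RTree ι) (t : ι → Γ) (ρ : Γ →* Module.End F V) (h : ι → H)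
    (ω : H →ₗ[F] H →ₗ[F] F) (K : Module.End F V) : (ι →₀ F) →ₗ[F] Module.End F V :=
  Finsupp.linearCombination F (Phi T t ρ h ω K)

lemma n_toP (R : PreRep T t ρ ρH h ω) {s0 c0 : ι} (hs0 : T.rk s0 = 0) (hc : T.Adj s0 c0)
    (s : ι) (c : ι →₀ F) :
    (ρ (t s) - 1) * toP T t ρ h ω (kap ρ t s0 c0) c =
      ω (h s) (TreeRep.toH h c) • Phi T t ρ h ω (kap ρ t s0 c0) s := by
  induction c using Finsupp.induction_linear with
  | zero => simp
  | add c d hc hd => rw [map_add, mul_add, hc, hd, map_add, map_add, add_smul]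
  | single u x =>
    rw [toP, TreeRep.toH, Finsupp.linearCombination_single, Finsupp.linearCombination_single,
      mul_smul_comm, R.n_Phi hs0 hc, map_smul, smul_smul, smul_eq_mul]

lemma rhoH_inv (R : PreRep T t ρ ρH h ω) (s : ι) (x : H) :
    ρH (t s)⁻¹ x = x - ω (h s) x • h s := by
  have h0 : ω (h s) (h s) = 0 := R.nadj s s (T.not_adj_self s)
  have h1 : ρH (t s) (x - ω (h s) x • h s) = x := by
    rw [R.act, map_sub, map_smul, h0, smul_zero, sub_zero, sub_add_cancel]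
  have h2 : ρH (t s)⁻¹ (ρH (t s) (x - ω (h s) x • h s)) = x - ω (h s) x • h s := by
    rw [← Module.End.mul_apply, ← map_mul, inv_mul_cancel, map_one, Module.End.one_apply]
  rw [h1] at h2
  exact h2

lemma rho_inv (R : PreRep T t ρ ρH h ω) (s : ι) : ρ (t s)⁻¹ = 1 - (ρ (t s) - 1) := by
  have h1 : ρ (t s) * (1 - (ρ (t s) - 1)) = 1 := by
    have e := R.mul_self s
    have e2 : ρ (t s) * (1 - (ρ (t s) - 1)) = 1 - (ρ (t s) - 1) * (ρ (t s) - 1) := by
      noncomm_ring
    rw [e2, e, sub_zero]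
  have h2 : ρ (t s)⁻¹ * ρ (t s) = 1 := by rw [← map_mul, inv_mul_cancel, map_one]
  calc ρ (t s)⁻¹ = ρ (t s)⁻¹ * (ρ (t s) * (1 - (ρ (t s) - 1))) := by rw [h1, mul_one]
    _ = 1 - (ρ (t s) - 1) := by rw [← mul_assoc, h2, one_mul]

lemma lift_aux (R : PreRep T t ρ ρH h ω) {s0 c0 : ι} (hs0 : T.rk s0 = 0) (hc : T.Adj s0 c0)
    (γ : Γ) :
    (∀ c : ι →₀ F, ∃ d : ι →₀ F, TreeRep.toH h d = ρH γ (TreeRep.toH h c) ∧
      toP T t ρ h ω (kap ρ t s0 c0) d = ρ γ * toP T t ρ h ω (kap ρ t s0 c0) c) ∧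
    (∀ c : ι →₀ F, ∃ d : ι →₀ F, TreeRep.toH h d = ρH γ⁻¹ (TreeRep.toH h c) ∧
      toP T t ρ h ω (kap ρ t s0 c0) d = ρ γ⁻¹ * toP T t ρ h ω (kap ρ t s0 c0) c) := by
  have hγ : γ ∈ Subgroup.closure (Set.range t) := R.gen ▸ Subgroup.mem_top γ
  induction hγ using Subgroup.closure_induction with
  | mem x hx =>
    obtain ⟨s, rfl⟩ := hx
    constructor
    · intro c
      refine ⟨c + Finsupp.single s (ω (h s) (TreeRep.toH h c)), ?_, ?_⟩
      · rw [map_add, R.act]
        congr 1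
        rw [TreeRep.toH, Finsupp.linearCombination_single]
      · have h1 := R.n_toP hs0 hc s c
        rw [sub_mul, one_mul, sub_eq_iff_eq_add] at h1
        rw [map_add, h1, add_comm]
        congr 1
        rw [toP, Finsupp.linearCombination_single]
    · intro c
      refine ⟨c - Finsupp.single s (ω (h s) (TreeRep.toH h c)), ?_, ?_⟩
      · rw [map_sub, R.rhoH_inv]
        congr 1
        rw [TreeRep.toH, Finsupp.linearCombination_single]
      · have h1 := R.n_toP hs0 hc s c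
        rw [map_sub, R.rho_inv, sub_mul, one_mul, h1]
        congr 1
        rw [toP, Finsupp.linearCombination_single]
  | one => exact ⟨fun c => ⟨c, by simp, by simp⟩, fun c => ⟨c, by simp, by simp⟩⟩
  | mul x y _ _ hx hy =>
    constructor
    · intro c
      obtain ⟨d, hd1, hd2⟩ := hy.1 c
      obtain ⟨e, he1, he2⟩ := hx.1 d
      refine ⟨e, ?_, ?_⟩
      · rw [he1, hd1, map_mul, Module.End.mul_apply]
      · rw [he2, hd2, map_mul, mul_assoc]
    · intro c
      obtain ⟨d, hd1, hd2⟩ := hx.2 c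
      obtain ⟨e, he1, he2⟩ := hy.2 d
      refine ⟨e, ?_, ?_⟩
      · rw [he1, hd1, mul_inv_rev, map_mul, Module.End.mul_apply]
      · rw [he2, hd2, mul_inv_rev, map_mul, mul_assoc]
  | inv x _ hx => exact ⟨hx.2, by simpa only [inv_inv] using hx.1⟩

/-- The product of `n_s` with a conjugate of `n_root`. -/
theorem n_rho_n (R : PreRep T t ρ ρH h ω) {s0 c0 : ι} (hs0 : T.rk s0 = 0) (hc : T.Adj s0 c0)
    (γ : Γ) (s : ι) : (ρ (t s) - 1) * ρ γ * (ρ (t s0) - 1) =
      ω (h s) (ρH γ (h s0)) • Phi T t ρ h ω (kap ρ t s0 c0) s := by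
  obtain ⟨d, hd1, hd2⟩ := (R.lift_aux hs0 hc γ).1 (Finsupp.single s0 1)
  have e1 : TreeRep.toH h (Finsupp.single s0 (1 : F)) = h s0 := by
    rw [TreeRep.toH, Finsupp.linearCombination_single, one_smul]
  have e2 : toP T t ρ h ω (kap ρ t s0 c0) (Finsupp.single s0 (1 : F)) =
      (ρ (t s0) - 1) - kap ρ t s0 c0 := by
    rw [toP, Finsupp.linearCombination_single, one_smul, Phi, if_pos hs0]
  rw [e1] at hd1
  rw [e2] at hd2
  have h3 := R.n_toP hs0 hc s d
  rw [hd1, hd2, mul_sub (ρ γ), R.rho_kap hc, mul_sub, R.n_kap hc, sub_zero] at h3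
  rw [← h3, mul_assoc]

/-- The form is invariant. -/
lemma om_inv (R : PreRep T t ρ ρH h ω) (γ : Γ) (x y : H) : ω (ρH γ x) (ρH γ y) = ω x y := by
  have hγ : γ ∈ Subgroup.closure (Set.range t) := R.gen ▸ Subgroup.mem_top γ
  induction hγ using Subgroup.closure_induction generalizing x y with
  | mem z hz =>
    obtain ⟨s, rfl⟩ := hz
    have h0 : ω (h s) (h s) = 0 := R.nadj s s (T.not_adj_self s)
    have h1 := R.alt x (h s)
    rw [R.act, R.act]
    simp only [map_add, map_smul, LinearMap.add_apply, LinearMap.smul_apply, smul_eq_mul, h0, h1]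
    ring
  | one => rw [map_one]; rfl
  | mul z w _ _ hz hw => rw [map_mul, Module.End.mul_apply, Module.End.mul_apply, hz, hw]
  | inv z _ hz =>
    have h1 : ∀ v, ρH z (ρH z⁻¹ v) = v := by
      intro v
      rw [← Module.End.mul_apply, ← map_mul, mul_inv_cancel, map_one, Module.End.one_apply]
    have h2 := hz (ρH z⁻¹ x) (ρH z⁻¹ y)
    rw [h1, h1] at h2
    exact h2.symm

/-- Conjugates of the root with orthogonal classes are perpendicular. -/
theorem perp (R : PreRep T t ρ ρH h ω) {s0 c0 : ι} (hs0 : T.rk s0 = 0) (hc : T.Adj s0 c0)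
    {γ δ : Γ} (hω : ω (ρH γ (h s0)) (ρH δ (h s0)) = 0) :
    Perp ρ (γ * t s0 * γ⁻¹) (δ * t s0 * δ⁻¹) := by
  have key : ∀ γ δ : Γ, ω (ρH γ (h s0)) (ρH δ (h s0)) = 0 →
      (ρ (γ * t s0 * γ⁻¹) - 1) * (ρ (δ * t s0 * δ⁻¹) - 1) = 0 := by
    intro γ δ h1
    have h2 : ω (h s0) (ρH (γ⁻¹ * δ) (h s0)) = 0 := by
      have h3 := R.om_inv γ (h s0) (ρH (γ⁻¹ * δ) (h s0))
      rw [← h3, ← Module.End.mul_apply (ρH γ), ← map_mul, mul_inv_cancel_left, h1]
    have h4 := R.n_rho_n hs0 hc (γ⁻¹ * δ) s0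
    rw [h2, zero_smul, map_mul] at h4
    rw [rho_conj_sub, rho_conj_sub]
    calc ρ γ * (ρ (t s0) - 1) * ρ γ⁻¹ * (ρ δ * (ρ (t s0) - 1) * ρ δ⁻¹) =
        ρ γ * ((ρ (t s0) - 1) * (ρ γ⁻¹ * ρ δ) * (ρ (t s0) - 1)) * ρ δ⁻¹ := by noncomm_ring
      _ = 0 := by rw [h4, mul_zero, zero_mul]
  refine ⟨key γ δ hω, key δ γ ?_⟩
  rw [R.alt, hω, neg_zero]

end PreRep

/-- Perpendicular elements commute in the representation. -/
lemma Perp.comm_one {ρ : Γ →* Module.End F V} {x y : Γ} (hp : Perp ρ x y) :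
    ρ (x * y * x⁻¹ * y⁻¹) = 1 := by
  have e1 : ρ x * ρ y = ρ y * ρ x := by
    have e3 : ρ x * ρ y = (ρ x - 1) * (ρ y - 1) + ρ x + ρ y - 1 := by noncomm_ring
    have e4 : ρ y * ρ x = (ρ y - 1) * (ρ x - 1) + ρ x + ρ y - 1 := by noncomm_ring
    rw [e3, e4, hp.1, hp.2]
  have e2 : x * y * x⁻¹ * y⁻¹ = (x * y) * (y * x)⁻¹ := by group
  have e5 : ρ (x * y) = ρ (y * x) := by rw [map_mul, map_mul, e1]
  rw [e2, map_mul, e5, ← map_mul, mul_inv_cancel, map_one]

end Pool.Agent.H.MP_59b15d_al.Lin
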