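import Mathlib
import Pool.Agent.H.MP_59b15d_al.h76r.Ri
import Pool.Agent.H.MP_59b15d_al.lin.Lantern
import Pool.Agent.H.MP_59b15d_al.lin.Tr

/-!
The commutator of the pushes around the last two `b` is the commutator of two twists.
-/

set_option autoImplicit false
set_option linter.unusedSimpArgs false

namespace Pool.MP_59b15d_al.H40L

open Pool.MP_59b15d_al.H24T Pool.MP_59b15d_al.H76R Pool.MP_59b15d_al.H73E
open Pool.MP_59b15d_al.H60G
open FreeGroup (of)

section

variable {G : Type*} [Group G] {n : ℕ} {a b : Fin (n + 1) → G} (h : IsSurf a b)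

/-- The swap of two handles maps one push to the other. -/
theorem Xb_SW {i j : Fin n} (hij : ((j.castSucc : Fin (n + 1)) : ℕ) = i.castSucc + 1) :
    Xb h i * SW h i.castSucc j.castSucc hij = SW h i.castSucc j.castSucc hij * Xb h j := by
  have n1 := ne_of_succ hij
  have n2 : Fin.last n ≠ i.castSucc := last_ne_cs i
  have n3 : Fin.last n ≠ j.castSucc := last_ne_cs j
  have hlt : i.castSucc < j.castSucc := by
    rw [Fin.lt_def]
    omega
  have hjl : j.castSucc < Fin.last n := Fin.castSucc_lt_last j
  have sA : SW h i.castSucc j.castSucc hij (a (Fin.last n)) = a (Fin.last n) :=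
    SW_a_ne h hij n2 n3
  have sB : SW h i.castSucc j.castSucc hij (b (Fin.last n)) = b (Fin.last n) :=
    SW_b_ne h hij n2 n3
  have xj := Xb_a_mid h i hlt hjl
  have yj := Xb_b_mid h i hlt hjl
  have xi := Xb_a_lt h j hlt
  have yi := Xb_b_lt h j hlt
  apply aut_ext h
  · intro k
    rw [MulAut.mul_apply, MulAut.mul_apply]
    by_cases h1 : k = i.castSucc
    · subst h1
      rw [xi, SW_ai]
      simp only [map_mul, map_inv, Xb_aj, Xb_bj, xj, yj]
      group
    · by_cases h2 : k = j.castSucc
      · subst h2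
        rw [SW_aj, Xb_aj, Xb_aj]
        simp only [map_mul, map_inv, SW_aj, SW_bj, sA]
      · rw [SW_a_ne h hij h1 h2]
        rcases seg_cases j k with hk | hk | ⟨hk, hk2⟩ | hk
        · have hk' : k < i.castSucc := by
            rw [Fin.lt_def] at hk ⊢
            have : (k : ℕ) ≠ i.castSucc := fun h3 => h1 (Fin.ext h3)
            omega
          rw [Xb_a_lt h i hk', Xb_a_lt h j hk, SW_a_ne h hij h1 h2]
        · exact absurd hk h2
        · rw [Xb_a_mid h i (hlt.trans hk) hk2, Xb_a_mid h j hk hk2]
          simp only [map_mul, map_inv, SW_bj, sA, SW_a_ne h hij h1 h2]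
        · subst hk
          rw [Xb_al, Xb_al]
          simp only [map_mul, map_inv, SW_bj, sA]
  · intro k
    rw [MulAut.mul_apply, MulAut.mul_apply]
    by_cases h1 : k = i.castSucc
    · subst h1
      rw [yi, SW_bi]
      simp only [map_mul, map_inv, Xb_aj, Xb_bj, xj, yj]
      group
    · by_cases h2 : k = j.castSucc
      · subst h2
        rw [SW_bj, Xb_bj, Xb_bj]
        simp only [map_mul, map_inv, SW_aj, SW_bj, sA]
      · rw [SW_b_ne h hij h1 h2]
        rcases seg_cases j k with hk | hk | ⟨hk, hk2⟩ | hk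
        · have hk' : k < i.castSucc := by
            rw [Fin.lt_def] at hk ⊢
            have : (k : ℕ) ≠ i.castSucc := fun h3 => h1 (Fin.ext h3)
            omega
          rw [Xb_b_lt h i hk', Xb_b_lt h j hk, SW_b_ne h hij h1 h2]
        · exact absurd hk h2
        · rw [Xb_b_mid h i (hlt.trans hk) hk2, Xb_b_mid h j hk hk2]
          simp only [map_mul, map_inv, SW_bj, sA, SW_b_ne h hij h1 h2]
        · subst hk
          rw [Xb_bl, Xb_bl]
          simp only [map_mul, map_inv, SW_bj, sA, sB]

theorem TB_SW {m : ℕ} {a b : Fin m → G} (h : IsSurf a b) {i j : Fin m} (hij : (j : ℕ) = i + 1) :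
    TB h i * SW h i j hij = SW h i j hij * TB h j := by
  have n1 := ne_of_succ hij
  have t1 : TB h i (a j) = a j := TB_a_ne h n1
  have t2 : TB h j (a i) = a i := TB_a_ne h n1.symm
  apply aut_ext h
  · intro k
    rw [MulAut.mul_apply, MulAut.mul_apply]
    by_cases h1 : k = i
    · subst h1
      rw [t2, SW_ai]
      simp only [map_mul, map_inv, TB_a, TB_b, t1]
      group
    · by_cases h2 : k = j
      · subst h2
        rw [SW_aj, TB_a, TB_a, map_mul, SW_aj, SW_bj]
      · rw [SW_a_ne h hij h1 h2, TB_a_ne h h1, TB_a_ne h h2, SW_a_ne h hij h1 h2]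
  · intro k
    rw [MulAut.mul_apply, MulAut.mul_apply, TB_b]
    by_cases h1 : k = i
    · subst h1
      rw [SW_bi]
      simp only [map_mul, map_inv, TB_a, TB_b]
      group
    · by_cases h2 : k = j
      · subst h2
        rw [SW_bj, TB_b]
      · rw [SW_b_ne h hij h1 h2, TB_b]

/-- The push around `b i` times the twist along `b i` is the twist along a curve around `b i` and
the last `a`, if `i + 2` is the last handle. -/
theorem T2_eq {i j : Fin n} (hij : ((j.castSucc : Fin (n + 1)) : ℕ) = i.castSucc + 1)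
    (hj : ((Fin.last n : Fin (n + 1)) : ℕ) = j.castSucc + 1) :
    SW h i.castSucc j.castSucc hij * TC h j.castSucc (Fin.last n) hj *
      (SW h i.castSucc j.castSucc hij)⁻¹ = Xb h i * TB h i.castSucc := by
  rw [mul_inv_eq_iff_eq_mul, ← X0_eq h j hj, mul_assoc, TB_SW, ← mul_assoc, ← mul_assoc, Xb_SW]

/-- The commutator of the pushes around the last two `b` is the commutator of the twists along two
curves which intersect twice with algebraic intersection number zero. -/
theorem comm_push {i j : Fin n} (hij : ((j.castSucc : Fin (n + 1)) : ℕ) = i.castSucc + 1)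
    (hj : ((Fin.last n : Fin (n + 1)) : ℕ) = j.castSucc + 1) :
    XX h (of (Sum.inr j) * of (Sum.inr i) * (of (Sum.inr j))⁻¹ * (of (Sum.inr i))⁻¹) =
    TC h j.castSucc (Fin.last n) hj *
      (SW h i.castSucc j.castSucc hij * TC h j.castSucc (Fin.last n) hj *
        (SW h i.castSucc j.castSucc hij)⁻¹) *
      (TC h j.castSucc (Fin.last n) hj)⁻¹ *
      (SW h i.castSucc j.castSucc hij * TC h j.castSucc (Fin.last n) hj *
        (SW h i.castSucc j.castSucc hij)⁻¹)⁻¹ := by
  have hne : i ≠ j := by
    rintro rfl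
    omega
  simp only [map_mul, map_inv, XX_b]
  rw [T2_eq h hij hj, ← X0_eq h j hj]
  have c1 : Commute (TB h j.castSucc) (Xb h i) := (TB_comm h hne.symm).2
  have c2 : Commute (TB h i.castSucc) (Xb h j) := (TB_comm h hne).2
  have c3 : Commute (TB h j.castSucc) (Xb h j) := TB_Xb h j
  have c4 : Commute (TB h i.castSucc) (Xb h i) := TB_Xb h i
  have c5 : Commute (TB h i.castSucc) (TB h j.castSucc) := TB_TB h _ _
  have e1 : Xb h j * TB h j.castSucc * (Xb h i * TB h i.castSucc) =
      Xb h j * Xb h i * (TB h j.castSucc * TB h i.castSucc) := by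
    rw [mul_assoc, mul_assoc, ← mul_assoc (TB h j.castSucc), c1.eq, mul_assoc]
  have e2 : Xb h i * TB h i.castSucc * (Xb h j * TB h j.castSucc) =
      Xb h i * Xb h j * (TB h j.castSucc * TB h i.castSucc) := by
    rw [mul_assoc, mul_assoc, ← mul_assoc (TB h i.castSucc), c2.eq, mul_assoc, c5.eq]
  have e3 : Xb h j * TB h j.castSucc * (Xb h i * TB h i.castSucc) *
      (Xb h j * TB h j.castSucc)⁻¹ * (Xb h i * TB h i.castSucc)⁻¹ =
      (Xb h j * TB h j.castSucc * (Xb h i * TB h i.castSucc)) *
      (Xb h i * TB h i.castSucc * (Xb h j * TB h j.castSucc))⁻¹ := by group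
  rw [e3, e1, e2]
  group

end

end Pool.MP_59b15d_al.H40L
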