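/-
Arbitrary representations of small dimension of the mapping class group kill the commutator of the
pushes around two disjoint curves.
-/
import Pool.Agent.H.MP_59b15d_al.lin.Main
import Pool.Agent.H.MP_59b15d_al.lin.Gen
import Pool.Agent.H.MP_59b15d_al.lin.Sip

set_option autoImplicit false

namespace Pool.Agent.H.MP_59b15d_al.Lin

universe u v w

open Module TensorProduct
open Pool.MP_59b15d_al.H24T Pool.MP_59b15d_al.H76R Pool.MP_59b15d_al.H73E
open Pool.MP_59b15d_al.H60G Pool.MP_59b15d_al.H40L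
open Pool.Agent.H.MP_59b15d_al.SP (cls Dv e f om)
open FreeGroup (of)

section pre

variable {m : ℕ} {G : Type w} [Group G] {a b : Fin m → G} (h : IsSurf a b)

theorem gen_u (hm0 : 0 < m) :
    Subgroup.closure (Set.range (tt (g := m) (uA h) (uB h) (uC h))) = ⊤ := by
  apply closure_eq_top_of_val
  refine Eq.trans ?_ ((gen_tt h).trans (MCG_eq_MR h hm0).symm)
  congr 2
  ext s : 1
  exact tt_u_val h s

theorem lan_u (hm : 3 ≤ m) :
    uA h 0 ∈ Subgroup.closure {x | ∃ k, Commute k (uA h 0) ∧ x = k * uA h 2 * k⁻¹} := by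
  have hS : {x | ∃ k ∈ Pool.MP_59b15d_al.H60G.MR h 0 m,
      Commute k (TrA h 0) ∧ x = k * TrA h 2 * k⁻¹} ⊆ (MCG a b : Set (MulAut G)) := by
    rintro _ ⟨k, hk, _, rfl⟩
    have hk' := MR_le_MCG h 0 m hk
    exact Subgroup.mul_mem _ (Subgroup.mul_mem _ hk' (uA h 2).2) (Subgroup.inv_mem _ hk')
  have h1 := mem_closure_of_val hS (x := uA h 0) (lan_tt h (by omega))
  refine Subgroup.closure_mono ?_ h1
  rintro y ⟨k, hk, hc, hy⟩
  exact ⟨⟨k, MR_le_MCG h 0 m hk⟩, Subtype.ext hc, Subtype.ext hy⟩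

/-- The hypotheses of the general core theorem follow from one perpendicular pair. -/
theorem preRep_u {K : Type u} [Field K] {V : Type v} [AddCommGroup V] [Module K V]
    (ρ : MCG a b →* Module.End K V) (hm : 3 ≤ m) {q : ℕ} (hq0 : 0 < q) (hq : q < m)
    (h0 : Perp ρ (uA h 0) (uA h q)) :
    PreRep (tr m) (tt (uA h) (uB h) (uC h)) ρ ((rhoF K h).comp (MCG a b).subtype) (hs K)
      (omF K) where
  gen := gen_u h (by omega)
  alt := omF_alt K
  act := by
    intro s x
    rw [MonoidHom.comp_apply, Subgroup.coe_subtype, tt_u_val]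
    exact act_tt K h s x
  adj := fun s u hsu => omF_adj K s u hsu
  nadj := fun s u hsu => omF_not_adj K s u hsu
  prod := fun s u hsu => ((treeGrp_u h).perp_of_not_adj hq0 hq h0 (q' := 2) (by omega) (by omega)
    (lan_u h hm) s u hsu).1
  braid := fun s u hsu => by
    rw [← map_mul, ← map_mul, ← map_mul, ← map_mul, (treeGrp_u h).braid_of_adj s u hsu]

/-- In small dimension the first and the fourth leaf are perpendicular. -/
theorem perp_u {K : Type u} [Field K] [IsAlgClosed K] {r : ℕ} (hr : 2 ≤ r) (hrm : 3 * r ≤ m)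
    {V : Type v} [AddCommGroup V] [Module K V] [FiniteDimensional K V]
    (ρ : MCG a b →* Module.End K V) (hdim : 2 * finrank K V < 36 * (r * (r - 1))) :
    Perp ρ (uA h 0) (uA h 3) := by
  have e0 : Pool.MP_59b15d_al.H60G.MR h 0 3 ≃* Dk h 0 :=
    (Subgroup.subgroupOfEquivOfLe (MR_le_MCG h 0 3)).symm
  refine perp_of_blocks ρ hr (d := 6) (by omega) (Dk h)
    (MinDim.congr e0 (minDim_MR h (by omega) K))
    (perfect_congr e0 (MR3_perfect h (lo := 0) (by omega))) ?_ ?_ (by simpa using hdim) ?_ ?_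
  · intro k l hk hl hkl x hx y hy
    exact Subtype.ext (block_comm h k l hk hl hkl x hx y hy)
  · intro k l hk hl hkl
    obtain ⟨c, hc, h1, h2⟩ := exists_blk_iff h r hrm k l hk hl hkl
    exact ⟨⟨c, MR_le_MCG h 0 m hc⟩, fun x => h1 x, fun y => h2 y⟩
  · exact TrA_mem h (by omega) (by omega)
  · exact TrA_mem h (by omega) (by omega)

theorem conj_step {Γ : Type*} [Group Γ] {s u r : Γ} (hb : s * u * s = u * s * u)
    (hc : ∃ c, s = c * r * c⁻¹) : ∃ c, u = c * r * c⁻¹ := by
  obtain ⟨c, hc⟩ := hc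
  refine ⟨(s * u) * c, ?_⟩
  calc u = (s * u) * s * (s * u)⁻¹ := braid_conj hb
    _ = (s * u) * (c * r * c⁻¹) * (s * u)⁻¹ := congrArg (fun y => (s * u) * y * (s * u)⁻¹) hc
    _ = _ := by group

/-- All the elements `uB` are conjugate to the root. -/
theorem conj_uB (k : ℕ) (hk : k < m) : ∃ c : MCG a b, uB h k = c * uB h 0 * c⁻¹ := by
  have T := treeGrp_u h
  induction k with
  | zero => exact ⟨1, by group⟩
  | succ k ih => exact conj_step (T.CB k hk) (conj_step (T.BC k hk) (ih (by omega)))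

/-- The elements `uC` are conjugate to the root. -/
theorem conj_uC (k : ℕ) (hk : k + 1 < m) : ∃ c : MCG a b, uC h k = c * uB h 0 * c⁻¹ :=
  conj_step ((treeGrp_u h).BC k hk) (conj_uB h k (by omega))

end pre

section sip

variable {n : ℕ} {G : Type w} [Group G] {a b : Fin (n + 1) → G} (h : IsSurf a b)

include h in
/-- Two disjoint pushes commute in a representation in which the tree elements satisfy the
relations of the general core theorem. -/
theorem sip_pre {K : Type u} [Field K] {V : Type v} [AddCommGroup V] [Module K V]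
    (ρ : MCG a b →* Module.End K V)
    (R : PreRep (tr (n + 1)) (tt (uA h) (uB h) (uC h)) ρ ((rhoF K h).comp (MCG a b).subtype) (hs K)
      (omF K))
    {i j : Fin n} (hij : ((j.castSucc : Fin (n + 1)) : ℕ) = i.castSucc + 1)
    (hj : ((Fin.last n : Fin (n + 1)) : ℕ) = j.castSucc + 1) (γ : MCG a b)
    (hγ : (γ : MulAut G) =
      XX h (of (Sum.inr j) * of (Sum.inr i) * (of (Sum.inr j))⁻¹ * (of (Sum.inr i))⁻¹)) :
    ρ γ = 1 := by
  have hjn : (j : ℕ) + 1 < n + 1 := by omega
  have hTC : TC h j.castSucc (Fin.last n) hj ∈ MCG a b :=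
    MR_le_MCG h 0 (n + 1) (TC_mem h _ _ hj (Nat.zero_le _) (by simp))
  have hSW : SW h i.castSucc j.castSucc hij ∈ MCG a b := MR_le_MCG h _ _ (SW_mem h hij)
  have hRR : RR h j.castSucc ∈ MCG a b := by
    have h1 : TA h j.castSucc ∈ MCG a b :=
      MR_le_MCG h 0 (n + 1) (TA_mem h _ (Nat.zero_le _) (by simp only [Fin.val_castSucc]; omega))
    have h2 : TB h j.castSucc ∈ MCG a b :=
      MR_le_MCG h 0 (n + 1) (TB_mem h _ (Nat.zero_le _) (by simp only [Fin.val_castSucc]; omega))
    exact Subgroup.mul_mem _ (Subgroup.mul_mem _ (Subgroup.inv_mem _ h1) h2)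
      (Subgroup.inv_mem _ h1)
  let x : MCG a b := ⟨TC h j.castSucc (Fin.last n) hj, hTC⟩
  let σ : MCG a b := ⟨SW h i.castSucc j.castSucc hij, hSW⟩
  let R0 : MCG a b := ⟨RR h j.castSucc, hRR⟩
  -- `x` is a conjugate of the root
  obtain ⟨c, hc⟩ := conj_uC h j hjn
  let c' : MCG a b := R0 * c
  have hx : x = c' * uB h 0 * c'⁻¹ := by
    have h1 : x = R0 * uC h j * R0⁻¹ := by
      apply Subtype.ext
      change TC h j.castSucc (Fin.last n) hj = RR h j.castSucc * TrC h j * (RR h j.castSucc)⁻¹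
      rw [TC_eq, TrC_lt h hjn]
      have e1 : (⟨(j : ℕ) + 1, hjn⟩ : Fin (n + 1)) = Fin.last n := Fin.ext hj.symm
      congr 2
      have e2 : ∀ (l : Fin (n + 1)) (hl : (l : ℕ) = j.castSucc + 1),
          CC h j.castSucc (Fin.last n) hj = CC h j.castSucc l hl := by
        intro l hl
        have e3 : l = Fin.last n := Fin.ext (hl.trans hj.symm)
        subst e3
        rfl
      exact e2 _ rfl
    rw [h1, hc]
    change R0 * (c * uB h 0 * c⁻¹) * R0⁻¹ = (R0 * c) * uB h 0 * (R0 * c)⁻¹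
    group
  set ρH : MCG a b →* Module.End K (VF K (n + 1)) := (rhoF K h).comp (MCG a b).subtype with hρH
  let s0 : Ix (n + 1) := Sum.inr (Sum.inl ⟨0, by omega⟩)
  have hts0 : tt (uA h) (uB h) (uC h) s0 = uB h 0 := rfl
  have hrk : (tr (n + 1)).rk s0 = 0 := rfl
  have hadj : (tr (n + 1)).Adj s0 (Sum.inl ⟨0, by omega⟩) := by
    apply RTree.adj_symm
    rw [adj_AB]
  set u : VF K (n + 1) := ρH c' (hs K s0) with hu
  let wv : SP.V (n + 1) := f j.castSucc - e (Fin.last n)
  let w : VF K (n + 1) := cF K wv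
  -- the transvection of `x`
  have t1 : ∀ z, ρH x z = z + omF K u z • u := by
    intro z
    have h2 : ρH x z = ρH c' (ρH (uB h 0) (ρH c'⁻¹ z)) := by
      rw [hx, map_mul, map_mul]
      rfl
    have h3 := R.act s0 (ρH c'⁻¹ z)
    rw [hts0] at h3
    have h4 : ρH c' (ρH c'⁻¹ z) = z := by
      rw [← Module.End.mul_apply, ← map_mul, mul_inv_cancel, map_one, Module.End.one_apply]
    have h5 := R.om_inv c' (hs K s0) (ρH c'⁻¹ z)
    rw [h4] at h5
    rw [h2, h3, map_add, map_smul, h4, ← h5]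
  have t2 : ∀ z, ρH x z = z + omF K w z • w := by
    intro z
    exact rhoF_T K h (H1_TC h hj) z
  have hjl : (j.castSucc : Fin (n + 1)) ≠ Fin.last n := (last_ne_cs j).symm
  have hil : (i.castSucc : Fin (n + 1)) ≠ Fin.last n := (last_ne_cs i).symm
  have hji : (j.castSucc : Fin (n + 1)) ≠ i.castSucc := ne_of_succ hij
  have hwz : omF K w (cF K (e j.castSucc)) = 1 := by
    change omF K (cF K wv) (cF K (e j.castSucc)) = 1
    rw [omF_cF, SP.om_sub_right, SP.om_e_f, SP.om_e_e]
    simp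
  have hwu : w = omF K u (cF K (e j.castSucc)) • u := by
    have h1 := t1 (cF K (e j.castSucc))
    rw [t2, hwz, one_smul] at h1
    exact add_left_cancel h1
  set c0 : K := omF K u (cF K (e j.castSucc)) with hc0
  have hc0' : c0 ≠ 0 := by
    intro h1
    rw [h1, zero_smul] at hwu
    rw [hwu, map_zero, LinearMap.zero_apply] at hwz
    exact zero_ne_one hwz
  have hσw : ρH σ w = cF K (f i.castSucc - e (Fin.last n)) := by
    change rhoF K h (SW h i.castSucc j.castSucc hij) (cF K (f j.castSucc - e (Fin.last n))) = _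
    rw [cF_sub, map_sub, ← SP.cls_b h j.castSucc, ← SP.cls_a h (Fin.last n), rhoF_cls, rhoF_cls,
      SW_bj, SW_a_ne h hij (Ne.symm hil) (Ne.symm hjl), SP.cls_b, SP.cls_a, cF_sub]
  have hww : omF K w (ρH σ w) = 0 := by
    rw [hσw]
    change omF K (cF K (f j.castSucc - e (Fin.last n))) _ = 0
    rw [omF_cF]
    have h1 : om (f i.castSucc - e (Fin.last n) : SP.V (n + 1)) (f j.castSucc - e (Fin.last n)) =
        0 := by
      rw [SP.om_sub_left, SP.om_sub_right, SP.om_sub_right, SP.om_f_f, SP.om_f_e_ne hil,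
        SP.om_e_f_ne (Ne.symm hjl), SP.om_e_e]
      ring
    rw [h1, Int.cast_zero]
  have huu : omF K u (ρH (σ * c') (hs K s0)) = 0 := by
    have h1 : ρH (σ * c') (hs K s0) = ρH σ u := by
      rw [map_mul, Module.End.mul_apply]
    rw [h1]
    rw [hwu, map_smul, map_smul, LinearMap.smul_apply, map_smul, smul_eq_mul, smul_eq_mul] at hww
    have h2 : c0 * c0 ≠ 0 := mul_ne_zero hc0' hc0'
    rw [← mul_assoc] at hww
    exact (mul_eq_zero.1 hww).resolve_left h2
  have hp := R.perp hrk hadj (γ := c') (δ := σ * c') huu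
  rw [hts0] at hp
  have hy : σ * x * σ⁻¹ = (σ * c') * uB h 0 * (σ * c')⁻¹ := by
    rw [hx]
    group
  rw [← hx, ← hy] at hp
  have hγ' : γ = x * (σ * x * σ⁻¹) * x⁻¹ * (σ * x * σ⁻¹)⁻¹ := by
    apply Subtype.ext
    rw [hγ, comm_push h hij hj]
    rfl
  rw [hγ']
  exact hp.comm_one

include h in
/-- **Theorem.** Every representation of small dimension of the mapping class group, over any
field, kills the commutator of the pushes around two disjoint curves. -/
theorem sip_ker {F : Type u} [Field F] {r : ℕ} (hr : 2 ≤ r) (hrm : 3 * r ≤ n + 1)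
    {V : Type v} [AddCommGroup V] [Module F V] [FiniteDimensional F V]
    (ρ : MCG a b →* Module.End F V) (hdim : 2 * finrank F V < 36 * (r * (r - 1)))
    {i j : Fin n} (hij : ((j.castSucc : Fin (n + 1)) : ℕ) = i.castSucc + 1)
    (hj : ((Fin.last n : Fin (n + 1)) : ℕ) = j.castSucc + 1) (γ : MCG a b)
    (hγ : (γ : MulAut G) =
      XX h (of (Sum.inr j) * of (Sum.inr i) * (of (Sum.inr j))⁻¹ * (of (Sum.inr i))⁻¹)) :
    ρ γ = 1 := by
  let K := AlgebraicClosure F
  have hdim' : 2 * finrank K (K ⊗[F] V) < 36 * (r * (r - 1)) := by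
    rw [Module.finrank_baseChange]
    exact hdim
  have hp := perp_u h hr hrm (bc K ρ) hdim'
  exact bc_one K ρ γ (sip_pre h (bc K ρ) (preRep_u h (bc K ρ) (by omega) (q := 3) (by omega)
    (by omega) hp) hij hj γ hγ)

end sip

end Pool.Agent.H.MP_59b15d_al.Lin
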