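/-
One commutator of two disjoint pushes is enough for all the relations of the Heisenberg group; the
kernel of a representation of small dimension contains them.
-/
import Pool.Agent.H.MP_59b15d_al.lin.SipKer
import Pool.Agent.H.MP_59b15d_al.h95g.Out

set_option autoImplicit false

namespace Pool.Agent.H.MP_59b15d_al.Lin

universe u v w

open Module
open Pool.MP_59b15d_al.H24T Pool.MP_59b15d_al.H76R Pool.MP_59b15d_al.H73E
open Pool.MP_59b15d_al.H60G Pool.MP_59b15d_al.H40L Pool.MP_59b15d_al.H95G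
open FreeGroup (of)

variable {n : ℕ} {G : Type w} [Group G] {a b : Fin (n + 1) → G} {h : IsSurf a b}
  {N : Subgroup (MulAut G)}

/-- Moving a commuting pair of handles to the first handle. -/
theorem CC_zero {K : Subgroup G} {hK : KK h n K} {i j : ℕ} (hij : i < j) (hj : j < n)
    (hc : Pool.MP_59b15d_al.H95G.CC hK i j) : Pool.MP_59b15d_al.H95G.CC hK 0 j := by
  induction i with
  | zero => exact hc
  | succ i ih =>
    refine ih (by omega) ?_
    obtain ⟨σ, s1, s2, -⟩ := exists_swap' h i (by omega)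
    refine CC_transfer (Subgroup.inv_mem _ (MR_mono h (Nat.zero_le _) (by omega) s1))
      ⟨?_, ?_⟩ ⟨?_, ?_⟩ hc
    · exact inv_of_eq s2.1
    · exact inv_of_eq s2.2
    · exact inv_of_eq (MR_fix h s1 j (Or.inr (by omega))).1
    · exact inv_of_eq (MR_fix h s1 j (Or.inr (by omega))).2

/-- One commutator of pushes around two disjoint curves gives all relations of the Heisenberg
group. -/
theorem sip_out (hN : ∀ f ∈ MMs h, ∀ x ∈ N, f * x * f⁻¹ ∈ N) {i j : Fin n} (hij : i < j)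
    (hs : XX h (of (Sum.inr j) * of (Sum.inr i) * (of (Sum.inr j))⁻¹ * (of (Sum.inr i))⁻¹) ∈ N) :
    (∀ i j : Fin n, i ≠ j → ∀ x ∈ Hf n i, ∀ y ∈ Hf n j, XX h (x * y * x⁻¹ * y⁻¹) ∈ N) ∧
    (∀ i j : Fin n, XX h (cf i * (cf j)⁻¹) ∈ N) ∧
    ∀ (i : Fin n) (z : Fr n), XX h (cf i * z * (cf i)⁻¹ * z⁻¹) ∈ N := by
  have hij' : (i : ℕ) < j := hij
  have hjn := j.2
  have ebi : jR a b (of (Sum.inr i)) = ex b i := jR_ex_b (n := n) i
  have ebj : jR a b (of (Sum.inr j)) = ex b j := jR_ex_b (n := n) j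
  have bi : ex b i ∈ Hd a b 0 n := b_Hd (Nat.zero_le _) i.2
  have bj : ex b j ∈ Hd a b 0 n := b_Hd (Nat.zero_le _) j.2
  have h1 : ex b i ∈ Cz (KK_Kc hN) (ex b j) := by
    refine ⟨bi, ⟨_, ⟨comm_mem _ _, hs⟩, ?_⟩⟩
    simp only [map_mul, map_inv, ebi, ebj]
  have h2 : ex b j ∈ Cz (KK_Kc hN) (ex b i) := Cz_symm (KK_Kc hN) bj h1
  have h3 := Hd_le_Cz (KK_Kc hN) hjn (Nat.le_succ n) (b_Hd (Nat.zero_le _) hij') h2
  have h4 : Pool.MP_59b15d_al.H95G.CC (KK_Kc hN) i j := by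
    intro x hx y hy
    have h5 := Cz_symm (KK_Kc hN) bi (h3 hy)
    obtain ⟨A, hA, A1, A2⟩ := exists_A h i (by omega)
    have h6 := Cz_map (KK_Kc hN) (MR_mono h (Nat.zero_le _) (by omega) hA) h5
    rw [A2, MR_fix_Hd h (Or.inr (by omega)) hA hy] at h6
    have h7 := Subgroup.mul_mem _ (Subgroup.inv_mem _ h5) h6
    rw [inv_mul_cancel_left] at h7
    have h8 : Hd a b i (i + 1) ≤ Cz (KK_Kc hN) y := by
      rw [Hd, Subgroup.closure_le]
      rintro g ⟨l, h9, h10, hg⟩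
      have hl : l = i := by omega
      subst hl
      rcases hg with rfl | rfl
      · exact h7
      · exact h5
    exact Cz_symm (KK_Kc hN) (Hd_mono (Nat.zero_le _) (by omega) hy) (h8 hx)
  obtain ⟨l, hl⟩ : ∃ l, (j : ℕ) = l + 1 := ⟨j - 1, by omega⟩
  have h5 := CC_zero hij' hjn h4
  rw [hl] at h5
  have h6 := CC_all (Nat.le_succ n) (by omega) h5
  have h7 : ∀ i j : Fin n, i ≠ j → ∀ x ∈ Hf n i, ∀ y ∈ Hf n j, x * y * x⁻¹ * y⁻¹ ∈ Kc h N :=
    fun i j hij x hx y hy => comm_of_CC h6 hij hx hy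
  exact ⟨fun i j hij x hx y hy => (h7 i j hij x hx y hy).2, fun i j => (cf_eq_all hN h7 i j).2,
    fun i z => (cf_central hN (by omega) h7 i z).2⟩

/-- **Theorem.** A subgroup normalised by the mapping class group and containing the kernel of a
representation of small dimension, over any field, contains the pushes with trivial image in the
Heisenberg group (same conclusion as the growth theorem). -/
theorem gen_R {F : Type u} [Field F] {r : ℕ} (hr : 2 ≤ r) (hrm : 3 * r ≤ n + 1)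
    {V : Type v} [AddCommGroup V] [Module F V] [FiniteDimensional F V]
    (ρ : MCG a b →* Module.End F V) (hdim : 2 * finrank F V < 36 * (r * (r - 1)))
    (hN : ∀ f ∈ MMs h, ∀ x ∈ N, f * x * f⁻¹ ∈ N) (hρ : ∀ γ : MCG a b, ρ γ = 1 → (γ : MulAut G) ∈ N) :
    (∀ i j : Fin n, i ≠ j → ∀ x ∈ Hf n i, ∀ y ∈ Hf n j, XX h (x * y * x⁻¹ * y⁻¹) ∈ N) ∧
    (∀ i j : Fin n, XX h (cf i * (cf j)⁻¹) ∈ N) ∧
    ∀ (i : Fin n) (z : Fr n), XX h (cf i * z * (cf i)⁻¹ * z⁻¹) ∈ N := by
  let i : Fin n := ⟨n - 2, by omega⟩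
  let j : Fin n := ⟨n - 1, by omega⟩
  have hij : ((j.castSucc : Fin (n + 1)) : ℕ) = i.castSucc + 1 := by
    simp only [i, j, Fin.val_castSucc]
    omega
  have hj : ((Fin.last n : Fin (n + 1)) : ℕ) = j.castSucc + 1 := by
    simp only [j, Fin.val_castSucc, Fin.val_last]
    omega
  have hlt : i < j := by
    rw [Fin.lt_def]
    simp only [i, j]
    omega
  refine sip_out hN hlt ?_
  have hmem : XX h (of (Sum.inr j) * of (Sum.inr i) * (of (Sum.inr j))⁻¹ * (of (Sum.inr i))⁻¹) ∈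
      MCG a b := by
    rw [MCG_eq h]
    exact XX_mem h _
  exact hρ ⟨_, hmem⟩ (sip_ker h hr hrm ρ hdim hij hj ⟨_, hmem⟩ rfl)

end Pool.Agent.H.MP_59b15d_al.Lin
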