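/-
Elements which act trivially in all completely reducible representations of small dimension act
unipotently in all representations of small dimension.
-/
import Pool.Agent.H.MP_59b15d_al.lin.Red

set_option autoImplicit false

namespace Pool.Agent.H.MP_59b15d_al.Lin

universe u v w

open Module

section unip

variable {F : Type u} [Field F] {Γ : Type*} [Group Γ]

/-- The restriction of a representation to an invariant subspace. -/
noncomputable def resW {V : Type v} [AddCommGroup V] [Module F V] (ρ : Γ →* Module.End F V)
    (W : Submodule F V) (hW : ∀ g, ∀ v ∈ W, ρ g v ∈ W) : Γ →* Module.End F W where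
  toFun g := (ρ g).restrict (hW g)
  map_one' := by
    ext x
    change ρ 1 (x : V) = (x : V)
    rw [map_one]
    rfl
  map_mul' g k := by
    ext x
    change ρ (g * k) (x : V) = ρ g (ρ k (x : V))
    rw [map_mul]
    rfl

/-- The quotient of a representation by an invariant subspace. -/
noncomputable def quoW {V : Type v} [AddCommGroup V] [Module F V] (ρ : Γ →* Module.End F V)
    (W : Submodule F V) (hW : ∀ g, ∀ v ∈ W, ρ g v ∈ W) : Γ →* Module.End F (V ⧸ W) where
  toFun g := W.mapQ W (ρ g) (fun v hv => hW g v hv)
  map_one' := by
    ext x
    rw [LinearMap.comp_apply, Submodule.mkQ_apply, Submodule.mapQ_apply, map_one]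
    rfl
  map_mul' g k := by
    ext x
    rw [LinearMap.comp_apply, Submodule.mkQ_apply, Submodule.mapQ_apply, map_mul]
    rfl

/-- If the elements of `T` act trivially in all completely reducible representations of dimension at
most `D`, then in every representation of dimension `d ≤ D` a product of at least `d` operators
`ρ φ - 1`, with `φ` in `T`, is zero. -/
theorem unip_of {T : Set Γ} {D : ℕ}
    (hT : ∀ (V : Type v) [AddCommGroup V] [Module F V] [FiniteDimensional F V]
      (ρ : Γ →* Module.End F V), finrank F V ≤ D → CompRed ρ → ∀ φ ∈ T, ρ φ = 1) :
    ∀ (d : ℕ) (V : Type v) [AddCommGroup V] [Module F V] [FiniteDimensional F V]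
      (ρ : Γ →* Module.End F V), finrank F V ≤ d → finrank F V ≤ D →
      ∀ l : List Γ, (∀ φ ∈ l, φ ∈ T) → finrank F V ≤ l.length →
        (l.map (fun φ => ρ φ - 1)).prod = 0 := by
  intro d
  induction d with
  | zero =>
    intro V _ _ _ ρ h0 _ l _ _
    have : Subsingleton V := finrank_zero_iff.1 (Nat.le_zero.1 h0)
    exact Subsingleton.elim _ _
  | succ d ih =>
    intro V _ _ _ ρ hd hD l hl hlen
    by_cases hc : ∃ W : Submodule F V, (∀ g, ∀ v ∈ W, ρ g v ∈ W) ∧ W ≠ ⊥ ∧ W ≠ ⊤
    · obtain ⟨W, hW, hb, ht⟩ := hc
      have e1 : finrank F (V ⧸ W) + finrank F W = finrank F V :=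
        Submodule.finrank_quotient_add_finrank W
      have e2 : finrank F W < finrank F V := Submodule.finrank_lt ht
      have e3 : 0 < finrank F W := by
        have : Nontrivial W := Submodule.nontrivial_iff_ne_bot.2 hb
        exact finrank_pos
      have hsplit : l.take (finrank F W) ++ l.drop (finrank F W) = l := List.take_append_drop _ l
      have hs1 : (l.take (finrank F W)).length = finrank F W := by
        rw [List.length_take]
        omega
      have hs2 : finrank F (V ⧸ W) ≤ (l.drop (finrank F W)).length := by
        rw [List.length_drop]
        omega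
      have r1 : ∀ (m : List Γ) (x : V), Submodule.Quotient.mk (p := W)
          ((m.map (fun φ => ρ φ - 1)).prod x) =
          (m.map (fun φ => quoW ρ W hW φ - 1)).prod (Submodule.Quotient.mk x) := by
        intro m
        induction m with
        | nil =>
          intro x
          rfl
        | cons φ m ihm =>
          intro x
          rw [List.map_cons, List.map_cons, List.prod_cons, List.prod_cons, Module.End.mul_apply,
            Module.End.mul_apply, ← ihm]
          rfl
      have r2 : ∀ (m : List Γ) (x : W), ((m.map (fun φ => ρ φ - 1)).prod (x : V)) =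
          ((m.map (fun φ => resW ρ W hW φ - 1)).prod x : W) := by
        intro m
        induction m with
        | nil =>
          intro x
          rfl
        | cons φ m ihm =>
          intro x
          rw [List.map_cons, List.map_cons, List.prod_cons, List.prod_cons, Module.End.mul_apply,
            Module.End.mul_apply, ihm]
          rfl
      have q1 := ih (V ⧸ W) (quoW ρ W hW) (by omega) (by omega) (l.drop (finrank F W))
        (fun φ hφ => hl φ (List.mem_of_mem_drop hφ)) hs2
      have q2 := ih W (resW ρ W hW) (by omega) (by omega) (l.take (finrank F W))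
        (fun φ hφ => hl φ (List.mem_of_mem_take hφ)) hs1.ge
      rw [← hsplit, List.map_append, List.prod_append]
      ext x
      rw [Module.End.mul_apply, LinearMap.zero_apply]
      have hx : ((l.drop (finrank F W)).map (fun φ => ρ φ - 1)).prod x ∈ W := by
        rw [← Submodule.Quotient.mk_eq_zero, r1, q1, LinearMap.zero_apply]
      have h3 := r2 (l.take (finrank F W)) ⟨_, hx⟩
      rw [q2, LinearMap.zero_apply] at h3
      exact h3
    · push Not at hc
      rcases Nat.eq_zero_or_pos (finrank F V) with h0 | h0
      · have : Subsingleton V := finrank_zero_iff.1 h0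
        exact Subsingleton.elim _ _
      · have hcr : CompRed ρ := by
          intro U hU
          by_cases hUb : U = ⊥
          · exact ⟨⊤, fun _ _ _ => Submodule.mem_top, hUb ▸ isCompl_bot_top⟩
          · have hUt := hc U hU hUb
            refine ⟨⊥, fun g v hv => ?_, hUt ▸ isCompl_top_bot⟩
            rw [Submodule.mem_bot] at hv ⊢
            rw [hv, map_zero]
        obtain ⟨φ, m, rfl⟩ : ∃ φ m, l = φ :: m := by
          cases l with
          | nil => simp only [List.length_nil] at hlen; omega
          | cons φ m => exact ⟨φ, m, rfl⟩
        rw [List.map_cons, List.prod_cons,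
          hT V ρ hD hcr φ (hl φ List.mem_cons_self), sub_self, zero_mul]

end unip

end Pool.Agent.H.MP_59b15d_al.Lin
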