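/-
The commutator of the pushes around two disjoint curves is not an inner automorphism.
-/
import Pool.Agent.H.MP_59b15d_al.h76r.Rh

set_option autoImplicit false

namespace Pool.Agent.H.MP_59b15d_al.Lin

universe u v w

open Pool.MP_59b15d_al.H24T Pool.MP_59b15d_al.H76R
open FreeGroup (of)

variable {n : ℕ} {G : Type w} [Group G] {a b : Fin (n + 1) → G} (h : IsSurf a b)

theorem relWord_one {P : Type*} [Group P] {g : ℕ} (y : Fin g → P) :
    relWord (fun _ => 1) y = 1 := by
  unfold relWord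
  have h1 : (fun i : Fin g => (1 : P) * y i * 1⁻¹ * (y i)⁻¹) = fun _ => 1 := by
    funext i
    group
  rw [h1]
  apply List.prod_eq_one
  intro x hx
  obtain ⟨_, hi⟩ := (List.mem_ofFn' _ _).1 hx
  exact hi.symm

/-- The commutator of the pushes around the last two `b` is not inner. -/
theorem sip_not_inner {i j : Fin n} (hij : ((j.castSucc : Fin (n + 1)) : ℕ) = i.castSucc + 1)
    (c : G) :
    XX h (of (Sum.inr j) * of (Sum.inr i) * (of (Sum.inr j))⁻¹ * (of (Sum.inr i))⁻¹) ≠
      MulAut.conj c := by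
  intro hc
  have hne : j ≠ i := by
    rintro rfl
    omega
  have hlt : i.castSucc < j.castSucc := by
    rw [Fin.lt_def]
    omega
  have hjl := Fin.castSucc_lt_last j
  let X : Equiv.Perm (Fin 3) := Equiv.swap 0 1
  let Y : Equiv.Perm (Fin 3) := Equiv.swap 1 2
  obtain ⟨φ, hφa, hφb⟩ := h.lift (fun _ => (1 : Equiv.Perm (Fin 3)))
    (fun k => if k = i.castSucc then X else if k = j.castSucc then Y else 1) (relWord_one _)
  have hal : φ (a (Fin.last n)) = 1 := hφa _
  have hbi : φ (b i.castSucc) = X := by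
    rw [hφb, if_pos rfl]
  have hbj : φ (b j.castSucc) = Y := by
    rw [hφb, if_neg hlt.ne', if_pos rfl]
  have hbl : φ (b (Fin.last n)) = 1 := by
    rw [hφb, if_neg (last_ne_cs i), if_neg (last_ne_cs j)]
  have h1 := DFunLike.congr_fun hc (b (Fin.last n))
  simp only [map_mul, map_inv, XX_b, MulAut.mul_apply, Xbi_bl, Xbi_al,
    Xb_b_mid h i hlt hjl, Xb_bj, Xb_bl, Xb_al, Xb_b_lt h j hlt,
    Xbi_b_lt h j hlt, MulAut.conj_apply] at h1
  have h2 := congrArg φ h1
  simp only [map_mul, map_inv, hal, hbi, hbj, hbl, mul_one, one_mul, mul_inv_cancel] at h2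
  have h3 : (Equiv.swap 1 2 : Equiv.Perm (Fin 3)) * Equiv.swap 0 1 * (Equiv.swap 1 2)⁻¹ *
      (Equiv.swap 0 1)⁻¹ ≠ 1 := by decide
  have h4 : Y * X * Y⁻¹ * X⁻¹ = 1 := by
    rw [← h2]
    group
  exact h3 h4

end Pool.Agent.H.MP_59b15d_al.Lin
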