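/-
Representations of small dimension of the mapping class group are not faithful.
-/
import Pool.Agent.H.MP_59b15d_al.lin.NotInner
import Pool.Agent.H.MP_59b15d_al.lin.Unip
import Pool.Agent.H.MP_59b15d_al.lin.SipKer
import Pool.Agent.H.MP_59b15d_al.h11c.Tree

set_option autoImplicit false

namespace Pool.Agent.H.MP_59b15d_al.Lin

universe u v w

open Module
open Pool.MP_59b15d_al.H24T Pool.MP_59b15d_al.H76R
open Pool.Agent.H.MP_59b15d_al.SP (cls cls_mul cls_inv cls_one)
open FreeGroup (of)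

section

variable {m : ℕ} {G : Type w} [Group G] {a b : Fin m → G} (h : IsSurf a b)

/-- The class in the homology, as a homomorphism. -/
noncomputable def clsHom : G →* Multiplicative (SP.V m) where
  toFun x := Multiplicative.ofAdd (cls h x)
  map_one' := by rw [cls_one]; rfl
  map_mul' x y := by rw [cls_mul]; rfl

theorem cls_of_comm {φ : MulAut G} (hφ : ∀ x, φ x * x⁻¹ ∈ commutator G) (x : G) :
    cls h (φ x) = cls h x := by
  have h1 : φ x * x⁻¹ ∈ (clsHom h).ker := Abelianization.commutator_subset_ker _ (hφ x)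
  have h2 : cls h (φ x * x⁻¹) = 0 := h1
  rw [cls_mul, cls_inv] at h2
  exact add_neg_eq_zero.1 h2

include h in
theorem torelli_ss {F : Type u} [Field F] {r : ℕ} (hr : 2 ≤ r) (hrm : 3 * r ≤ m)
    {V : Type v} [AddCommGroup V] [Module F V] [FiniteDimensional F V]
    (ρ : MCG a b →* Module.End F V) (hρ : CompRed ρ)
    (hdim : finrank F V < 18 * (r * (r - 1)))
    {φ : MCG a b} (hφ : ∀ x, (φ : MulAut G) x * x⁻¹ ∈ commutator G) : ρ φ = 1 :=
  lin_torelli h hr hrm ρ hρ (by omega) (cls_of_comm h hφ)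

include h in
theorem torelli_unip {F : Type u} [Field F] {r : ℕ} (hr : 2 ≤ r) (hrm : 3 * r ≤ m)
    {V : Type v} [AddCommGroup V] [Module F V] [FiniteDimensional F V]
    (ρ : MCG a b →* Module.End F V)
    (hdim : finrank F V < 18 * (r * (r - 1)))
    (l : List (MCG a b)) (hl : finrank F V ≤ l.length)
    (hφ : ∀ φ ∈ l, ∀ x, (φ : MulAut G) x * x⁻¹ ∈ commutator G) :
    (l.map (fun φ => ρ φ - 1)).prod = 0 :=
  unip_of (T := {φ : MCG a b | ∀ x, (φ : MulAut G) x * x⁻¹ ∈ commutator G})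
    (D := 18 * (r * (r - 1)) - 1)
    (fun V _ _ _ ρ hD hρ φ hφ => torelli_ss h hr hrm ρ hρ (by omega) hφ) _ V ρ le_rfl (by omega) l
    hφ hl

end

section

variable {n : ℕ} {G : Type w} [Group G] {a b : Fin (n + 1) → G} (h : IsSurf a b)

include h in
theorem exists_ker (hn : 2 ≤ n) : ∃ γ : MCG a b, (∀ c : G, (γ : MulAut G) ≠ MulAut.conj c) ∧
    ∀ {F : Type u} [Field F] {r : ℕ} (_hr : 2 ≤ r) (_hrm : 3 * r ≤ n + 1)
      {V : Type v} [AddCommGroup V] [Module F V] [FiniteDimensional F V]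
      (ρ : MCG a b →* Module.End F V) (_hdim : finrank F V < 18 * (r * (r - 1))), ρ γ = 1 := by
  let i : Fin n := ⟨n - 2, by omega⟩
  let j : Fin n := ⟨n - 1, by omega⟩
  have hij : ((j.castSucc : Fin (n + 1)) : ℕ) = i.castSucc + 1 := by
    change n - 1 = n - 2 + 1
    omega
  have hj : ((Fin.last n : Fin (n + 1)) : ℕ) = j.castSucc + 1 := by
    change n = n - 1 + 1
    omega
  have hm : XX h (of (Sum.inr j) * of (Sum.inr i) * (of (Sum.inr j))⁻¹ * (of (Sum.inr i))⁻¹) ∈
      MCG a b := by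
    rw [MCG_eq h]
    exact XX_mem h _
  refine ⟨⟨_, hm⟩, fun c => sip_not_inner h hij c, ?_⟩
  intro F _ r hr hrm V _ _ _ ρ hdim
  exact sip_ker h hr hrm ρ (by omega) hij hj _ rfl

end

end Pool.Agent.H.MP_59b15d_al.Lin
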