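/-
Representations of dimension at most three of five elements with the braid relations of a chain:
all five elements are equal.
-/
import Mathlib

set_option autoImplicit false

namespace Pool.Agent.H.MP_59b15d_al.Lin

open Module

section units

variable {M : Type*} [Monoid M]

/-- Braid relation and commutation imply equality. -/
lemma eq_of_braid_comm {S T : M} (hS : IsUnit S) (hT : IsUnit T) (hb : S * T * S = T * S * T)
    (hc : S * T = T * S) : S = T := by
  have h1 : S * (S * T) = S * (T * T) := by
    calc S * (S * T) = S * (T * S) := by rw [hc]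
      _ = S * T * S := by rw [mul_assoc]
      _ = T * S * T := hb
      _ = S * T * T := by rw [hc]
      _ = S * (T * T) := by rw [mul_assoc]
  have h2 := hS.mul_left_cancel h1
  exact hT.mul_right_cancel h2

/-- The relations of a chain of five elements. -/
structure Chain5 (T : ℕ → M) : Prop where
  unit : ∀ i, i < 5 → IsUnit (T i)
  braid : ∀ i, i + 1 < 5 → T i * T (i + 1) * T i = T (i + 1) * T i * T (i + 1)
  comm : ∀ i j, i + 2 ≤ j → j < 5 → T i * T j = T j * T i

namespace Chain5

variable {T : ℕ → M}

lemma up (h : Chain5 T) {i : ℕ} (hi : i + 2 < 5) (e : T i = T (i + 1)) : T (i + 1) = T (i + 2) :=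
  eq_of_braid_comm (h.unit _ (by omega)) (h.unit _ hi) (h.braid (i + 1) (by omega))
    (by rw [← e]; exact h.comm i (i + 2) le_rfl hi)

lemma down (h : Chain5 T) {i : ℕ} (hi : i + 2 < 5) (e : T (i + 1) = T (i + 2)) :
    T i = T (i + 1) :=
  eq_of_braid_comm (h.unit _ (by omega)) (h.unit _ (by omega)) (h.braid i (by omega))
    (by rw [e]; exact h.comm i (i + 2) le_rfl hi)

/-- One equality implies all equalities. -/
lemma prop (h : Chain5 T) (hex : ∃ i, i + 1 < 5 ∧ T i = T (i + 1)) :
    ∀ i, i < 5 → T i = T 0 := by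
  obtain ⟨i, hi, e⟩ := hex
  have h01 : T 0 = T 1 := by
    have : i = 0 ∨ i = 1 ∨ i = 2 ∨ i = 3 := by omega
    rcases this with rfl | rfl | rfl | rfl
    · exact e
    · exact h.down (i := 0) (by omega) e
    · exact h.down (i := 0) (by omega) (h.down (i := 1) (by omega) e)
    · exact h.down (i := 0) (by omega) (h.down (i := 1) (by omega) (h.down (i := 2) (by omega) e))
  have h12 := h.up (i := 0) (by omega) h01
  have h23 := h.up (i := 1) (by omega) h12
  have h34 := h.up (i := 2) (by omega) h23
  intro j hj
  have : j = 0 ∨ j = 1 ∨ j = 2 ∨ j = 3 ∨ j = 4 := by omega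
  rcases this with rfl | rfl | rfl | rfl | rfl
  · rfl
  · exact h01.symm
  · exact h12.symm.trans h01.symm
  · exact h23.symm.trans (h12.symm.trans h01.symm)
  · exact h34.symm.trans (h23.symm.trans (h12.symm.trans h01.symm))

end Chain5

end units

section lin

variable {F V : Type*} [Field F] [AddCommGroup V] [Module F V]

/-- Two endomorphisms commuting with one which has a cyclic vector (in dimension `≤ 3`) commute. -/
lemma comm_of_cyc {T X Y : Module.End F V} (hX : X * T = T * X) (hY : Y * T = T * Y) {v : V}
    (hv : ∀ x, ∃ a b c : F, x = a • v + b • T v + c • T (T v)) : X * Y = Y * X := by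
  have hX' : ∀ x, X (T x) = T (X x) := fun x => LinearMap.congr_fun hX x
  have hY' : ∀ x, Y (T x) = T (Y x) := fun x => LinearMap.congr_fun hY x
  obtain ⟨a, b, c, hXv⟩ := hv (X v)
  obtain ⟨a', b', c', hYv⟩ := hv (Y v)
  have hXx : ∀ x, X x = a • x + b • T x + c • T (T x) := by
    intro x
    obtain ⟨p, q, r, rfl⟩ := hv x
    simp only [map_add, map_smul, hX', hXv]
    module
  have hYx : ∀ x, Y x = a' • x + b' • T x + c' • T (T x) := by
    intro x
    obtain ⟨p, q, r, rfl⟩ := hv x
    simp only [map_add, map_smul, hY', hYv]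
    module
  ext x
  rw [Module.End.mul_apply, Module.End.mul_apply, hYx x, hXx x]
  simp only [map_add, map_smul, hXx, hYx]
  module

/-- In dimension at most three an endomorphism has a cyclic vector or differs from a scalar by an
endomorphism of rank at most one. -/
lemma cyc_or_rank [IsAlgClosed F] [FiniteDimensional F V] [Nontrivial V]
    (h3 : finrank F V ≤ 3) (T : Module.End F V) :
    (∃ v, ∀ x, ∃ a b c : F, x = a • v + b • T v + c • T (T v)) ∨
      (∃ l : F, finrank F (LinearMap.range (T - l • (1 : Module.End F V))) ≤ 1) := by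
  obtain ⟨l, hl⟩ := Module.End.exists_eigenvalue T
  obtain ⟨e, he⟩ := hl.exists_hasEigenvector
  have he1 : T e = l • e := he.apply_eq_smul
  have he0 : e ≠ 0 := he.2
  set N : Module.End F V := T - l • (1 : Module.End F V) with hN
  have hNx : ∀ x, N x = T x - l • x := fun x => by
    rw [hN, LinearMap.sub_apply, LinearMap.smul_apply, Module.End.one_apply]
  have hNe : N e = 0 := by rw [hNx, he1, sub_self]
  have hTN : ∀ x, T (N x) = N (T x) := fun x => by
    rw [hNx, hNx, map_sub, map_smul]
  have hrk := LinearMap.finrank_range_add_finrank_ker N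
  have hk1 : 1 ≤ finrank F (LinearMap.ker N) := by
    rw [Nat.one_le_iff_ne_zero]
    intro h0
    have h1 : LinearMap.ker N = ⊥ := Submodule.finrank_eq_zero.1 h0
    have h2 : e ∈ LinearMap.ker N := hNe
    rw [h1] at h2
    exact he0 ((Submodule.mem_bot F).1 h2)
  by_cases hW : finrank F (LinearMap.range N) ≤ 1
  · exact Or.inr ⟨l, hW⟩
  have hW2 : finrank F (LinearMap.range N) = 2 := by omega
  have hV3 : finrank F V = 3 := by omega
  have hTW : ∀ x ∈ LinearMap.range N, T x ∈ LinearMap.range N := by
    rintro _ ⟨y, rfl⟩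
    exact ⟨T y, (hTN y).symm⟩
  by_cases hsc : ∀ w : LinearMap.range N, ¬ LinearIndependent F ![w, T.restrict hTW w]
  · obtain ⟨m, hm⟩ := LinearMap.exists_eq_smul_id_of_forall_notLinearIndependent hsc
    right
    refine ⟨m, ?_⟩
    have h1 : LinearMap.range N ≤ LinearMap.ker (T - m • (1 : Module.End F V)) := by
      intro x hx
      have h2 := congrArg Subtype.val (LinearMap.congr_fun hm ⟨x, hx⟩)
      rw [LinearMap.mem_ker, LinearMap.sub_apply, LinearMap.smul_apply, Module.End.one_apply,
        sub_eq_zero]
      simpa using h2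
    have h2 := Submodule.finrank_mono h1
    have h3 := LinearMap.finrank_range_add_finrank_ker (T - m • (1 : Module.End F V))
    omega
  · push Not at hsc
    obtain ⟨⟨w, hw⟩, hli⟩ := hsc
    have hli' : ∀ a b : F, a • w + b • T w = 0 → a = 0 ∧ b = 0 := by
      intro a b hab
      refine LinearIndependent.pair_iff.1 hli a b ?_
      apply Subtype.ext
      simpa using hab
    -- the plane is spanned by `w` and `T w`
    have hspan : ∀ y ∈ LinearMap.range N, ∃ a b : F, y = a • w + b • T w := by
      intro y hy
      have hc : Fintype.card (Fin 2) = finrank F (LinearMap.range N) := by simp [hW2]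
      have htop := hli.span_eq_top_of_card_eq_finrank' hc
      have hy' : (⟨y, hy⟩ : LinearMap.range N) ∈
          Submodule.span F (Set.range ![(⟨w, hw⟩ : LinearMap.range N), T.restrict hTW ⟨w, hw⟩]) := by
        rw [htop]; exact Submodule.mem_top
      rw [Matrix.range_cons, Matrix.range_cons, Matrix.range_empty, Set.union_empty,
        Set.singleton_union, Submodule.mem_span_pair] at hy'
      obtain ⟨a, b, hab⟩ := hy'
      refine ⟨a, b, ?_⟩
      have := congrArg Subtype.val hab
      simpa using this.symm
    obtain ⟨u, hu, hu'⟩ : ∃ u, N u = w ∧ u ∉ LinearMap.range N := by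
      obtain ⟨u, hu⟩ := hw
      by_cases h1 : u ∈ LinearMap.range N
      · by_cases h2 : e ∈ LinearMap.range N
        · exfalso
          obtain ⟨a, b, hab⟩ := hspan u h1
          obtain ⟨a', b', hab'⟩ := hspan e h2
          -- N on the plane
          obtain ⟨p, q, hpq⟩ := hspan (N (T w)) ⟨_, rfl⟩
          have hNw : N w = T w - l • w := hNx w
          have e1 : (a' * (-l) + b' * p) • w + (a' + b' * q) • T w = 0 := by
            have : N e = a' • N w + b' • N (T w) := by rw [hab', map_add, map_smul, map_smul]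
            rw [hNe, hNw, hpq] at this
            rw [this]; module
          have e2 : (a * (-l) + b * p - 1) • w + (a + b * q) • T w = 0 := by
            have : N u = a • N w + b • N (T w) := by
              conv_lhs => rw [hab]
              rw [map_add, map_smul, map_smul]
            rw [hu, hNw, hpq] at this
            have h5 : a • (T w - l • w) + b • (p • w + q • T w) - w = 0 := by
              rw [← this, sub_self]
            rw [← h5]; module
          obtain ⟨f1, f2⟩ := hli' _ _ e1
          obtain ⟨f3, f4⟩ := hli' _ _ e2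
          have g1 : b' ≠ 0 := by
            rintro rfl
            rw [zero_mul, add_zero] at f2
            rw [f2, zero_smul, zero_smul, add_zero] at hab'
            exact he0 hab'
          have g2 : p = -(l * q) := by
            have : b' * (l * q + p) = 0 := by linear_combination f1 + l * f2
            rcases mul_eq_zero.1 this with h | h
            · exact absurd h g1
            · linear_combination h
          have : (0 : F) = 1 := by
            linear_combination f3 + l * f4 - b * g2
          exact zero_ne_one this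
        · refine ⟨u + e, by rw [map_add, hNe, add_zero, hu], fun h3 => h2 ?_⟩
          have := Submodule.sub_mem _ h3 h1
          rwa [add_sub_cancel_left] at this
      · exact ⟨u, hu, h1⟩
    left
    refine ⟨u, fun x => ?_⟩
    have htop : LinearMap.range N ⊔ Submodule.span F {u} = ⊤ := by
      apply Submodule.eq_top_of_finrank_eq
      have hlt : LinearMap.range N < LinearMap.range N ⊔ Submodule.span F {u} := by
        refine lt_of_le_of_ne le_sup_left fun h => hu' ?_
        rw [h]
        exact Submodule.mem_sup_right (Submodule.mem_span_singleton_self u)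
      have h1 := Submodule.finrank_lt_finrank_of_lt hlt
      have h2 := Submodule.finrank_le (LinearMap.range N ⊔ Submodule.span F {u})
      omega
    have hx : x ∈ LinearMap.range N ⊔ Submodule.span F {u} := by rw [htop]; exact Submodule.mem_top
    obtain ⟨y, hy, z, hz, rfl⟩ := Submodule.mem_sup.1 hx
    obtain ⟨c, rfl⟩ := Submodule.mem_span_singleton.1 hz
    obtain ⟨a, b, rfl⟩ := hspan y hy
    refine ⟨c - a * l, a - b * l, b, ?_⟩
    have hw' : w = T u - l • u := by rw [← hu, hNx]
    rw [hw', map_sub, map_smul]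
    module

/-- `T = l + (rank one)`. -/
def R1 (l : F) (T : Module.End F V) (f : V →ₗ[F] F) (v : V) : Prop :=
  ∀ x, T x = l • x + f x • v

lemma exists_R1 [FiniteDimensional F V] {T : Module.End F V} {l : F}
    (h : finrank F (LinearMap.range (T - l • (1 : Module.End F V))) ≤ 1) :
    ∃ f v, R1 l T f v := by
  obtain ⟨⟨v, hv⟩, hv'⟩ := finrank_le_one_iff.1 h
  have key : ∀ x, ∃ c : F, c • v = T x - l • x := by
    intro x
    obtain ⟨c, hc⟩ := hv' ⟨T x - l • x, ⟨x, by
      rw [LinearMap.sub_apply, LinearMap.smul_apply, Module.End.one_apply]⟩⟩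
    exact ⟨c, congrArg Subtype.val hc⟩
  by_cases h0 : v = 0
  · refine ⟨0, 0, fun x => ?_⟩
    obtain ⟨c, hc⟩ := key x
    rw [h0, smul_zero] at hc
    rw [LinearMap.zero_apply, zero_smul, add_zero]
    exact (sub_eq_zero.1 hc.symm)
  · choose c hc using key
    have hinj : ∀ a b : F, a • v = b • v → a = b := fun a b hab => smul_left_injective F h0 hab
    refine ⟨⟨⟨c, ?_⟩, ?_⟩, v, fun x => ?_⟩
    · intro x y
      apply hinj
      rw [hc, add_smul, hc, hc, map_add]
      module
    · intro r x
      apply hinj
      simp only [RingHom.id_apply]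
      rw [hc, smul_eq_mul, mul_smul, hc, map_smul]
      module
    · change T x = l • x + c x • v
      rw [hc]; module

lemma R1.braid {l : F} {S T : Module.End F V} {f : V →ₗ[F] F} {v : V} (h : R1 l S f v)
    (hS : IsUnit S) (hT : IsUnit T) (hb : S * T * S = T * S * T) : ∃ g w, R1 l T g w := by
  obtain ⟨U, hU⟩ := (hS.mul hT).exists_left_inv
  obtain ⟨U', hU'⟩ := (hS.mul hT).exists_right_inv
  have hUU : U = U' := by
    calc U = U * ((S * T) * U') := by rw [hU', mul_one]
      _ = (U * (S * T)) * U' := (mul_assoc _ _ _).symm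
      _ = U' := by rw [hU, one_mul]
  have e : T = (S * T) * S * U := by
    calc T = T * ((S * T) * U) := by rw [hUU, hU', mul_one]
      _ = (T * S * T) * U := by simp only [mul_assoc]
      _ = (S * T) * S * U := by rw [← hb]
  refine ⟨f ∘ₗ U, (S * T) v, fun x => ?_⟩
  have h1 : ((S * T) * U) x = x := by rw [hUU, hU', Module.End.one_apply]
  have h2 : T x = (S * T) (S (U x)) := by
    conv_lhs => rw [e]
    rfl
  rw [h2, h (U x), map_add, map_smul, map_smul]
  rw [Module.End.mul_apply] at h1
  rw [h1, LinearMap.comp_apply]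

/-- The dichotomy for commuting elements. -/
lemma R1.dich {l : F} {S T : Module.End F V} {f g : V →ₗ[F] F} {v w : V} (hS : R1 l S f v)
    (hT : R1 l T g w) (hf : f ≠ 0) (hw : w ≠ 0) (hc : S * T = T * S) :
    g v = 0 ∨ ∃ k : F, k ≠ 0 ∧ ∀ x, g x • w = k • (f x • v) := by
  by_cases hgv : g v = 0
  · exact Or.inl hgv
  right
  have h1 : ∀ x, (f w * g x) • v = (g v * f x) • w := by
    intro x
    have h2 := LinearMap.congr_fun hc x
    rw [Module.End.mul_apply, Module.End.mul_apply, hT x, hS x, hS (l • x + g x • w),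
      hT (l • x + f x • v)] at h2
    simp only [map_add, map_smul, smul_eq_mul] at h2
    have h3 : (l • (l • x + g x • w) + (l * f x + g x * f w) • v) -
      (l • (l • x + f x • v) + (l * g x + f x * g v) • w) = 0 := sub_eq_zero.2 h2
    have h4 : (f w * g x) • v - (g v * f x) • w = 0 := by
      rw [← h3]; module
    exact sub_eq_zero.1 h4
  obtain ⟨y, hy⟩ : ∃ y, f y ≠ 0 := by
    by_contra hcon
    push Not at hcon
    exact hf (LinearMap.ext hcon)
  have h5 : w = (f w * g y / (g v * f y)) • v := by
    have h6 := h1 y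
    have h7 : g v * f y ≠ 0 := mul_ne_zero hgv hy
    rw [div_eq_inv_mul, mul_smul, h6, smul_smul, inv_mul_cancel₀ h7, one_smul]
  set c := f w * g y / (g v * f y) with hcdef
  have hc0 : c ≠ 0 := by
    intro h0
    rw [h0, zero_smul] at h5
    exact hw h5
  have hv0 : v ≠ 0 := by
    intro h0
    rw [h0, smul_zero] at h5
    exact hw h5
  have hfw : f w ≠ 0 := by
    intro h0
    apply hc0
    rw [hcdef, h0, zero_mul, zero_div]
  refine ⟨c * (g v * c / f w), ?_, fun x => ?_⟩
  · exact mul_ne_zero hc0 (div_ne_zero (mul_ne_zero hgv hc0) hfw)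
  · have h8 := h1 x
    rw [h5, smul_smul] at h8
    have h9 : f (c • v) * g x = g v * f x * c := smul_left_injective F hv0 h8
    rw [← h5] at h9
    have h10 : g x = g v * c / f w * f x := by
      field_simp
      linear_combination h9
    have h11 : g x • w = (g x * c) • v := by
      conv_lhs => rw [h5]
      rw [smul_smul]
    rw [h11, h10, smul_smul]
    congr 1
    ring

/-- Proportional rank one parts commute with the same elements. -/
lemma R1.comm_of {l : F} {S T X : Module.End F V} {f g : V →ₗ[F] F} {v w : V} (hS : R1 l S f v)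
    (hT : R1 l T g w) {k : F} (hk : ∀ x, g x • w = k • (f x • v)) (hX : X * S = S * X) :
    X * T = T * X := by
  have hT' : T = (l - k * l) • (1 : Module.End F V) + k • S := by
    ext x
    rw [hT x, hk x, LinearMap.add_apply, LinearMap.smul_apply, LinearMap.smul_apply, hS x,
      Module.End.one_apply]
    module
  rw [hT', mul_add, add_mul, mul_smul_comm, mul_smul_comm, smul_mul_assoc, smul_mul_assoc, hX,
    mul_one, one_mul]

lemma R1.comm_of' {l : F} {S T X : Module.End F V} {f g : V →ₗ[F] F} {v w : V} (hS : R1 l S f v)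
    (hT : R1 l T g w) {k : F} (hk0 : k ≠ 0) (hk : ∀ x, g x • w = k • (f x • v))
    (hX : X * T = T * X) : X * S = S * X := by
  refine R1.comm_of hT hS (k := k⁻¹) (fun x => ?_) hX
  rw [hk x, smul_smul, inv_mul_cancel₀ hk0, one_smul]

/-- A braided pair with `g v = 0` consists of equal elements. -/
lemma R1.eq_of {l : F} {S T : Module.End F V} {f g : V →ₗ[F] F} {v w : V} (hS : R1 l S f v)
    (hT : R1 l T g w) (hv : v ≠ 0) (hl : l ≠ 0) (huS : IsUnit S) (huT : IsUnit T)
    (hb : S * T * S = T * S * T) (hgv : g v = 0) : S = T := by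
  have hlf : l + f v ≠ 0 := by
    intro h0
    apply hv
    have h1 : S v = 0 := by rw [hS v, ← add_smul, h0, zero_smul]
    obtain ⟨U, hU⟩ := huS.exists_left_inv
    have h2 : (U * S) v = 0 := by rw [Module.End.mul_apply, h1, map_zero]
    rwa [hU, Module.End.one_apply] at h2
  have key : ∀ x, (l * (l + f v)) • (f x • v) = (l * (l + g w)) • (g x • w) := by
    intro x
    have h1 := LinearMap.congr_fun hb x
    simp only [Module.End.mul_apply, hS x, hT x] at h1
    have e1 : T (l • x + f x • v) = (l * l) • x + (l * f x) • v + (l * g x) • w := by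
      rw [hT, map_add, map_smul, map_smul, hgv, smul_zero, add_zero, smul_eq_mul]
      module
    have e2 : S (l • x + g x • w) = (l * l) • x + (l * g x) • w + (l * f x + g x * f w) • v := by
      rw [hS, map_add, map_smul, map_smul, smul_eq_mul, smul_eq_mul]
      module
    rw [e1, e2, hS, hT] at h1
    simp only [map_add, map_smul, smul_eq_mul, hgv, mul_zero, add_zero] at h1
    have h2 := sub_eq_zero.2 h1
    have h3 : (l * (l + f v)) • (f x • v) - (l * (l + g w)) • (g x • w) = 0 := by
      rw [← h2]; module
    exact sub_eq_zero.1 h3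
  refine eq_of_braid_comm huS huT hb ?_
  have h4 : ∀ x, f x • v = ((l * (l + f v))⁻¹ * (l * (l + g w))) • (g x • w) := by
    intro x
    rw [mul_smul, ← key x, smul_smul, inv_mul_cancel₀ (mul_ne_zero hl hlf), one_smul]
  exact (R1.comm_of hT hS h4 rfl).symm

/-- In dimension at most three, two vectors killed by two independent functionals are
proportional. -/
lemma prop_of_ker [FiniteDimensional F V] (h3 : finrank F V ≤ 3) {f g : V →ₗ[F] F} (hg : g ≠ 0)
    (hfg : ¬ ∃ c : F, f = c • g) {v w : V} (hv : v ≠ 0) (hfv : f v = 0) (hgv : g v = 0)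
    (hfw : f w = 0) (hgw : g w = 0) : ∃ c : F, w = c • v := by
  obtain ⟨z, hz⟩ : ∃ z, g z ≠ 0 := by
    by_contra hcon
    push Not at hcon
    exact hg (LinearMap.ext hcon)
  obtain ⟨y, hy1, hy2⟩ : ∃ y, g y = 0 ∧ f y ≠ 0 := by
    by_contra hcon
    push Not at hcon
    apply hfg
    refine ⟨f z / g z, ?_⟩
    ext x
    have h1 := hcon (x - (g x / g z) • z) (by
      rw [map_sub, map_smul, smul_eq_mul, div_mul_cancel₀ _ hz, sub_self])
    rw [map_sub, map_smul, smul_eq_mul, sub_eq_zero] at h1
    rw [LinearMap.smul_apply, smul_eq_mul, h1]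
    ring
  by_contra hcon
  push Not at hcon
  have hli : LinearIndependent F ![v, w, y, z] := by
    rw [Fintype.linearIndependent_iff]
    intro c hc i
    simp only [Fin.sum_univ_four, Matrix.cons_val_zero, Matrix.cons_val_one, Matrix.cons_val] at hc
    have h1 := congrArg g hc
    simp only [map_add, map_smul, hgv, hgw, hy1, mul_zero, zero_add, smul_eq_mul, map_zero] at h1
    have hc3 : c 3 = 0 := (mul_eq_zero.1 h1).resolve_right hz
    have h2 := congrArg f hc
    simp only [map_add, map_smul, hfv, hfw, mul_zero, zero_add, smul_eq_mul, map_zero, hc3,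
      zero_mul, add_zero] at h2
    have hc2 : c 2 = 0 := (mul_eq_zero.1 h2).resolve_right hy2
    rw [hc2, hc3, zero_smul, zero_smul, add_zero, add_zero] at hc
    have hc1 : c 1 = 0 := by
      by_contra h0
      apply hcon (-(c 1)⁻¹ * c 0)
      have : w = (c 1)⁻¹ • (c 1 • w) := by rw [smul_smul, inv_mul_cancel₀ h0, one_smul]
      rw [this, eq_neg_of_add_eq_zero_right hc]
      module
    have hc0 : c 0 = 0 := by
      rw [hc1, zero_smul, add_zero] at hc
      exact (smul_eq_zero.1 hc).resolve_right hv
    fin_cases i <;> assumption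
  have := hli.fintype_card_le_finrank
  simp only [Fintype.card_fin] at this
  omega

/-- **Five elements with the relations of a chain in dimension at most three are equal.** -/
theorem chain5_eq [IsAlgClosed F] [FiniteDimensional F V] (h3 : finrank F V ≤ 3)
    {T : ℕ → Module.End F V} (h : Chain5 T) : ∀ i, i < 5 → T i = T 0 := by
  rcases subsingleton_or_nontrivial V with hV | hV
  · intro i _
    ext x
    exact Subsingleton.elim _ _
  have hcomm : ∀ i j, i + 2 ≤ j → j < 5 → T j * T i = T i * T j :=
    fun i j h1 h2 => (h.comm i j h1 h2).symm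
  -- commuting neighbours finish the proof
  have fin : ∀ i, i + 1 < 5 → T i * T (i + 1) = T (i + 1) * T i → ∀ i, i < 5 → T i = T 0 :=
    fun i hi hc => h.prop ⟨i, hi, eq_of_braid_comm (h.unit _ (by omega)) (h.unit _ hi)
      (h.braid i hi) hc⟩
  rcases cyc_or_rank h3 (T 0) with ⟨v, hv⟩ | ⟨l, hl⟩
  · exact fin 2 (by omega) (comm_of_cyc (hcomm 0 2 (by omega) (by omega))
      (hcomm 0 3 (by omega) (by omega)) hv)
  have hR : ∀ i, i < 5 → ∃ f v, R1 l (T i) f v := by
    intro i
    induction i with
    | zero => exact fun _ => exists_R1 hl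
    | succ i ih =>
      intro hi
      obtain ⟨f, v, hfv⟩ := ih (by omega)
      exact hfv.braid (h.unit _ (by omega)) (h.unit _ hi) (h.braid i hi)
  choose! f v hfv using hR
  by_cases hl0 : l = 0
  · have hcyc : ∀ x, ∃ a b c : F, x = a • v 0 + b • T 0 (v 0) + c • T 0 (T 0 (v 0)) := by
      intro x
      obtain ⟨U, hU⟩ := (h.unit 0 (by omega)).exists_right_inv
      have h1 : (T 0 * U) x = x := by rw [hU, Module.End.one_apply]
      rw [Module.End.mul_apply, hfv 0 (by omega) (U x), hl0, zero_smul, zero_add] at h1
      exact ⟨f 0 (U x), 0, 0, by rw [zero_smul, zero_smul, add_zero, add_zero, h1]⟩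
    exact fin 2 (by omega) (comm_of_cyc (hcomm 0 2 (by omega) (by omega))
      (hcomm 0 3 (by omega) (by omega)) hcyc)
  -- scalars
  by_cases hsc : ∃ i, i < 5 ∧ ∀ x, f i x • v i = 0
  · obtain ⟨i, hi, hx⟩ := hsc
    have hTi : T i = l • (1 : Module.End F V) := by
      ext x
      rw [hfv i hi x, hx x, add_zero, LinearMap.smul_apply, Module.End.one_apply]
    have hc : ∀ X : Module.End F V, T i * X = X * T i := by
      intro X
      rw [hTi, smul_mul_assoc, mul_smul_comm, one_mul, mul_one]
    by_cases hi4 : i + 1 < 5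
    · exact fin i hi4 (hc _)
    · have : i = 4 := by omega
      subst this
      exact fin 3 (by omega) (hc _).symm
  push Not at hsc
  have hf0 : ∀ i, i < 5 → f i ≠ 0 := by
    intro i hi h0
    obtain ⟨x, hx⟩ := hsc i hi
    apply hx
    rw [h0, LinearMap.zero_apply, zero_smul]
  have hv0 : ∀ i, i < 5 → v i ≠ 0 := by
    intro i hi h0
    obtain ⟨x, hx⟩ := hsc i hi
    apply hx
    rw [h0, smul_zero]
  by_contra hcon
  have D : ∀ i j, i + 2 ≤ j → j < 5 → f j (v i) = 0 ∨
      ∃ k : F, k ≠ 0 ∧ ∀ x, f j x • v j = k • (f i x • v i) := fun i j h1 h2 =>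
    (hfv i (by omega)).dich (hfv j h2) (hf0 i (by omega)) (hv0 j h2) (h.comm i j h1 h2)
  have d02 : f 2 (v 0) = 0 := by
    rcases D 0 2 (by omega) (by omega) with h1 | ⟨k, -, hk⟩
    · exact h1
    · exact absurd (fin 2 (by omega) (R1.comm_of (hfv 0 (by omega)) (hfv 2 (by omega)) hk
        (hcomm 0 3 (by omega) (by omega))).symm) hcon
  have d03 : f 3 (v 0) = 0 := by
    rcases D 0 3 (by omega) (by omega) with h1 | ⟨k, -, hk⟩
    · exact h1
    · exact absurd (fin 2 (by omega) (R1.comm_of (hfv 0 (by omega)) (hfv 3 (by omega)) hk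
        (hcomm 0 2 (by omega) (by omega)))) hcon
  have d04 : f 4 (v 0) = 0 := by
    rcases D 0 4 (by omega) (by omega) with h1 | ⟨k, -, hk⟩
    · exact h1
    · exact absurd (fin 3 (by omega) (R1.comm_of (hfv 0 (by omega)) (hfv 4 (by omega)) hk
        (hcomm 0 3 (by omega) (by omega)))) hcon
  have d13 : f 3 (v 1) = 0 := by
    rcases D 1 3 (by omega) (by omega) with h1 | ⟨k, -, hk⟩
    · exact h1
    · exact absurd (fin 3 (by omega) (R1.comm_of (hfv 1 (by omega)) (hfv 3 (by omega)) hk
        (hcomm 1 4 (by omega) (by omega))).symm) hcon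
  have d14 : f 4 (v 1) = 0 := by
    rcases D 1 4 (by omega) (by omega) with h1 | ⟨k, -, hk⟩
    · exact h1
    · exact absurd (fin 3 (by omega) (R1.comm_of (hfv 1 (by omega)) (hfv 4 (by omega)) hk
        (hcomm 1 3 (by omega) (by omega)))) hcon
  have d24 : f 4 (v 2) = 0 := by
    rcases D 2 4 (by omega) (by omega) with h1 | ⟨k, hk0, hk⟩
    · exact h1
    · exact absurd (fin 1 (by omega) (R1.comm_of' (hfv 2 (by omega)) (hfv 4 (by omega)) hk0 hk
        (h.comm 1 4 (by omega) (by omega)))) hcon
  by_cases hp : ∃ c : F, f 3 = c • f 4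
  · obtain ⟨c, hc⟩ := hp
    have h1 : f 3 (v 2) = 0 := by rw [hc, LinearMap.smul_apply, d24, smul_zero]
    exact hcon (h.prop ⟨2, by omega, R1.eq_of (hfv 2 (by omega)) (hfv 3 (by omega))
      (hv0 2 (by omega)) hl0 (h.unit _ (by omega)) (h.unit _ (by omega)) (h.braid 2 (by omega)) h1⟩)
  · obtain ⟨c, hc⟩ := prop_of_ker h3 (hf0 4 (by omega)) hp (hv0 0 (by omega)) d03 d04 d13 d14
    have h1 : f 2 (v 1) = 0 := by rw [hc, map_smul, d02, smul_zero]
    exact hcon (h.prop ⟨1, by omega, R1.eq_of (hfv 1 (by omega)) (hfv 2 (by omega))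
      (hv0 1 (by omega)) hl0 (h.unit _ (by omega)) (h.unit _ (by omega)) (h.braid 1 (by omega)) h1⟩)

end lin

end Pool.Agent.H.MP_59b15d_al.Lin
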