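import Mathlib

/-!
# Representations of braid type generators by pseudo-reflections

`Gr adj s`: braid relations for adjacent indices, commutation otherwise. If all `x i` are of the form
`w ↦ l w + f_i(w) v_i` and adjacent ones are different, then `f_i(v_j) ≠ 0` for adjacent and `= 0` for non
adjacent `i ≠ j` (`gram`). This is impossible in dimension three for a chain of five and in dimension
five for the eight tree generators of a surface of genus three.
-/

set_option autoImplicit false

namespace Pool.Agent.H.MP_59b15d_al.Lin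

universe u v w

open Module

/-- Braid relations for adjacent indices, commutation for the others. -/
structure Gr {ι : Type*} (adj : ι → ι → Prop) {M : Type*} [Monoid M] (s : ι → M) : Prop where
  /-- braid relation -/
  braid : ∀ i j, adj i j → s i * s j * s i = s j * s i * s j
  /-- commutation -/
  comm : ∀ i j, i ≠ j → ¬ adj i j → s i * s j = s j * s i

theorem Gr.map {ι : Type*} {adj : ι → ι → Prop} {M N : Type*} [Monoid M] [Monoid N] {s : ι → M}
    (h : Gr adj s) (φ : M →* N) : Gr adj (fun i => φ (s i)) := by
  constructor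
  · intro i j hij
    simp only [← map_mul, h.braid i j hij]
  · intro i j hij hn
    simp only [← map_mul, h.comm i j hij hn]

theorem eq_of_braid_comm {M : Type*} [Monoid M] {a b : M} (ha : IsUnit a) (hb : IsUnit b)
    (h1 : a * b * a = b * a * b) (h2 : a * b = b * a) : a = b := by
  rw [h2] at h1
  exact (hb.mul ha).mul_left_cancel h1

/-- Propagation of an equality. -/
theorem Gr.prop {ι : Type*} {adj : ι → ι → Prop} {M : Type*} [Monoid M] {s : ι → M}
    (h : Gr adj s) (hu : ∀ i, IsUnit (s i)) {i j k : ι} (hij : s i = s j) (hjk : adj j k)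
    (hik : i ≠ k) (hn : ¬ adj i k) : s j = s k := by
  have h1 := h.comm i k hik hn
  rw [hij] at h1
  exact eq_of_braid_comm (hu j) (hu k) (h.braid j k hjk) h1

/-- Adjacent generators are conjugate. -/
theorem Gr.conj {ι : Type*} {adj : ι → ι → Prop} {G : Type*} [Group G] {s : ι → G}
    (h : Gr adj s) {i j : ι} (hij : adj i j) : IsConj (s i) (s j) := by
  rw [isConj_iff]
  refine ⟨s i * s j, ?_⟩
  have := h.braid i j hij
  rw [mul_inv_eq_iff_eq_mul, this]
  group

section

variable {F : Type u} [Field F] {W : Type v} [AddCommGroup W] [Module F W]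

/-- A linear map whose eigenspace has codimension one. -/
theorem exists_rank_one [FiniteDimensional F W] (T : Module.End F W) (l : F)
    (h : finrank F (T.eigenspace l) + 1 = finrank F W) :
    ∃ (v : W) (f : W →ₗ[F] F), v ≠ 0 ∧ (∃ w, f w ≠ 0) ∧ ∀ w, T w = l • w + f w • v := by
  set N : Module.End F W := T - algebraMap F (Module.End F W) l with hN
  have hNw : ∀ w, N w = T w - l • w := by
    intro w
    rw [hN, LinearMap.sub_apply, Module.algebraMap_end_apply]
  have hker : LinearMap.ker N = T.eigenspace l := by
    ext w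
    rw [LinearMap.mem_ker, hNw, Module.End.mem_eigenspace_iff, sub_eq_zero]
  have hr : finrank F (LinearMap.range N) = 1 := by
    have h1 := LinearMap.finrank_range_add_finrank_ker N
    rw [hker] at h1
    omega
  obtain ⟨⟨v, hvr⟩, hv0, hv⟩ := finrank_eq_one_iff'.1 hr
  have hv0' : v ≠ 0 := by
    intro h0
    apply hv0
    exact Subtype.ext h0
  have hmem : ∀ w, N w ∈ Submodule.span F {v} := by
    intro w
    obtain ⟨c, hc⟩ := hv ⟨N w, LinearMap.mem_range_self N w⟩
    rw [Submodule.mem_span_singleton]
    exact ⟨c, congrArg Subtype.val hc⟩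
  let f : W →ₗ[F] F := ((LinearEquiv.toSpanNonzeroSingleton F W v hv0').symm : _ →ₗ[F] F) ∘ₗ
    (N.codRestrict (Submodule.span F {v}) hmem)
  have hf : ∀ w, f w • v = N w := by
    intro w
    have h1 : LinearEquiv.toSpanNonzeroSingleton F W v hv0' (f w) = ⟨N w, hmem w⟩ := by
      simp only [f, LinearMap.comp_apply, LinearEquiv.coe_coe, LinearEquiv.apply_symm_apply]
      rfl
    have h2 := congrArg Subtype.val h1
    rw [LinearEquiv.toSpanNonzeroSingleton_apply] at h2
    exact h2
  refine ⟨v, f, hv0', ?_, ?_⟩
  · obtain ⟨w, hw⟩ := hvr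
    refine ⟨w, ?_⟩
    intro h0
    apply hv0'
    rw [← hw, ← hf w, h0, zero_smul]
  · intro w
    rw [hf, hNw]
    abel

/-- The Gram matrix of a family of pseudo-reflections with braid relations. -/
theorem gram {ι : Type*} {adj : ι → ι → Prop} {x : ι → Module.End F W} {l τ : F} {v : ι → W}
    {f : ι → W →ₗ[F] F} (hx : ∀ i w, x i w = l • w + f i w • v i) (hv : ∀ i, v i ≠ 0)
    (hf : ∀ i, ∃ w, f i w ≠ 0) (hτ : ∀ i, f i (v i) = τ) (hl : l ≠ 0) (hG : Gr adj x)
    (hu : ∀ i, IsUnit (x i)) (hD : ∀ i j, adj i j → x i ≠ x j)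
    (hP : ∀ i j, i ≠ j → ¬ adj i j →
      ∃ k, (adj i k ∧ k ≠ j ∧ ¬ adj j k) ∨ (adj j k ∧ k ≠ i ∧ ¬ adj i k)) :
    (∀ i j, adj i j → f i (v j) ≠ 0 ∧ f j (v i) ≠ 0) ∧
      ∀ i j, i ≠ j → ¬ adj i j → f i (v j) = 0 := by
  constructor
  · intro i j hij
    -- `l + τ ≠ 0`
    have hlτ : l + τ ≠ 0 := by
      intro h0
      have h1 : x i (v i) = 0 := by
        rw [hx, hτ, ← add_smul, h0, zero_smul]
      obtain ⟨y, hy⟩ := (hu i).exists_left_inv
      have h2 : y (x i (v i)) = v i := by
        have := congrArg (fun z : Module.End F W => z (v i)) hy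
        simpa using this
      rw [h1, map_zero] at h2
      exact hv i h2.symm
    have key : ∀ w, (l ^ 2 + l * τ + f i (v j) * f j (v i)) • (f i w • v i - f j w • v j) = 0 := by
      intro w
      have h1 := congrArg (fun z : Module.End F W => z w) (hG.braid i j hij)
      simp only [Module.End.mul_apply, hx, map_add, map_smul, smul_eq_mul, hτ] at h1
      linear_combination (norm := module) h1
    by_cases hc : l ^ 2 + l * τ + f i (v j) * f j (v i) = 0
    · have h1 : f i (v j) * f j (v i) ≠ 0 := by
        intro h0
        rw [h0] at hc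
        have h2 : l * (l + τ) = 0 := by linear_combination hc
        rcases mul_eq_zero.1 h2 with h3 | h3
        · exact hl h3
        · exact hlτ h3
      exact ⟨left_ne_zero_of_mul h1, right_ne_zero_of_mul h1⟩
    · exfalso
      apply hD i j hij
      refine LinearMap.ext fun w => ?_
      have h1 := (smul_eq_zero.1 (key w)).resolve_left hc
      rw [hx, hx, sub_eq_zero.1 h1]
  · intro i j hij hn
    by_contra h0
    have key : ∀ w, f j w • f i (v j) • v i = f i w • f j (v i) • v j := by
      intro w
      have h1 := congrArg (fun z : Module.End F W => z w) (hG.comm i j hij hn)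
      simp only [Module.End.mul_apply, hx, map_add, map_smul, smul_eq_mul] at h1
      linear_combination (norm := module) h1
    obtain ⟨w0, hw0⟩ := hf j
    -- `v i` is a multiple of `v j`
    obtain ⟨c, hc⟩ : ∃ c : F, v i = c • v j := by
      refine ⟨(f j w0 * f i (v j))⁻¹ * (f i w0 * f j (v i)), ?_⟩
      have h1 := key w0
      rw [smul_smul, smul_smul] at h1
      rw [mul_smul, ← h1, smul_smul, inv_mul_cancel₀ (mul_ne_zero hw0 h0), one_smul]
    have hc0 : c ≠ 0 := by
      intro h1
      rw [h1, zero_smul] at hc
      exact hv i hc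
    have hvj : v j = c⁻¹ • v i := by
      rw [hc, smul_smul, inv_mul_cancel₀ hc0, one_smul]
    have e1 : f i (v j) = c⁻¹ * τ := by rw [hvj, map_smul, hτ, smul_eq_mul]
    have e2 : f j (v i) = c * τ := by rw [hc, map_smul, hτ, smul_eq_mul]
    have hτ0 : τ ≠ 0 := by
      intro h1
      rw [e1, h1, mul_zero] at h0
      exact h0 rfl
    have hfj : ∀ w, f j w = c * f i w := by
      intro w
      have h1 := key w
      rw [e1, e2, hc, smul_smul, smul_smul, smul_smul, ← sub_eq_zero, ← sub_smul] at h1
      have h2 := (smul_eq_zero.1 h1).resolve_right (hv j)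
      have h3 : τ * (f j w - c * f i w) = 0 := by
        field_simp at h2
        linear_combination h2
      exact sub_eq_zero.1 ((mul_eq_zero.1 h3).resolve_left hτ0)
    have hxij : x i = x j := by
      refine LinearMap.ext fun w => ?_
      rw [hx, hx, hfj, hc, smul_smul, mul_comm c]
    obtain ⟨k, ⟨hk1, hk2, hk3⟩ | ⟨hk1, hk2, hk3⟩⟩ := hP i j hij hn
    · have h5 := hG.comm j k hk2.symm hk3
      rw [← hxij] at h5
      exact hD i k hk1 (eq_of_braid_comm (hu i) (hu k) (hG.braid i k hk1) h5)
    · have h5 := hG.comm i k hk2.symm hk3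
      rw [hxij] at h5
      exact hD j k hk1 (eq_of_braid_comm (hu j) (hu k) (hG.braid j k hk1) h5)

/-- Expansion in an orthogonal family of the right size. -/
theorem expand_orth [FiniteDimensional F W] {κ : Type*} [Fintype κ] [DecidableEq κ] {τ : F}
    {p : κ → W} {φ : κ → W →ₗ[F] F} (h : ∀ i j, φ i (p j) = if i = j then τ else 0) (hτ : τ ≠ 0)
    (hcard : finrank F W ≤ Fintype.card κ) (w : W) : τ • w = ∑ i, φ i w • p i := by
  have hli : LinearIndependent F p := by
    rw [Fintype.linearIndependent_iff]
    intro c hc i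
    have h1 := congrArg (φ i) hc
    rw [map_sum, map_zero] at h1
    simp only [map_smul, h, smul_eq_mul, mul_ite, mul_zero, Finset.sum_ite_eq,
      Finset.mem_univ, if_true] at h1
    exact (mul_eq_zero.1 h1).resolve_right hτ
  have hspan : Submodule.span F (Set.range p) = ⊤ :=
    hli.span_eq_top_of_card_eq_finrank' (le_antisymm hli.fintype_card_le_finrank hcard)
  have hw : w ∈ Submodule.span F (Set.range p) := by
    rw [hspan]
    exact Submodule.mem_top
  obtain ⟨c, hc⟩ := (Submodule.mem_span_range_iff_exists_fun F).1 hw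
  have h2 : ∀ i, φ i w = c i * τ := by
    intro i
    rw [← hc, map_sum]
    simp only [map_smul, h, smul_eq_mul, mul_ite, mul_zero, Finset.sum_ite_eq,
      Finset.mem_univ, if_true]
  simp only [h2]
  rw [← hc, Finset.smul_sum]
  refine Finset.sum_congr rfl fun i _ => ?_
  rw [smul_smul, mul_comm]

/-- Adjacency of the chain of five. -/
def c5 (i j : Fin 5) : Prop := (i : ℕ) + 1 = j ∨ (j : ℕ) + 1 = i

instance : DecidableRel c5 := fun i j => by unfold c5; infer_instance

/-- Adjacency of the tree of genus three: the chain 0, 1, ..., 6 and the edge 3, 7. -/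
def e7 (i j : Fin 8) : Prop :=
  ((i : ℕ) + 1 = j ∧ (j : ℕ) ≤ 6) ∨ ((j : ℕ) + 1 = i ∧ (i : ℕ) ≤ 6) ∨ (i = 3 ∧ j = 7) ∨ (i = 7 ∧ j = 3)

instance : DecidableRel e7 := fun i j => by unfold e7; infer_instance

/-- No pseudo-reflections for the chain of five in dimension three. -/
theorem no_rank_one_c5 [FiniteDimensional F W] (hW : finrank F W ≤ 3)
    {x : Fin 5 → Module.End F W} {l τ : F} {v : Fin 5 → W}
    {f : Fin 5 → W →ₗ[F] F} (hx : ∀ i w, x i w = l • w + f i w • v i) (hv : ∀ i, v i ≠ 0)
    (hf : ∀ i, ∃ w, f i w ≠ 0) (hτ : ∀ i, f i (v i) = τ) (hl : l ≠ 0) (hG : Gr c5 x)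
    (hu : ∀ i, IsUnit (x i)) (hD : ∀ i j, c5 i j → x i ≠ x j) : False := by
  obtain ⟨hE, hN⟩ := gram hx hv hf hτ hl hG hu hD (by decide)
  by_cases h0 : τ = 0
  · have hli : LinearIndependent F (fun k : Fin 4 => v ⟨k, by omega⟩) := by
      rw [Fintype.linearIndependent_iff]
      intro c hc
      rw [Fin.sum_univ_four] at hc
      change c 0 • v 0 + c 1 • v 1 + c 2 • v 2 + c 3 • v 3 = 0 at hc
      have t : ∀ i, f i (v i) = 0 := fun i => by rw [hτ, h0]
      have c1 : c 1 = 0 := by
        have h1 := congrArg (f 0) hc
        simp only [map_add, map_smul, smul_eq_mul, map_zero, t, hN 0 2 (by decide) (by decide),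
          hN 0 3 (by decide) (by decide), mul_zero, add_zero, zero_add] at h1
        exact (mul_eq_zero.1 h1).resolve_right (hE 0 1 (by decide)).1
      have c3 : c 3 = 0 := by
        have h1 := congrArg (f 2) hc
        simp only [map_add, map_smul, smul_eq_mul, map_zero, t, hN 2 0 (by decide) (by decide),
          c1, mul_zero, zero_mul, add_zero, zero_add] at h1
        exact (mul_eq_zero.1 h1).resolve_right (hE 2 3 (by decide)).1
      have c2 : c 2 = 0 := by
        have h1 := congrArg (f 3) hc
        simp only [map_add, map_smul, smul_eq_mul, map_zero, t, hN 3 0 (by decide) (by decide),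
          c1, c3, mul_zero, zero_mul, add_zero, zero_add] at h1
        exact (mul_eq_zero.1 h1).resolve_right (hE 3 2 (by decide)).1
      have c0 : c 0 = 0 := by
        have h1 := congrArg (f 1) hc
        simp only [map_add, map_smul, smul_eq_mul, map_zero, t,
          c1, c2, c3, mul_zero, zero_mul, add_zero] at h1
        exact (mul_eq_zero.1 h1).resolve_right (hE 1 0 (by decide)).1
      intro i
      fin_cases i <;> assumption
    have h1 := hli.fintype_card_le_finrank
    rw [Fintype.card_fin] at h1
    omega
  · have h1 := expand_orth (F := F) (κ := Fin 3) (τ := τ)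
      (p := fun k => v ⟨2 * k, by omega⟩) (φ := fun k => f ⟨2 * k, by omega⟩) (by
        intro i j
        by_cases hij : i = j
        · rw [if_pos hij, hij]
          exact hτ _
        · rw [if_neg hij]
          apply hN
          · intro hc
            apply hij
            have := congrArg Fin.val hc
            simp only at this
            exact Fin.ext (by omega)
          · unfold c5
            simp only
            omega) h0 (by rw [Fintype.card_fin]; exact hW) (v 3)
    have h2 := congrArg (f 1) h1
    rw [Fin.sum_univ_three] at h2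
    change f 1 (τ • v 3) = f 1 (f 0 (v 3) • v 0 + f 2 (v 3) • v 2 + f 4 (v 3) • v 4) at h2
    rw [map_smul, map_add, map_add, map_smul, map_smul, map_smul, hN 1 3 (by decide) (by decide),
      hN 0 3 (by decide) (by decide), hN 1 4 (by decide) (by decide)] at h2
    simp only [smul_eq_mul, mul_zero, zero_mul, zero_add, add_zero] at h2
    rcases mul_eq_zero.1 h2.symm with h3 | h3
    · exact (hE 2 3 (by decide)).1 h3
    · exact (hE 1 2 (by decide)).1 h3

/-- No pseudo-reflections for the tree of genus three in dimension five. -/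
theorem no_rank_one_e7 [FiniteDimensional F W] (hW : finrank F W ≤ 5)
    {x : Fin 8 → Module.End F W} {l τ : F} {v : Fin 8 → W}
    {f : Fin 8 → W →ₗ[F] F} (hx : ∀ i w, x i w = l • w + f i w • v i) (hv : ∀ i, v i ≠ 0)
    (hf : ∀ i, ∃ w, f i w ≠ 0) (hτ : ∀ i, f i (v i) = τ) (hl : l ≠ 0) (hG : Gr e7 x)
    (hu : ∀ i, IsUnit (x i)) (hD : ∀ i j, e7 i j → x i ≠ x j) : False := by
  obtain ⟨hE, hN⟩ := gram hx hv hf hτ hl hG hu hD (by decide)
  by_cases h0 : τ = 0
  · have hli : LinearIndependent F (fun k : Fin 6 => v ⟨k, by omega⟩) := by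
      rw [Fintype.linearIndependent_iff]
      intro c hc
      rw [Fin.sum_univ_six] at hc
      change c 0 • v 0 + c 1 • v 1 + c 2 • v 2 + c 3 • v 3 + c 4 • v 4 + c 5 • v 5 = 0 at hc
      have t : ∀ i, f i (v i) = 0 := fun i => by rw [hτ, h0]
      have c1 : c 1 = 0 := by
        have h1 := congrArg (f 0) hc
        simp only [map_add, map_smul, smul_eq_mul, map_zero, t, hN 0 2 (by decide) (by decide),
          hN 0 3 (by decide) (by decide), hN 0 4 (by decide) (by decide),
          hN 0 5 (by decide) (by decide), mul_zero, add_zero, zero_add] at h1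
        exact (mul_eq_zero.1 h1).resolve_right (hE 0 1 (by decide)).1
      have c3 : c 3 = 0 := by
        have h1 := congrArg (f 2) hc
        simp only [map_add, map_smul, smul_eq_mul, map_zero, t, hN 2 0 (by decide) (by decide),
          hN 2 4 (by decide) (by decide), hN 2 5 (by decide) (by decide),
          c1, mul_zero, zero_mul, add_zero, zero_add] at h1
        exact (mul_eq_zero.1 h1).resolve_right (hE 2 3 (by decide)).1
      have c5' : c 5 = 0 := by
        have h1 := congrArg (f 4) hc
        simp only [map_add, map_smul, smul_eq_mul, map_zero, t, hN 4 0 (by decide) (by decide),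
          hN 4 2 (by decide) (by decide), c1, c3, mul_zero, zero_mul, add_zero, zero_add] at h1
        exact (mul_eq_zero.1 h1).resolve_right (hE 4 5 (by decide)).1
      have c4 : c 4 = 0 := by
        have h1 := congrArg (f 5) hc
        simp only [map_add, map_smul, smul_eq_mul, map_zero, t, hN 5 0 (by decide) (by decide),
          hN 5 2 (by decide) (by decide), c1, c3, c5', mul_zero, zero_mul, add_zero,
          zero_add] at h1
        exact (mul_eq_zero.1 h1).resolve_right (hE 5 4 (by decide)).1
      have c2 : c 2 = 0 := by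
        have h1 := congrArg (f 3) hc
        simp only [map_add, map_smul, smul_eq_mul, map_zero, t, hN 3 0 (by decide) (by decide),
          c1, c3, c4, c5', mul_zero, zero_mul, add_zero, zero_add] at h1
        exact (mul_eq_zero.1 h1).resolve_right (hE 3 2 (by decide)).1
      have c0 : c 0 = 0 := by
        have h1 := congrArg (f 1) hc
        simp only [map_add, map_smul, smul_eq_mul, map_zero, t,
          c1, c2, c3, c4, c5', mul_zero, zero_mul, add_zero] at h1
        exact (mul_eq_zero.1 h1).resolve_right (hE 1 0 (by decide)).1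
      intro i
      fin_cases i <;> assumption
    have h1 := hli.fintype_card_le_finrank
    rw [Fintype.card_fin] at h1
    omega
  · let q : Fin 5 → Fin 8 := ![0, 2, 4, 6, 7]
    have hq : ∀ i j : Fin 5, i ≠ j → q i ≠ q j ∧ ¬ e7 (q i) (q j) := by decide
    have h1 := expand_orth (F := F) (κ := Fin 5) (τ := τ)
      (p := fun k => v (q k)) (φ := fun k => f (q k)) (by
        intro i j
        by_cases hij : i = j
        · rw [if_pos hij, hij]
          exact hτ _
        · rw [if_neg hij]
          exact hN _ _ (hq i j hij).1 (hq i j hij).2) h0 (by rw [Fintype.card_fin]; exact hW) (v 3)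
    have h2 := congrArg (f 1) h1
    rw [Fin.sum_univ_five] at h2
    change f 1 (τ • v 3) = f 1 (f 0 (v 3) • v 0 + f 2 (v 3) • v 2 + f 4 (v 3) • v 4 +
      f 6 (v 3) • v 6 + f 7 (v 3) • v 7) at h2
    simp only [map_smul, map_add, smul_eq_mul, hN 1 3 (by decide) (by decide),
      hN 0 3 (by decide) (by decide), hN 1 4 (by decide) (by decide),
      hN 1 6 (by decide) (by decide), hN 1 7 (by decide) (by decide),
      mul_zero, zero_mul, zero_add, add_zero] at h2
    rcases mul_eq_zero.1 h2.symm with h3 | h3
    · exact (hE 2 3 (by decide)).1 h3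
    · exact (hE 1 2 (by decide)).1 h3

end

end Pool.Agent.H.MP_59b15d_al.Lin
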