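import Pool.Agent.H.MP_59b15d_al.lin.Count
import Pool.Agent.H.MP_59b15d_al.lin.Rk

/-!
# Representations of dimension less than six of the tree group of genus three are trivial
-/

set_option autoImplicit false

namespace Pool.Agent.H.MP_59b15d_al.Lin

universe u v w

open Module

/-! ## The two graphs -/

theorem c5_all {M : Type*} [Monoid M] {x : Fin 5 → M} (h : Gr c5 x) (hu : ∀ i, IsUnit (x i))
    {i j : Fin 5} (hij : c5 i j) (he : x i = x j) : ∀ k l, x k = x l := by
  have h1 : x 0 = x 1 ∨ x 1 = x 2 ∨ x 2 = x 3 ∨ x 3 = x 4 := by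
    fin_cases i <;> fin_cases j <;>
      first
      | exact absurd hij (by decide)
      | exact Or.inl he
      | exact Or.inl he.symm
      | exact Or.inr (Or.inl he)
      | exact Or.inr (Or.inl he.symm)
      | exact Or.inr (Or.inr (Or.inl he))
      | exact Or.inr (Or.inr (Or.inl he.symm))
      | exact Or.inr (Or.inr (Or.inr he))
      | exact Or.inr (Or.inr (Or.inr he.symm))
  have h12 : x 1 = x 2 := by
    rcases h1 with h1 | h1 | h1 | h1
    · exact h.prop hu h1 (by decide) (by decide) (by decide)
    · exact h1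
    · exact (h.prop hu h1.symm (by decide) (by decide) (by decide)).symm
    · have h2 := h.prop hu h1.symm (k := 2) (by decide) (by decide) (by decide)
      exact (h.prop hu h2 (by decide) (by decide) (by decide)).symm
  have h01 : x 1 = x 0 := h.prop hu h12.symm (by decide) (by decide) (by decide)
  have h23 : x 2 = x 3 := h.prop hu h12 (by decide) (by decide) (by decide)
  have h34 : x 3 = x 4 := h.prop hu h23 (by decide) (by decide) (by decide)
  have key : ∀ k, x k = x 0 := by
    intro k
    fin_cases k
    · rfl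
    · exact h01
    · exact h12.symm.trans h01
    · exact h23.symm.trans (h12.symm.trans h01)
    · exact h34.symm.trans (h23.symm.trans (h12.symm.trans h01))
  intro k l
  rw [key k, key l]

theorem e7_all {M : Type*} [Monoid M] {x : Fin 8 → M} (h : Gr e7 x) (hu : ∀ i, IsUnit (x i))
    {i j : Fin 8} (hij : e7 i j) (he : x i = x j) : ∀ k l, x k = x l := by
  have h1 : x 0 = x 1 ∨ x 1 = x 2 ∨ x 2 = x 3 ∨ x 3 = x 4 ∨ x 4 = x 5 ∨ x 5 = x 6 ∨ x 3 = x 7 := by
    fin_cases i <;> fin_cases j <;>
      first
      | exact absurd hij (by decide)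
      | exact Or.inl he
      | exact Or.inl he.symm
      | exact Or.inr (Or.inl he)
      | exact Or.inr (Or.inl he.symm)
      | exact Or.inr (Or.inr (Or.inl he))
      | exact Or.inr (Or.inr (Or.inl he.symm))
      | exact Or.inr (Or.inr (Or.inr (Or.inl he)))
      | exact Or.inr (Or.inr (Or.inr (Or.inl he.symm)))
      | exact Or.inr (Or.inr (Or.inr (Or.inr (Or.inl he))))
      | exact Or.inr (Or.inr (Or.inr (Or.inr (Or.inl he.symm))))
      | exact Or.inr (Or.inr (Or.inr (Or.inr (Or.inr (Or.inl he)))))
      | exact Or.inr (Or.inr (Or.inr (Or.inr (Or.inr (Or.inl he.symm)))))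
      | exact Or.inr (Or.inr (Or.inr (Or.inr (Or.inr (Or.inr he)))))
      | exact Or.inr (Or.inr (Or.inr (Or.inr (Or.inr (Or.inr he.symm)))))
  have h34 : x 3 = x 4 := by
    rcases h1 with h1 | h1 | h1 | h1 | h1 | h1 | h1
    · have h2 := h.prop hu h1 (k := 2) (by decide) (by decide) (by decide)
      have h3 := h.prop hu h2 (k := 3) (by decide) (by decide) (by decide)
      exact h.prop hu h3 (by decide) (by decide) (by decide)
    · have h3 := h.prop hu h1 (k := 3) (by decide) (by decide) (by decide)
      exact h.prop hu h3 (by decide) (by decide) (by decide)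
    · exact h.prop hu h1 (by decide) (by decide) (by decide)
    · exact h1
    · exact (h.prop hu h1.symm (by decide) (by decide) (by decide)).symm
    · have h2 := h.prop hu h1.symm (k := 4) (by decide) (by decide) (by decide)
      exact (h.prop hu h2 (by decide) (by decide) (by decide)).symm
    · exact h.prop hu h1.symm (by decide) (by decide) (by decide)
  have h45 : x 4 = x 5 := h.prop hu h34 (by decide) (by decide) (by decide)
  have h56 : x 5 = x 6 := h.prop hu h45 (by decide) (by decide) (by decide)
  have h37 : x 3 = x 7 := h.prop hu h34.symm (by decide) (by decide) (by decide)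
  have h32 : x 3 = x 2 := h.prop hu h34.symm (by decide) (by decide) (by decide)
  have h21 : x 2 = x 1 := h.prop hu h32 (by decide) (by decide) (by decide)
  have h10 : x 1 = x 0 := h.prop hu h21 (by decide) (by decide) (by decide)
  have key : ∀ k, x k = x 3 := by
    intro k
    fin_cases k
    · exact (h32.trans (h21.trans h10)).symm
    · exact (h32.trans h21).symm
    · exact h32.symm
    · rfl
    · exact h34.symm
    · exact (h34.trans h45).symm
    · exact (h34.trans (h45.trans h56)).symm
    · exact h37.symm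
  intro k l
  rw [key k, key l]

theorem c5_conj {G : Type*} [Group G] {s : Fin 5 → G} (h : Gr c5 s) : ∀ i, IsConj (s 0) (s i) := by
  have h01 : IsConj (s 0) (s 1) := h.conj (by decide)
  have h12 : IsConj (s 1) (s 2) := h.conj (by decide)
  have h23 : IsConj (s 2) (s 3) := h.conj (by decide)
  have h34 : IsConj (s 3) (s 4) := h.conj (by decide)
  intro i
  fin_cases i
  · exact IsConj.refl _
  · exact h01
  · exact h01.trans h12
  · exact (h01.trans h12).trans h23
  · exact ((h01.trans h12).trans h23).trans h34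

theorem e7_conj {G : Type*} [Group G] {s : Fin 8 → G} (h : Gr e7 s) : ∀ i, IsConj (s 0) (s i) := by
  have h01 : IsConj (s 0) (s 1) := h.conj (by decide)
  have h12 : IsConj (s 1) (s 2) := h.conj (by decide)
  have h23 : IsConj (s 2) (s 3) := h.conj (by decide)
  have h34 : IsConj (s 3) (s 4) := h.conj (by decide)
  have h45 : IsConj (s 4) (s 5) := h.conj (by decide)
  have h56 : IsConj (s 5) (s 6) := h.conj (by decide)
  have h37 : IsConj (s 3) (s 7) := h.conj (by decide)
  have h03 := (h01.trans h12).trans h23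
  intro i
  fin_cases i
  · exact IsConj.refl _
  · exact h01
  · exact h01.trans h12
  · exact h03
  · exact h03.trans h34
  · exact (h03.trans h34).trans h45
  · exact ((h03.trans h34).trans h45).trans h56
  · exact h03.trans h37

section

variable {F : Type u} [Field F] {W : Type v} [AddCommGroup W] [Module F W] {G : Type w} [Group G]

theorem rep_inv (σ : G →* Module.End F W) (g : G) (w : W) : σ g (σ g⁻¹ w) = w := by
  rw [← Module.End.mul_apply, ← map_mul, mul_inv_cancel, map_one, Module.End.one_apply]

theorem rep_inv' (σ : G →* Module.End F W) (g : G) (w : W) : σ g⁻¹ (σ g w) = w := by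
  rw [← Module.End.mul_apply, ← map_mul, inv_mul_cancel, map_one, Module.End.one_apply]

theorem rep_unit (σ : G →* Module.End F W) (g : G) : IsUnit (σ g) := (Group.isUnit g).map σ

/-- Three elements that act in the same way on a subspace and on the quotient. -/
theorem unip (σ : G →* Module.End F W) (L : Submodule F W) {a b c : G}
    (h1 : a * b * a = b * a * b) (h2 : a * c = c * a) (h3 : b * c = c * b)
    (hLc : ∀ w ∈ L, σ c w ∈ L) (hLc' : ∀ w ∈ L, σ c⁻¹ w ∈ L)
    (ha : ∀ w, σ a w - σ c w ∈ L) (hb : ∀ w, σ b w - σ c w ∈ L)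
    (ha' : ∀ w ∈ L, σ a w = σ c w) (hb' : ∀ w ∈ L, σ b w = σ c w) : σ a = σ b := by
  -- `r = a c^-1`
  have hr : ∀ w, σ (a * c⁻¹) w - w ∈ L := by
    intro w
    have h := ha (σ c⁻¹ w)
    rw [rep_inv] at h
    rw [map_mul, Module.End.mul_apply]
    exact h
  have hr' : ∀ w ∈ L, σ (a * c⁻¹) w = w := by
    intro w hw
    rw [map_mul, Module.End.mul_apply, ha' _ (hLc' w hw), rep_inv]
  have hs : ∀ w, σ (b * c⁻¹) w - w ∈ L := by
    intro w
    have h := hb (σ c⁻¹ w)
    rw [rep_inv] at h
    rw [map_mul, Module.End.mul_apply]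
    exact h
  have hs' : ∀ w ∈ L, σ (b * c⁻¹) w = w := by
    intro w hw
    rw [map_mul, Module.End.mul_apply, hb' _ (hLc' w hw), rep_inv]
  -- `p = a c^-1 b c^-1`
  have hp : ∀ w, σ (a * c⁻¹ * (b * c⁻¹)) w - w ∈ L := by
    intro w
    rw [map_mul, Module.End.mul_apply]
    have h := L.add_mem (hr (σ (b * c⁻¹) w)) (hs w)
    rwa [sub_add_sub_cancel] at h
  have hp' : ∀ w ∈ L, σ (a * c⁻¹ * (b * c⁻¹)) w = w := by
    intro w hw
    rw [map_mul, Module.End.mul_apply, hs' w hw, hr' w hw]
  -- they commute
  have hcomm : σ ((a * c⁻¹ * (b * c⁻¹)) * (a * c⁻¹)) = σ ((a * c⁻¹) * (a * c⁻¹ * (b * c⁻¹))) := by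
    refine LinearMap.ext fun w => ?_
    generalize a * c⁻¹ * (b * c⁻¹) = p at hp hp'
    generalize a * c⁻¹ = r at hr hr'
    rw [map_mul, map_mul, Module.End.mul_apply, Module.End.mul_apply]
    have e1 : σ p (σ r w) = σ p w + (σ r w - w) := by
      have h := hp' _ (hr w)
      rw [map_sub] at h
      rw [← sub_eq_iff_eq_add']
      exact h
    have e2 : σ r (σ p w) = σ r w + (σ p w - w) := by
      have h := hr' _ (hp w)
      rw [map_sub] at h
      rw [← sub_eq_iff_eq_add']
      exact h
    rw [e1, e2]
    abel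
  -- the commutator identity
  have hid : (a * c⁻¹ * (b * c⁻¹)) * (a * c⁻¹) = (b * a⁻¹) * ((a * c⁻¹) * (a * c⁻¹ * (b * c⁻¹))) := by
    have c1 : c⁻¹ * a = a * c⁻¹ := by
      rw [inv_mul_eq_iff_eq_mul, ← mul_assoc, ← h2, mul_assoc, mul_inv_cancel, mul_one]
    have c2 : c⁻¹ * b = b * c⁻¹ := by
      rw [inv_mul_eq_iff_eq_mul, ← mul_assoc, ← h3, mul_assoc, mul_inv_cancel, mul_one]
    have l1 : (a * c⁻¹ * (b * c⁻¹)) * (a * c⁻¹) = (a * b * a) * (c⁻¹ * c⁻¹ * c⁻¹) := by
      calc (a * c⁻¹ * (b * c⁻¹)) * (a * c⁻¹) = a * (c⁻¹ * b) * (c⁻¹ * a) * c⁻¹ := by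
            simp only [mul_assoc]
        _ = a * (b * c⁻¹) * (a * c⁻¹) * c⁻¹ := by rw [c1, c2]
        _ = a * b * (c⁻¹ * a) * c⁻¹ * c⁻¹ := by simp only [mul_assoc]
        _ = a * b * (a * c⁻¹) * c⁻¹ * c⁻¹ := by rw [c1]
        _ = (a * b * a) * (c⁻¹ * c⁻¹ * c⁻¹) := by simp only [mul_assoc]
    have l2 : (b * a⁻¹) * ((a * c⁻¹) * (a * c⁻¹ * (b * c⁻¹))) =
        (b * a * b) * (c⁻¹ * c⁻¹ * c⁻¹) := by
      calc (b * a⁻¹) * ((a * c⁻¹) * (a * c⁻¹ * (b * c⁻¹)))
          = b * (c⁻¹ * a) * (c⁻¹ * b) * c⁻¹ := by group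
        _ = b * (a * c⁻¹) * (b * c⁻¹) * c⁻¹ := by rw [c1, c2]
        _ = b * a * (c⁻¹ * b) * c⁻¹ * c⁻¹ := by simp only [mul_assoc]
        _ = b * a * (b * c⁻¹) * c⁻¹ * c⁻¹ := by rw [c2]
        _ = (b * a * b) * (c⁻¹ * c⁻¹ * c⁻¹) := by simp only [mul_assoc]
    rw [l1, l2, h1]
  rw [hid, map_mul] at hcomm
  have h5 : σ (b * a⁻¹) = 1 := by
    have hu := rep_unit σ ((a * c⁻¹) * (a * c⁻¹ * (b * c⁻¹)))
    exact hu.mul_right_cancel (by rw [hcomm, one_mul])
  have h6 : σ b = σ (b * a⁻¹) * σ a := by
    rw [← map_mul, inv_mul_cancel_right]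
  rw [h6, h5, one_mul]

/-- Scalars on a common eigenvector. -/
theorem scal_eq (σ : G →* Module.End F W) {a b : G} (h1 : a * b * a = b * a * b) {e : W}
    (he : e ≠ 0) {α β : F} (ha : σ a e = α • e) (hb : σ b e = β • e) : α = β := by
  have hα : α ≠ 0 := by
    rintro rfl
    rw [zero_smul] at ha
    apply he
    rw [← rep_inv' σ a e, ha, map_zero]
  have hβ : β ≠ 0 := by
    rintro rfl
    rw [zero_smul] at hb
    apply he
    rw [← rep_inv' σ b e, hb, map_zero]
  have h2 : σ (a * b * a) e = σ (b * a * b) e := by rw [h1]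
  simp only [map_mul, Module.End.mul_apply, ha, hb, map_smul, smul_smul] at h2
  have h3 : (α * (β * α) - β * (α * β)) • e = 0 := by
    rw [sub_smul, sub_eq_zero]
    convert h2 using 2
  have h4 := (smul_eq_zero.1 h3).resolve_right he
  have h5 : α * β * (α - β) = 0 := by linear_combination h4
  rcases mul_eq_zero.1 h5 with h6 | h6
  · exact absurd h6 (mul_ne_zero hα hβ)
  · exact sub_eq_zero.1 h6

/-- Eigenvectors in one-dimensional eigenspaces. -/
theorem eig_comm [FiniteDimensional F W] {T S : Module.End F W} {l : F} {e : W} (he : e ≠ 0)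
    (hT : T e = l • e) (h1 : finrank F (T.eigenspace l) ≤ 1) (hTS : T * S = S * T) :
    ∃ μ : F, S e = μ • e := by
  have hSe : S e ∈ T.eigenspace l := by
    rw [Module.End.mem_eigenspace_iff, ← Module.End.mul_apply, hTS, Module.End.mul_apply, hT,
      map_smul]
  have hee : e ∈ T.eigenspace l := Module.End.mem_eigenspace_iff.2 hT
  obtain ⟨v, hv⟩ := finrank_le_one_iff.1 h1
  obtain ⟨c1, hc1⟩ := hv ⟨e, hee⟩
  obtain ⟨c2, hc2⟩ := hv ⟨S e, hSe⟩
  have k1 : c1 • (v : W) = e := congrArg Subtype.val hc1
  have k2 : c2 • (v : W) = S e := congrArg Subtype.val hc2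
  have hc10 : c1 ≠ 0 := by
    rintro rfl
    rw [zero_smul] at k1
    exact he k1.symm
  refine ⟨c2 * c1⁻¹, ?_⟩
  rw [← k2, ← k1, smul_smul, mul_assoc, inv_mul_cancel₀ hc10, mul_one]

/-- Eigenspaces of conjugate elements. -/
theorem eig_conj [FiniteDimensional F W] (σ : G →* Module.End F W) {a b : G} (h : IsConj a b)
    (l : F) : finrank F ((σ b).eigenspace l) ≤ finrank F ((σ a).eigenspace l) := by
  obtain ⟨c, hc⟩ := isConj_iff.1 h
  have h1 : (σ b).eigenspace l ≤ ((σ a).eigenspace l).map (σ c) := by
    intro w hw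
    rw [Module.End.mem_eigenspace_iff] at hw
    refine ⟨σ c⁻¹ w, ?_, rep_inv σ c w⟩
    rw [SetLike.mem_coe, Module.End.mem_eigenspace_iff]
    have h2 : σ c⁻¹ (σ b w) = σ a (σ c⁻¹ w) := by
      rw [← hc, map_mul, map_mul, Module.End.mul_apply, Module.End.mul_apply, rep_inv']
    rw [← h2, hw, map_smul]
  exact (Submodule.finrank_mono h1).trans (Submodule.finrank_map_le _ _)

/-- If the eigenspace has codimension one, all conjugates are pseudo-reflections. -/
theorem rank_one_family [FiniteDimensional F W] (σ : G →* Module.End F W) {ι : Type*}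
    {s : ι → G} {i0 : ι} (hc : ∀ i, IsConj (s i0) (s i)) {l : F}
    (h : finrank F ((σ (s i0)).eigenspace l) + 1 = finrank F W) :
    ∃ (τ : F) (v : ι → W) (f : ι → W →ₗ[F] F), (∀ i w, σ (s i) w = l • w + f i w • v i) ∧
      (∀ i, v i ≠ 0) ∧ (∀ i, ∃ w, f i w ≠ 0) ∧ ∀ i, f i (v i) = τ := by
  obtain ⟨v, f, hv, ⟨w0, hw0⟩, hf⟩ := exists_rank_one (σ (s i0)) l h
  choose c hc' using fun i => isConj_iff.1 (hc i)
  refine ⟨f v, fun i => σ (c i) v, fun i => f ∘ₗ σ (c i)⁻¹, ?_, ?_, ?_, ?_⟩
  · intro i w
    rw [← hc' i, map_mul, map_mul, Module.End.mul_apply, Module.End.mul_apply, hf, map_add,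
      map_smul, map_smul, rep_inv]
    rfl
  · intro i h0
    change σ (c i) v = 0 at h0
    apply hv
    rw [← rep_inv' σ (c i) v, h0, map_zero]
  · intro i
    refine ⟨σ (c i) w0, ?_⟩
    rw [LinearMap.comp_apply, rep_inv']
    exact hw0
  · intro i
    rw [LinearMap.comp_apply, rep_inv']

/-- A scalar generator. -/
theorem scalar_eq (σ : G →* Module.End F W) {a b : G} (h : IsConj a b) {l : F}
    (ha : ∀ w, σ a w = l • w) : σ a = σ b := by
  obtain ⟨c, hc⟩ := isConj_iff.1 h
  refine LinearMap.ext fun w => ?_
  rw [← hc, map_mul, map_mul, Module.End.mul_apply, Module.End.mul_apply, ha, ha, map_smul,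
    rep_inv]

/-- An eigenvalue of a member of a representation is not zero. -/
theorem eig_ne_zero (σ : G →* Module.End F W) {a : G} {l : F} {e : W} (he : e ≠ 0)
    (h : σ a e = l • e) : l ≠ 0 := by
  rintro rfl
  rw [zero_smul] at h
  apply he
  rw [← rep_inv' σ a e, h, map_zero]

end

/-- Representations of dimension at most three of the chain of five. -/
theorem chain_small {F : Type u} [Field F] [IsAlgClosed F] {G : Type w} [Group G]
    {s : Fin 5 → G} (hs : Gr c5 s) (hgen : Subgroup.closure (Set.range s) = ⊤) :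
    ∀ (n : ℕ) (W : Type v) [AddCommGroup W] [Module F W] [FiniteDimensional F W]
      (σ : G →* Module.End F W), finrank F W = n → n ≤ 3 → ∀ i j, σ (s i) = σ (s j) := by
  intro n
  induction n with
  | zero =>
    intro W _ _ _ σ hn _ i j
    have : Subsingleton W := finrank_zero_iff.1 hn
    exact LinearMap.ext fun w => Subsingleton.elim _ _
  | succ n ih =>
    intro W _ _ _ σ hn h3
    have hG : Gr c5 (fun i => σ (s i)) := hs.map σ
    have hu : ∀ i, IsUnit (σ (s i)) := fun i => rep_unit σ (s i)
    by_contra hne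
    have hD : ∀ i j, c5 i j → σ (s i) ≠ σ (s j) := by
      intro i j hij he
      exact hne (c5_all hG hu hij he)
    have : Nontrivial W := by
      apply nontrivial_of_finrank_pos (R := F)
      omega
    by_cases hE : ∀ l, finrank F ((σ (s 0)).eigenspace l) ≤ 1
    · -- a common eigenvector
      obtain ⟨l, hl⟩ := Module.End.exists_eigenvalue (σ (s 0))
      obtain ⟨e, he⟩ := hl.exists_hasEigenvector
      have he0 : e ≠ 0 := he.2
      have hx0 : σ (s 0) e = l • e := he.apply_eq_smul
      have cm : ∀ i j : Fin 5, i ≠ j → ¬ c5 i j → σ (s i) * σ (s j) = σ (s j) * σ (s i) :=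
        fun i j h1 h2 => hG.comm i j h1 h2
      obtain ⟨μ2, hμ2⟩ := eig_comm he0 hx0 (hE l) (cm 0 2 (by decide) (by decide))
      obtain ⟨μ3, hμ3⟩ := eig_comm he0 hx0 (hE l) (cm 0 3 (by decide) (by decide))
      obtain ⟨μ4, hμ4⟩ := eig_comm he0 hx0 (hE l) (cm 0 4 (by decide) (by decide))
      have hE4 : finrank F ((σ (s 4)).eigenspace μ4) ≤ 1 :=
        (eig_conj σ (c5_conj hs 4) μ4).trans (hE μ4)
      obtain ⟨μ1, hμ1⟩ := eig_comm he0 hμ4 hE4 (cm 4 1 (by decide) (by decide))
      have e01 : l = μ1 := scal_eq σ (hs.braid 0 1 (by decide)) he0 hx0 hμ1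
      have e12 : μ1 = μ2 := scal_eq σ (hs.braid 1 2 (by decide)) he0 hμ1 hμ2
      have e23 : μ2 = μ3 := scal_eq σ (hs.braid 2 3 (by decide)) he0 hμ2 hμ3
      have e34 : μ3 = μ4 := scal_eq σ (hs.braid 3 4 (by decide)) he0 hμ3 hμ4
      subst e01
      subst e12
      subst e23
      subst e34
      have hall : ∀ i, σ (s i) e = l • e := by
        intro i
        fin_cases i
        · exact hx0
        · exact hμ1
        · exact hμ2
        · exact hμ3
        · exact hμ4
      have hinv : ∀ g : G, ∃ c : F, σ g e = c • e := by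
        intro g
        have hg : g ∈ Subgroup.closure (Set.range s) := by
          rw [hgen]
          exact Subgroup.mem_top g
        induction hg using Subgroup.closure_induction with
        | mem x hx =>
          obtain ⟨i, rfl⟩ := hx
          exact ⟨l, hall i⟩
        | one => exact ⟨1, by rw [map_one, Module.End.one_apply, one_smul]⟩
        | mul x y _ _ hx hy =>
          obtain ⟨c, hc⟩ := hx
          obtain ⟨d, hd⟩ := hy
          exact ⟨d * c, by rw [map_mul, Module.End.mul_apply, hd, map_smul, hc, smul_smul]⟩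
        | inv x _ hx =>
          obtain ⟨c, hc⟩ := hx
          have hc0 := eig_ne_zero σ he0 hc
          refine ⟨c⁻¹, ?_⟩
          have h1 := rep_inv' σ x e
          rw [hc, map_smul] at h1
          rw [← h1, smul_smul, h1, inv_mul_cancel₀ hc0, one_smul]
      -- the line
      set L := Submodule.span F {e} with hLdef
      have hL : ∀ g, ∀ w ∈ L, σ g w ∈ L := by
        intro g w hw
        obtain ⟨d, rfl⟩ := Submodule.mem_span_singleton.1 hw
        obtain ⟨c, hc⟩ := hinv g
        rw [map_smul, hc, smul_smul]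
        exact Submodule.mem_span_singleton.2 ⟨d * c, rfl⟩
      have hL1 : finrank F L = 1 := by
        rw [hLdef]
        exact finrank_span_singleton he0
      have hfin : finrank F (W ⧸ L) = n := by
        have h1 := L.finrank_quotient_add_finrank
        rw [hL1, hn] at h1
        omega
      have hq := ih (W ⧸ L) (quotRep σ L hL) hfin (by omega)
      have hq' : ∀ i j w, σ (s i) w - σ (s j) w ∈ L := by
        intro i j w
        have h1 := congrArg (fun z : Module.End F (W ⧸ L) => z (Submodule.Quotient.mk w)) (hq i j)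
        simp only [quotRep_mk] at h1
        exact (Submodule.Quotient.eq L).1 h1
      have hl' : ∀ i, ∀ w ∈ L, σ (s i) w = l • w := by
        intro i w hw
        obtain ⟨d, rfl⟩ := Submodule.mem_span_singleton.1 hw
        rw [map_smul, hall, smul_comm]
      refine hD 0 1 (by decide) (unip σ L (c := s 3) (hs.braid 0 1 (by decide))
        (hs.comm 0 3 (by decide) (by decide)) (hs.comm 1 3 (by decide) (by decide)) (hL _) (hL _)
        (hq' 0 3) (hq' 1 3) ?_ ?_)
      · intro w hw
        rw [hl' 0 w hw, hl' 3 w hw]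
      · intro w hw
        rw [hl' 1 w hw, hl' 3 w hw]
    · push Not at hE
      obtain ⟨l, hl⟩ := hE
      have hle := Submodule.finrank_le ((σ (s 0)).eigenspace l)
      rw [hn] at hle
      have hl0 : l ≠ 0 := by
        have h1 : (σ (s 0)).eigenspace l ≠ ⊥ := by
          intro h0
          rw [h0, finrank_bot] at hl
          omega
        obtain ⟨e, he, he0⟩ := Submodule.exists_mem_ne_zero_of_ne_bot h1
        exact eig_ne_zero σ he0 (Module.End.mem_eigenspace_iff.1 he)
      by_cases htop : finrank F ((σ (s 0)).eigenspace l) = n + 1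
      · have h1 : (σ (s 0)).eigenspace l = ⊤ := by
          apply Submodule.eq_top_of_finrank_eq
          rw [htop, hn]
        refine hD 0 1 (by decide) (scalar_eq σ (c5_conj hs 1) (l := l) ?_)
        intro w
        apply Module.End.mem_eigenspace_iff.1
        rw [h1]
        exact Submodule.mem_top
      · obtain ⟨τ, v, f, hx, hv, hf, hτ⟩ := rank_one_family σ (c5_conj hs) (l := l) (by omega)
        exact no_rank_one_c5 (by omega) hx hv hf hτ hl0 hG hu hD

/-- An operator commuting with the chain of five with eigenspaces of dimension at most three. -/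
theorem chain_comm {F : Type u} [Field F] [IsAlgClosed F] {G : Type w} [Group G]
    {s : Fin 5 → G} (hs : Gr c5 s) (hgen : Subgroup.closure (Set.range s) = ⊤) :
    ∀ (n : ℕ) (W : Type v) [AddCommGroup W] [Module F W] [FiniteDimensional F W]
      (σ : G →* Module.End F W) (T : Module.End F W), (∀ g, T * σ g = σ g * T) →
      (∀ l, finrank F (T.eigenspace l) ≤ 3) → finrank F W = n → ∀ i j, σ (s i) = σ (s j) := by
  intro n
  induction n using Nat.strong_induction_on with
  | _ n ih =>
    intro W _ _ _ σ T hT hE hn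
    rcases Nat.eq_zero_or_pos n with h0 | hpos
    · intro i j
      have : Subsingleton W := finrank_zero_iff.1 (by rw [hn, h0])
      exact LinearMap.ext fun w => Subsingleton.elim _ _
    · have : Nontrivial W := by
        apply nontrivial_of_finrank_pos (R := F)
        omega
      obtain ⟨l, hl⟩ := Module.End.exists_eigenvalue T
      have hTw : ∀ g w, T (σ g w) = σ g (T w) := by
        intro g w
        have := congrArg (fun z : Module.End F W => z w) (hT g)
        simpa only [Module.End.mul_apply] using this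
      set N : Module.End F W := T - algebraMap F (Module.End F W) l with hN
      have hNw : ∀ w, N w = T w - l • w := by
        intro w
        rw [hN, LinearMap.sub_apply, Module.algebraMap_end_apply]
      have hNg : ∀ g w, N (σ g w) = σ g (N w) := by
        intro g w
        rw [hNw, hNw, hTw, map_sub, map_smul]
      have hker : LinearMap.ker N = T.eigenspace l := by
        ext w
        rw [LinearMap.mem_ker, hNw, Module.End.mem_eigenspace_iff, sub_eq_zero]
      have hK : ∀ g, ∀ w ∈ LinearMap.ker N, σ g w ∈ LinearMap.ker N := by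
        intro g w hw
        rw [LinearMap.mem_ker] at hw ⊢
        rw [hNg, hw, map_zero]
      have hR : ∀ g, ∀ w ∈ LinearMap.range N, σ g w ∈ LinearMap.range N := by
        rintro g _ ⟨w, rfl⟩
        exact ⟨σ g w, hNg g w⟩
      have hTR : ∀ w ∈ LinearMap.range N, T w ∈ LinearMap.range N := by
        rintro _ ⟨w, rfl⟩
        refine ⟨T w, ?_⟩
        rw [hNw, hNw, map_sub, map_smul]
      -- equality on the kernel
      have hkdim : finrank F (LinearMap.ker N) ≤ 3 := by
        rw [hker]
        exact hE l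
      have h1 := chain_small hs hgen _ (LinearMap.ker N) (resRep σ _ hK) rfl hkdim
      have h1' : ∀ i j, ∀ w ∈ LinearMap.ker N, σ (s i) w = σ (s j) w := by
        intro i j w hw
        have h2 := congrArg (fun z : Module.End F (LinearMap.ker N) => ((z ⟨w, hw⟩ : LinearMap.ker N) : W))
          (h1 i j)
        exact h2
      -- equality on the range
      have hkpos : 0 < finrank F (LinearMap.ker N) := by
        rw [hker]
        have h2 : T.eigenspace l ≠ ⊥ := hl
        exact Submodule.one_le_finrank_iff.2 h2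
      have hrlt : finrank F (LinearMap.range N) < n := by
        have h2 := LinearMap.finrank_range_add_finrank_ker N
        omega
      have h3 := ih _ hrlt (LinearMap.range N) (resRep σ _ hR) (T.restrict hTR) (by
        intro g
        refine LinearMap.ext fun w => Subtype.ext ?_
        exact hTw g w) (by
        intro m
        refine le_trans ?_ (hE m)
        have h4 : (Module.End.eigenspace (T.restrict hTR) m).map (LinearMap.range N).subtype ≤
            T.eigenspace m := by
          rintro _ ⟨w, hw, rfl⟩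
          rw [SetLike.mem_coe, Module.End.mem_eigenspace_iff] at hw
          rw [Module.End.mem_eigenspace_iff]
          exact congrArg Subtype.val hw
        have h5 := Submodule.finrank_mono h4
        rwa [Submodule.finrank_map_subtype_eq] at h5) rfl
      have h3' : ∀ i j, ∀ w ∈ LinearMap.range N, σ (s i) w = σ (s j) w := by
        intro i j w hw
        have h2 := congrArg (fun z : Module.End F (LinearMap.range N) =>
          ((z ⟨w, hw⟩ : LinearMap.range N) : W)) (h3 i j)
        exact h2
      have h6 : ∀ i j w, σ (s i) w - σ (s j) w ∈ LinearMap.ker N := by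
        intro i j w
        rw [LinearMap.mem_ker, map_sub, hNg, hNg, h3' i j _ (LinearMap.mem_range_self N w), sub_self]
      have h7 : σ (s 0) = σ (s 1) := unip σ (LinearMap.ker N) (c := s 3)
        (hs.braid 0 1 (by decide)) (hs.comm 0 3 (by decide) (by decide))
        (hs.comm 1 3 (by decide) (by decide)) (hK _) (hK _) (h6 0 3) (h6 1 3) (h1' 0 3) (h1' 1 3)
      exact c5_all (hs.map σ) (fun i => rep_unit σ (s i)) (i := 0) (j := 1) (by decide) h7

/-- Equal generators and perfectness. -/
theorem trivial_of_eq {F : Type u} [Field F] {W : Type v} [AddCommGroup W] [Module F W]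
    {G : Type w} [Group G] {ι : Type*} {t : ι → G} (hgen : Subgroup.closure (Set.range t) = ⊤)
    (hperf : ∀ x : G, x ∈ commutator G) (σ : G →* Module.End F W)
    (h : ∀ i j, σ (t i) = σ (t j)) : σ = 1 := by
  have hmem : ∀ g : G, g ∈ Subgroup.closure (Set.range t) := fun g => by
    rw [hgen]
    exact Subgroup.mem_top g
  have inv_comm : ∀ (x : G) (S : Module.End F W), σ x * S = S * σ x → σ x⁻¹ * S = S * σ x⁻¹ := by
    intro x S hS
    have hu := rep_unit σ x
    apply hu.mul_left_cancel
    apply hu.mul_right_cancel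
    have e1 : σ x * σ x⁻¹ = 1 := by rw [← map_mul, mul_inv_cancel, map_one]
    have e2 : σ x⁻¹ * σ x = 1 := by rw [← map_mul, inv_mul_cancel, map_one]
    calc σ x * (σ x⁻¹ * S) * σ x = (σ x * σ x⁻¹) * S * σ x := by simp only [mul_assoc]
      _ = σ x * S * (σ x⁻¹ * σ x) := by rw [e1, e2, one_mul, mul_one, hS]
      _ = σ x * (S * σ x⁻¹) * σ x := by simp only [mul_assoc]
  have h1 : ∀ g i, σ g * σ (t i) = σ (t i) * σ g := by
    intro g i
    induction hmem g using Subgroup.closure_induction with
    | mem x hx =>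
      obtain ⟨j, rfl⟩ := hx
      rw [h j i]
    | one => rw [map_one, one_mul, mul_one]
    | mul x y _ _ hx hy => rw [map_mul, mul_assoc, hy, ← mul_assoc, hx, mul_assoc]
    | inv x _ hx => exact inv_comm x _ hx
  have h2 : ∀ g k, σ g * σ k = σ k * σ g := by
    intro g k
    induction hmem g using Subgroup.closure_induction with
    | mem x hx =>
      obtain ⟨j, rfl⟩ := hx
      rw [h1 k j]
    | one => rw [map_one, one_mul, mul_one]
    | mul x y _ _ hx hy => rw [map_mul, mul_assoc, hy, ← mul_assoc, hx, mul_assoc]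
    | inv x _ hx => exact inv_comm x _ hx
  have h3 : commutator G ≤ (σ.toHomUnits).ker := by
    rw [commutator_eq_closure, Subgroup.closure_le]
    rintro _ ⟨x, y, rfl⟩
    rw [SetLike.mem_coe, MonoidHom.mem_ker]
    have h4 : σ.toHomUnits x * σ.toHomUnits y = σ.toHomUnits y * σ.toHomUnits x :=
      Units.ext (h2 x y)
    rw [commutatorElement_def, map_mul, map_mul, map_mul, map_inv, map_inv, h4]
    group
  refine MonoidHom.ext fun g => ?_
  have h4 := h3 (hperf g)
  rw [MonoidHom.mem_ker] at h4
  exact congrArg Units.val h4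

/-- A perfect group generated by the eight tree elements of genus three has no nontrivial
representation of dimension less than six. -/
theorem minDim_six (F : Type u) [Field F] [IsAlgClosed F] {G : Type w} [Group G] {t : Fin 8 → G}
    (ht : Gr e7 t) (hgen : Subgroup.closure (Set.range t) = ⊤)
    (hperf : ∀ x : G, x ∈ commutator G) : MinDim.{u, v, w} F G 6 := by
  intro W _ _ _ σ hW
  have hG : Gr e7 (fun i => σ (t i)) := ht.map σ
  have hu : ∀ i, IsUnit (σ (t i)) := fun i => rep_unit σ (t i)
  by_cases hne : ∀ i j, σ (t i) = σ (t j)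
  · exact trivial_of_eq hgen hperf σ hne
  · exfalso
    have hD : ∀ i j, e7 i j → σ (t i) ≠ σ (t j) := by
      intro i j hij he
      exact hne (e7_all hG hu hij he)
    have key : ∀ l, finrank F ((σ (t 0)).eigenspace l) ≤ 3 := by
      intro l
      by_contra hcon
      have hle := Submodule.finrank_le ((σ (t 0)).eigenspace l)
      have hl0 : l ≠ 0 := by
        have h1 : (σ (t 0)).eigenspace l ≠ ⊥ := by
          intro h0
          rw [h0, finrank_bot] at hcon
          omega
        obtain ⟨e, he, he0⟩ := Submodule.exists_mem_ne_zero_of_ne_bot h1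
        exact eig_ne_zero σ he0 (Module.End.mem_eigenspace_iff.1 he)
      by_cases htop : finrank F ((σ (t 0)).eigenspace l) = finrank F W
      · have h1 : (σ (t 0)).eigenspace l = ⊤ := Submodule.eq_top_of_finrank_eq htop
        refine hD 0 1 (by decide) (scalar_eq σ (e7_conj ht 1) (l := l) ?_)
        intro w
        apply Module.End.mem_eigenspace_iff.1
        rw [h1]
        exact Submodule.mem_top
      · obtain ⟨τ, v, f, hx, hv, hf, hτ⟩ := rank_one_family σ (e7_conj ht) (l := l) (by omega)
        exact no_rank_one_e7 (by omega) hx hv hf hτ hl0 hG hu hD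
    -- the chain 7, 3, 4, 5, 6
    let q : Fin 5 → Fin 8 := ![7, 3, 4, 5, 6]
    have q1 : ∀ i j, c5 i j → e7 (q i) (q j) := by decide
    have q2 : ∀ i j, i ≠ j → ¬ c5 i j → q i ≠ q j ∧ ¬ e7 (q i) (q j) := by decide
    have q3 : ∀ i, (0 : Fin 8) ≠ q i ∧ ¬ e7 0 (q i) := by decide
    let H : Subgroup G := Subgroup.closure (Set.range (fun i => t (q i)))
    let s : Fin 5 → H := fun i => ⟨t (q i), Subgroup.subset_closure ⟨i, rfl⟩⟩
    have hs : Gr c5 s := by
      constructor
      · intro i j hij
        exact Subtype.ext (ht.braid _ _ (q1 i j hij))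
      · intro i j hij hn
        exact Subtype.ext (ht.comm _ _ (q2 i j hij hn).1 (q2 i j hij hn).2)
    have hsgen : Subgroup.closure (Set.range s) = ⊤ := by
      have h1 : Set.range s = ((↑) : H → G) ⁻¹' (Set.range (fun i => t (q i))) := by
        ext x
        constructor
        · rintro ⟨i, rfl⟩
          exact ⟨i, rfl⟩
        · rintro ⟨i, hi⟩
          exact ⟨i, Subtype.ext hi⟩
      rw [h1]
      exact Subgroup.closure_closure_coe_preimage
    have hcomm : ∀ g : H, t 0 * g = g * t 0 := by
      intro g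
      have h1 : H ≤ Subgroup.centralizer {t 0} := by
        rw [Subgroup.closure_le]
        rintro _ ⟨i, rfl⟩
        rw [SetLike.mem_coe, Subgroup.mem_centralizer_iff]
        intro y hy
        rw [Set.mem_singleton_iff.1 hy]
        exact ht.comm 0 (q i) (q3 i).1 (q3 i).2
      have h2 := h1 g.2
      rw [Subgroup.mem_centralizer_iff] at h2
      exact h2 (t 0) rfl
    have h8 := chain_comm hs hsgen _ W (σ.comp H.subtype) (σ (t 0)) (by
      intro g
      change σ (t 0) * σ g = σ g * σ (t 0)
      rw [← map_mul, ← map_mul, hcomm g]) key rfl 1 2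
    exact hD 3 4 (by decide) h8

end Pool.Agent.H.MP_59b15d_al.Lin
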