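import Pool.Agent.H.MP_59b15d_al.h11c.Hone
import Pool.Agent.H.MP_59b15d_al.sp.Plane
import Pool.Agent.H.MP_59b15d_al.sp.Block3

/-!
# From the symplectic group to the mapping class group

A subgroup of finite index of the mapping class group of genus at least three which contains the
inner automorphisms and all mapping classes acting trivially on the first homology contains all
automorphisms inner modulo a characteristic subgroup of finite index.
-/

set_option autoImplicit false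

namespace Pool.Agent.H.MP_59b15d_al.Lin

open Pool.MP_59b15d_al.H24T Pool.MP_59b15d_al.H76R Pool.Agent.H.MP_59b15d_al.SP
open Pool.MP_59b15d_al.H76 (InnMod)

/-- A normal subgroup of the symplectic group containing all `m`-th powers of transvections
contains the elements of level `m`. -/
theorem cg_kil {g : ℕ} (hg : 3 ≤ g) {W : Type*} [Group W] {p : Sp g →* W} {m : ℤ} (K : Kil m p)
    (hm : 2 ≤ m.natAbs) (A : Sp g) (hA : Cg m A) : p A = 1 := by
  obtain ⟨k0, hk0⟩ : ∃ k0 : Fin g, (k0 : ℕ) = 0 := ⟨⟨0, by omega⟩, rfl⟩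
  obtain ⟨k1, hk1⟩ : ∃ k1 : Fin g, (k1 : ℕ) = 1 := ⟨⟨1, by omega⟩, rfl⟩
  obtain ⟨k2, hk2⟩ : ∃ k2 : Fin g, (k2 : ℕ) = 2 := ⟨⟨2, by omega⟩, rfl⟩
  obtain ⟨A', h1, h2, h3⟩ := reduce K hm k0 A hA
  obtain ⟨a, b, c, d, hd, -, -, hx1, hcg⟩ := plane (m := m) h3
  obtain ⟨ha', hb', hc', hd'⟩ := hcg h2
  have h01 : k0 ≠ k1 := fun hh => by rw [hh] at hk0; omega
  have h20 : k2 ≠ k0 := fun hh => by rw [hh] at hk2; omega
  have h21 : k2 ≠ k1 := fun hh => by rw [hh] at hk2; omega
  have h4 : A' = L k0 a b c d hd := by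
    refine sp_ext fun x => ?_
    rw [hx1]
    funext l
    by_cases hl : l = k0
    · subst hl
      rw [L_self]
      ext
      · simp [e_self, f_self]; ring
      · simp [e_self, f_self]; ring
    · rw [L_ne _ _ _ _ _ _ _ hl]
      simp [e_ne hl, f_ne hl]
  rw [← h1, h4]
  exact B3.block_kil K hm h01 h20 h21 hd ha' hb' hc' hd'

variable {g : ℕ} {G : Type*} [Group G] {a b : Fin g → G}

/-- The subgroup of the elements whose class is divisible by `m`. -/
def Lev (h : IsSurf a b) (m : ℤ) : Subgroup G where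
  carrier := {x | Dv m (cls h x)}
  mul_mem' := by
    intro x y hx hy
    change Dv m (cls h (x * y))
    rw [cls_mul]
    exact Dv.add hx hy
  one_mem' := by
    change Dv m (cls h (1 : G))
    rw [cls_one]
    exact Dv.zero m
  inv_mem' := by
    intro x hx
    change Dv m (cls h x⁻¹)
    rw [cls_inv]
    exact Dv.neg hx

lemma mem_Lev {h : IsSurf a b} {m : ℤ} {x : G} : x ∈ Lev h m ↔ Dv m (cls h x) := Iff.rfl

theorem Lev_char (h : IsSurf a b) (m : ℤ) : (Lev h m).Characteristic := by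
  rw [Subgroup.characteristic_iff_le_comap]
  intro φ x hx
  obtain ⟨u, hu⟩ := mem_Lev.1 hx
  change Dv m (cls h (φ x))
  refine ⟨Lm h φ u, ?_⟩
  rw [← Lm_cls h φ x, hu, map_smul]

/-- Reduction of the class modulo `m`. -/
noncomputable def redHom (h : IsSurf a b) (m : ℕ) :
    G →* Multiplicative (Fin g → ZMod m × ZMod m) where
  toFun x := Multiplicative.ofAdd fun i => (((cls h x i).1 : ZMod m), ((cls h x i).2 : ZMod m))
  map_one' := by
    rw [cls_one]
    refine congrArg Multiplicative.ofAdd ?_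
    funext i
    simp
  map_mul' x y := by
    rw [cls_mul, ← ofAdd_add]
    refine congrArg Multiplicative.ofAdd ?_
    funext i
    simp

theorem Lev_finiteIndex (h : IsSurf a b) {m : ℤ} (hm : m ≠ 0) : (Lev h m).FiniteIndex := by
  have : NeZero m.natAbs := ⟨Int.natAbs_ne_zero.2 hm⟩
  have hfin : Finite (Multiplicative (Fin g → ZMod m.natAbs × ZMod m.natAbs)) :=
    inferInstanceAs (Finite (Fin g → ZMod m.natAbs × ZMod m.natAbs))
  have h1 : (redHom h m.natAbs).ker.FiniteIndex := Subgroup.finiteIndex_ker _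
  refine Subgroup.finiteIndex_of_le (H := (redHom h m.natAbs).ker) ?_
  intro x hx
  rw [MonoidHom.mem_ker] at hx
  rw [mem_Lev, B3.Dv_iff]
  intro k
  have h2 : (fun i => (((cls h x i).1 : ZMod m.natAbs), ((cls h x i).2 : ZMod m.natAbs))) =
      (0 : Fin g → ZMod m.natAbs × ZMod m.natAbs) := Multiplicative.ofAdd.injective hx
  have h3 := congrFun h2 k
  have h4 : ((cls h x k).1 : ZMod m.natAbs) = 0 := congrArg Prod.fst h3
  have h5 : ((cls h x k).2 : ZMod m.natAbs) = 0 := congrArg Prod.snd h3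
  rw [ZMod.intCast_zmod_eq_zero_iff_dvd] at h4 h5
  exact ⟨Int.natAbs_dvd.1 h4, Int.natAbs_dvd.1 h5⟩

theorem InnMod.dv {h : IsSurf a b} {m : ℤ} {φ : MulAut G} (hφ : InnMod (Lev h m) φ) (x : G) :
    Dv m (cls h (φ x) - cls h x) := by
  obtain ⟨y, hy⟩ := hφ
  have h1 := mem_Lev.1 (hy x)
  rw [cls_mul, cls_inv, cls_mul, cls_mul, cls_inv] at h1
  have h2 : cls h (φ x) - cls h x =
      cls h (φ x) + -(cls h y + cls h x + -cls h y) := by abel
  rw [h2]
  exact h1

/-- The levels are characteristic subgroups of finite index, and an automorphism which is inner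
modulo the level acts trivially on the homology modulo `m`. -/
theorem char_level (h : IsSurf a b) {m : ℤ} (hm : m ≠ 0) : ∃ Γ : Subgroup G,
    Γ.Characteristic ∧ Γ.FiniteIndex ∧ ∀ φ : MulAut G, InnMod Γ φ →
      ∀ x, Dv m (cls h (φ x) - cls h x) :=
  ⟨Lev h m, Lev_char h m, Lev_finiteIndex h hm, fun _ hφ x => InnMod.dv hφ x⟩

/-- A subgroup of finite index containing the homologically trivial mapping classes contains a
level subgroup. -/
theorem sp_end (h : IsSurf a b) (hg : 3 ≤ g) (H : Subgroup (MulAut G))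
    (hfi : H.relIndex (MCG a b) ≠ 0)
    (hT : ∀ f ∈ MCG a b, (∀ x, cls h (f x) = cls h x) → f ∈ H) :
    ∃ m : ℤ, 0 < m ∧ ∀ f ∈ MCG a b, (∀ x, Dv m (cls h (f x) - cls h x)) → f ∈ H := by
  obtain ⟨H', hH'⟩ : ∃ H' : Subgroup (MCG a b), H' = H.subgroupOf (MCG a b) := ⟨_, rfl⟩
  have i1 : H'.index ≠ 0 := by rw [hH']; exact hfi
  have : H'.FiniteIndex := ⟨i1⟩
  obtain ⟨N, hN⟩ : ∃ N : Subgroup (MCG a b), N = H'.normalCore := ⟨_, rfl⟩
  have i2 : N.index ≠ 0 := by
    rw [hN]
    exact (inferInstance : H'.normalCore.FiniteIndex).index_ne_zero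
  have nN : N.Normal := by rw [hN]; infer_instance
  have hle : N ≤ H' := by rw [hN]; exact Subgroup.normalCore_le H'
  obtain ⟨K, hK⟩ : ∃ K : Subgroup (Sp g), K = N.map (spm h) := ⟨_, rfl⟩
  have nK : K.Normal := by rw [hK]; exact nN.map _ (spm_surj h)
  have i3 : K.index ≠ 0 := by
    intro h0
    have h1 : K.index ∣ N.index := by
      rw [hK]
      exact Subgroup.index_map_dvd N (spm_surj h)
    rw [h0, zero_dvd_iff] at h1
    exact i2 h1
  have kil : Kil (2 * (K.index : ℤ)) (QuotientGroup.mk' K) := by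
    refine ⟨by positivity, fun v => ?_⟩
    have h1 : T v (2 * (K.index : ℤ)) = (T v 2) ^ K.index := by
      rw [← zpow_natCast, T_zpow]
    rw [h1, QuotientGroup.mk'_apply, QuotientGroup.eq_one_iff]
    exact Subgroup.pow_index_mem K _
  refine ⟨2 * (K.index : ℤ), by positivity, fun f hf hx => ?_⟩
  have hA : Cg (2 * (K.index : ℤ)) (spm h ⟨f, hf⟩) := by
    intro v
    obtain ⟨x, rfl⟩ := cls_surj h v
    rw [spm_cls]
    exact hx x
  have h2 : (QuotientGroup.mk' K) (spm h ⟨f, hf⟩) = 1 := by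
    refine cg_kil hg kil ?_ _ hA
    rw [Int.natAbs_mul, Int.natAbs_natCast]
    have : (2 : ℤ).natAbs = 2 := rfl
    rw [this]
    omega
  rw [QuotientGroup.mk'_apply, QuotientGroup.eq_one_iff, hK] at h2
  obtain ⟨n, hn, hn'⟩ := h2
  have h3 : n.1 ∈ H := by
    have := hle hn
    rw [hH', Subgroup.mem_subgroupOf] at this
    exact this
  have h4 : f * n.1⁻¹ ∈ H := by
    refine hT _ ((MCG a b).mul_mem hf ((MCG a b).inv_mem n.2)) fun x => ?_
    have h5 : spm h (⟨f, hf⟩ * n⁻¹) = 1 := by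
      rw [map_mul, map_inv, hn', mul_inv_cancel]
    have h6 := spm_cls h (⟨f, hf⟩ * n⁻¹) x
    rw [h5, sp_one] at h6
    exact h6.symm
  have h7 : f = f * n.1⁻¹ * n.1 := by group
  rw [h7]
  exact H.mul_mem h4 h3

/-- The same, in terms of characteristic subgroups. -/
theorem sp_end_char (h : IsSurf a b) (hg : 3 ≤ g) (H : Subgroup (MulAut G))
    (hfi : H.relIndex (MCG a b) ≠ 0)
    (hT : ∀ f ∈ MCG a b, (∀ x, cls h (f x) = cls h x) → f ∈ H) :
    ∃ Γ : Subgroup G, Γ.Characteristic ∧ Γ.FiniteIndex ∧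
      ∀ φ ∈ MCG a b, InnMod Γ φ → φ ∈ H := by
  obtain ⟨m, hm, h1⟩ := sp_end h hg H hfi hT
  obtain ⟨Γ, hΓ, hΓ', h2⟩ := char_level h hm.ne'
  exact ⟨Γ, hΓ, hΓ', fun φ hφ hi => h1 φ hφ (h2 φ hi)⟩

end Pool.Agent.H.MP_59b15d_al.Lin
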